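import Pool.Agent.Lib.MP_32d917_al_gp.G02
import Pool.Agent.Lib.MP_32d917_al_raag.A02

/-!
# G04: the centraliser of the commutators in a link, first step (60 min)

Copy of `a02_step1` (`MP_32d917_al_raag/A02.lean`, 60 lines) with the following changes. The element `s ∈ sup y'` is a letter in `W`; claim `π s = v`. Suppose `v' = π s ≠ v`. By `NoDom Γ`: `s1 ∈ lk Γ v` with
`s1 ∉ st Γ v'` (`NoDom v v'`) and `t1 ∈ lk Γ v` with `t1 ∉ st Γ s1` (`NoDom v s1`). Choose letters `a1`, `b1` in `W` over `s1`, `t1` (`BU.surj`). `b1 ∉ st Λ a1` (`st_sub`) and `a1 ∉ lk Λ s` (otherwise `s1 ∈ st Γ v'`, `lk_sub`).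
`a = gen a1 ^ n`, `b = gen b1 ^ n`, `n = K.index`, `k`, `k1` as there; `cmr_lk` gives `w⁻¹ * k2 * w ∈ PP Λ (lk Λ s)`, and `ret Λ {a1, b1}` of it is in `PP Λ {b1}`; the rest is the same (`dbl` for the graph `Λ`).
-/

set_option autoImplicit false

namespace RaagGP

open RaagIso

variable {V W : Type} {Γ : SimpleGraph V} {Λ : SimpleGraph W} {π : W → V}

theorem g04_step1 (hB : BU Γ Λ π) (hN : NoDom Γ) (K : Subgroup (RA Λ)) (hK : K.FiniteIndex)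
    (hK' : K.Normal) (v : V) (y w y' : RA Λ) (hy : y = w * y' * w⁻¹) (hcr : Cr y')
    (h : ∀ c ∈ K, ∀ d ∈ K, c ∈ PB Λ π (lk Γ v) → d ∈ PB Λ π (lk Γ v) →
      y * (c * d * c⁻¹ * d⁻¹) = c * d * c⁻¹ * d⁻¹ * y) : y' ∈ PB Λ π {v} := by
  rw [PB, mem_pp]
  intro z hz
  by_contra hne
  have hne' : v ≠ π z := fun e => hne e.symm
  obtain ⟨s1, hs1, hs2⟩ := hN v (π z) hne'
  obtain ⟨t1, ht1, ht2⟩ := hN v s1 hs1.ne
  obtain ⟨s, rfl⟩ := hB.surj s1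
  obtain ⟨t, rfl⟩ := hB.surj t1
  have hsz : s ∉ lk Λ z := fun e => hs2 (lk_sub hB z e)
  have hts : t ∉ st Λ s := fun e => ht2 (st_sub hB s e)
  have hidx : 0 < K.index := Nat.pos_of_ne_zero hK.index_ne_zero
  set n := K.index with hn
  set a : RA Λ := gen s ^ n with ha
  set b : RA Λ := gen t ^ n with hb
  have haK : a ∈ K := Subgroup.pow_index_mem K _
  have hbK : b ∈ K := Subgroup.pow_index_mem K _
  have haP : a ∈ PB Λ π (lk Γ v) := pow_mem (pb_gen hs1) _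
  have hbP : b ∈ PB Λ π (lk Γ v) := pow_mem (pb_gen ht1) _
  set k : RA Λ := a * b * a⁻¹ * b⁻¹ with hk
  set k1 : RA Λ := a ^ 2 * b * (a ^ 2)⁻¹ * b⁻¹ with hk1
  have e1 : y * k = k * y := h a haK b hbK haP hbP
  have e2 : y * k1 = k1 * y := h (a ^ 2) (pow_mem haK 2) b hbK (pow_mem haP 2) hbP
  have e3 : ∀ z : RA Λ, y * z = z * y → y' * (w⁻¹ * z * w) = (w⁻¹ * z * w) * y' := by
    intro z hz
    have e : y' = w⁻¹ * y * w := by rw [hy]; group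
    rw [e]
    calc w⁻¹ * y * w * (w⁻¹ * z * w) = w⁻¹ * (y * z) * w := by group
      _ = w⁻¹ * (z * y) * w := by rw [hz]
      _ = w⁻¹ * z * w * (w⁻¹ * y * w) := by group
  have e4 := cmr_lk hcr (e3 k e1) (e3 k1 e2) hz
  set k2 : RA Λ := k * k1 * k⁻¹ * k1⁻¹ with hk2
  have e5 : w⁻¹ * k2 * w ∈ PP Λ (lk Λ z) := by
    have : w⁻¹ * k2 * w = w⁻¹ * k * w * (w⁻¹ * k1 * w) * (w⁻¹ * k * w)⁻¹ * (w⁻¹ * k1 * w)⁻¹ := by
      rw [hk2]; group
    rw [this]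
    exact e4
  have hk2P : k2 ∈ PP Λ ({s, t} : Set W) := by
    have ha' : a ∈ PP Λ ({s, t} : Set W) := pow_mem (gen_mem (by simp)) _
    have hb' : b ∈ PP Λ ({s, t} : Set W) := pow_mem (gen_mem (by simp)) _
    exact a02_cm_mem (a02_cm_mem ha' hb') (a02_cm_mem (pow_mem ha' 2) hb')
  have e6 : ret Λ {s, t} (w⁻¹ * k2 * w) ∈ PP Λ {t} := by
    have h1 : ret Λ {s, t} (w⁻¹ * k2 * w) = ret Λ ({s, t} ∩ lk Λ z) (w⁻¹ * k2 * w) := by
      conv_lhs => rw [← ret_of_mem e5]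
      rw [ret_ret]
    rw [h1]
    refine pp_mono ?_ (ret_mem _ _)
    rintro z' ⟨hz1, hz2⟩
    rcases hz1 with rfl | hz1
    · exact absurd hz2 hsz
    · exact hz1
  have e7 : k2 = ret Λ {s, t} w * ret Λ {s, t} (w⁻¹ * k2 * w) * (ret Λ {s, t} w)⁻¹ := by
    conv_lhs => rw [← ret_of_mem hk2P]
    rw [← map_inv, ← map_mul, ← map_mul]
    congr 1
    group
  obtain ⟨j, hj⟩ := pp_single e6
  have e8 : ab Λ t k2 = 1 := a02_ab_cm t k k1
  rw [e7, ab_conj, hj] at e8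
  have e9 := a02_gen_zero e8
  rw [hj, e9, zpow_zero, mul_one, mul_inv_cancel] at e7
  exact dbl hts n hidx a b k k1 rfl rfl rfl rfl e7

end RaagGP
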