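import Pool.Agent.Lib.MP_32d917_al_gp.G02
import Pool.Agent.Lib.MP_32d917_al_raag.A02

/-!
# G05: the centraliser of the commutators in a link, second step (75 min)

Copy of `a02_step2` (`MP_32d917_al_raag/A02.lean`, 110 lines) with the element `gen v ^ m` replaced by `y ∈ PB {v}`, `y ≠ 1`. `c` = a left letter of `w0`, `u = π c.1 ∉ st Γ v`. By `NoDom Γ`: `s1 ∈ lk Γ v`, `s1 ∉ st Γ u`, `t1 ∈ lk Γ v`,
`t1 ∉ st Γ s1`; letters `s`, `t` of `W` over `s1`, `t1`; `t ∉ st Λ s` (`st_sub`). `k` = commutator of `gen s ^ n`, `gen t ^ n`, `sup k = {s, t}` (`cm_sup` for `Λ`). `w0⁻¹ * k * w0 ∈ PB (st v)` by `cen2`.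
`gate_l {z | z ∈ lk Λ s ∧ z ∈ lk Λ t} w0 = p1 * w2`. `k` commutes with `p1`. No left letter of `w2` has type `s` or `t` (same proof; `s`, `t` are over `st Γ v`). `Rp w2⁻¹ k`, `Rp (w2⁻¹ * k) w2` (same proof). So
`sup w2 ⊆ π ⁻¹' st Γ v`. If `w2 ≠ 1` a right letter of `w2` is a right letter of `w0` over `st Γ v`, contradiction. If `w2 = 1`: `w0 = p1`, `c.1 ∈ lk Λ s`, so `u ∈ st Γ s1` (`lk_sub`), so `s1 ∈ st Γ u` (symmetry), contradiction.

`g05_key`: copy of `qp_key`: `y = w * y' * w⁻¹` with `Cr y'` (`exists_cr`), `y' ∈ PB {v}` by `g04_step1`; if `y' = 1` then `y = 1`. `gate_lr (π ⁻¹' st Γ v) (π ⁻¹' st Γ v) w = p * w0 * q`,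
`y = p * (w0 * y'' * w0⁻¹) * p⁻¹` with `y'' = q * y' * q⁻¹ ∈ PB {v}` (`st_conj_gg`), `≠ 1`. The hypothesis for `p⁻¹ * y * p` (conjugate with `p`: `K` normal, `st_conj_lk`). So `w0 = 1` and `y = p * y'' * p⁻¹ ∈ PB {v}`.
(Import `G04` for this.)
-/

set_option autoImplicit false

namespace RaagGP

open RaagIso

variable {V W : Type} {Γ : SimpleGraph V} {Λ : SimpleGraph W} {π : W → V}

theorem g05_step2 (hB : BU Γ Λ π) (hN : NoDom Γ) (K : Subgroup (RA Λ)) (hK : K.FiniteIndex)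
    (hK' : K.Normal) (v : V) (w0 y : RA Λ) (hy : y ∈ PB Λ π {v}) (hy1 : y ≠ 1)
    (hl : ∀ a, Lf w0 a → π a.1 ∉ st Γ v) (hr : ∀ a, Rt w0 a → π a.1 ∉ st Γ v)
    (h : ∀ c ∈ K, ∀ d ∈ K, c ∈ PB Λ π (lk Γ v) → d ∈ PB Λ π (lk Γ v) →
      w0 * y * w0⁻¹ * (c * d * c⁻¹ * d⁻¹) = c * d * c⁻¹ * d⁻¹ * (w0 * y * w0⁻¹)) :
    w0 = 1 := by
  by_contra hne
  obtain ⟨c, hc⟩ := exists_lf hne
  have hu := hl c hc
  have hvu : v ≠ π c.1 := fun e => hu (Or.inl e.symm)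
  obtain ⟨s1, hs1, hs2⟩ := hN v (π c.1) hvu
  obtain ⟨t1, ht1, ht2⟩ := hN v s1 hs1.ne
  obtain ⟨s, rfl⟩ := hB.surj s1
  obtain ⟨t, rfl⟩ := hB.surj t1
  have hts : t ∉ st Λ s := fun e => ht2 (st_sub hB s e)
  have hidx : 0 < K.index := Nat.pos_of_ne_zero hK.index_ne_zero
  set n := K.index with hn
  set k : RA Λ := gen s ^ n * gen t ^ n * (gen s ^ n)⁻¹ * (gen t ^ n)⁻¹ with hk
  have hks : sup k = {s, t} := cm_sup hts hidx
  have e1 : w0 * y * w0⁻¹ * k = k * (w0 * y * w0⁻¹) :=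
    h _ (Subgroup.pow_index_mem K _) _ (Subgroup.pow_index_mem K _) (pow_mem (pb_gen hs1) _)
      (pow_mem (pb_gen ht1) _)
  have e2 : w0⁻¹ * k * w0 * y = y * (w0⁻¹ * k * w0) := by
    calc w0⁻¹ * k * w0 * y = w0⁻¹ * (k * (w0 * y * w0⁻¹)) * w0 := by group
      _ = w0⁻¹ * (w0 * y * w0⁻¹ * k) * w0 := by rw [e1]
      _ = y * (w0⁻¹ * k * w0) := by group
  have e3 : w0⁻¹ * k * w0 ∈ PB Λ π (st Γ v) := cen2 hB hy hy1 e2
  obtain ⟨p1, hp1, w2, hw, hw2, hrp⟩ := gate_l {z | z ∈ lk Λ s ∧ z ∈ lk Λ t} w0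
  have e4 : k * p1 = p1 * k := by
    refine pp_comm (fun z hz => ?_) hp1
    have c1 : Commute (gen z : RA Λ) (gen s) := (gen_comm hz.1).symm
    have c2 : Commute (gen z : RA Λ) (gen t) := (gen_comm hz.2).symm
    have c3 : Commute (gen z : RA Λ) k :=
      (((c1.pow_right n).mul_right (c2.pow_right n)).mul_right (c1.pow_right n).inv_right).mul_right
        (c2.pow_right n).inv_right
    exact c3.eq.symm
  have e5 : w2⁻¹ * k * w2 ∈ PB Λ π (st Γ v) := by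
    have : w2⁻¹ * k * w2 = w0⁻¹ * k * w0 := by
      rw [hw]
      calc w2⁻¹ * k * w2 = w2⁻¹ * (p1⁻¹ * (p1 * k)) * w2 := by group
        _ = w2⁻¹ * (p1⁻¹ * (k * p1)) * w2 := by rw [e4]
        _ = (p1 * w2)⁻¹ * k * (p1 * w2) := by group
    rw [this]
    exact e3
  have hst : ∀ z ∈ ({s, t} : Set W), π z ∈ st Γ v := by
    rintro z (rfl | hz)
    · exact Or.inr hs1
    · rw [Set.mem_singleton_iff.1 hz]; exact Or.inr ht1
  -- no left letter of w2 has type s or t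
  have hA : ∀ e, Lf w2 e → e.1 ∉ ({s, t} : Set W) := by
    intro e he het
    have hcom : gl e * p1 = p1 * gl e := by
      have hp1' : p1 ∈ PP Λ (lk Λ e.1) := by
        refine pp_mono ?_ hp1
        rintro z ⟨hz1, hz2⟩
        rcases het with h1 | h1
        · rw [h1]; exact hz1
        · rw [Set.mem_singleton_iff.1 h1]; exact hz2
      exact gl_comm hp1'
    by_cases h1 : Lf w0 e
    · exact hl e h1 (hst _ het)
    · have h2 : len (gl (ivl e) * w0) = len w0 + 1 := len_nlf (by rw [ivl_ivl]; exact h1)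
      have h3 : gl (ivl e) * w0 = p1 * ((gl e)⁻¹ * w2) := by
        rw [gl_ivl, hw]
        calc (gl e)⁻¹ * (p1 * w2) = (gl e)⁻¹ * (p1 * gl e) * ((gl e)⁻¹ * w2) := by group
          _ = (gl e)⁻¹ * (gl e * p1) * ((gl e)⁻¹ * w2) := by rw [hcom]
          _ = p1 * ((gl e)⁻¹ * w2) := by group
      have h4 := len_mul_le p1 ((gl e)⁻¹ * w2)
      have h5 := len_lf he
      have h6 : len w0 = len p1 + len w2 := by rw [hw]; exact rp_len.1 hrp
      rw [h3] at h2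
      omega
  have hR1 : Rp w2⁻¹ k := by
    intro e he hk'
    have h1 : Lf w2 (ivl e) := rt_inv.1 he
    have h2 : (ivl e).1 ∈ sup k := lf_sup hk'
    rw [hks] at h2
    exact hA _ h1 h2
  have hR2 : Rp (w2⁻¹ * k) w2 := by
    intro e he hl'
    rcases rt_mul' hR1 he with h1 | ⟨-, h2⟩
    · have h2 : e.1 ∈ sup k := rt_sup h1
      rw [hks] at h2
      exact hA _ hl' h2
    · rw [hks] at h2
      have h3 : Λ.Adj e.1 s := h2 (by simp)
      have h4 : Λ.Adj e.1 t := h2 (by simp)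
      exact hw2 _ hl' ⟨h3.symm, h4.symm⟩
  have hsup : sup w2 ⊆ π ⁻¹' st Γ v := by
    have h1 := mem_pp.1 e5
    rw [sup_mul hR2] at h1
    exact Set.subset_union_right.trans h1
  by_cases hw21 : w2 = 1
  · rw [hw21, mul_one] at hw
    rw [hw] at hc
    have h1 : c.1 ∈ sup p1 := lf_sup hc
    have h2 := (mem_pp.1 hp1) h1
    have h3 : π c.1 ∈ st Γ (π s) := lk_sub hB s h2.1
    rcases h3 with h3 | h3
    · exact hs2 (Or.inl h3.symm)
    · exact hs2 (Or.inr (Γ.adj_symm h3))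
  · obtain ⟨e, he⟩ := exists_rt hw21
    have h1 : Rt w0 e := by rw [hw]; exact rt_mul hrp he
    exact hr e h1 (hsup (rt_sup he))

end RaagGP
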