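import Pool.Agent.Lib.MP_32d917_al_gp.G03
import Pool.Agent.Lib.MP_32d917_al_gp.G04
import Pool.Agent.Lib.MP_32d917_al_gp.G05

/-!
# G06: characterisation of the elements of the vertex subgroups (75 min)

`g06_key`: copy of `qp_key` (`MP_32d917_al_raag/A02.lean`), see the head of `G05`.

`cc_iff`: `x : H` is a nontrivial element of the vertex subgroup `p = (g, v)`, `x = g * y * g⁻¹`.
(←) `z = g * z' * g⁻¹` with `z' ∈ PB {v}` (`z' = 1` allowed). For `c`, `d ∈ H` commuting with `x` the elements `g⁻¹ * c * g`, `g⁻¹ * d * g` commute with `y`, so their commutator is in `PB (lk v)` (`cmr_lk2`) and commutes with `z'`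
(`gg_lk_comm`); conjugate back.
(→) `K = H.normalCore` (finite index, normal). For `c`, `d ∈ K ⊓ PB (lk v)` the elements `g * c * g⁻¹`, `g * d * g⁻¹` are in `H` and commute with `x` (`gg_lk_comm`), so `z` commutes with their commutator and `g⁻¹ * z * g` commutes with `[c, d]`.
By `g06_key` `g⁻¹ * z * g ∈ PB {v}`. (Compare `qp_of_gen` in `A02`.)

`pu_of_ing`: `x ≠ 1`. Let `y ≠ 1`, `Cc x y`: by `cc_iff` `y` is a nontrivial element of the same vertex subgroup (`InG π p y`), so `Cc x z ↔ g⁻¹ * z * g ∈ PB {v} ↔ Cc y z`.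

`ing_of_pu`: `x = w * x' * w⁻¹`, `Cr x'` (`exists_cr`), `x' ≠ 1`, `s ∈ sup x'`, `v = π s`. There is `n > 0` with `y = w * gen s ^ n * w⁻¹ ∈ H` (`Subgroup.exists_pow_mem_of_index_ne_zero` for `w * gen s * w⁻¹`), `y ≠ 1` and
`InG π (w, v) y`. `Cc x y`: for `c`, `d ∈ H` commuting with `x` the commutator of `w⁻¹ * c * w`, `w⁻¹ * d * w` is in `PP Λ (lk Λ s)` (`cmr_lk`) and commutes with `gen s ^ n` (`lk_comm`). So by `Pu`, applied to `y` and `z = x` (`Cc x x` is clear: `x` commutes with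
`c` and `d`), `Cc y x`. By `cc_iff` (for `y`) `w⁻¹ * x * w ∈ PB {v}`: `InG π (w, v) x`.

`pu_iso`: transport `Cc` and `Pu` by the isomorphism (compare `qp_iso` in `A01`).
-/

set_option autoImplicit false

namespace RaagGP

open RaagIso

variable {V W : Type} {Γ : SimpleGraph V} {Λ : SimpleGraph W} {π : W → V}

theorem g06_key (hB : BU Γ Λ π) (hN : NoDom Γ) (K : Subgroup (RA Λ)) (hK : K.FiniteIndex)
    (hK' : K.Normal) (v : V) (y : RA Λ)
    (h : ∀ c ∈ K, ∀ d ∈ K, c ∈ PB Λ π (lk Γ v) → d ∈ PB Λ π (lk Γ v) →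
      y * (c * d * c⁻¹ * d⁻¹) = c * d * c⁻¹ * d⁻¹ * y) : y ∈ PB Λ π {v} := by
  obtain ⟨w, y', hy, hcr⟩ := exists_cr y
  have h1 := g04_step1 hB hN K hK hK' v y w y' hy hcr h
  by_cases hy1 : y' = 1
  · rw [hy, hy1, mul_one, mul_inv_cancel]
    exact one_mem _
  obtain ⟨p, hp, q, hq, w0, hw, hl, hr⟩ := gate_lr (π ⁻¹' st Γ v) (π ⁻¹' st Γ v) w
  have hy2 : q * y' * q⁻¹ ∈ PB Λ π {v} := st_conj_gg hB hq h1
  have hy21 : q * y' * q⁻¹ ≠ 1 := by
    intro h2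
    apply hy1
    calc y' = q⁻¹ * (q * y' * q⁻¹) * q := by group
      _ = 1 := by rw [h2]; group
  have hy3 : y = p * (w0 * (q * y' * q⁻¹) * w0⁻¹) * p⁻¹ := by
    rw [hy, hw]
    group
  have hw0 : w0 = 1 := by
    refine g05_step2 hB hN K hK hK' v w0 _ hy2 hy21 hl hr ?_
    intro c hc d hd hc' hd'
    have h3 := h (p * c * p⁻¹) (hK'.conj_mem c hc p) (p * d * p⁻¹) (hK'.conj_mem d hd p)
      (st_conj_lk hB hp hc') (st_conj_lk hB hp hd')
    have e0 : w0 * (q * y' * q⁻¹) * w0⁻¹ = p⁻¹ * y * p := by rw [hy3]; group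
    rw [e0]
    calc p⁻¹ * y * p * (c * d * c⁻¹ * d⁻¹) = p⁻¹ * (y * (p * c * p⁻¹ * (p * d * p⁻¹) *
          (p * c * p⁻¹)⁻¹ * (p * d * p⁻¹)⁻¹)) * p := by group
      _ = p⁻¹ * (p * c * p⁻¹ * (p * d * p⁻¹) * (p * c * p⁻¹)⁻¹ * (p * d * p⁻¹)⁻¹ * y) * p := by rw [h3]
      _ = c * d * c⁻¹ * d⁻¹ * (p⁻¹ * y * p) := by group
  rw [hy3, hw0, one_mul, inv_one, mul_one]
  exact st_conj_gg hB hp hy2

theorem cc_iff (hB : BU Γ Λ π) (hN : NoDom Γ) (H : Subgroup (RA Λ)) (hH : H.FiniteIndex)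
    {p : RA Λ × V} {x : H} (hx : InG π p (x : RA Λ)) (z : H) :
    Cc x z ↔ p.1⁻¹ * (z : RA Λ) * p.1 ∈ PB Λ π {p.2} := by
  obtain ⟨y, hy, hy1, hxy⟩ := hx
  obtain ⟨g, v⟩ := p
  simp only at hy hxy ⊢
  constructor
  · intro hz
    have := hH
    have hKF : H.normalCore.FiniteIndex := inferInstance
    have hKN : H.normalCore.Normal := inferInstance
    refine g06_key hB hN H.normalCore hKF hKN v _ ?_
    intro c hc d hd hc' hd'
    have hc2 : g * c * g⁻¹ ∈ H := Subgroup.normalCore_le H (hKN.conj_mem c hc g)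
    have hd2 : g * d * g⁻¹ ∈ H := Subgroup.normalCore_le H (hKN.conj_mem d hd g)
    have hcx : ∀ c : RA Λ, c ∈ PB Λ π (lk Γ v) →
        g * c * g⁻¹ * (x : RA Λ) = (x : RA Λ) * (g * c * g⁻¹) := by
      intro c hc
      have h3 := gg_lk_comm hB hy hc
      rw [hxy]
      calc g * c * g⁻¹ * (g * y * g⁻¹) = g * (c * y) * g⁻¹ := by group
        _ = g * (y * c) * g⁻¹ := by rw [h3]
        _ = g * y * g⁻¹ * (g * c * g⁻¹) := by group
    have h4 := hz ⟨g * c * g⁻¹, hc2⟩ ⟨g * d * g⁻¹, hd2⟩ (Subtype.ext (hcx c hc'))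
      (Subtype.ext (hcx d hd'))
    have h5 := congrArg (fun z : H => (z : RA Λ)) h4
    simp only [Subgroup.coe_mul, Subgroup.coe_inv] at h5
    calc g⁻¹ * (z : RA Λ) * g * (c * d * c⁻¹ * d⁻¹) = g⁻¹ * ((z : RA Λ) * (g * c * g⁻¹ * (g * d * g⁻¹) *
          (g * c * g⁻¹)⁻¹ * (g * d * g⁻¹)⁻¹)) * g := by group
      _ = g⁻¹ * (g * c * g⁻¹ * (g * d * g⁻¹) * (g * c * g⁻¹)⁻¹ * (g * d * g⁻¹)⁻¹ * (z : RA Λ)) * g := by
          rw [h5]
      _ = c * d * c⁻¹ * d⁻¹ * (g⁻¹ * (z : RA Λ) * g) := by group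
  · intro hz c d hc hd
    have hcy : ∀ c : H, c * x = x * c → g⁻¹ * (c : RA Λ) * g * y = y * (g⁻¹ * (c : RA Λ) * g) := by
      intro c hc
      have h1 := congrArg (fun z : H => (z : RA Λ)) hc
      simp only [Subgroup.coe_mul] at h1
      rw [hxy] at h1
      calc g⁻¹ * (c : RA Λ) * g * y = g⁻¹ * ((c : RA Λ) * (g * y * g⁻¹)) * g := by group
        _ = g⁻¹ * (g * y * g⁻¹ * (c : RA Λ)) * g := by rw [h1]
        _ = _ := by group
    have h6 := cmr_lk2 hB hy hy1 (hcy c hc) (hcy d hd)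
    have h7 := gg_lk_comm hB hz h6
    apply Subtype.ext
    simp only [Subgroup.coe_mul, Subgroup.coe_inv]
    calc (z : RA Λ) * ((c : RA Λ) * d * (c : RA Λ)⁻¹ * (d : RA Λ)⁻¹) =
          g * (g⁻¹ * (z : RA Λ) * g * (g⁻¹ * (c : RA Λ) * g * (g⁻¹ * (d : RA Λ) * g) *
            (g⁻¹ * (c : RA Λ) * g)⁻¹ * (g⁻¹ * (d : RA Λ) * g)⁻¹)) * g⁻¹ := by group
      _ = g * (g⁻¹ * (c : RA Λ) * g * (g⁻¹ * (d : RA Λ) * g) * (g⁻¹ * (c : RA Λ) * g)⁻¹ *
            (g⁻¹ * (d : RA Λ) * g)⁻¹ * (g⁻¹ * (z : RA Λ) * g)) * g⁻¹ := by rw [h7]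
      _ = _ := by group

theorem pu_of_ing (hB : BU Γ Λ π) (hN : NoDom Γ) (H : Subgroup (RA Λ)) (hH : H.FiniteIndex)
    {p : RA Λ × V} {x : H} (hx : InG π p (x : RA Λ)) : Pu x := by
  refine ⟨?_, ?_⟩
  · intro h1
    obtain ⟨y, hy, hy1, hxy⟩ := hx
    apply hy1
    have h2 : (x : RA Λ) = 1 := by rw [h1]; rfl
    calc y = p.1⁻¹ * (p.1 * y * p.1⁻¹) * p.1 := by group
      _ = 1 := by rw [← hxy, h2]; group
  · intro y hy1 hxy z hz
    have h1 := (cc_iff hB hN H hH hx y).1 hxy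
    have hyI : InG π p (y : RA Λ) := by
      refine ⟨p.1⁻¹ * y * p.1, h1, ?_, by group⟩
      intro h2
      apply hy1
      apply Subtype.ext
      show (y : RA Λ) = 1
      calc (y : RA Λ) = p.1 * (p.1⁻¹ * y * p.1) * p.1⁻¹ := by group
        _ = 1 := by rw [h2]; group
    exact (cc_iff hB hN H hH hyI z).2 ((cc_iff hB hN H hH hx z).1 hz)

theorem ing_of_pu (hB : BU Γ Λ π) (hN : NoDom Γ) (H : Subgroup (RA Λ)) (hH : H.FiniteIndex)
    {x : H} (hx : Pu x) : ∃ p : RA Λ × V, InG π p (x : RA Λ) := by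
  obtain ⟨w, x', hxw, hcr⟩ := exists_cr (x : RA Λ)
  have hx1 : x' ≠ 1 := by
    rintro rfl
    apply hx.1
    apply Subtype.ext
    rw [hxw]
    simp
  obtain ⟨s, hs⟩ : (sup x').Nonempty := by
    rw [Set.nonempty_iff_ne_empty]
    exact fun h0 => hx1 (sup_eq_empty h0)
  obtain ⟨n, hn0, -, hn⟩ :=
    Subgroup.exists_pow_mem_of_index_ne_zero hH.index_ne_zero (w * gen s * w⁻¹)
  obtain ⟨y, hy⟩ : ∃ y : H, y = ⟨(w * gen s * w⁻¹) ^ n, hn⟩ := ⟨_, rfl⟩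
  have hy0 : (y : RA Λ) = w * gen s ^ n * w⁻¹ := by
    rw [hy]
    show (w * gen s * w⁻¹) ^ n = w * gen s ^ n * w⁻¹
    rw [conj_pow]
  have hgs : (gen s : RA Λ) ∈ PB Λ π {π s} := pb_gen (Set.mem_singleton _)
  have hgn : (gen s : RA Λ) ^ n ≠ 1 := gen_pow_ne s (Nat.pos_iff_ne_zero.1 hn0)
  have hyI : InG π (w, π s) (y : RA Λ) := by
    refine ⟨gen s ^ n, ?_, hgn, ?_⟩
    · exact pow_mem hgs n
    · exact hy0
  have hy1 : y ≠ 1 := (pu_of_ing hB hN H hH hyI).1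
  have hxy : Cc x y := by
    rintro ⟨c, hcH⟩ ⟨d, hdH⟩ hc hd
    have hc1 : c * (w * x' * w⁻¹) = w * x' * w⁻¹ * c := by
      have := congrArg Subtype.val hc
      rw [← hxw]
      exact this
    have hd1 : d * (w * x' * w⁻¹) = w * x' * w⁻¹ * d := by
      have := congrArg Subtype.val hd
      rw [← hxw]
      exact this
    have h1 := cmr_lk hcr (a01_conj hc1) (a01_conj hd1) hs
    have h2 := lk_comm h1
    have e2 : (w⁻¹ * c * w) * (w⁻¹ * d * w) * (w⁻¹ * c * w)⁻¹ * (w⁻¹ * d * w)⁻¹ =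
      w⁻¹ * (c * d * c⁻¹ * d⁻¹) * w := by group
    rw [e2] at h2
    have h3 : Commute (w * gen s * w⁻¹) (c * d * c⁻¹ * d⁻¹) := by
      show w * gen s * w⁻¹ * (c * d * c⁻¹ * d⁻¹) = c * d * c⁻¹ * d⁻¹ * (w * gen s * w⁻¹)
      calc w * gen s * w⁻¹ * (c * d * c⁻¹ * d⁻¹) =
          w * (gen s * (w⁻¹ * (c * d * c⁻¹ * d⁻¹) * w)) * w⁻¹ := by group
        _ = w * (w⁻¹ * (c * d * c⁻¹ * d⁻¹) * w * gen s) * w⁻¹ := by rw [h2]
        _ = _ := by group
    apply Subtype.ext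
    rw [hy]
    exact (h3.pow_left n).eq
  have hxx : Cc x x := by
    intro c d hc hd
    have h1 : Commute c x := hc
    have h2 : Commute d x := hd
    exact (((h1.mul_left h2).mul_left h1.inv_left).mul_left h2.inv_left).eq.symm
  have hyx := hx.2 y hy1 hxy x hxx
  have h4 := (cc_iff hB hN H hH hyI x).1 hyx
  refine ⟨(w, π s), w⁻¹ * x * w, h4, ?_, ?_⟩
  · intro h5
    apply hx1
    calc x' = w⁻¹ * (w * x' * w⁻¹) * w := by group
      _ = 1 := by rw [← hxw, h5]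
  · show (x : RA Λ) = w * (w⁻¹ * x * w) * w⁻¹
    group

theorem cc_iso {G G' : Type} [Group G] [Group G'] (φ : G ≃* G') {x y : G} :
    Cc x y ↔ Cc (φ x) (φ y) := by
  constructor
  · intro h c d hc hd
    have h1 := h (φ.symm c) (φ.symm d)
      (by apply φ.injective; simpa using hc) (by apply φ.injective; simpa using hd)
    have h2 := congrArg φ h1
    simpa using h2
  · intro h c d hc hd
    have h1 := h (φ c) (φ d) (by rw [← map_mul, ← map_mul, hc]) (by rw [← map_mul, ← map_mul, hd])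
    apply φ.injective
    simpa using h1

theorem pu_iso {G G' : Type} [Group G] [Group G'] (φ : G ≃* G') {x : G} (h : Pu x) :
    Pu (φ x) := by
  refine ⟨fun h0 => h.1 ((MulEquiv.map_eq_one_iff φ).1 h0), ?_⟩
  intro y hy hxy z hz
  obtain ⟨y', rfl⟩ := φ.surjective y
  obtain ⟨z', rfl⟩ := φ.surjective z
  refine (cc_iso φ).1 (h.2 y' (fun h0 => hy (by rw [h0, map_one])) ((cc_iso φ).2 hxy) z'
    ((cc_iso φ).2 hz))

end RaagGP
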