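import Pool.Agent.Lib.MP_32d917_al_gp.G06

/-!
# G07: isomorphisms of subgroups of finite index induce isomorphisms of the extension graphs (60 min)

Compare `A03` (`MP_32d917_al_raag/A03.lean`). Relation `R p p'`: there is `x : H` with `InG π p x` and `InG π' p' (φ x)`.
Existence: for `p = (g, v)` take a letter `a` over `v` and `n > 0` with `x = (g * gen a * g⁻¹) ^ n ∈ H` (`Subgroup.exists_pow_mem_of_index_ne_zero`); `x` is in the vertex subgroup (`gen_pow_ne`); `Pu x`, so `Pu (φ x)`, so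
`InG π' p' (φ x)` for some `p'` (`ing_of_pu`).
Uniqueness: `R p p'`, `R q q'`, `Ee p q` imply `Ee p' q'`: let `x`, `y` be the elements. `InG π p y` (`ing_ee`), so by `cc_iff` `Cc x y`, so `Cc (φ x) (φ y)` (`cc_iso`), so by `cc_iff` (for `φ x`, `p'`) `InG π' p' (φ y)`
(`φ y ≠ 1`), and `InG π' q' (φ y)`; `ing_uniq`.
`comm`: let `Cme p q`, `x`, `y` elements for `R p p'`, `R q q'`. By `cme_ing` `Ee p q` (then `Ee p' q'`, so `Cme p' q'`) or `x`, `y` commute, so `φ x`, `φ y` commute, so `Cme p' q'` by `ing_cme`. The converse by the same argument for `φ.symm`.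
Choose `Φ p` with `R p (Φ p)` and `Ψ p'` with `R' p' (Ψ p')` (for `φ.symm`); `left`, `right` by uniqueness (the relation for `φ.symm` is the inverse relation).
Equivariance: `R p p'` implies `R (h * p.1, p.2) (φ h * p'.1, p'.2)` (element `h * x * h⁻¹`), and uniqueness.
-/

set_option autoImplicit false

namespace RaagGP

open RaagIso

variable {V W V' W' : Type} {Γ : SimpleGraph V} {Λ : SimpleGraph W} {π : W → V}
  {Γ' : SimpleGraph V'} {Λ' : SimpleGraph W'} {π' : W' → V'}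

section

variable {H : Subgroup (RA Λ)} {H' : Subgroup (RA Λ')}

/-- the relation between pairs induced by an isomorphism -/
def g07R (π : W → V) (π' : W' → V') (φ : H ≃* H') (p : RA Λ × V) (p' : RA Λ' × V') : Prop :=
  ∃ x : H, InG π p (x : RA Λ) ∧ InG π' p' ((φ x : H') : RA Λ')

theorem g07_ex (hB : BU Γ Λ π) (hN : NoDom Γ) (hB' : BU Γ' Λ' π') (hN' : NoDom Γ')
    (hH : H.FiniteIndex) (hH' : H'.FiniteIndex) (φ : H ≃* H') (p : RA Λ × V) :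
    ∃ p', g07R π π' φ p p' := by
  obtain ⟨a, ha⟩ := hB.surj p.2
  obtain ⟨n, hn, -, hmem⟩ :=
    Subgroup.exists_pow_mem_of_index_ne_zero hH.index_ne_zero (p.1 * gen a * p.1⁻¹)
  have h1 : InG π p ((⟨_, hmem⟩ : H) : RA Λ) := by
    refine ⟨gen a ^ n, pow_mem (pb_gen (by rw [ha]; exact rfl)) n, gen_pow_ne a hn.ne', ?_⟩
    show (p.1 * gen a * p.1⁻¹) ^ n = _
    rw [conj_pow]
  obtain ⟨p', hp'⟩ := ing_of_pu hB' hN' H' hH' (pu_iso φ (pu_of_ing hB hN H hH h1))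
  exact ⟨p', _, h1, hp'⟩

theorem g07_symm {φ : H ≃* H'} {p : RA Λ × V} {p' : RA Λ' × V'} (h : g07R π π' φ p p') :
    g07R π' π φ.symm p' p := by
  obtain ⟨x, h1, h2⟩ := h
  exact ⟨φ x, h2, by rw [φ.symm_apply_apply]; exact h1⟩

theorem g07_uniq (hB : BU Γ Λ π) (hN : NoDom Γ) (hB' : BU Γ' Λ' π') (hN' : NoDom Γ')
    (hH : H.FiniteIndex) (hH' : H'.FiniteIndex) {φ : H ≃* H'} {p q : RA Λ × V}
    {p' q' : RA Λ' × V'} (hp : g07R π π' φ p p') (hq : g07R π π' φ q q') (h : Ee Γ π p q) :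
    Ee Γ' π' p' q' := by
  obtain ⟨x, hx, hx'⟩ := hp
  obtain ⟨y, hy, hy'⟩ := hq
  obtain ⟨z, hz, hz1, hyz⟩ := ing_ee hB hy (ee_symm h)
  have h1 : Cc x y := by
    rw [cc_iff hB hN H hH hx y, hyz]
    have : p.1⁻¹ * (p.1 * z * p.1⁻¹) * p.1 = z := by group
    rw [this]
    exact hz
  have h2 : Cc (φ x) (φ y) := (cc_iso φ).1 h1
  rw [cc_iff hB' hN' H' hH' hx' (φ y)] at h2
  refine ing_uniq hB' (x := ((φ y : H') : RA Λ')) ⟨_, h2, ?_, by group⟩ hy'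
  intro h3
  obtain ⟨z', hz', hz1', hyz'⟩ := hy'
  have h4 : ((φ y : H') : RA Λ') = 1 := by
    have : ((φ y : H') : RA Λ') = p'.1 * (p'.1⁻¹ * ((φ y : H') : RA Λ') * p'.1) * p'.1⁻¹ := by
      group
    rw [this, h3]
    group
  apply hz1'
  have : z' = q'.1⁻¹ * (q'.1 * z' * q'.1⁻¹) * q'.1 := by group
  rw [this, ← hyz', h4]
  group

theorem g07_comm (hB : BU Γ Λ π) (hN : NoDom Γ) (hB' : BU Γ' Λ' π') (hN' : NoDom Γ')
    (hH : H.FiniteIndex) (hH' : H'.FiniteIndex) {φ : H ≃* H'} {p q : RA Λ × V}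
    {p' q' : RA Λ' × V'} (hp : g07R π π' φ p p') (hq : g07R π π' φ q q') (h : Cme Γ π p q) :
    Cme Γ' π' p' q' := by
  obtain ⟨x, hx, hx'⟩ := id hp
  obtain ⟨y, hy, hy'⟩ := id hq
  rcases cme_ing hB hx hy h with h1 | h1
  · exact cme_of_ee (g07_uniq hB hN hB' hN' hH hH' hp hq h1)
  · refine ing_cme hB' hx' hy' ?_
    have h2 : x * y = y * x := Subtype.ext h1
    have h3 := congrArg (fun z => ((φ z : H') : RA Λ')) h2
    simpa only [map_mul, Subgroup.coe_mul] using h3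

theorem g07_conj {φ : H ≃* H'} {p : RA Λ × V} {p' : RA Λ' × V'} (h : g07R π π' φ p p') (k : H) :
    g07R π π' φ ((k : RA Λ) * p.1, p.2) (((φ k : H') : RA Λ') * p'.1, p'.2) := by
  obtain ⟨x, ⟨y, hy, hy1, hxy⟩, ⟨y', hy', hy1', hxy'⟩⟩ := h
  refine ⟨k * x * k⁻¹, ⟨y, hy, hy1, ?_⟩, ⟨y', hy', hy1', ?_⟩⟩
  · rw [Subgroup.coe_mul, Subgroup.coe_mul, Subgroup.coe_inv, hxy]
    group
  · rw [map_mul, map_mul, map_inv, Subgroup.coe_mul, Subgroup.coe_mul, Subgroup.coe_inv, hxy']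
    group

end

theorem emap2 (hB : BU Γ Λ π) (hN : NoDom Γ) (hB' : BU Γ' Λ' π') (hN' : NoDom Γ')
    (H : Subgroup (RA Λ)) (H' : Subgroup (RA Λ')) (hH : H.FiniteIndex) (hH' : H'.FiniteIndex)
    (φ : H ≃* H') : ∃ (Φ : RA Λ × V → RA Λ' × V') (Ψ : RA Λ' × V' → RA Λ × V),
      Emp2 Γ Γ' π π' Φ Ψ ∧ ∀ (h : H) (p : RA Λ × V),
        Ee Γ' π' (Φ (h * p.1, p.2)) (φ h * (Φ p).1, (Φ p).2) := by
  choose Φ hΦ using g07_ex hB hN hB' hN' hH hH' φ
  choose Ψ hΨ using g07_ex hB' hN' hB hN hH' hH φ.symm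
  refine ⟨Φ, Ψ, ⟨?_, ?_, ?_, ?_, ?_⟩, ?_⟩
  · intro p q h
    exact g07_uniq hB hN hB' hN' hH hH' (hΦ p) (hΦ q) h
  · intro p q h
    exact g07_uniq hB' hN' hB hN hH' hH (hΨ p) (hΨ q) h
  · intro p
    exact g07_uniq hB' hN' hB hN hH' hH (hΨ (Φ p)) (g07_symm (hΦ p)) (ee_refl _)
  · intro p
    exact g07_uniq hB hN hB' hN' hH hH' (hΦ (Ψ p)) (g07_symm (hΨ p)) (ee_refl _)
  · intro p q
    exact ⟨g07_comm hB hN hB' hN' hH hH' (hΦ p) (hΦ q),
      g07_comm hB' hN' hB hN hH' hH (g07_symm (hΦ p)) (g07_symm (hΦ q))⟩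
  · intro h p
    exact g07_uniq hB hN hB' hN' hH hH' (hΦ _) (g07_conj (hΦ p) h) (ee_refl _)

end RaagGP
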