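import Pool.Agent.Lib.MP_32d917_al_gp.G08
import Pool.Agent.Lib.MP_32d917_al_raag.R02

/-!
# G09: different chambers are separated by a star (60 min)

Compare `R02` (`MP_32d917_al_raag/R02.lean`). Walls are the walls of the letters of `Λ`.
-/

set_option autoImplicit false

namespace RaagGP

open RaagIso

variable {V W : Type} {Γ : SimpleGraph V} {Λ : SimpleGraph W} {π : W → V}

theorem side2 (hB : BU Γ Λ π) {a : W × Bool} {t : V} {y : RA Λ}
    (h : ¬ Cme Γ π ((1 : RA Λ), π a.1) (y, t)) {p : RA Λ} (hp : p ∈ PB Λ π (st Γ t)) :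
    NN a.1 (y * p) (cw a) = NN a.1 y (cw a) := by
  rw [nn_mul]
  by_contra h1
  have h2 : NN a.1 p (y⁻¹ * cw a) ≠ 0 := fun h2 => h1 (by rw [h2, add_zero])
  have hv : π a.1 ∈ st Γ t := by
    by_contra h3
    exact h2 (nn_pp hp a.1 h3 _)
  obtain ⟨q, hq, h3⟩ := r02_cross hp _ h2
  have h4 : y * q ∈ PB Λ π (st Γ (π a.1)) := by
    have h5 : y * q = cw a * (q⁻¹ * (y⁻¹ * cw a))⁻¹ := by group
    rw [h5]
    exact mul_mem (pp_mono (st_sub hB a.1) (r02_cw a)) (inv_mem (pp_mono (lk_sub hB a.1) h3))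
  apply h
  refine ⟨?_, y * q, ?_, ?_⟩
  · rcases hv with h6 | h6
    · exact Or.inl h6
    · exact Or.inr h6.symm
  · show (1 : RA Λ)⁻¹ * (y * q) ∈ PB Λ π (st Γ (π a.1))
    rw [inv_one, one_mul]
    exact h4
  · show y⁻¹ * (y * q) ∈ PB Λ π (st Γ t)
    rw [inv_mul_cancel_left]
    exact hq

theorem side2_cnn (hB : BU Γ Λ π) {a : W × Bool} {p q : RA Λ × V}
    (h : ¬ Cme Γ π ((1 : RA Λ), π a.1) p) (h' : Cnn2 Γ π ((1 : RA Λ), π a.1) p q) :
    NN a.1 p.1 (cw a) = NN a.1 q.1 (cw a) := by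
  unfold Cnn2 at h'
  induction h' with
  | refl => rfl
  | tail _ hst ih =>
    obtain ⟨⟨-, x, hx1, hx2⟩, hn1, hn2⟩ := hst
    rw [ih]
    have s1 := side2 hB hn1 hx1
    have s2 := side2 hB hn2 hx2
    rw [mul_inv_cancel_left] at s1 s2
    rw [← s1, ← s2]

theorem g09_b (hB : BU Γ Λ π) {a : W × Bool} {z : RA Λ} {w : V} (ha : Lf z a)
    (hR : ∀ a, Rt z a → π a.1 ∉ st Γ w) : ¬ Cme Γ π ((1 : RA Λ), π a.1) (z, w) := by
  intro hc
  have hc1 : Cme Γ π ((1 : RA Λ), π a.1) (1 * z, w) := by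
    rw [one_mul]
    exact hc
  obtain ⟨hws, hzs⟩ := in_st (x := 1) hR hc1
  obtain ⟨g, hg, l, hl, hz⟩ := st_dec2 hB hzs
  have hcomm := gg_lk_comm hB hg hl
  have hg1 : g ≠ 1 := by
    rintro rfl
    rw [one_mul] at hz
    rw [hz] at ha
    have h1 : Γ.Adj (π a.1) (π a.1) := mem_pp.1 hl (lf_sup ha)
    exact Γ.loopless.irrefl _ h1
  have hrp : Rp l g := by
    intro b hb hb'
    have h3 : Γ.Adj (π a.1) (π b.1) := mem_pp.1 hl (rt_sup hb)
    have h4 : π (ivl b).1 = π a.1 := mem_pp.1 hg (lf_sup hb')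
    have h5 : (ivl b).1 = b.1 := rfl
    rw [h5] at h4
    rw [h4] at h3
    exact Γ.loopless.irrefl _ h3
  obtain ⟨c, hc1⟩ := exists_rt hg1
  have hc2 : π c.1 = π a.1 := mem_pp.1 hg (rt_sup hc1)
  have hc3 := rt_mul hrp hc1
  rw [← hcomm, ← hz] at hc3
  apply hR c hc3
  rw [hc2]
  rcases hws with h5 | h5
  · exact Or.inl h5.symm
  · exact Or.inr h5.symm

theorem sepr2 (hB : BU Γ Λ π) (x y : RA Λ) (u w : V)
    (h : ¬ ∃ p ∈ PB Λ π (st Γ u), ∃ q ∈ PB Λ π (st Γ w), x * p = y * q) :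
    ∃ e : RA Λ × V, ¬ Cme Γ π e (x, u) ∧ ¬ Cme Γ π e (y, w) ∧ ¬ Cnn2 Γ π e (x, u) (y, w) := by
  obtain ⟨p, hp, q, hq, z, hz, hL, hR⟩ := gate_lr (π ⁻¹' st Γ u) (π ⁻¹' st Γ w) (x⁻¹ * y)
  have hz1 : z ≠ 1 := by
    rintro rfl
    apply h
    refine ⟨p, hp, q⁻¹, inv_mem hq, ?_⟩
    have : y = x * (p * 1 * q) := by rw [← hz]; group
    rw [this]; group
  obtain ⟨a, ha⟩ := exists_lf hz1
  have hau : π a.1 ∉ st Γ u := hL a ha
  have hy : y = x * p * z * q := by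
    have : y = x * (p * z * q) := by rw [← hz]; group
    rw [this]; group
  have hEu : Ee Γ π (x * p, u) (x, u) := ee_right x u hp
  have hEw : Ee Γ π (y, w) (x * p * z, w) := by
    rw [hy]
    exact ee_right (x * p * z) w hq
  -- (a)
  have ha0 : ¬ Cme Γ π (x * p, π a.1) (x * p, u) := by
    intro hc
    have h1 := (cme_self (x * p) (π a.1) u).1 hc
    apply hau
    rcases h1 with h1 | h1
    · exact Or.inl h1.symm
    · exact Or.inr h1.symm
  have ha1 : ¬ Cme Γ π (x * p, π a.1) (x, u) :=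
    fun hc => ha0 (cme_ee hc (ee_refl _) (ee_symm hEu))
  -- (b)
  have hb0 : ¬ Cme Γ π (x * p, π a.1) (x * p * z, w) := by
    intro hc
    have h1 := (cme_mul (Γ := Γ) (π := π) (x * p) (p := ((1 : RA Λ), π a.1)) (q := (z, w))).1
      (by simpa only [mul_one] using hc)
    exact g09_b hB ha (fun b hb => hR b hb) h1
  have hb1 : ¬ Cme Γ π (x * p, π a.1) (y, w) :=
    fun hc => hb0 (cme_ee hc (ee_refl _) hEw)
  refine ⟨(x * p, π a.1), ha1, hb1, ?_⟩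
  intro hc
  have s1 : Cnn2 Γ π (x * p, π a.1) (x * p, u) (x, u) :=
    Relation.ReflTransGen.single ⟨cme_of_ee hEu, ha0, ha1⟩
  have s2 : Cnn2 Γ π (x * p, π a.1) (y, w) (x * p * z, w) :=
    Relation.ReflTransGen.single ⟨cme_of_ee hEw, hb1, hb0⟩
  have h1 := cnn2_mul (x * p)⁻¹ ((s1.trans hc).trans s2)
  simp only [inv_mul_cancel, inv_mul_cancel_left] at h1
  have hn : ¬ Cme Γ π ((1 : RA Λ), π a.1) ((1 : RA Λ), u) := by
    intro hc
    apply ha0
    rw [cme_self] at hc ⊢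
    exact hc
  have h2 := side2_cnn hB hn h1
  simp only [nn_one] at h2
  exact ha h2.symm

end RaagGP
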