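import Pool.Agent.Lib.MP_32d917_al_gp.G01
import Pool.Agent.Lib.MP_32d917_al_raag.E02

/-!
# G08: a chamber is not separated by a star (60 min)

Compare `R01` (`MP_32d917_al_raag/R01.lean`): here the vertices of the extension graph are the pairs `(x, v)`.
-/

set_option autoImplicit false

namespace RaagGP

open RaagIso

variable {V W : Type} {Γ : SimpleGraph V} {Λ : SimpleGraph W} {π : W → V}

theorem g08_stp_symm {e a b : RA Λ × V} (h : Stp2 Γ π e a b) : Stp2 Γ π e b a :=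
  ⟨cme_symm h.1, h.2.2, h.2.1⟩

theorem cnn2_symm {e a b : RA Λ × V} (h : Cnn2 Γ π e a b) : Cnn2 Γ π e b a := by
  unfold Cnn2 at h ⊢
  induction h with
  | refl => exact Relation.ReflTransGen.refl
  | tail _ h2 ih => exact Relation.ReflTransGen.head (g08_stp_symm h2) ih

theorem cnn2_mul (g : RA Λ) {e a b : RA Λ × V} (h : Cnn2 Γ π e a b) :
    Cnn2 Γ π (g * e.1, e.2) (g * a.1, a.2) (g * b.1, b.2) := by
  unfold Cnn2 at h ⊢
  induction h with
  | refl => exact Relation.ReflTransGen.refl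
  | tail _ h2 ih =>
    exact ih.tail ⟨(cme_mul g).2 h2.1, fun h => h2.2.1 ((cme_mul g).1 h),
      fun h => h2.2.2 ((cme_mul g).1 h)⟩

theorem in_st {x z : RA Λ} {u v : V} (hz : ∀ a, Rt z a → π a.1 ∉ st Γ v)
    (h : Cme Γ π (x, u) (x * z, v)) : v ∈ st Γ u ∧ z ∈ PB Λ π (st Γ u) := by
  obtain ⟨h1, y, h2, h3⟩ := h
  constructor
  · rcases h1 with h1 | h1
    · exact Or.inl h1.symm
    · exact Or.inr h1
  · have h4 : z * ((x * z)⁻¹ * y) = x⁻¹ * y := by group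
    have h5 : z * ((x * z)⁻¹ * y) ∈ PP Λ (π ⁻¹' st Γ u) := by
      rw [h4]
      exact h2
    exact e02_sub (D := π ⁻¹' st Γ v) (fun a ha => hz a ha) h3 h5

theorem g08_edge {e : RA Λ × V} {a b : V} (hab : Γ.Adj a b) (ha : ¬ Cme Γ π e (1, a))
    (hb : ¬ Cme Γ π e (1, b)) : Cnn2 Γ π e ((1 : RA Λ), a) (1, b) :=
  Relation.ReflTransGen.single ⟨(cme_self 1 a b).2 (Or.inr hab), ha, hb⟩

theorem g08_star (hS : NoSep Γ) {e : RA Λ × V} {v : V}
    (h : ∀ a, a ∉ st Γ v → ¬ Cme Γ π e ((1 : RA Λ), a)) {a b : V} (ha : a ∉ st Γ v)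
    (hb : b ∉ st Γ v) : Cnn2 Γ π e ((1 : RA Λ), a) (1, b) := by
  refine hS v {y | Cnn2 Γ π e ((1 : RA Λ), a) (1, y)} ?_ a b ?_ ha hb
  · intro x y hx hxv hyv hxy
    exact Relation.ReflTransGen.trans hx (g08_edge hxy (h x hxv) (h y hyv))
  · exact Relation.ReflTransGen.refl

theorem insep2_one (hN : NoDom Γ) (hS : NoSep Γ) (e : RA Λ × V) {u w : V}
    (hu : ¬ Cme Γ π e ((1 : RA Λ), u)) (hw : ¬ Cme Γ π e ((1 : RA Λ), w)) :
    Cnn2 Γ π e ((1 : RA Λ), u) (1, w) := by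
  obtain ⟨g, v⟩ := e
  obtain ⟨p, hp, z, hz, hzr, -⟩ := gate_r (π ⁻¹' st Γ v) g
  have hE : Ee Γ π (g, v) (z, v) := by
    rw [hz]
    exact ee_right z v hp
  have hin : ∀ q : RA Λ × V, ¬ Cme Γ π (g, v) q → ¬ Cme Γ π (z, v) q :=
    fun q h h' => h (cme_ee h' (ee_symm hE) (ee_refl q))
  have hout : ∀ q : RA Λ × V, ¬ Cme Γ π (z, v) q → ¬ Cme Γ π (g, v) q :=
    fun q h h' => h (cme_ee h' hE (ee_refl q))
  have hcnn : ∀ a b : RA Λ × V, Cnn2 Γ π (z, v) a b → Cnn2 Γ π (g, v) a b := by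
    intro a b h
    unfold Cnn2 at h ⊢
    induction h with
    | refl => exact Relation.ReflTransGen.refl
    | tail _ hxy ih => exact ih.tail ⟨hxy.1, hout _ hxy.2.1, hout _ hxy.2.2⟩
  apply hcnn
  replace hu := hin _ hu
  replace hw := hin _ hw
  clear hcnn hout hin hE hz
  by_cases hz1 : z = 1
  · subst hz1
    have h2 : ∀ a, a ∉ st Γ v → ¬ Cme Γ π ((1 : RA Λ), v) (1, a) :=
      fun a ha h => ha ((cme_self 1 v a).1 h)
    have h4 : ∀ a, ¬ Cme Γ π ((1 : RA Λ), v) (1, a) → a ∉ st Γ v :=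
      fun a h ha => h ((cme_self 1 v a).2 ha)
    exact g08_star hS h2 (h4 u hu) (h4 w hw)
  · obtain ⟨a, ha⟩ := exists_rt hz1
    set t := π a.1 with ht
    have htv : t ∉ st Γ v := hzr a ha
    have hts : a.1 ∈ sup z := rt_sup ha
    have hvt : v ∉ st Γ t := by
      rintro (h | h)
      · exact htv (Or.inl h.symm)
      · exact htv (Or.inr h.symm)
    have hne : v ≠ t := fun h => hvt (Or.inl h)
    have hT : ∀ b : V, Cme Γ π (z, v) ((1 : RA Λ), b) → Γ.Adj b v ∧ Γ.Adj b t := by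
      intro b hb
      have h1 : Cme Γ π ((1 : RA Λ), b) (1 * z, v) := by
        rw [one_mul]
        exact cme_symm hb
      obtain ⟨h3, h2⟩ := in_st (x := 1) (fun a ha => hzr a ha) h1
      have h4 : t ∈ st Γ b := mem_pp.1 h2 hts
      rcases h3 with h3 | h3
      · subst h3
        exact absurd h4 htv
      · rcases h4 with h4 | h4
        · rw [← h4] at h3
          exact absurd (Or.inr h3 : v ∈ st Γ t) hvt
        · exact ⟨h3, h4⟩
    have hv1 : ∀ b, b ∉ st Γ v → ¬ Cme Γ π (z, v) ((1 : RA Λ), b) :=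
      fun b hb h => hb (Or.inr (hT b h).1.symm)
    have ht1 : ∀ b, b ∉ st Γ t → ¬ Cme Γ π (z, v) ((1 : RA Λ), b) :=
      fun b hb h => hb (Or.inr (hT b h).2.symm)
    have hvT : ¬ Cme Γ π (z, v) ((1 : RA Λ), v) := ht1 v hvt
    -- (i), (ii)
    have h1 : ∀ b, b ∉ st Γ v → Cnn2 Γ π (z, v) ((1 : RA Λ), t) (1, b) :=
      fun b hb => g08_star hS hv1 htv hb
    have h2 : ∀ b, b ∉ st Γ t → Cnn2 Γ π (z, v) ((1 : RA Λ), v) (1, b) :=
      fun b hb => g08_star hS ht1 hvt hb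
    -- (iv)
    have h4 : Cnn2 Γ π (z, v) ((1 : RA Λ), v) (1, t) := by
      obtain ⟨z1, hz1a, hz1b⟩ := hN v t hne
      obtain ⟨y1, hy1a, hy1b⟩ := hN z1 v hz1a.ne'
      exact ((g08_edge hz1a hvT (ht1 z1 hz1b)).trans
        (g08_edge hy1a (ht1 z1 hz1b) (hv1 y1 hy1b))).trans (cnn2_symm (h1 y1 hy1b))
    -- everything is connected to `t`
    have h5 : ∀ b, ¬ Cme Γ π (z, v) ((1 : RA Λ), b) →
        Cnn2 Γ π (z, v) ((1 : RA Λ), t) (1, b) := by
      intro b hb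
      by_cases hbv : b ∈ st Γ v
      · by_cases hbt : b ∈ st Γ t
        · have h6 : Γ.Adj v b := by
            rcases hbv with h | h
            · subst h
              exact absurd hbt hvt
            · exact h
          exact (cnn2_symm h4).trans (g08_edge h6 hvT hb)
        · exact (cnn2_symm h4).trans (h2 b hbt)
      · exact h1 b hbv
    exact (cnn2_symm (h5 u hu)).trans (h5 w hw)

theorem insep2 (hB : BU Γ Λ π) (hN : NoDom Γ) (hS : NoSep Γ) (x : RA Λ) (e : RA Λ × V) {u w : V}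
    (hu : ¬ Cme Γ π e (x, u)) (hw : ¬ Cme Γ π e (x, w)) : Cnn2 Γ π e (x, u) (x, w) := by
  have he : (x * (x⁻¹ * e.1), e.2) = e := by
    rw [mul_inv_cancel_left]
  have key : ∀ t : V, ¬ Cme Γ π e (x, t) → ¬ Cme Γ π (x⁻¹ * e.1, e.2) ((1 : RA Λ), t) := by
    intro t h h'
    apply h
    have h2 := (cme_mul x (p := (x⁻¹ * e.1, e.2)) (q := ((1 : RA Λ), t))).2 h'
    simp only [mul_one] at h2
    rwa [he] at h2
  have h3 := cnn2_mul x (insep2_one hN hS (x⁻¹ * e.1, e.2) (key u hu) (key w hw))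
  simp only [mul_one] at h3
  rwa [he] at h3

end RaagGP
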