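import Pool.Agent.Lib.MP_32d917_al_gp.G08
import Pool.Agent.Lib.MP_32d917_al_gp.G09
import Pool.Agent.Lib.MP_32d917_al_raag.E02

/-!
# G10: isomorphisms of the extension graph map chambers to chambers (75 min)

Compare `R03` (`MP_32d917_al_raag/R03.lean`).

`center2`: if `x ∈ PB (st v)` for all `v` then `x = 1`: if `s ∈ sup x` then `π s ∈ st Γ v` for all `v`, so all vertices are in `st Γ u`, `u = π s`; take `w ≠ u` and `z` adjacent to `w`, `z ∉ st Γ u` (`NoDom w u`).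

`emp2_symm`. `cnn2_map`: a path outside the star of `e` is mapped to a path outside the star of `Φ e` (`Emp2.comm`).

`chamber2`: for `x : RA Λ` let `(g v, t v) = Φ (x, v)`. The cosets `g v * PB (st (t v))` intersect pairwise: otherwise `sepr2` gives `e'`; let `e = Ψ e'`; `Φ e` and `e'` are equivalent (`right`), so by `comm` (and `cme_ee`) `(x, v)` and `(x, w)` are not in the star of `e`; by `insep2` they are
connected outside the star of `e`, so `(g v, t v)`, `(g w, t w)` are connected outside the star of `Φ e`, so outside the star of `e'`: contradiction. By `helly` (`E02`, index set `V`, sets `π' ⁻¹' st Γ' (t v)`) there is `x'` with `(g v)⁻¹ * x' ∈ PB (st (t v))` for all `v`,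
so `Ee (Φ (x, v)) (x', t v)`.
Apply this to `Φ` and to `Ψ` and choose `f`, `t`, `f'`, `t'`. `Ψ (Φ (x, v))` is equivalent to `(x, v)` and (by `ee'`) to `Ψ (f x, t x v)`, so to `(f' (f x), t' (f x) (t x v))`. So `t' (f x) (t x v) = v` and `(f' (f x))⁻¹ * x ∈ PB (st v)` for all `v` (the second component is `v`), so
`f' (f x) = x` by `center2`. The same for the other side. So `f` is a bijection and `t x` is a bijection with inverse `t' (f x)` (use `f (f' x') = x'` and `t (f' x') (t' x' v') = v'` at `x' = f x`).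
-/

set_option autoImplicit false

namespace RaagGP

open RaagIso

variable {V W V' W' : Type} {Γ : SimpleGraph V} {Λ : SimpleGraph W} {π : W → V}
  {Γ' : SimpleGraph V'} {Λ' : SimpleGraph W'} {π' : W' → V'}

theorem center2 (hN : NoDom Γ) (h2 : ∃ a b : V, a ≠ b) {x : RA Λ}
    (h : ∀ v, x ∈ PB Λ π (st Γ v)) : x = 1 := by
  apply sup_eq_empty
  rw [Set.eq_empty_iff_forall_notMem]
  intro s hs
  have h1 : ∀ v, π s ∈ st Γ v := fun v => mem_pp.1 (h v) hs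
  obtain ⟨w, hw⟩ : ∃ w, w ≠ π s := by
    obtain ⟨a, b, hab⟩ := h2
    by_cases h3 : a = π s
    · exact ⟨b, fun h4 => hab (h3.trans h4.symm)⟩
    · exact ⟨a, h3⟩
  obtain ⟨z, hz1, hz2⟩ := hN w (π s) hw
  apply hz2
  rcases h1 z with h3 | h3
  · exact Or.inl h3.symm
  · exact Or.inr h3.symm

theorem g10_symm {Φ : RA Λ × V → RA Λ' × V'} {Ψ : RA Λ' × V' → RA Λ × V}
    (h : Emp2 Γ Γ' π π' Φ Ψ) : Emp2 Γ' Γ π' π Ψ Φ where
  ee := h.ee'
  ee' := h.ee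
  left := h.right
  right := h.left
  comm := by
    intro p q
    rw [h.comm (Ψ p) (Ψ q)]
    constructor
    · intro h1
      exact cme_ee h1 (ee_symm (h.right p)) (ee_symm (h.right q))
    · intro h1
      exact cme_ee h1 (h.right p) (h.right q)

theorem g10_map {Φ : RA Λ × V → RA Λ' × V'} {Ψ : RA Λ' × V' → RA Λ × V}
    (h : Emp2 Γ Γ' π π' Φ Ψ) {e a b : RA Λ × V} (hab : Cnn2 Γ π e a b) :
    Cnn2 Γ' π' (Φ e) (Φ a) (Φ b) := by
  refine Relation.ReflTransGen.lift (r := Stp2 Γ π e) (p := Stp2 Γ' π' (Φ e)) Φ ?_ _ _ hab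
  rintro c d ⟨h1, h2, h3⟩
  exact ⟨(h.comm c d).1 h1, fun h4 => h2 ((h.comm e c).2 h4), fun h4 => h3 ((h.comm e d).2 h4)⟩

theorem g10_ee {e e' a b : RA Λ × V} (he : Ee Γ π e e') (h : Cnn2 Γ π e a b) :
    Cnn2 Γ π e' a b := by
  refine Relation.ReflTransGen.lift (r := Stp2 Γ π e) (p := Stp2 Γ π e') id ?_ _ _ h
  rintro c d ⟨h1, h2, h3⟩
  exact ⟨h1, fun h4 => h2 (cme_ee h4 (ee_symm he) (ee_refl _)),
    fun h4 => h3 (cme_ee h4 (ee_symm he) (ee_refl _))⟩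

theorem g10_one [Finite V] (hB : BU Γ Λ π) (hN : NoDom Γ) (hS : NoSep Γ) (hB' : BU Γ' Λ' π')
    {Φ : RA Λ × V → RA Λ' × V'} {Ψ : RA Λ' × V' → RA Λ × V} (h : Emp2 Γ Γ' π π' Φ Ψ)
    (x : RA Λ) : ∃ (x' : RA Λ') (t : V → V'), ∀ v, Ee Γ' π' (Φ (x, v)) (x', t v) := by
  have h3 : ∀ v w, ∃ p ∈ PB Λ' π' (st Γ' (Φ (x, v)).2), ∃ q ∈ PB Λ' π' (st Γ' (Φ (x, w)).2),
      (Φ (x, v)).1 * p = (Φ (x, w)).1 * q := by
    intro v w
    by_contra h4
    obtain ⟨e, h5, h6, h7⟩ := sepr2 hB' (Φ (x, v)).1 (Φ (x, w)).1 (Φ (x, v)).2 (Φ (x, w)).2 h4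
    have h8 : ∀ u, ¬ Cme Γ' π' e (Φ (x, u)) → ¬ Cme Γ π (Ψ e) (x, u) := by
      intro u hu h9
      exact hu (cme_ee ((h.comm _ _).1 h9) (h.right e) (ee_refl _))
    have h9 := insep2 hB hN hS x (Ψ e) (h8 v h5) (h8 w h6)
    exact h7 (g10_ee (h.right e) (g10_map h h9))
  obtain ⟨y, hy⟩ := helly (fun v => (Φ (x, v)).1) (fun v => π' ⁻¹' st Γ' (Φ (x, v)).2) h3
  exact ⟨y, fun v => (Φ (x, v)).2, fun v => ⟨rfl, hy v⟩⟩

theorem g10_pair (hN : NoDom Γ) (h2 : ∃ a b : V, a ≠ b) {Φ : RA Λ × V → RA Λ' × V'}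
    {Ψ : RA Λ' × V' → RA Λ × V} (h : Emp2 Γ Γ' π π' Φ Ψ) {f : RA Λ → RA Λ'} {t : RA Λ → V → V'}
    {f' : RA Λ' → RA Λ} {t' : RA Λ' → V' → V} (hf : ∀ x v, Ee Γ' π' (Φ (x, v)) (f x, t x v))
    (hf' : ∀ y w, Ee Γ π (Ψ (y, w)) (f' y, t' y w)) (x : RA Λ) :
    f' (f x) = x ∧ ∀ v, t' (f x) (t x v) = v := by
  have h1 : ∀ v, Ee Γ π (x, v) (f' (f x), t' (f x) (t x v)) := fun v =>
    ee_trans (ee_symm (h.left (x, v))) (ee_trans (h.ee' _ _ (hf x v)) (hf' (f x) (t x v)))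
  refine ⟨?_, fun v => (h1 v).1.symm⟩
  have h4 : x⁻¹ * f' (f x) = 1 := center2 hN h2 (fun v => (h1 v).2)
  exact (inv_mul_eq_one.1 h4).symm

theorem chamber2 [Finite V] [Finite V'] (hB : BU Γ Λ π) (hN : NoDom Γ) (hS : NoSep Γ)
    (h2 : ∃ a b : V, a ≠ b) (hB' : BU Γ' Λ' π') (hN' : NoDom Γ') (hS' : NoSep Γ')
    (h2' : ∃ a b : V', a ≠ b) {Φ : RA Λ × V → RA Λ' × V'} {Ψ : RA Λ' × V' → RA Λ × V}
    (h : Emp2 Γ Γ' π π' Φ Ψ) : ∃ (f : RA Λ ≃ RA Λ') (τ : RA Λ → V ≃ V'),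
      ∀ x v, Ee Γ' π' (Φ (x, v)) (f x, τ x v) := by
  choose f t hf using fun x => g10_one hB hN hS hB' h x
  choose f' t' hf' using fun y => g10_one hB' hN' hS' hB (g10_symm h) y
  have p1 := g10_pair hN h2 h hf hf'
  have p2 := g10_pair hN' h2' (g10_symm h) hf' hf
  refine ⟨⟨f, f', fun x => (p1 x).1, fun y => (p2 y).1⟩, fun x =>
    ⟨t x, t' (f x), fun v => (p1 x).2 v, fun w => ?_⟩, fun x v => hf x v⟩
  have h3 := (p2 (f x)).2 w
  rw [(p1 x).1] at h3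
  exact h3

end RaagGP
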