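import Pool.Agent.Lib.MP_32d917_al_raag.W03
import Pool.Agent.Lib.MP_32d917_al_raag.BDefs
import Pool.Agent.Lib.MP_32d917_al_adm.WCDefs

/-!
# Graph products of free and free abelian groups: definitions

`Γ` is a graph on `V`, `Λ` a graph on `W` obtained from `Γ` by replacing every vertex `v` by the
fibre of `π : W → V` over `v`, which is edgeless or complete. So `RA Λ` is the graph product over `Γ`
of the vertex groups `PB Λ π {v}`, which are free or free abelian.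
-/

set_option autoImplicit false

namespace RaagGP

open RaagIso

section Basic

variable {V W : Type}

/-- `Λ` is obtained from `Γ` by replacing the vertices by edgeless or complete graphs -/
structure BU (Γ : SimpleGraph V) (Λ : SimpleGraph W) (π : W → V) : Prop where
  surj : Function.Surjective π
  adj : ∀ a b, π a ≠ π b → (Λ.Adj a b ↔ Γ.Adj (π a) (π b))
  uni : ∀ v, (∀ a b, π a = v → π b = v → a ≠ b → Λ.Adj a b) ∨
    (∀ a b, π a = v → π b = v → ¬ Λ.Adj a b)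

/-- the standard subgroup of the letters over a set of vertices -/
def PB (Λ : SimpleGraph W) (π : W → V) (D : Set V) : Subgroup (RA Λ) := PP Λ (π ⁻¹' D)

variable {Λ : SimpleGraph W}

/-- two pairs give the same vertex of the extension graph -/
def Ee (Γ : SimpleGraph V) (π : W → V) (p q : RA Λ × V) : Prop :=
  p.2 = q.2 ∧ p.1⁻¹ * q.1 ∈ PB Λ π (st Γ p.2)

/-- equal or adjacent in the extension graph -/
def Cme (Γ : SimpleGraph V) (π : W → V) (p q : RA Λ × V) : Prop :=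
  (p.2 = q.2 ∨ Γ.Adj p.2 q.2) ∧
    ∃ x, p.1⁻¹ * x ∈ PB Λ π (st Γ p.2) ∧ q.1⁻¹ * x ∈ PB Λ π (st Γ q.2)

/-- steps outside the star of `e` -/
def Stp2 (Γ : SimpleGraph V) (π : W → V) (e a b : RA Λ × V) : Prop :=
  Cme Γ π a b ∧ ¬ Cme Γ π e a ∧ ¬ Cme Γ π e b

/-- `a` and `b` are connected outside the star of `e` -/
def Cnn2 (Γ : SimpleGraph V) (π : W → V) (e a b : RA Λ × V) : Prop :=
  Relation.ReflTransGen (Stp2 Γ π e) a b

/-- `x` is a nontrivial element of the vertex subgroup `p` -/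
def InG (π : W → V) (p : RA Λ × V) (x : RA Λ) : Prop :=
  ∃ y ∈ PB Λ π {p.2}, y ≠ 1 ∧ x = p.1 * y * p.1⁻¹

end Basic

section Abstract

variable {G : Type} [Group G]

/-- `y` commutes with all commutators of elements commuting with `x` -/
def Cc (x y : G) : Prop := ∀ c d : G, c * x = x * c → d * x = x * d →
  y * (c * d * c⁻¹ * d⁻¹) = c * d * c⁻¹ * d⁻¹ * y

/-- group theoretic characterisation of the nontrivial elements of the vertex subgroups -/
def Pu (x : G) : Prop := x ≠ 1 ∧ ∀ y : G, y ≠ 1 → Cc x y → ∀ z : G, Cc x z → Cc y z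

end Abstract

section Maps

variable {V W V' W' : Type} {Λ : SimpleGraph W} {Λ' : SimpleGraph W'}

/-- isomorphisms of the extension graphs, with inverse -/
structure Emp2 (Γ : SimpleGraph V) (Γ' : SimpleGraph V') (π : W → V) (π' : W' → V')
    (Φ : RA Λ × V → RA Λ' × V') (Ψ : RA Λ' × V' → RA Λ × V) : Prop where
  ee : ∀ p q, Ee Γ π p q → Ee Γ' π' (Φ p) (Φ q)
  ee' : ∀ p q, Ee Γ' π' p q → Ee Γ π (Ψ p) (Ψ q)
  left : ∀ p, Ee Γ π (Ψ (Φ p)) p
  right : ∀ p, Ee Γ' π' (Φ (Ψ p)) p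
  comm : ∀ p q, Cme Γ π p q ↔ Cme Γ' π' (Φ p) (Φ q)

/-- generalised isomorphisms -/
structure GI2 (Γ : SimpleGraph V) (Γ' : SimpleGraph V') (π : W → V) (π' : W' → V')
    (f : RA Λ → RA Λ') (τ : RA Λ → V ≃ V') : Prop where
  adj : ∀ x v w, Γ.Adj v w ↔ Γ'.Adj (τ x v) (τ x w)
  mem : ∀ x v g, g ∈ PB Λ π {v} → (f x)⁻¹ * f (x * g) ∈ PB Λ' π' {τ x v}
  tau : ∀ x v w g, g ∈ PB Λ π {v} → w ∈ st Γ v → τ (x * g) w = τ x w
  lam : ∀ x v g y, g ∈ PB Λ π {v} → y ∈ PB Λ π (lk Γ v) →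
    (f (x * y))⁻¹ * f (x * y * g) = (f x)⁻¹ * f (x * g)

end Maps

section Data

variable {V W V' W' C C' : Type} {Λ : SimpleGraph W} {Λ' : SimpleGraph W'}

/-- the points `c` and `d` have the same position with respect to `v` -/
def Ps (Γ : SimpleGraph V) (π : W → V) (ρ : RA Λ →* Equiv.Perm C) (v : V) (c d : C) : Prop :=
  ∃ x ∈ PB Λ π (lk Γ v), rm ρ c x = d

/-- the stabiliser of the position of `c` in the vertex group of `v` -/
def Pst (Γ : SimpleGraph V) (π : W → V) (ρ : RA Λ →* Equiv.Perm C) (v : V) (c : C) :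
    Subgroup (RA Λ) where
  carrier := {g | g ∈ PB Λ π {v} ∧ ∀ d, Ps Γ π ρ v c d ↔ Ps Γ π ρ v c (rm ρ d g)}
  mul_mem' := by
    rintro a b ⟨ha, ha'⟩ ⟨hb, hb'⟩
    refine ⟨mul_mem ha hb, fun d => ?_⟩
    rw [rm_mul, ← hb', ← ha']
  one_mem' := ⟨one_mem _, fun d => by rw [rm_one]⟩
  inv_mem' := by
    rintro a ⟨ha, ha'⟩
    refine ⟨inv_mem ha, fun d => ?_⟩
    rw [ha' (rm ρ d a⁻¹), ← rm_mul, inv_mul_cancel, rm_one]

/-- finite data of an isomorphism: `la c v` is the restriction of the map to the vertex group of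
`v` at the point `c` -/
structure Dt2 (Γ : SimpleGraph V) (Γ' : SimpleGraph V') (π : W → V) (π' : W' → V')
    (ρ : RA Λ →* Equiv.Perm C) (ρ' : RA Λ' →* Equiv.Perm C') (F : C ≃ C')
    (τ : C → V ≃ V') (la : C → V → RA Λ → RA Λ') : Prop where
  adj : ∀ c v w, Γ.Adj v w ↔ Γ'.Adj (τ c v) (τ c w)
  tau : ∀ c v w g, g ∈ PB Λ π {v} → w ∈ st Γ v → τ (rm ρ c g) w = τ c w
  mem : ∀ c v g, g ∈ PB Λ π {v} → la c v g ∈ PB Λ' π' {τ c v}
  mul : ∀ c v g h, g ∈ PB Λ π {v} → h ∈ PB Λ π {v} →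
    la c v (g * h) = la c v g * la (rm ρ c g) v h
  lam : ∀ c v g y, g ∈ PB Λ π {v} → y ∈ PB Λ π (lk Γ v) → la (rm ρ c y) v g = la c v g
  act : ∀ c v g, g ∈ PB Λ π {v} → F (rm ρ c g) = rm ρ' (F c) (la c v g)
  surj : ∀ c v g', g' ∈ PB Λ' π' {τ c v} → ∃ g ∈ PB Λ π {v}, la c v g = g'
  inj : ∀ c v g h, g ∈ PB Λ π {v} → h ∈ PB Λ π {v} → la c v g = la c v h → g = h

/-- finite data of an isomorphism, second form -/
structure Nm2 (Γ : SimpleGraph V) (Γ' : SimpleGraph V') (π : W → V) (π' : W' → V')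
    (ρ : RA Λ →* Equiv.Perm C) (ρ' : RA Λ' →* Equiv.Perm C') (F : C ≃ C')
    (τ : C → V ≃ V') : Prop where
  adj : ∀ c v w, Γ.Adj v w ↔ Γ'.Adj (τ c v) (τ c w)
  tau : ∀ c a w, w ∈ st Γ (π a) → τ (rm ρ c (gen a)) w = τ c w
  orb : ∀ c d v, (∃ g ∈ PB Λ π {v}, rm ρ c g = d) ↔
    ∃ g' ∈ PB Λ' π' {τ c v}, rm ρ' (F c) g' = F d
  pos : ∀ c a, ∃ g ∈ PB Λ π {π a}, ∃ g' ∈ PB Λ' π' {τ c (π a)},
    Ps Γ π ρ (π a) (rm ρ c (gen a)) (rm ρ c g) ∧
      ∀ d, Ps Γ π ρ (π a) c d → F (rm ρ d g) = rm ρ' (F d) g'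
  blk : ∀ c v, ∃ Ψ : Pst Γ π ρ v c ≃* Pst Γ' π' ρ' (τ c v) (F c),
    ∀ (p : Pst Γ π ρ v c) (d : C), Ps Γ π ρ v c d → F (rm ρ d p) = rm ρ' (F d) (Ψ p)

end Data

section Bases

/-- the graph without edges or the complete graph on `r` vertices -/
def KG (ty : Bool) (r : ℕ) : SimpleGraph (Fin r) := if ty then ⊤ else ⊥

/-- the vertex group of `v` is free abelian of rank at least two -/
def Tyc {V W : Type} (Λ : SimpleGraph W) (π : W → V) (v : V) : Prop :=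
  ∃ a b, π a = v ∧ π b = v ∧ Λ.Adj a b

/-- `β` is a basis of the subgroup `P` of type `ty` (`true`: free abelian, `false`: free) -/
def IsBas {G : Type} [Group G] (ty : Bool) (r : ℕ) (β : Fin r → G) (P : Subgroup G) : Prop :=
  ∃ e : RA (KG ty r) ≃* P, ∀ k, ((e (gen k) : P) : G) = β k

/-- value of a word at a tuple; letters `≥ r` are killed -/
def wev {X : Type} [Group X] {r : ℕ} (t : Fin r → X) (l : List (ℕ × Bool)) : X :=
  (l.map fun a => if h : a.1 < r then (if a.2 then t ⟨a.1, h⟩ else (t ⟨a.1, h⟩)⁻¹) else 1).prod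

/-- sets of tuples which are closed under the moves -/
def Clo {X : Type} [Group X] (r : ℕ) (S : Set (Fin r → X)) : Prop :=
  ∀ t ∈ S, ∀ m ∈ AdmIso.mvs r, (fun k : Fin r => wev t (AdmIso.fM m ((k : ℕ), true))) ∈ S

end Bases

end RaagGP
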