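import Pool.Agent.Lib.MP_32d917_al_raag.CDefs
import Pool.Agent.Lib.MP_32d917_al_gp.Defs

/-!
# Codes for subgroups of finite index of graph products: definitions

A code `(c, k, a, q)` describes: by `c : Cd` the graph `Λ` and the action of its right-angled Artin
group, by `k`, `a` the graph `Γ` with the vertices `0, ..., k` (digits of `a` in base two), and by the
digits of `q` in base `k + 1` the map `π` from the vertices of `Λ` to those of `Γ`.
-/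

set_option autoImplicit false

namespace RaagGP

open LatIso RaagIso
open AdmIso (Wd mvs fM cmW)

/-- codes -/
abbrev Cd2 : Type := Cd × ℕ × ℕ × ℕ

/-- number of vertices of `Γ` -/
abbrev kG (c : Cd2) : ℕ := c.2.1 + 1

/-- adjacency of `Γ` -/
def AdG (c : Cd2) (v w : ℕ) : Prop := ¬ v = w ∧
  (CB.dg 1 c.2.2.1 (v * kG c + w) = 1 ∨ CB.dg 1 c.2.2.1 (w * kG c + v) = 1)

instance (c : Cd2) (v w : ℕ) : Decidable (AdG c v w) := by unfold AdG; infer_instance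

/-- star -/
def StG (c : Cd2) (v w : ℕ) : Prop := w = v ∨ AdG c v w

instance (c : Cd2) (v w : ℕ) : Decidable (StG c v w) := by unfold StG; infer_instance

/-- the map `π` -/
def piN (c : Cd2) (a : ℕ) : ℕ := CB.dg c.2.1 c.2.2.2 a

/-- the graph `Γ` of a code -/
def grG (c : Cd2) : SimpleGraph (Fin (kG c)) where
  Adj v w := AdG c v w
  symm := by
    constructor
    intro v w h
    exact ⟨fun e => h.1 e.symm, h.2.symm⟩
  loopless := by
    constructor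
    intro v h
    exact h.1 rfl

/-- the map `π` of a code -/
def piF (c : Cd2) (a : Fin (cK c.1)) : Fin (kG c) := ⟨piN c a, CB.dg_lt _ _ _⟩

/-- validity of the action -/
def ActV (c : Cd) : Prop :=
  (∀ i < cM c, ∀ v < cK c, riN c (rmN c i v) v = i ∧ rmN c (riN c i v) v = i) ∧
  (∀ i < cM c, ∀ v < cK c, ∀ w < cK c, AdN c v w → rmN c (rmN c i v) w = rmN c (rmN c i w) v)

/-- validity of codes -/
def ValN2 (c : Cd2) : Prop :=
  1 ≤ c.2.1 ∧ ActV c.1 ∧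
  (∀ v < kG c, ∃ a < cK c.1, piN c a = v) ∧
  (∀ a < cK c.1, ∀ b < cK c.1, ¬ piN c a = piN c b →
    (AdN c.1 a b ↔ AdG c (piN c a) (piN c b))) ∧
  (∀ v < kG c, (∀ a < cK c.1, ∀ b < cK c.1, piN c a = v → piN c b = v → ¬ a = b →
      AdN c.1 a b) ∨
    (∀ a < cK c.1, ∀ b < cK c.1, piN c a = v → piN c b = v → ¬ AdN c.1 a b)) ∧
  (∀ v < kG c, ∀ w < kG c, ¬ v = w → ∃ u < kG c, AdG c v u ∧ ¬ StG c w u) ∧
  (∀ v < kG c, ∀ s < 2 ^ kG c,
    (∀ a < kG c, ∀ b < kG c, CB.dg 1 s a = 1 → ¬ StG c v a → ¬ StG c v b → AdG c a b →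
      CB.dg 1 s b = 1) →
    ∀ a < kG c, ∀ b < kG c, CB.dg 1 s a = 1 → ¬ StG c v a → ¬ StG c v b → CB.dg 1 s b = 1)

/-- `c` is a code of the group presented by `P` -/
def CodeFor2 (P : Pres) (c : Cd2) : Prop :=
  ValN2 c ∧ ∃ z : List Wd × List Wd × List Wd, Cert c.1 P z

/-! ### Orbits -/

/-- `j` is in the orbit of `i` under the letters in `D` -/
def OrD (c : Cd) (D : ℕ → Prop) (i j : ℕ) : Prop :=
  ∀ s < 2 ^ cM c, CB.dg 1 s i = 1 →
    (∀ x < cM c, ∀ a < cK c, D a → CB.dg 1 s x = 1 → CB.dg 1 s (rmN c x a) = 1) →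
    CB.dg 1 s j = 1

/-- same position with respect to `v` -/
def PsN (c : Cd2) (v i j : ℕ) : Prop := OrD c.1 (fun a => AdG c v (piN c a)) i j

/-- same orbit of the vertex group of `v` -/
def ClN (c : Cd2) (v i j : ℕ) : Prop := OrD c.1 (fun a => piN c a = v) i j

/-- the vertex group of `v` is free abelian of rank at least two -/
def TyN (c : Cd2) (v : ℕ) : Prop :=
  ∃ a < cK c.1, ∃ b < cK c.1, piN c a = v ∧ piN c b = v ∧ AdN c.1 a b

instance (c : Cd2) (v : ℕ) : Decidable (TyN c v) := by unfold TyN; infer_instance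

/-! ### Matchings -/

/-- matchings: digits of `F` and `τ` -/
abbrev Mt2 : Type := ℕ × ℕ

def FN2 (c : Cd2) (t : Mt2) (i : ℕ) : ℕ := CB.dg c.1.1.2 t.1 i
def tN2 (c : Cd2) (t : Mt2) (i v : ℕ) : ℕ := CB.dg c.2.1 t.2 (i * kG c + v)

/-- the conditions `adj`, `tau`, `orb` -/
def MatN2 (c c' : Cd2) (t : Mt2) : Prop :=
  (c'.1.1.2 = c.1.1.2 ∧ c'.2.1 = c.2.1) ∧
  (∀ i < cM c.1, ∀ j < cM c.1, FN2 c t i = FN2 c t j → i = j) ∧
  (∀ i < cM c.1, ∀ v < kG c, ∀ w < kG c, tN2 c t i v = tN2 c t i w → v = w) ∧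
  (∀ i < cM c.1, ∀ v < kG c, ∀ w < kG c, (AdG c v w ↔ AdG c' (tN2 c t i v) (tN2 c t i w))) ∧
  (∀ i < cM c.1, ∀ a < cK c.1, ∀ w < kG c, StG c (piN c a) w →
    tN2 c t (rmN c.1 i a) w = tN2 c t i w) ∧
  (∀ i < cM c.1, ∀ j < cM c.1, ∀ v < kG c,
    (ClN c v i j ↔ ClN c' (tN2 c t i v) (FN2 c t i) (FN2 c t j)))

/-- the words in `L` give all actions of elements of the vertex group of `v` -/
def FullL (c : Cd2) (v : ℕ) (L : List Wd) : Prop :=
  [] ∈ L ∧ (∀ U ∈ L, ∀ l ∈ U, l.1 < cK c.1 ∧ piN c l.1 = v) ∧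
  ∀ U ∈ L, ∀ a < cK c.1, piN c a = v → ∃ U' ∈ L, ∀ d < cM c.1,
    rmN c.1 (runN c.1 d U) a = runN c.1 d U'

/-- certificate for the failure of `pos` at the point `i` and the letter `a` -/
def PosC (c c' : Cd2) (t : Mt2) (z : (ℕ × ℕ) × (List Wd × List Wd)) : Prop :=
  z.1.1 < cM c.1 ∧ z.1.2 < cK c.1 ∧ FullL c (piN c z.1.2) z.2.1 ∧
  FullL c' (tN2 c t z.1.1 (piN c z.1.2)) z.2.2 ∧
  ∀ U ∈ z.2.1, ∀ U' ∈ z.2.2, ¬ (PsN c (piN c z.1.2) (rmN c.1 z.1.1 z.1.2) (runN c.1 z.1.1 U) ∧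
    ∀ d < cM c.1, PsN c (piN c z.1.2) z.1.1 d →
      FN2 c t (runN c.1 d U) = runN c'.1 (FN2 c t d) U')

/-- presentation of the free or free abelian group of rank `r` -/
def KP (b : Bool) (r : ℕ) : Pres :=
  (r, if b = true then (List.range r).flatMap fun i => (List.range r).map fun j => cmW i j else [])

/-- the word `w` represents an element of the position stabiliser -/
def InP (c : Cd2) (v i : ℕ) (w : Wd) : Prop :=
  (∀ l ∈ w, l.1 < cK c.1 ∧ piN c l.1 = v) ∧ PsN c v i (runN c.1 i w)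

/-- certificate that the words `b` are a basis of the position stabiliser of `v` and `i`: `x` is a
cocycle with values in the free or free abelian group, `g` are paths to the points -/
def BasN (c : Cd2) (v i : ℕ) (b x g : List Wd) : Prop :=
  (∀ w ∈ b, InP c v i w) ∧
  (∀ r ∈ (KP (decide (TyN c v)) b.length).2, TrivW (RP c.1) (sbw b r)) ∧
  (∀ j < cM c.1, ∀ u < cK c.1, ∀ w < cK c.1, AdN c.1 u w →
    TrivW (KP (decide (TyN c v)) b.length) (xg c.1 x j u ++ xg c.1 x (rmN c.1 j u) w ++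
      FreeGroup.invRev (xg c.1 x j w ++ xg c.1 x (rmN c.1 j w) u))) ∧
  (∀ j < cM c.1, ∀ a < cK c.1, ¬ piN c a = v → xg c.1 x j a = []) ∧
  (∀ k < b.length, TrivW (KP (decide (TyN c v)) b.length)
    (liftN c.1 x i (b.getD k []) ++ [(k, false)])) ∧
  (∀ j < cM c.1, PsN c v i j → g.getD j [] = []) ∧
  (∀ j < cM c.1, ClN c v i j → ∀ a < cK c.1, piN c a = v → TrivW (RP c.1)
    (sbw b (xg c.1 x j a) ++ FreeGroup.invRev (g.getD j [] ++ [(a, true)] ++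
      FreeGroup.invRev (g.getD (rmN c.1 j a) [])))) ∧
  (TyN c v → 2 ≤ b.length)

/-- `L` is a list of bases which is closed under the moves up to the action, contains `b'`, and does not
contain a basis which acts as `b` -/
def OrbC (c c' : Cd2) (t : Mt2) (i v : ℕ) (b b' : List Wd) (L : List (List Wd)) : Prop :=
  b' ∈ L ∧
  (∀ U ∈ L, ∀ k < b.length, InP c' (tN2 c t i v) (FN2 c t i) (U.getD k [])) ∧
  (∀ U ∈ L, ∀ m ∈ mvs b.length, ∃ U' ∈ L, ∀ k < b.length, ∀ d < cM c.1, PsN c v i d →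
    runN c'.1 (FN2 c t d) (sbw U (fM m (k, true))) = runN c'.1 (FN2 c t d) (U'.getD k [])) ∧
  ∀ U ∈ L, ∃ k < b.length, ∃ d < cM c.1, PsN c v i d ∧
    ¬ FN2 c t (runN c.1 d (b.getD k [])) = runN c'.1 (FN2 c t d) (U.getD k [])

/-- certificate for the failure of `blk` at the point `i` and the vertex `v` -/
def BlkC (c c' : Cd2) (t : Mt2)
    (z : (ℕ × ℕ) × (List Wd × List Wd × List Wd) × (List Wd × List Wd × List Wd) ×
      List (List Wd)) : Prop :=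
  z.1.1 < cM c.1 ∧ z.1.2 < kG c ∧
  BasN c z.1.2 z.1.1 z.2.1.1 z.2.1.2.1 z.2.1.2.2 ∧
  BasN c' (tN2 c t z.1.1 z.1.2) (FN2 c t z.1.1) z.2.2.1.1 z.2.2.1.2.1 z.2.2.1.2.2 ∧
  (¬ z.2.1.1.length = z.2.2.1.1.length ∨
    (¬ (TyN c z.1.2 ↔ TyN c' (tN2 c t z.1.1 z.1.2)) ∧ 2 ≤ z.2.1.1.length) ∨
    ((TyN c z.1.2 ↔ TyN c' (tN2 c t z.1.1 z.1.2)) ∧ z.2.1.1.length = z.2.2.1.1.length ∧
      OrbC c c' t z.1.1 z.1.2 z.2.1.1 z.2.2.1.1 z.2.2.2))

/-- the matching is refuted -/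
def BadM (c c' : Cd2) (t : Mt2) : Prop :=
  ¬ MatN2 c c' t ∨ (∃ z, PosC c c' t z) ∨ ∃ z, BlkC c c' t z

/-- bounds for matchings -/
def InB2 (c : Cd2) (t : Mt2) : Prop :=
  t.1 < cM c.1 ^ cM c.1 ∧ t.2 < kG c ^ (cM c.1 * kG c)

end RaagGP
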