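import Pool.Agent.Lib.MP_32d917_al_raag.C02
import Pool.Agent.Lib.MP_32d917_al_gp.CDefs

/-!
# C01: the graphs and the action of a valid code
-/

set_option autoImplicit false

namespace RaagGP

open LatIso RaagIso
open AdmIso (Wd mvs fM cmW)

/-- right multiplication by a generator -/
def c01Q (c : Cd) (h : ActV c) (v : Fin (cK c)) : Equiv.Perm (Fin (cM c)) where
  toFun i := ⟨rmN c i v, rmN_lt c i v⟩
  invFun i := ⟨riN c i v, riN_lt c i v⟩
  left_inv i := Fin.ext (h.1 i i.2 v v.2).1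
  right_inv i := Fin.ext (h.1 i i.2 v v.2).2

theorem c01Q_comm (c : Cd) (h : ActV c) (v w : Fin (cK c)) (hvw : (gr c).Adj v w) :
    c01Q c h v * c01Q c h w = c01Q c h w * c01Q c h v := by
  apply Equiv.ext
  intro i
  apply Fin.ext
  exact (h.2 i i.2 v v.2 w w.2 hvw).symm

theorem rho_exists2 (c : Cd) (h : ActV c) :
    ∃ ρ : RA (gr c) →* Equiv.Perm (Fin (cM c)), IsRho c ρ := by
  obtain ⟨F, hF⟩ := ra_lift (Γ := gr c) (fun v => (c01Q c h v)⁻¹) (by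
    intro v w hvw
    have h1 := congrArg (fun x => x⁻¹) (c01Q_comm c h v w hvw)
    simp only [mul_inv_rev] at h1
    exact h1.symm)
  refine ⟨F, fun i v => ?_⟩
  have h1 : rm F i (gen v) = c01Q c h v i := by
    unfold rm
    rw [map_inv, hF, inv_inv]
  rw [h1]
  rfl

theorem rho_inv2 {c : Cd} (h : ActV c) {ρ : RA (gr c) →* Equiv.Perm (Fin (cM c))} (hρ : IsRho c ρ)
    (i : Fin (cM c)) (v : Fin (cK c)) :
    ((rm ρ i (gen v)⁻¹ : Fin (cM c)) : ℕ) = riN c i v := by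
  have h1 : rm ρ (rm ρ i (gen v)⁻¹) (gen v) = i := by
    rw [← rm_mul, inv_mul_cancel, rm_one]
  have h2 := hρ (rm ρ i (gen v)⁻¹) v
  rw [h1] at h2
  rw [h2]
  exact (h.1 _ (rm ρ i (gen v)⁻¹).2 v v.2).1.symm

theorem c01_step2 {c : Cd} (h : ActV c) {ρ : RA (gr c) →* Equiv.Perm (Fin (cM c))}
    (hρ : IsRho c ρ) (i : Fin (cM c)) (a : ℕ × Bool) :
    ((rm ρ i (lt c a) : Fin (cM c)) : ℕ) = stN c i a := by
  rcases a with ⟨v, b⟩
  unfold lt stN
  by_cases h1 : v < cK c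
  · rw [dif_pos h1, if_pos h1]
    cases b
    · rw [if_neg (by simp)]
      exact rho_inv2 h hρ i ⟨v, h1⟩
    · rw [if_pos rfl]
      exact hρ i ⟨v, h1⟩
  · rw [dif_neg h1, if_neg h1, rm_one]

theorem run_eq2 {c : Cd} (h : ActV c) {ρ : RA (gr c) →* Equiv.Perm (Fin (cM c))} (hρ : IsRho c ρ)
    (i : Fin (cM c)) (l : Wd) : ((rm ρ i (wv c l) : Fin (cM c)) : ℕ) = runN c i l := by
  induction l generalizing i with
  | nil =>
    rw [wv_nil, rm_one]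
    rfl
  | cons a l ih =>
    rw [c01_cons, rm_mul, ih, c01_step2 h hρ]
    rfl

theorem grG_adj (c : Cd2) (v w : Fin (kG c)) : (grG c).Adj v w ↔ AdG c v w := Iff.rfl

theorem grG_st (c : Cd2) (v w : Fin (kG c)) : w ∈ st (grG c) v ↔ StG c v w := by
  constructor
  · rintro (h | h)
    · exact Or.inl (congrArg Fin.val h)
    · exact Or.inr h
  · rintro (h | h)
    · exact Or.inl (Fin.ext h)
    · exact Or.inr h

theorem piF_val (c : Cd2) (a : Fin (cK c.1)) : ((piF c a : Fin (kG c)) : ℕ) = piN c a := rfl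

theorem bu_code {c : Cd2} (h : ValN2 c) : BU (grG c) (gr c.1) (piF c) := by
  obtain ⟨-, -, h3, h4, h5, -, -⟩ := h
  refine ⟨?_, ?_, ?_⟩
  · intro v
    obtain ⟨a, ha, hv⟩ := h3 v v.2
    exact ⟨⟨a, ha⟩, Fin.ext hv⟩
  · intro a b hab
    exact h4 a a.2 b b.2 (fun e => hab (Fin.ext e))
  · intro v
    rcases h5 v v.2 with h | h
    · left
      intro a b ha hb hab
      exact h a a.2 b b.2 (congrArg Fin.val ha) (congrArg Fin.val hb) (fun e => hab (Fin.ext e))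
    · right
      intro a b ha hb
      exact h a a.2 b b.2 (congrArg Fin.val ha) (congrArg Fin.val hb)

theorem nodom2 {c : Cd2} (h : ValN2 c) : NoDom (grG c) := by
  intro v w hvw
  obtain ⟨u, hu, h1, h2⟩ := h.2.2.2.2.2.1 v v.2 w w.2 (fun e => hvw (Fin.ext e))
  exact ⟨⟨u, hu⟩, h1, fun h3 => h2 ((grG_st c w ⟨u, hu⟩).1 h3)⟩

theorem nosep2 {c : Cd2} (h : ValN2 c) : NoSep (grG c) := by
  intro v K hK a b ha hav hbv
  obtain ⟨s, hs, hsK⟩ := CB.exists_pred c.2.1 (fun a : Fin (c.2.1 + 1) => a ∈ K)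
  have h1 := h.2.2.2.2.2.2 v v.2 s hs (by
    intro a ha b hb h2 h3 h4 h5
    exact (hsK ⟨b, hb⟩).2 (hK ⟨a, ha⟩ ⟨b, hb⟩ ((hsK ⟨a, ha⟩).1 h2)
      (fun h6 => h3 ((grG_st c v ⟨a, ha⟩).1 h6)) (fun h6 => h4 ((grG_st c v ⟨b, hb⟩).1 h6)) h5))
    a a.2 b b.2 ((hsK a).2 ha) (fun h6 => hav ((grG_st c v a).2 h6))
    (fun h6 => hbv ((grG_st c v b).2 h6))
  exact (hsK b).1 h1

theorem two2 {c : Cd2} (h : ValN2 c) : ∃ a b : Fin (kG c), a ≠ b := by
  have h1 := h.1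
  refine ⟨⟨0, Nat.succ_pos _⟩, ⟨1, Nat.succ_lt_succ h1⟩, ?_⟩
  intro e
  have := congrArg Fin.val e
  simp at this

theorem ty_iff {c : Cd2} (v : Fin (kG c)) : TyN c v ↔ Tyc (gr c.1) (piF c) v := by
  constructor
  · rintro ⟨a, ha, b, hb, h1, h2, h3⟩
    exact ⟨⟨a, ha⟩, ⟨b, hb⟩, Fin.ext h1, Fin.ext h2, h3⟩
  · rintro ⟨a, b, h1, h2, h3⟩
    exact ⟨a, a.2, b, b.2, congrArg Fin.val h1, congrArg Fin.val h2, h3⟩

end RaagGP
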