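import Pool.Agent.Lib.MP_32d917_al_raag.C06
import Pool.Agent.Lib.MP_32d917_al_gp.C01

/-!
# C03: every subgroup of finite index is given by a code (60 min); compare `C06` (`MP_32d917_al_raag/C06.lean`)

`W` is finite and nonempty (`BU.surj`, `V` nonempty): `e : W ≃ Fin (k + 1)`; `eV : V ≃ Fin (kv + 1)`, `1 ≤ kv`; `e' : RA Λ ⧸ H ≃ Fin (m + 1)` which maps the coset of `1` to `0`. Numbers: adjacency of `Λ` and `Γ`, action and inverse action by `c06_tab` as in `code_exists`; the digits of `q`: `CB.exists_dg` for `a ↦ eV (π (e.symm a))`.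
`ValN2`: `ActV`: the first two parts of `c06_val` (copy). `surj`, `adj`, `uni`: translation of `BU`; the last two parts: copy of the last two parts of `c06_val` for `Γ` and `eV`.
The last statement: copy of `c06_core` with `ActV` (it uses `ValN` only by `rho_exists`; use `rho_exists2`).
-/

set_option autoImplicit false

namespace RaagGP

open LatIso RaagIso
open AdmIso (Wd mvs fM cmW)

section

variable {V : Type} {Γ : SimpleGraph V}

theorem c03_act (H : Subgroup (RA Γ)) (c : Cd)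
    (e : V ≃ Fin (cK c)) (e' : (RA Γ ⧸ H) ≃ Fin (cM c))
    (hadj : ∀ v w : Fin (cK c), AdN c v w ↔ Γ.Adj (e.symm v) (e.symm w))
    (hrm : ∀ (i : Fin (cM c)) (v : Fin (cK c)),
      rmN c i v = (e' ((gen (e.symm v) : RA Γ)⁻¹ • e'.symm i) : Fin (cM c)))
    (hri : ∀ (i : Fin (cM c)) (v : Fin (cK c)),
      riN c i v = (e' ((gen (e.symm v) : RA Γ) • e'.symm i) : Fin (cM c))) : ActV c := by
  refine ⟨?_, ?_⟩
  · intro i hi v hv
    have h1 : rmN c i v = _ := hrm ⟨i, hi⟩ ⟨v, hv⟩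
    have h2 : riN c i v = _ := hri ⟨i, hi⟩ ⟨v, hv⟩
    rw [h1, h2]
    have h3 := hri (e' ((gen (e.symm ⟨v, hv⟩) : RA Γ)⁻¹ • e'.symm ⟨i, hi⟩)) ⟨v, hv⟩
    have h4 := hrm (e' ((gen (e.symm ⟨v, hv⟩) : RA Γ) • e'.symm ⟨i, hi⟩)) ⟨v, hv⟩
    rw [Equiv.symm_apply_apply, smul_inv_smul, Equiv.apply_symm_apply] at h3
    rw [Equiv.symm_apply_apply, inv_smul_smul, Equiv.apply_symm_apply] at h4
    exact ⟨h3, h4⟩
  · intro i hi v hv w hw h
    have h0 := (hadj ⟨v, hv⟩ ⟨w, hw⟩).1 h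
    have h1 : rmN c i v = _ := hrm ⟨i, hi⟩ ⟨v, hv⟩
    have h2 : rmN c i w = _ := hrm ⟨i, hi⟩ ⟨w, hw⟩
    rw [h1, h2]
    have h3 := hrm (e' ((gen (e.symm ⟨v, hv⟩) : RA Γ)⁻¹ • e'.symm ⟨i, hi⟩)) ⟨w, hw⟩
    have h4 := hrm (e' ((gen (e.symm ⟨w, hw⟩) : RA Γ)⁻¹ • e'.symm ⟨i, hi⟩)) ⟨v, hv⟩
    rw [Equiv.symm_apply_apply, smul_smul, ← mul_inv_rev] at h3 h4
    rw [gen_comm h0] at h3
    exact h3.trans h4.symm

theorem c03_core (H : Subgroup (RA Γ)) (c : Cd) (hv : ActV c)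
    (e : V ≃ Fin (cK c)) (e' : (RA Γ ⧸ H) ≃ Fin (cM c))
    (he : e' ((1 : RA Γ) : RA Γ ⧸ H) = 0)
    (hadj : ∀ v w : Fin (cK c), AdN c v w ↔ Γ.Adj (e.symm v) (e.symm w))
    (hrm : ∀ (i : Fin (cM c)) (v : Fin (cK c)),
      rmN c i v = (e' ((gen (e.symm v) : RA Γ)⁻¹ • e'.symm i) : Fin (cM c))) :
    ∃ ρ : RA (gr c) →* Equiv.Perm (Fin (cM c)), IsRho c ρ ∧ Trn ρ ∧
      Nonempty (H ≃* stb ρ 0) := by
  obtain ⟨ρ, hρ⟩ := rho_exists2 c hv
  obtain ⟨F, hF⟩ := ra_lift (Γ := Γ) (K := RA (gr c)) (fun v => gen (e v)) (by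
    intro v w h
    apply gen_comm
    refine (hadj (e v) (e w)).2 ?_
    rwa [Equiv.symm_apply_apply, Equiv.symm_apply_apply])
  obtain ⟨G, hG⟩ := ra_lift (Γ := gr c) (K := RA Γ) (fun v => gen (e.symm v)) (by
    intro v w h
    apply gen_comm
    exact (hadj v w).1 h)
  have e1 : G.comp F = MonoidHom.id _ := by
    apply ra_ext
    intro v
    rw [MonoidHom.comp_apply, hF, hG, Equiv.symm_apply_apply]
    rfl
  have e2 : F.comp G = MonoidHom.id _ := by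
    apply ra_ext
    intro v
    rw [MonoidHom.comp_apply, hG, hF, Equiv.apply_symm_apply]
    rfl
  let φ : RA Γ ≃* RA (gr c) := MonoidHom.toMulEquiv F G e1 e2
  have hφ : ∀ x, φ x = F x := fun x => rfl
  have key : ∀ x : RA Γ, ∀ q : RA Γ ⧸ H, rm ρ (e' q) (φ x) = e' (x⁻¹ • q) := by
    refine ra_ind (C := fun x => ∀ q : RA Γ ⧸ H, rm ρ (e' q) (φ x) = e' (x⁻¹ • q)) ?_ ?_ ?_ ?_
    · intro q
      rw [map_one, rm_one, inv_one, one_smul]
    · intro v q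
      apply Fin.ext
      rw [hφ, hF, hρ, hrm, Equiv.symm_apply_apply, Equiv.symm_apply_apply]
    · intro x y hx hy q
      rw [map_mul, rm_mul, hx, hy, smul_smul, ← mul_inv_rev]
    · intro x hx q
      have h1 := hx (x • q)
      rw [inv_smul_smul] at h1
      rw [map_inv, inv_inv, ← h1, ← rm_mul, mul_inv_cancel, rm_one]
  refine ⟨ρ, hρ, ?_, ?_⟩
  · intro i j
    obtain ⟨g, hg⟩ := MulAction.exists_smul_eq (RA Γ) (e'.symm i) (e'.symm j)
    refine ⟨φ g⁻¹, ?_⟩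
    have h1 := key g⁻¹ (e'.symm i)
    rwa [inv_inv, hg, Equiv.apply_symm_apply, Equiv.apply_symm_apply] at h1
  · have h1 : H.map (φ : RA Γ →* RA (gr c)) = stb ρ 0 := by
      ext y
      obtain ⟨x, rfl⟩ := φ.surjective y
      have hm : φ x ∈ H.map (φ : RA Γ →* RA (gr c)) ↔ x ∈ H := by
        constructor
        · rintro ⟨z, hz, hzx⟩
          have h2 : z = x := φ.injective hzx
          rwa [← h2]
        · intro hx
          exact ⟨x, hx, rfl⟩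
      rw [hm, mem_stb, ← he, key, e'.injective.eq_iff]
      rw [MulAction.Quotient.smul_coe, QuotientGroup.eq]
      simp
    exact ⟨(φ.subgroupMap H).trans (MulEquiv.subgroupCongr h1)⟩

end

theorem c03_val {V W : Type} {Γ : SimpleGraph V} {Λ : SimpleGraph W} {π : W → V}
    (hB : BU Γ Λ π) (hN : NoDom Γ) (hS : NoSep Γ) (c : Cd2) (hc : 1 ≤ c.2.1) (hA : ActV c.1)
    (e : W ≃ Fin (cK c.1)) (f : V ≃ Fin (kG c))
    (hadj : ∀ a b : Fin (cK c.1), AdN c.1 a b ↔ Λ.Adj (e.symm a) (e.symm b))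
    (hadG : ∀ v w : Fin (kG c), AdG c v w ↔ Γ.Adj (f.symm v) (f.symm w))
    (hpi : ∀ a : Fin (cK c.1), piN c a = (f (π (e.symm a)) : Fin (kG c))) : ValN2 c := by
  have hst : ∀ v w : Fin (kG c), StG c v w ↔ f.symm w ∈ st Γ (f.symm v) := by
    intro v w
    show ((w : ℕ) = v ∨ AdG c v w) ↔ (f.symm w = f.symm v ∨ Γ.Adj (f.symm v) (f.symm w))
    rw [hadG, f.symm.injective.eq_iff, Fin.ext_iff]
  have hpe : ∀ (a : Fin (cK c.1)) (v : Fin (kG c)), piN c a = v ↔ π (e.symm a) = f.symm v := by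
    intro a v
    rw [hpi]
    constructor
    · intro h
      rw [← Fin.ext h, Equiv.symm_apply_apply]
    · intro h
      rw [h, Equiv.apply_symm_apply]
  refine ⟨hc, hA, ?_, ?_, ?_, ?_, ?_⟩
  · intro v hv
    obtain ⟨a, ha⟩ := hB.surj (f.symm ⟨v, hv⟩)
    refine ⟨e a, (e a).2, ?_⟩
    have h1 := (hpe (e a) ⟨v, hv⟩).2 (by rw [Equiv.symm_apply_apply, ha])
    exact h1
  · intro a ha b hb hab
    have h1 := hpi ⟨a, ha⟩
    have h2 := hpi ⟨b, hb⟩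
    simp only at h1 h2
    have h3 : π (e.symm ⟨a, ha⟩) ≠ π (e.symm ⟨b, hb⟩) := by
      intro h
      apply hab
      rw [h1, h2, h]
    have h4 := hadG (f (π (e.symm ⟨a, ha⟩))) (f (π (e.symm ⟨b, hb⟩)))
    rw [Equiv.symm_apply_apply, Equiv.symm_apply_apply] at h4
    rw [h1, h2, h4]
    exact (hadj ⟨a, ha⟩ ⟨b, hb⟩).trans (hB.adj _ _ h3)
  · intro v hv
    rcases hB.uni (f.symm ⟨v, hv⟩) with h | h
    · left
      intro a ha b hb h1 h2 hab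
      refine (hadj ⟨a, ha⟩ ⟨b, hb⟩).2 (h _ _ ((hpe ⟨a, ha⟩ ⟨v, hv⟩).1 h1)
        ((hpe ⟨b, hb⟩ ⟨v, hv⟩).1 h2) ?_)
      intro h3
      exact hab (congrArg Fin.val (e.symm.injective h3))
    · right
      intro a ha b hb h1 h2 h3
      exact h _ _ ((hpe ⟨a, ha⟩ ⟨v, hv⟩).1 h1) ((hpe ⟨b, hb⟩ ⟨v, hv⟩).1 h2)
        ((hadj ⟨a, ha⟩ ⟨b, hb⟩).1 h3)
  · intro v hv w hw hvw
    have h1 : f.symm ⟨v, hv⟩ ≠ f.symm ⟨w, hw⟩ := by
      intro h
      exact hvw (congrArg Fin.val (f.symm.injective h))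
    obtain ⟨u, hu1, hu2⟩ := hN _ _ h1
    refine ⟨f u, (f u).2, ?_, ?_⟩
    · refine (hadG ⟨v, hv⟩ (f u)).2 ?_
      rwa [Equiv.symm_apply_apply]
    · intro h
      have h2 := (hst ⟨w, hw⟩ (f u)).1 h
      rw [Equiv.symm_apply_apply] at h2
      exact hu2 h2
  · intro v hv s _ hK a ha b hb h1 h2 h3
    have h4 := hS (f.symm ⟨v, hv⟩) {x | CB.dg 1 s (f x) = 1} ?_ (f.symm ⟨a, ha⟩) (f.symm ⟨b, hb⟩) ?_
      ?_ ?_
    · have h5 : CB.dg 1 s (f (f.symm ⟨b, hb⟩)) = 1 := h4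
      rwa [Equiv.apply_symm_apply] at h5
    · intro x y hx hxv hyv hxy
      refine hK (f x) (f x).2 (f y) (f y).2 hx ?_ ?_ ?_
      · intro h
        have h6 := (hst ⟨v, hv⟩ (f x)).1 h
        rw [Equiv.symm_apply_apply] at h6
        exact hxv h6
      · intro h
        have h6 := (hst ⟨v, hv⟩ (f y)).1 h
        rw [Equiv.symm_apply_apply] at h6
        exact hyv h6
      · refine (hadG (f x) (f y)).2 ?_
        rwa [Equiv.symm_apply_apply, Equiv.symm_apply_apply]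
    · show CB.dg 1 s (f (f.symm ⟨a, ha⟩)) = 1
      rw [Equiv.apply_symm_apply]
      exact h1
    · intro h
      exact h2 ((hst ⟨v, hv⟩ ⟨a, ha⟩).2 h)
    · intro h
      exact h3 ((hst ⟨v, hv⟩ ⟨b, hb⟩).2 h)

/-- adjacency table -/
theorem c03_adj {V : Type} (Γ : SimpleGraph V) (k : ℕ) (e : V ≃ Fin (k + 1)) :
    ∃ a, ∀ v w : Fin (k + 1), (¬ (v : ℕ) = w ∧ (CB.dg 1 a ((v : ℕ) * (k + 1) + w) = 1 ∨
      CB.dg 1 a ((w : ℕ) * (k + 1) + v) = 1)) ↔ Γ.Adj (e.symm v) (e.symm w) := by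
  classical
  have ek : ∀ v : Fin (k + 1), Fin.ofNat (k + 1) (v : ℕ) = v := fun v =>
    Fin.ext (Nat.mod_eq_of_lt v.2)
  obtain ⟨a, ha⟩ := c06_tab k 1 (k + 1)
    (fun i j => if Γ.Adj (e.symm (Fin.ofNat (k + 1) i)) (e.symm (Fin.ofNat (k + 1) j)) then 1
      else 0) (fun i j => by split_ifs <;> omega)
  refine ⟨a, fun v w => ?_⟩
  have h3 : CB.dg 1 a ((v : ℕ) * (k + 1) + w) = _ := ha v v.2 w w.2
  have h4 : CB.dg 1 a ((w : ℕ) * (k + 1) + v) = _ := ha w w.2 v v.2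
  rw [h3, h4]
  simp only [ek]
  constructor
  · rintro ⟨-, h | h⟩
    · by_contra hc
      rw [if_neg hc] at h
      omega
    · by_contra hc
      rw [if_neg (fun h' => hc h'.symm)] at h
      omega
  · intro h
    refine ⟨fun h' => ?_, Or.inl (if_pos h)⟩
    rw [Fin.ext h'] at h
    exact Γ.irrefl h

theorem code_exists2 {V W : Type} [Finite V] [Finite W] {Γ : SimpleGraph V} {Λ : SimpleGraph W}
    {π : W → V} (hB : BU Γ Λ π) (hN : NoDom Γ) (hS : NoSep Γ) (h2 : ∃ a b : V, a ≠ b)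
    (H : Subgroup (RA Λ)) (hH : H.FiniteIndex) :
    ∃ c : Cd2, ValN2 c ∧ ∃ ρ : RA (gr c.1) →* Equiv.Perm (Fin (cM c.1)), IsRho c.1 ρ ∧ Trn ρ ∧
      Nonempty (H ≃* stb ρ 0) := by
  classical
  -- the graph `Γ`
  obtain ⟨nv, ⟨f⟩⟩ := Finite.exists_equiv_fin V
  have hnv : 2 ≤ nv := by
    obtain ⟨a, b, hab⟩ := h2
    by_contra hlt
    push Not at hlt
    apply hab
    apply f.injective
    apply Fin.ext
    have h3 := (f a).2
    have h4 := (f b).2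
    omega
  obtain ⟨kv, rfl⟩ : ∃ k, nv = k + 1 := ⟨nv - 1, by omega⟩
  -- the graph `Λ`
  obtain ⟨n, ⟨e⟩⟩ := Finite.exists_equiv_fin W
  have hn : 0 < n := by
    obtain ⟨v, -, -⟩ := h2
    obtain ⟨a, -⟩ := hB.surj v
    exact (Nat.zero_le _).trans_lt (e a).2
  obtain ⟨k, rfl⟩ : ∃ k, n = k + 1 := ⟨n - 1, by omega⟩
  have hfin : Finite (RA Λ ⧸ H) := inferInstance
  obtain ⟨n', ⟨e0⟩⟩ := Finite.exists_equiv_fin (RA Λ ⧸ H)
  have hn' : 0 < n' := (Nat.zero_le _).trans_lt (e0 ((1 : RA Λ) : RA Λ ⧸ H)).2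
  obtain ⟨m, rfl⟩ : ∃ m, n' = m + 1 := ⟨n' - 1, by omega⟩
  let e' : (RA Λ ⧸ H) ≃ Fin (m + 1) := e0.trans (Equiv.swap (e0 ((1 : RA Λ) : RA Λ ⧸ H)) 0)
  have he : e' ((1 : RA Λ) : RA Λ ⧸ H) = 0 := by
    show Equiv.swap (e0 ((1 : RA Λ) : RA Λ ⧸ H)) 0 (e0 ((1 : RA Λ) : RA Λ ⧸ H)) = 0
    exact Equiv.swap_apply_left _ _
  have ek : ∀ v : Fin (k + 1), Fin.ofNat (k + 1) (v : ℕ) = v := fun v =>
    Fin.ext (Nat.mod_eq_of_lt v.2)
  have em : ∀ v : Fin (m + 1), Fin.ofNat (m + 1) (v : ℕ) = v := fun v =>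
    Fin.ext (Nat.mod_eq_of_lt v.2)
  obtain ⟨a, ha⟩ := c03_adj Λ k e
  obtain ⟨aG, haG⟩ := c03_adj Γ kv f
  obtain ⟨p, hp⟩ := c06_tab k m (m + 1)
    (fun i j => (e' ((gen (e.symm (Fin.ofNat (k + 1) j)) : RA Λ)⁻¹ •
      e'.symm (Fin.ofNat (m + 1) i)) : Fin (m + 1))) (fun i j => Fin.is_lt _)
  obtain ⟨q, hq⟩ := c06_tab k m (m + 1)
    (fun i j => (e' ((gen (e.symm (Fin.ofNat (k + 1) j)) : RA Λ) •
      e'.symm (Fin.ofNat (m + 1) i)) : Fin (m + 1))) (fun i j => Fin.is_lt _)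
  obtain ⟨z, -, hz⟩ := CB.exists_dg kv
    (fun t => (f (π (e.symm (Fin.ofNat (k + 1) t))) : Fin (kv + 1))) (fun t => Fin.is_lt _) (k + 1)
  have hadj : ∀ v w : Fin (k + 1), AdN ((k, m), a, p, q) v w ↔ Λ.Adj (e.symm v) (e.symm w) := ha
  have hadG : ∀ v w : Fin (kv + 1), AdG (((k, m), a, p, q), kv, aG, z) v w ↔
    Γ.Adj (f.symm v) (f.symm w) := haG
  have hrm : ∀ (i : Fin (m + 1)) (v : Fin (k + 1)), rmN ((k, m), a, p, q) i v =
      (e' ((gen (e.symm v) : RA Λ)⁻¹ • e'.symm i) : Fin (m + 1)) := by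
    intro i v
    have h3 : CB.dg m p ((i : ℕ) * (k + 1) + v) = _ := hp i i.2 v v.2
    simp only [ek, em] at h3
    exact h3
  have hri : ∀ (i : Fin (m + 1)) (v : Fin (k + 1)), riN ((k, m), a, p, q) i v =
      (e' ((gen (e.symm v) : RA Λ) • e'.symm i) : Fin (m + 1)) := by
    intro i v
    have h3 : CB.dg m q ((i : ℕ) * (k + 1) + v) = _ := hq i i.2 v v.2
    simp only [ek, em] at h3
    exact h3
  have hpi : ∀ b : Fin (k + 1), piN (((k, m), a, p, q), kv, aG, z) b =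
      (f (π (e.symm b)) : Fin (kv + 1)) := by
    intro b
    have h3 : CB.dg kv z (b : ℕ) = _ := hz b b.2
    simp only [ek] at h3
    exact h3
  have hA : ActV ((k, m), a, p, q) := c03_act H ((k, m), a, p, q) e e' hadj hrm hri
  have hval : ValN2 (((k, m), a, p, q), kv, aG, z) :=
    c03_val hB hN hS (((k, m), a, p, q), kv, aG, z) (show 1 ≤ kv by omega) hA e f hadj hadG hpi
  exact ⟨(((k, m), a, p, q), kv, aG, z), hval, c03_core H ((k, m), a, p, q) hA e e' he hadj hrm⟩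

end RaagGP
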