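import Pool.Agent.Lib.MP_32d917_al_gp.G01

/-!
# H05: positions (45 min)

`Ps v` is an equivalence relation (`rm_mul`, subgroups). `ps_gg`: `c`, `d = rm ρ c x`, `x ∈ PB (lk v)`, `g ∈ PB {v}`: `rm ρ d g = rm ρ (rm ρ c g) x` (`gg_lk_comm`).
`mem_pst`: `g ∈ Pst v c ↔ g ∈ PB {v} ∧ Ps v c (rm ρ c g)`: from left to right take `d = c`; from right to left: `Ps c d → Ps (rm c g) (rm d g) → Ps c (rm d g)`; conversely `Ps c (rm d g)` gives `Ps (rm c g) (rm d g)`, apply `g⁻¹` (`ps_gg`).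
`pst_ps`: `Pst v c = Pst v d` for `Ps v c d` (by `mem_pst` and `ps_gg`). `ps_st`: for `x ∈ PB (st v)`: `x = g * y` (`st_dec2`), so `Ps v (rm ρ c g) (rm ρ c x)`.

Now let `F`, `τ` satisfy the conditions `tau` and `orb` of `Nm2`. `tau_gg`: closure induction on `g` for all `c` (generators: letters over `v`, hypothesis `ht`). `tau_lk`: closure induction on `y ∈ PB (lk v)`: generators over `w` adjacent to `v`: `ht` with `v ∈ st Γ w`.
`ps_map`: `Ps v c d → Ps' (τ c v) (F c) (F d)` and `τ d v = τ c v`: `d = rm ρ c y`; closure induction on `y ∈ PB (lk v)` for all `c` : generators `gen b` over `w ∈ lk v`: by `ho` (from left to right, `v := w`) `F (rm ρ c (gen b)) = rm ρ' (F c) g'`, `g' ∈ PB' {τ c w}`, `τ c w ∈ lk (τ c v)` (`ha`), so `g' ∈ PB' (lk (τ c v))`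
(`pb_mono`). Products: transitivity (`τ` is constant). Inverses: symmetry.
`ps_back`: `Ps' (τ c v) (F c) (F d) → Ps v c d`: `F d = rm ρ' (F c) y'`, `y' ∈ PB' (lk (τ c v))`; statement for all `c`, `d` with the fixed value `v' = τ c v`: for all `c` with `τ c v = v'` and all `d` with `F d = rm ρ' (F c) y'`: `Ps v c d`. Closure induction on `y'`: generator `gen b'` over `w' ∈ lk v'`, `w' = τ c w`,
`w` adjacent to `v` (`ha`); by `ho` (from right to left) `d = rm ρ c g`, `g ∈ PB {w}`. Products: `e = F.symm (rm ρ' (F c) y1')`, `Ps v c e`, `τ e v = v'` (`ps_map`). Inverses: `F c = rm ρ' (F d) y'`, but first `τ d v = v'` is needed: in the induction prove for `y'` the statement with both `y'` and `y'⁻¹`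
(that is: for all `c`, `d` with `τ c v = v'` and (`F d = rm ρ' (F c) y'` or `F c = rm ρ' (F d) y'`): `Ps v c d`; for the generator in the second case `F d = rm ρ' (F c) (gen b')⁻¹`, and `(gen b')⁻¹ ∈ PB' {w'}`, so `ho` applies again).
-/

set_option autoImplicit false

namespace RaagGP

open RaagIso

variable {V W V' W' C C' : Type} {Γ : SimpleGraph V} {Λ : SimpleGraph W} {π : W → V}
  {Γ' : SimpleGraph V'} {Λ' : SimpleGraph W'} {π' : W' → V'} {ρ : RA Λ →* Equiv.Perm C}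
  {ρ' : RA Λ' →* Equiv.Perm C'}

theorem h05_ind {D : Set V} {P : RA Λ → Prop} (hg : ∀ a, π a ∈ D → P (gen a)) (h1 : P 1)
    (hm : ∀ x y, x ∈ PB Λ π D → y ∈ PB Λ π D → P x → P y → P (x * y))
    (hi : ∀ x, x ∈ PB Λ π D → P x → P x⁻¹) {x : RA Λ} (hx : x ∈ PB Λ π D) : P x := by
  refine Subgroup.closure_induction (p := fun x _ => P x) ?_ h1 (fun x y hx hy => hm x y hx hy)
    (fun x hx => hi x hx) hx
  rintro _ ⟨a, ha, rfl⟩
  exact hg a ha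

theorem rm_inv_l (c : C) (g : RA Λ) : rm ρ (rm ρ c g⁻¹) g = c := by
  rw [← rm_mul, inv_mul_cancel, rm_one]

theorem rm_inv_r (c : C) (g : RA Λ) : rm ρ (rm ρ c g) g⁻¹ = c := by
  rw [← rm_mul, mul_inv_cancel, rm_one]

theorem ps_refl (v : V) (c : C) : Ps Γ π ρ v c c :=
  ⟨1, one_mem _, rm_one ρ c⟩

theorem ps_symm {v : V} {c d : C} (h : Ps Γ π ρ v c d) : Ps Γ π ρ v d c := by
  obtain ⟨x, hx, rfl⟩ := h
  exact ⟨x⁻¹, inv_mem hx, rm_inv_r c x⟩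

theorem ps_trans {v : V} {c d e : C} (h : Ps Γ π ρ v c d) (h' : Ps Γ π ρ v d e) :
    Ps Γ π ρ v c e := by
  obtain ⟨x, hx, rfl⟩ := h
  obtain ⟨y, hy, rfl⟩ := h'
  exact ⟨x * y, mul_mem hx hy, rm_mul ρ c x y⟩

theorem ps_gg (hB : BU Γ Λ π) {v : V} {c d : C} {g : RA Λ} (hg : g ∈ PB Λ π {v})
    (h : Ps Γ π ρ v c d) : Ps Γ π ρ v (rm ρ c g) (rm ρ d g) := by
  obtain ⟨x, hx, rfl⟩ := h
  refine ⟨x, hx, ?_⟩
  rw [← rm_mul, ← rm_mul, gg_lk_comm hB hg hx]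

theorem mem_pst (hB : BU Γ Λ π) {v : V} {c : C} {g : RA Λ} :
    g ∈ Pst Γ π ρ v c ↔ g ∈ PB Λ π {v} ∧ Ps Γ π ρ v c (rm ρ c g) := by
  constructor
  · rintro ⟨hg, h⟩
    exact ⟨hg, (h c).1 (ps_refl v c)⟩
  · rintro ⟨hg, h⟩
    refine ⟨hg, fun d => ⟨fun hd => ps_trans h (ps_gg hB hg hd), fun hd => ?_⟩⟩
    have h1 := ps_gg hB (inv_mem hg) (ps_trans (ps_symm h) hd)
    rwa [rm_inv_r, rm_inv_r] at h1

theorem pst_ps (hB : BU Γ Λ π) {v : V} {c d : C} (h : Ps Γ π ρ v c d) :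
    Pst Γ π ρ v c = Pst Γ π ρ v d := by
  ext g
  rw [mem_pst hB, mem_pst hB]
  constructor
  · rintro ⟨hg, h1⟩
    exact ⟨hg, ps_trans (ps_symm h) (ps_trans h1 (ps_gg hB hg h))⟩
  · rintro ⟨hg, h1⟩
    exact ⟨hg, ps_trans h (ps_trans h1 (ps_symm (ps_gg hB hg h)))⟩

theorem ps_st (hB : BU Γ Λ π) {v : V} {x : RA Λ} (hx : x ∈ PB Λ π (st Γ v)) :
    ∃ g ∈ PB Λ π {v}, ∀ c : C, Ps Γ π ρ v (rm ρ c g) (rm ρ c x) := by
  obtain ⟨g, hg, l, hl, rfl⟩ := st_dec2 hB hx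
  exact ⟨g, hg, fun c => ⟨l, hl, (rm_mul ρ c g l).symm⟩⟩

theorem tau_gg {τ : C → V ≃ V'} (ht : ∀ c a w, w ∈ st Γ (π a) → τ (rm ρ c (gen a)) w = τ c w)
    {v w : V} (hw : w ∈ st Γ v) {g : RA Λ} (hg : g ∈ PB Λ π {v}) (c : C) :
    τ (rm ρ c g) w = τ c w := by
  refine h05_ind (P := fun g => ∀ c, τ (rm ρ c g) w = τ c w) ?_ ?_ ?_ ?_ hg c
  · intro a ha c
    rw [Set.mem_singleton_iff] at ha
    exact ht c a w (by rw [ha]; exact hw)
  · intro c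
    rw [rm_one]
  · intro x y _ _ hx hy c
    rw [rm_mul, hy, hx]
  · intro x _ hx c
    rw [← hx (rm ρ c x⁻¹), rm_inv_l]

theorem tau_lk {τ : C → V ≃ V'} (ht : ∀ c a w, w ∈ st Γ (π a) → τ (rm ρ c (gen a)) w = τ c w)
    {v : V} {y : RA Λ} (hy : y ∈ PB Λ π (lk Γ v)) (c : C) : τ (rm ρ c y) v = τ c v := by
  refine h05_ind (P := fun g => ∀ c, τ (rm ρ c g) v = τ c v) ?_ ?_ ?_ ?_ hy c
  · intro a ha c
    exact ht c a v (Or.inr (SimpleGraph.Adj.symm ha))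
  · intro c
    rw [rm_one]
  · intro x y _ _ hx hy c
    rw [rm_mul, hy, hx]
  · intro x _ hx c
    rw [← hx (rm ρ c x⁻¹), rm_inv_l]

theorem ps_map {F : C ≃ C'} {τ : C → V ≃ V'} (ha : ∀ c v w, Γ.Adj v w ↔ Γ'.Adj (τ c v) (τ c w))
    (ht : ∀ c a w, w ∈ st Γ (π a) → τ (rm ρ c (gen a)) w = τ c w)
    (ho : ∀ c d v, (∃ g ∈ PB Λ π {v}, rm ρ c g = d) ↔
      ∃ g' ∈ PB Λ' π' {τ c v}, rm ρ' (F c) g' = F d) {v : V} {c d : C} (h : Ps Γ π ρ v c d) :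
    Ps Γ' π' ρ' (τ c v) (F c) (F d) ∧ τ d v = τ c v := by
  obtain ⟨y, hy, rfl⟩ := h
  refine ⟨?_, tau_lk ht hy c⟩
  refine h05_ind (P := fun y => ∀ c, Ps Γ' π' ρ' (τ c v) (F c) (F (rm ρ c y))) ?_ ?_ ?_ ?_ hy c
  · intro b hb c
    obtain ⟨g', hg', heq⟩ := (ho c (rm ρ c (gen b)) (π b)).1
      ⟨gen b, pb_gen (Set.mem_singleton _), rfl⟩
    refine ⟨g', pb_mono ?_ hg', heq⟩
    rw [Set.singleton_subset_iff]
    exact (ha c v (π b)).1 hb
  · intro c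
    rw [rm_one]
    exact ps_refl _ _
  · intro x y hx' _ hx hy c
    have h1 := hy (rm ρ c x)
    rw [tau_lk ht hx' c] at h1
    rw [rm_mul]
    exact ps_trans (hx c) h1
  · intro x hx' hx c
    have h1 := hx (rm ρ c x⁻¹)
    rw [tau_lk ht (inv_mem hx') c, rm_inv_l] at h1
    exact ps_symm h1

theorem h05_step {F : C ≃ C'} {τ : C → V ≃ V'}
    (ha : ∀ c v w, Γ.Adj v w ↔ Γ'.Adj (τ c v) (τ c w))
    (ho : ∀ c d v, (∃ g ∈ PB Λ π {v}, rm ρ c g = d) ↔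
      ∃ g' ∈ PB Λ' π' {τ c v}, rm ρ' (F c) g' = F d) {v : V} {c d : C} {w' : V'}
    (hw : w' ∈ lk Γ' (τ c v)) {g' : RA Λ'} (hg' : g' ∈ PB Λ' π' {w'})
    (h : rm ρ' (F c) g' = F d) : Ps Γ π ρ v c d := by
  have h1 : τ c ((τ c).symm w') = w' := Equiv.apply_symm_apply _ _
  obtain ⟨g, hg, hgd⟩ := (ho c d ((τ c).symm w')).2 ⟨g', by rw [h1]; exact hg', h⟩
  refine ⟨g, pb_mono ?_ hg, hgd⟩
  rw [Set.singleton_subset_iff]
  show Γ.Adj v _
  rw [ha c, h1]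
  exact hw

theorem ps_back {F : C ≃ C'} {τ : C → V ≃ V'} (ha : ∀ c v w, Γ.Adj v w ↔ Γ'.Adj (τ c v) (τ c w))
    (ht : ∀ c a w, w ∈ st Γ (π a) → τ (rm ρ c (gen a)) w = τ c w)
    (ho : ∀ c d v, (∃ g ∈ PB Λ π {v}, rm ρ c g = d) ↔
      ∃ g' ∈ PB Λ' π' {τ c v}, rm ρ' (F c) g' = F d) {v : V} {c d : C}
    (h : Ps Γ' π' ρ' (τ c v) (F c) (F d)) : Ps Γ π ρ v c d := by
  obtain ⟨y', hy', heq⟩ := h
  refine h05_ind (P := fun y' => ∀ c' d', τ c' v = τ c v →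
    (F d' = rm ρ' (F c') y' ∨ F c' = rm ρ' (F d') y') → Ps Γ π ρ v c' d') ?_ ?_ ?_ ?_ hy' c d rfl
    (Or.inl heq.symm)
  · intro b' hb' c' d' hc h1
    have hw : π' b' ∈ lk Γ' (τ c' v) := by rw [hc]; exact hb'
    have hg : (gen b' : RA Λ') ∈ PB Λ' π' {π' b'} := pb_gen (Set.mem_singleton _)
    rcases h1 with h1 | h1
    · exact h05_step ha ho hw hg h1.symm
    · refine h05_step ha ho hw (inv_mem hg) ?_
      rw [h1, rm_inv_r]
  · intro c' d' _ h1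
    rw [rm_one, rm_one] at h1
    have h2 : c' = d' := by
      rcases h1 with h1 | h1
      · exact (F.injective h1).symm
      · exact F.injective h1
    rw [h2]
    exact ps_refl _ _
  · intro x y _ _ hx hy c' d' hc h1
    rw [rm_mul, rm_mul] at h1
    rcases h1 with h1 | h1
    · have h2 : F (F.symm (rm ρ' (F c') x)) = rm ρ' (F c') x := F.apply_symm_apply _
      have h3 := hx c' _ hc (Or.inl h2)
      have h4 := (ps_map ha ht ho h3).2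
      refine ps_trans h3 (hy _ d' (h4.trans hc) (Or.inl ?_))
      rw [h2]
      exact h1
    · have h2 : F (F.symm (rm ρ' (F d') x)) = rm ρ' (F d') x := F.apply_symm_apply _
      have h3 := hy c' (F.symm (rm ρ' (F d') x)) hc (Or.inr (by rw [h2]; exact h1))
      have h4 := (ps_map ha ht ho h3).2
      exact ps_trans h3 (hx _ d' (h4.trans hc) (Or.inr h2))
  · intro x _ hx c' d' hc h1
    refine hx c' d' hc ?_
    rcases h1 with h1 | h1
    · right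
      rw [h1, rm_inv_l]
    · left
      rw [h1, rm_inv_l]

end RaagGP
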