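import Pool.Agent.Lib.MP_32d917_al_gp.C02
import Pool.Agent.Lib.MP_32d917_al_gp.H05

/-!
# C04: orbits and words of the vertex groups (60 min)

`ord_iff`: from left to right: let `K = {x | ∃ y ∈ PP (gr c) {a | D a}, rm ρ i y = x}`; by `CB.exists_pred` (see `nosep2` in `C01`) there is `s < 2 ^ cM c` with `CB.dg 1 s x = 1 ↔ x ∈ K` for `x : Fin (cM c)`; `K` contains `i` and is closed under the letters in `D`. From right to left: let `s` be closed; show `CB.dg 1 s x = 1 → CB.dg 1 s (rm ρ x y) = 1` for all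
`x : Fin (cM c)` by closure induction on `y ∈ PP (gr c) {a | D a}`. For inverses: the map `x ↦ rm ρ x y` is injective and maps the finite set `{x | CB.dg 1 s x = 1}` into itself, so it is onto this set (`Set.Finite`, `Finset.surj_on_of_inj_on_of_card_le`, or `Set.MapsTo` and `Set.Finite.injOn...`).

`ps_iff`, `cl_iff`: `ord_iff` and unfold `Ps`, `PB` (`piF ⁻¹' lk` and `piF ⁻¹' {v}` are the sets of the letters `a` with `AdG c v (piN c a)`, `piN c a = v`).
`wv_gg`: closure induction on `g` (words: `wv_append`, `wv_inv`; `lt c (a, true) = gen a`: `c02_gen`). `gg_wv`: induction on the word.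
`inp_iff`: `mem_pst`, `run_eq2`, `ps_iff`.
-/

set_option autoImplicit false

namespace RaagGP

open LatIso RaagIso
open AdmIso (Wd mvs fM cmW)

theorem c04_step {c : Cd} {ρ : RA (gr c) →* Equiv.Perm (Fin (cM c))} (hρ : IsRho c ρ)
    {D : ℕ → Prop} {s : ℕ}
    (hs : ∀ x < cM c, ∀ a < cK c, D a → CB.dg 1 s x = 1 → CB.dg 1 s (rmN c x a) = 1)
    {y : RA (gr c)} (hy : y ∈ PP (gr c) {a : Fin (cK c) | D a}) :
    ∀ x : Fin (cM c), CB.dg 1 s x = 1 → CB.dg 1 s (rm ρ x y : Fin (cM c)) = 1 := by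
  classical
  unfold PP at hy
  induction hy using Subgroup.closure_induction with
  | mem y hy =>
    obtain ⟨a, ha, rfl⟩ := hy
    intro x hx
    show CB.dg 1 s (rm ρ x (gen a) : Fin (cM c)) = 1
    rw [hρ x a]
    exact hs x x.2 a a.2 ha hx
  | one =>
    intro x hx
    rw [rm_one]
    exact hx
  | mul y z _ _ hy hz =>
    intro x hx
    rw [rm_mul]
    exact hz _ (hy x hx)
  | inv y _ hy =>
    intro x hx
    obtain ⟨S, hS⟩ : ∃ S : Finset (Fin (cM c)), S = Finset.univ.filter (fun x : Fin (cM c) => CB.dg 1 s x = 1) :=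
      ⟨_, rfl⟩
    have hmem : ∀ x, x ∈ S ↔ CB.dg 1 s (x : Fin (cM c)) = 1 := by
      intro x
      rw [hS, Finset.mem_filter]
      exact ⟨fun h => h.2, fun h => ⟨Finset.mem_univ _, h⟩⟩
    have hinj : Function.Injective (fun x : Fin (cM c) => rm ρ x y) := by
      intro x x' hxx
      exact (ρ y⁻¹).injective hxx
    have himg : S.image (fun x : Fin (cM c) => rm ρ x y) = S := by
      apply Finset.eq_of_subset_of_card_le
      · intro z hz
        obtain ⟨x, hx, rfl⟩ := Finset.mem_image.1 hz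
        exact (hmem _).2 (hy x ((hmem x).1 hx))
      · rw [Finset.card_image_of_injective _ hinj]
    have h1 : x ∈ S.image (fun x : Fin (cM c) => rm ρ x y) := by
      rw [himg]
      exact (hmem x).2 hx
    obtain ⟨z, hz, hzx⟩ := Finset.mem_image.1 h1
    have h2 : rm ρ x y⁻¹ = z := by
      rw [← hzx, ← rm_mul, mul_inv_cancel, rm_one]
    rw [h2]
    exact (hmem z).1 hz

theorem ord_iff {c : Cd} (h : ActV c) {ρ : RA (gr c) →* Equiv.Perm (Fin (cM c))}
    (hρ : IsRho c ρ) (D : ℕ → Prop) (i j : Fin (cM c)) :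
    OrD c D i j ↔ ∃ x ∈ PP (gr c) {a : Fin (cK c) | D a}, rm ρ i x = j := by
  constructor
  · intro hO
    obtain ⟨s, hs, hsK⟩ := CB.exists_pred c.1.2
      (fun x : Fin (c.1.2 + 1) => ∃ y ∈ PP (gr c) {a : Fin (cK c) | D a}, rm ρ i y = x)
    refine (hsK j).1 (hO s hs ((hsK i).2 ⟨1, one_mem _, rm_one _ _⟩) ?_)
    intro x hx a ha hDa hxs
    obtain ⟨y, hy, hyx⟩ := (hsK ⟨x, hx⟩).1 hxs
    have h1 := (hsK (rm ρ ⟨x, hx⟩ (gen ⟨a, ha⟩))).2 ⟨y * gen ⟨a, ha⟩,
      mul_mem hy (Subgroup.subset_closure ⟨⟨a, ha⟩, hDa, rfl⟩), by rw [rm_mul, hyx]⟩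
    rw [hρ] at h1
    exact h1
  · rintro ⟨y, hy, rfl⟩ s _ hi hs
    exact c04_step hρ hs hy i hi

variable {c : Cd2} {ρ : RA (gr c.1) →* Equiv.Perm (Fin (cM c.1))}

theorem ps_iff (h : ActV c.1) (hρ : IsRho c.1 ρ) (v : Fin (kG c)) (i j : Fin (cM c.1)) :
    PsN c v i j ↔ Ps (grG c) (piF c) ρ v i j :=
  ord_iff h hρ (fun a => AdG c v (piN c a)) i j

theorem cl_iff (h : ActV c.1) (hρ : IsRho c.1 ρ) (v : Fin (kG c)) (i j : Fin (cM c.1)) :
    ClN c v i j ↔ ∃ g ∈ PB (gr c.1) (piF c) {v}, rm ρ i g = j := by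
  have h1 := ord_iff h hρ (fun a => piN c a = v) i j
  have h2 : {a : Fin (cK c.1) | piN c a = v} = piF c ⁻¹' {v} := by
    ext a
    constructor
    · intro h3
      exact Fin.ext h3
    · intro h3
      exact congrArg Fin.val h3
  rw [h2] at h1
  exact h1

theorem wv_gg {v : Fin (kG c)} {g : RA (gr c.1)} (hg : g ∈ PB (gr c.1) (piF c) {v}) :
    ∃ w : Wd, (∀ l ∈ w, l.1 < cK c.1 ∧ piN c l.1 = v) ∧ wv c.1 w = g := by
  unfold PB PP at hg
  induction hg using Subgroup.closure_induction with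
  | mem y hy =>
    obtain ⟨a, ha, rfl⟩ := hy
    refine ⟨[((a : ℕ), true)], ?_, ?_⟩
    · intro l hl
      rw [List.mem_singleton] at hl
      rw [hl]
      exact ⟨a.2, congrArg Fin.val ha⟩
    · rw [c01_cons, wv_nil, mul_one]
      unfold lt
      rw [dif_pos a.2]
      rfl
  | one => exact ⟨[], fun l hl => absurd hl List.not_mem_nil, rfl⟩
  | mul y z _ _ hy hz =>
    obtain ⟨w, hw, rfl⟩ := hy
    obtain ⟨w', hw', rfl⟩ := hz
    refine ⟨w ++ w', ?_, wv_append _ _ _⟩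
    intro l hl
    rw [List.mem_append] at hl
    exact hl.elim (hw l) (hw' l)
  | inv y _ hy =>
    obtain ⟨w, hw, rfl⟩ := hy
    refine ⟨FreeGroup.invRev w, ?_, wv_inv _ _⟩
    intro l hl
    unfold FreeGroup.invRev at hl
    rw [List.mem_reverse, List.mem_map] at hl
    obtain ⟨l', hl', rfl⟩ := hl
    exact hw l' hl'

theorem c04_lt {v : Fin (kG c)} {l : ℕ × Bool} (hl : l.1 < cK c.1 ∧ piN c l.1 = v) :
    lt c.1 l ∈ PB (gr c.1) (piF c) {v} := by
  unfold lt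
  rw [dif_pos hl.1]
  have h1 : (gen (⟨l.1, hl.1⟩ : Fin (cK c.1)) : RA (gr c.1)) ∈ PB (gr c.1) (piF c) {v} :=
    Subgroup.subset_closure ⟨⟨l.1, hl.1⟩, Fin.ext hl.2, rfl⟩
  unfold gl
  split_ifs
  · exact h1
  · exact inv_mem h1

theorem gg_wv {v : Fin (kG c)} {w : Wd} (hw : ∀ l ∈ w, l.1 < cK c.1 ∧ piN c l.1 = v) :
    wv c.1 w ∈ PB (gr c.1) (piF c) {v} := by
  induction w with
  | nil =>
    rw [wv_nil]
    exact one_mem _
  | cons l w ih =>
    rw [c01_cons]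
    exact mul_mem (c04_lt (hw l List.mem_cons_self))
      (ih (fun l' hl' => hw l' (List.mem_cons_of_mem _ hl')))

theorem inp_iff (h : ValN2 c) (hρ : IsRho c.1 ρ) (v : Fin (kG c)) (i : Fin (cM c.1)) (w : Wd) :
    InP c v i w ↔ (∀ l ∈ w, l.1 < cK c.1 ∧ piN c l.1 = v) ∧
      wv c.1 w ∈ Pst (grG c) (piF c) ρ v i := by
  unfold InP
  rw [mem_pst (bu_code h), ← ps_iff h.2.1 hρ, run_eq2 h.2.1 hρ]
  constructor
  · rintro ⟨h1, h2⟩
    exact ⟨h1, gg_wv h1, h2⟩
  · rintro ⟨h1, _, h2⟩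
    exact ⟨h1, h2⟩

/-- words of elements of the position stabiliser -/
theorem inp_word (h : ValN2 c) (hρ : IsRho c.1 ρ) (v : Fin (kG c)) (i : Fin (cM c.1))
    {g : RA (gr c.1)} (hg : g ∈ Pst (grG c) (piF c) ρ v i) : ∃ w, InP c v i w ∧ wv c.1 w = g := by
  obtain ⟨w, hw, rfl⟩ := wv_gg ((mem_pst (bu_code h)).1 hg).1
  exact ⟨w, (inp_iff h hρ v i w).2 ⟨hw, hg⟩, rfl⟩

end RaagGP
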