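import Pool.Agent.Lib.MP_32d917_al_raag.C07
import Pool.Agent.Lib.MP_32d917_al_gp.C04

/-!
# C05: matchings (60 min); compare `good_of_dt` and `dt_of_good` in `C07` (`MP_32d917_al_raag/C07.lean`)

`Mc`: the conditions `adj`, `tau`, `orb`. `Rt2 c c' t F τ`: the matching `t` represents `F` and `τ`.
`mat_of`: `c'.1.1.2 = c.1.1.2` and `c'.2.1 = c.2.1` from the cardinalities (`Fintype.card_congr`); digits: `CB.exists_dg` (see `good_of_dt`; `c07_tab` is the table lemma for functions on `Fin (k + 1)` and `Fin (m + 1)`; copy or import it); the conditions: translation (`cl_iff`, `hρ`, `grG_st`).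
`mat_to`: the maps are injective, hence bijective (see `dt_of_good`).
-/

set_option autoImplicit false

namespace RaagGP

open LatIso RaagIso
open AdmIso (Wd mvs fM cmW)

/-- the conditions `adj`, `tau`, `orb` of `Nm2` -/
def Mc {V W V' W' C C' : Type} {Λ : SimpleGraph W} {Λ' : SimpleGraph W'} (Γ : SimpleGraph V)
    (Γ' : SimpleGraph V') (π : W → V) (π' : W' → V')
    (ρ : RA Λ →* Equiv.Perm C) (ρ' : RA Λ' →* Equiv.Perm C') (F : C ≃ C')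
    (τ : C → V ≃ V') : Prop :=
  (∀ c v w, Γ.Adj v w ↔ Γ'.Adj (τ c v) (τ c w)) ∧
  (∀ c a w, w ∈ st Γ (π a) → τ (rm ρ c (gen a)) w = τ c w) ∧
  ∀ c d v, (∃ g ∈ PB Λ π {v}, rm ρ c g = d) ↔
    ∃ g' ∈ PB Λ' π' {τ c v}, rm ρ' (F c) g' = F d

/-- the matching `t` represents `F`, `τ` -/
def Rt2 (c c' : Cd2) (t : Mt2) (F : Fin (cM c.1) ≃ Fin (cM c'.1))
    (τ : Fin (cM c.1) → Fin (kG c) ≃ Fin (kG c')) : Prop :=
  (∀ i : Fin (cM c.1), FN2 c t i = F i) ∧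
    ∀ (i : Fin (cM c.1)) (v : Fin (kG c)), tN2 c t i v = τ i v

variable {c c' : Cd2} {ρ : RA (gr c.1) →* Equiv.Perm (Fin (cM c.1))}
  {ρ' : RA (gr c'.1) →* Equiv.Perm (Fin (cM c'.1))}

theorem c05_iff (h : ValN2 c) (h' : ValN2 c') (hρ : IsRho c.1 ρ) (hρ' : IsRho c'.1 ρ')
    {F : Fin (cM c.1) ≃ Fin (cM c'.1)} {τ : Fin (cM c.1) → Fin (kG c) ≃ Fin (kG c')} {t : Mt2}
    (hR : Rt2 c c' t F τ) (hd : c'.1.1.2 = c.1.1.2 ∧ c'.2.1 = c.2.1) :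
    MatN2 c c' t ↔ Mc (grG c) (grG c') (piF c) (piF c') ρ ρ' F τ := by
  obtain ⟨hF, hτ⟩ := hR
  constructor
  · rintro ⟨-, -, -, h4, h5, h6⟩
    refine ⟨?_, ?_, ?_⟩
    · intro i v w
      rw [grG_adj, grG_adj, ← hτ, ← hτ]
      exact h4 i i.2 v v.2 w w.2
    · intro i a w hw
      apply Fin.ext
      rw [← hτ, ← hτ, hρ]
      exact h5 i i.2 a a.2 w w.2 ((grG_st c (piF c a) w).1 hw)
    · intro i j v
      rw [← cl_iff h.2.1 hρ, ← cl_iff h'.2.1 hρ', ← hτ, ← hF, ← hF]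
      exact h6 i i.2 j j.2 v v.2
  · rintro ⟨h4, h5, h6⟩
    refine ⟨hd, ?_, ?_, ?_, ?_, ?_⟩
    · intro i hi j hj hij
      have h1 := hF ⟨i, hi⟩
      have h2 := hF ⟨j, hj⟩
      try dsimp only at h1 h2
      rw [h1, h2] at hij
      exact congrArg Fin.val (F.injective (Fin.ext hij))
    · intro i hi v hv w hw hvw
      have h1 := hτ ⟨i, hi⟩ ⟨v, hv⟩
      have h2 := hτ ⟨i, hi⟩ ⟨w, hw⟩
      try dsimp only at h1 h2
      rw [h1, h2] at hvw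
      exact congrArg Fin.val ((τ ⟨i, hi⟩).injective (Fin.ext hvw))
    · intro i hi v hv w hw
      have h1 := hτ ⟨i, hi⟩ ⟨v, hv⟩
      have h2 := hτ ⟨i, hi⟩ ⟨w, hw⟩
      try dsimp only at h1 h2
      rw [h1, h2]
      exact h4 ⟨i, hi⟩ ⟨v, hv⟩ ⟨w, hw⟩
    · intro i hi a ha w hw hst
      have h1 := h5 ⟨i, hi⟩ ⟨a, ha⟩ ⟨w, hw⟩ ((grG_st c (piF c ⟨a, ha⟩) ⟨w, hw⟩).2 hst)
      have h2 := hτ (rm ρ ⟨i, hi⟩ (gen ⟨a, ha⟩)) ⟨w, hw⟩
      have h3 := hτ ⟨i, hi⟩ ⟨w, hw⟩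
      rw [hρ] at h2
      try dsimp only at h2 h3
      rw [h2, h3, h1]
    · intro i hi j hj v hv
      have h1 := h6 ⟨i, hi⟩ ⟨j, hj⟩ ⟨v, hv⟩
      rw [← cl_iff h.2.1 hρ, ← cl_iff h'.2.1 hρ', ← hτ, ← hF, ← hF] at h1
      exact h1

theorem mat_of (h : ValN2 c) (h' : ValN2 c') (hρ : IsRho c.1 ρ) (hρ' : IsRho c'.1 ρ')
    {F : Fin (cM c.1) ≃ Fin (cM c'.1)} {τ : Fin (cM c.1) → Fin (kG c) ≃ Fin (kG c')}
    (hM : Mc (grG c) (grG c') (piF c) (piF c') ρ ρ' F τ) :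
    ∃ t, InB2 c t ∧ MatN2 c c' t ∧ Rt2 c c' t F τ := by
  classical
  have e1 : cM c.1 = cM c'.1 := by
    have := Fintype.card_congr F
    rwa [Fintype.card_fin, Fintype.card_fin] at this
  have e2 : kG c = kG c' := by
    have := Fintype.card_congr (τ ⟨0, Nat.succ_pos _⟩)
    rwa [Fintype.card_fin, Fintype.card_fin] at this
  have hd : c'.1.1.2 = c.1.1.2 ∧ c'.2.1 = c.2.1 :=
    ⟨(Nat.succ.inj e1).symm, (Nat.succ.inj e2).symm⟩
  obtain ⟨t1, ht1, hF⟩ := CB.exists_dg c.1.1.2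
    (fun x => if hx : x < cM c.1 then (F ⟨x, hx⟩ : ℕ) else 0) (by
      intro x
      try dsimp only
      split_ifs with hx
      · exact lt_of_lt_of_eq (F ⟨x, hx⟩).2 e1.symm
      · exact Nat.succ_pos _) (cM c.1)
  obtain ⟨t2, ht2, hτ⟩ := RaagIso.c07_tab c.2.1 c.2.1 c.1.1.2 (fun i v => (τ i v : ℕ)) (by
    intro i v
    exact lt_of_lt_of_eq (τ i v).2 e2.symm)
  have hR : Rt2 c c' (t1, t2) F τ := by
    refine ⟨?_, ?_⟩
    · intro i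
      have h1 := hF i i.2
      rw [dif_pos i.2] at h1
      exact h1
    · intro i v
      exact hτ i v
  exact ⟨(t1, t2), ⟨ht1, ht2⟩, (c05_iff h h' hρ hρ' hR hd).2 hM, hR⟩

theorem mat_to (h : ValN2 c) (h' : ValN2 c') (hρ : IsRho c.1 ρ) (hρ' : IsRho c'.1 ρ')
    {t : Mt2} (hM : MatN2 c c' t) :
    ∃ (F : Fin (cM c.1) ≃ Fin (cM c'.1)) (τ : Fin (cM c.1) → Fin (kG c) ≃ Fin (kG c')),
      Rt2 c c' t F τ ∧ Mc (grG c) (grG c') (piF c) (piF c') ρ ρ' F τ := by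
  have hM' := hM
  obtain ⟨⟨d1, d2⟩, h2, h3, -, -, -⟩ := hM'
  have e1 : cM c.1 = cM c'.1 := by
    show c.1.1.2 + 1 = c'.1.1.2 + 1
    rw [d1]
  have e2 : kG c = kG c' := by
    show c.2.1 + 1 = c'.2.1 + 1
    rw [d2]
  have hb1 : Function.Bijective (fun i : Fin (cM c.1) =>
      (⟨FN2 c t i, lt_of_lt_of_eq (CB.dg_lt _ _ _) e1⟩ : Fin (cM c'.1))) := by
    rw [Fintype.bijective_iff_injective_and_card, Fintype.card_fin, Fintype.card_fin]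
    refine ⟨?_, e1⟩
    intro i j hij
    exact Fin.ext (h2 i i.2 j j.2 (congrArg Fin.val hij))
  have hb2 : ∀ i : Fin (cM c.1), Function.Bijective (fun v : Fin (kG c) =>
      (⟨tN2 c t i v, lt_of_lt_of_eq (CB.dg_lt _ _ _) e2⟩ : Fin (kG c'))) := by
    intro i
    rw [Fintype.bijective_iff_injective_and_card, Fintype.card_fin, Fintype.card_fin]
    refine ⟨?_, e2⟩
    intro v w hvw
    exact Fin.ext (h3 i i.2 v v.2 w w.2 (congrArg Fin.val hvw))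
  have hR : Rt2 c c' t (Equiv.ofBijective _ hb1) (fun i => Equiv.ofBijective _ (hb2 i)) :=
    ⟨fun _ => rfl, fun _ _ => rfl⟩
  exact ⟨_, _, hR, (c05_iff h h' hρ hρ' hR ⟨d1, d2⟩).1 hM⟩

end RaagGP
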