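import Pool.Agent.Lib.MP_32d917_al_gp.G01
import Pool.Agent.Lib.MP_32d917_al_raag.B01

/-!
# H03: inverse data (50 min)

`dt2_symm`: for `c'`, `v'`, `g' ∈ PB' {v'}` let `c = F.symm c'`, `v = (τ c).symm v'` (so `τ c v = v'`) and let `la' c' v' g'` be the element `g ∈ PB {v}` with `la c v g = g'` (`Dt2.surj`; unique by `Dt2.inj`), and `1` if `g' ∉ PB' {v'}`.
First prove the characterisation (U): for `g ∈ PB {v}`, `la' (F c) (τ c v) (la c v g) = g`, and (E): for `g' ∈ PB' {v'}` the element `g = la' c' v' g'` satisfies `g ∈ PB {v}`, `la c v g = g'`, `F (rm ρ c g) = rm ρ' c' g'`, so `F.symm (rm ρ' c' g') = rm ρ c g`.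
`adj` clear. `tau`: `(τ (rm ρ c g)).symm w' = (τ c).symm w'` for `w' ∈ st Γ' v'`: `w = (τ c).symm w' ∈ st Γ v` (`Dt2.adj`), `τ (rm ρ c g) w = τ c w = w'`. `mem`, `act`, `surj`, `inj`: (E), (U).
`mul`: `g = la' c' v' g'`, `c1 = rm ρ c g`, `(τ c1).symm v' = v` (`tau`), `h = la' (F c1) v' h'`: `h ∈ PB {v}`, `la c1 v h = h'`, so `la c v (g * h) = g' * h'`, and (U).
`lam`: for all `c'`: if `y' ∈ PB' (lk v')` then `la' (rm ρ' c' y') v' g' = la' c' v' g'`: closure induction on `y'` (for all `c'`). Generator `gen b'`, `w' = π' b'` adjacent to `v'`, `w = (τ c).symm w'` adjacent to `v`: `gen b' = la c w g1`, `g1 ∈ PB {w}`, `F.symm (rm ρ' c' (gen b')) = rm ρ c g1 = c1`,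
`τ c1 v = τ c v = v'`, and `la c1 v g = la c v g` (`Dt2.lam`, `g1 ∈ PB (lk v)`), so the two elements are equal by (U). Products: two steps. Inverses: apply the statement for `y'` at the point `rm ρ' c' y'⁻¹`.
-/

set_option autoImplicit false

namespace RaagGP

open RaagIso

variable {V W V' W' C C' : Type} {Γ : SimpleGraph V} {Λ : SimpleGraph W} {π : W → V}
  {Γ' : SimpleGraph V'} {Λ' : SimpleGraph W'} {π' : W' → V'} {ρ : RA Λ →* Equiv.Perm C}
  {ρ' : RA Λ' →* Equiv.Perm C'} {F : C ≃ C'} {τ : C → V ≃ V'} {la : C → V → RA Λ → RA Λ'}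

/-- a point over `g'` -/
noncomputable def h03_G (π : W → V) (la : C → V → RA Λ → RA Λ') (c : C) (v : V) (g' : RA Λ') :
    RA Λ := by
  classical
  exact if h : ∃ g, g ∈ PB Λ π {v} ∧ la c v g = g' then h.choose else 1

theorem h03_U (h : Dt2 Γ Γ' π π' ρ ρ' F τ la) (c : C) (v : V) {g : RA Λ}
    (hg : g ∈ PB Λ π {v}) : h03_G π la c v (la c v g) = g := by
  have hex : ∃ k, k ∈ PB Λ π {v} ∧ la c v k = la c v g := ⟨g, hg, rfl⟩
  unfold h03_G
  rw [dif_pos hex]
  exact h.inj c v _ _ hex.choose_spec.1 hg hex.choose_spec.2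

theorem dt2_symm (h : Dt2 Γ Γ' π π' ρ ρ' F τ la) : ∃ la' : C' → V' → RA Λ' → RA Λ,
    Dt2 Γ' Γ π' π ρ' ρ F.symm (fun c' => (τ (F.symm c')).symm) la' ∧
      ∀ c v g, g ∈ PB Λ π {v} → la' (F c) (τ c v) (la c v g) = g := by
  set la' : C' → V' → RA Λ' → RA Λ := fun c' v' g' =>
    h03_G π la (F.symm c') ((τ (F.symm c')).symm v') g' with hla'
  have hU : ∀ c v g, g ∈ PB Λ π {v} → la' (F c) (τ c v) (la c v g) = g := by
    intro c v g hg
    show h03_G π la (F.symm (F c)) ((τ (F.symm (F c))).symm (τ c v)) (la c v g) = g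
    rw [F.symm_apply_apply, Equiv.symm_apply_apply]
    exact h03_U h c v hg
  have hv : ∀ c v, (τ (F.symm (F c))).symm (τ c v) = v := by
    intro c v
    rw [F.symm_apply_apply, Equiv.symm_apply_apply]
  have hself : ∀ v : V, v ∈ st Γ v := fun v => Or.inl rfl
  -- statements at the points `F c`, `τ c v`
  have hmul : ∀ c v g' k', g' ∈ PB Λ' π' {τ c v} → k' ∈ PB Λ' π' {τ c v} →
      la' (F c) (τ c v) (g' * k') =
        la' (F c) (τ c v) g' * la' (rm ρ' (F c) g') (τ c v) k' := by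
    intro c v g' k' hg' hk'
    obtain ⟨g, hg, rfl⟩ := h.surj c v g' hg'
    have e1 : τ (rm ρ c g) v = τ c v := h.tau c v v g hg (hself v)
    rw [← e1] at hk'
    obtain ⟨k, hk, rfl⟩ := h.surj (rm ρ c g) v k' hk'
    have e2 := hU (rm ρ c g) v k hk
    rw [e1] at e2
    rw [← h.mul c v g k hg hk, hU c v _ (mul_mem hg hk), hU c v g hg, ← h.act c v g hg, e2]
  have hlam1 : ∀ c v g' b', g' ∈ PB Λ' π' {τ c v} → π' b' ∈ lk Γ' (τ c v) →
      la' (rm ρ' (F c) (gen b')) (τ c v) g' = la' (F c) (τ c v) g' := by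
    intro c v g' b' hg' hb'
    obtain ⟨g, hg, rfl⟩ := h.surj c v g' hg'
    obtain ⟨w, hw⟩ := (τ c).surjective (π' b')
    rw [← hw] at hb'
    have hadj : Γ.Adj v w := (h.adj c v w).2 hb'
    have hb1 : (gen b' : RA Λ') ∈ PB Λ' π' {τ c w} := pb_gen hw.symm
    obtain ⟨g1, hg1, hg2⟩ := h.surj c w _ hb1
    have hg3 : g1 ∈ PB Λ π (lk Γ v) := by
      refine pb_mono ?_ hg1
      rintro x rfl
      exact hadj
    have e1 : τ (rm ρ c g1) v = τ c v := h.tau c w v g1 hg1 (Or.inr hadj.symm)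
    have e2 := hU (rm ρ c g1) v g hg
    rw [e1, h.lam c v g g1 hg hg3] at e2
    rw [← hg2, ← h.act c w g1 hg1, e2, hU c v g hg]
  refine ⟨la', ⟨?_, ?_, ?_, ?_, ?_, ?_, ?_, ?_⟩, hU⟩
  · intro c' v' w'
    show Γ'.Adj v' w' ↔ Γ.Adj ((τ (F.symm c')).symm v') ((τ (F.symm c')).symm w')
    rw [h.adj (F.symm c')]
    simp
  · intro c' v' w' g' hg' hw'
    obtain ⟨c, rfl⟩ := F.surjective c'
    obtain ⟨v, rfl⟩ := (τ c).surjective v'
    obtain ⟨w, rfl⟩ := (τ c).surjective w'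
    obtain ⟨g, hg, rfl⟩ := h.surj c v g' hg'
    show (τ (F.symm (rm ρ' (F c) (la c v g)))).symm (τ c w) =
      (τ (F.symm (F c))).symm (τ c w)
    have hw : w ∈ st Γ v := by
      rcases hw' with hw' | hw'
      · exact Or.inl ((τ c).injective hw')
      · exact Or.inr ((h.adj c v w).2 hw')
    rw [← h.act c v g hg, F.symm_apply_apply, F.symm_apply_apply, Equiv.symm_apply_eq,
      Equiv.symm_apply_apply, h.tau c v w g hg hw]
  · intro c' v' g' hg'
    obtain ⟨c, rfl⟩ := F.surjective c'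
    obtain ⟨v, rfl⟩ := (τ c).surjective v'
    obtain ⟨g, hg, rfl⟩ := h.surj c v g' hg'
    show la' (F c) (τ c v) (la c v g) ∈ PB Λ π {(τ (F.symm (F c))).symm (τ c v)}
    rw [hU c v g hg, hv]
    exact hg
  · intro c' v' g' k' hg' hk'
    obtain ⟨c, rfl⟩ := F.surjective c'
    obtain ⟨v, rfl⟩ := (τ c).surjective v'
    exact hmul c v g' k' hg' hk'
  · intro c' v' g' y' hg' hy'
    have hy2 : y' ∈ Subgroup.closure ((fun a => (gen a : RA Λ')) '' (π' ⁻¹' (lk Γ' v'))) := hy'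
    clear hy'
    revert c'
    induction hy2 using Subgroup.closure_induction with
    | mem x hx =>
      intro c'
      obtain ⟨b', hb', rfl⟩ := hx
      obtain ⟨c, rfl⟩ := F.surjective c'
      obtain ⟨v, rfl⟩ := (τ c).surjective v'
      exact hlam1 c v g' b' hg' hb'
    | one =>
      intro c'
      rw [rm_one]
    | mul x y _ _ ihx ihy =>
      intro c'
      rw [rm_mul, ihy, ihx]
    | inv x _ ih =>
      intro c'
      have h1 := ih (rm ρ' c' x⁻¹)
      rw [b01_inv_right] at h1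
      exact h1.symm
  · intro c' v' g' hg'
    obtain ⟨c, rfl⟩ := F.surjective c'
    obtain ⟨v, rfl⟩ := (τ c).surjective v'
    obtain ⟨g, hg, rfl⟩ := h.surj c v g' hg'
    show F.symm (rm ρ' (F c) (la c v g)) = rm ρ (F.symm (F c)) (la' (F c) (τ c v) (la c v g))
    rw [hU c v g hg, ← h.act c v g hg, F.symm_apply_apply, F.symm_apply_apply]
  · intro c' v' g hg
    obtain ⟨c, rfl⟩ := F.surjective c'
    obtain ⟨v, rfl⟩ := (τ c).surjective v'
    change g ∈ PB Λ π {(τ (F.symm (F c))).symm (τ c v)} at hg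
    rw [hv] at hg
    exact ⟨la c v g, h.mem c v g hg, hU c v g hg⟩
  · intro c' v' g' k' hg' hk' he
    obtain ⟨c, rfl⟩ := F.surjective c'
    obtain ⟨v, rfl⟩ := (τ c).surjective v'
    obtain ⟨g, hg, rfl⟩ := h.surj c v g' hg'
    obtain ⟨k, hk, rfl⟩ := h.surj c v k' hk'
    rw [hU c v g hg, hU c v k hk] at he
    rw [he]

end RaagGP
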