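import Pool.Agent.Lib.MP_32d917_al_gp.H02
import Pool.Agent.Lib.MP_32d917_al_gp.H03
import Pool.Agent.Lib.MP_32d917_al_raag.B04

/-!
# H04: finite data give isomorphisms (30 min); compare the end of `B04` (`MP_32d917_al_raag/B04.lean`)

`cc2_inj`: as `cc_inj`: `κ'` = cocycle of the inverse data (`dt2_symm`, `exists_kap2`); `κ' (F c) (κ c g) = g` by `cc_ext`; on generators: `κ c (gen a) = la c v (gen a) ∈ PB' {τ c v}` (`v = π a`), so `κ' (F c)` of it is `la' (F c) (τ c v) (la c v (gen a)) = gen a` (`kap2_gg`).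
`iso_of_dt2`: copy of `iso_of_dt` (`stb_conj` is for the graph `Λ'`).
-/

set_option autoImplicit false

namespace RaagGP

open RaagIso

variable {V W V' W' C C' : Type} {Γ : SimpleGraph V} {Λ : SimpleGraph W} {π : W → V}
  {Γ' : SimpleGraph V'} {Λ' : SimpleGraph W'} {π' : W' → V'} {ρ : RA Λ →* Equiv.Perm C}
  {ρ' : RA Λ' →* Equiv.Perm C'} {F : C ≃ C'} {τ : C → V ≃ V'} {la : C → V → RA Λ → RA Λ'}

theorem cc2_inj (hB : BU Γ Λ π) (hB' : BU Γ' Λ' π') (h : Dt2 Γ Γ' π π' ρ ρ' F τ la)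
    {κ : C → RA Λ → RA Λ'} (hκ : Kap2 π ρ la κ) (c : C) : Function.Injective (κ c) := by
  obtain ⟨la', h', hs⟩ := dt2_symm h
  obtain ⟨κ', hκ'⟩ := exists_kap2 hB' hB h'
  have key : ∀ (c : C) (g : RA Λ), κ' (F c) (κ c g) = g := by
    intro c g
    refine cc_ext (ρ := ρ) (κ := fun c g => κ' (F c) (κ c g)) (κ' := fun _ g => g) ?_ ?_ ?_ c g
    · intro c g g'
      show κ' (F c) (κ c (g * g')) = κ' (F c) (κ c g) * κ' (F (rm ρ c g)) (κ (rm ρ c g) g')
      rw [hκ.2, hκ'.2, cc2_F h hκ]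
    · intro c g g'
      rfl
    · intro c a
      show κ' (F c) (κ c (gen a)) = gen a
      have ha : (gen a : RA Λ) ∈ PB Λ π {π a} := pb_gen rfl
      rw [hκ.1, kap2_gg h' hκ' (h.mem c (π a) _ ha) (F c), hs c (π a) _ ha]
  intro a b hab
  rw [← key c a, ← key c b, hab]

theorem iso_of_dt2 (hB : BU Γ Λ π) (hB' : BU Γ' Λ' π') (h : Dt2 Γ Γ' π π' ρ ρ' F τ la)
    (hρ' : Trn ρ') (c0 : C) (c0' : C') : Nonempty (stb ρ c0 ≃* stb ρ' c0') := by
  obtain ⟨κ, hκ⟩ := exists_kap2 hB hB' h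
  obtain ⟨e2⟩ := stb_conj hρ' (F c0) c0'
  let f : stb ρ c0 →* stb ρ' (F c0) :=
    { toFun := fun x => ⟨κ c0 x, by
        rw [mem_stb, ← cc2_F h hκ, mem_stb.1 x.2]⟩
      map_one' := Subtype.ext (cc_one hκ.2 c0)
      map_mul' := fun x y => Subtype.ext (by
        show κ c0 ((x : RA Λ) * y) = κ c0 x * κ c0 y
        rw [hκ.2, mem_stb.1 x.2]) }
  have hb : Function.Bijective f := by
    refine ⟨?_, ?_⟩
    · intro x y hxy
      exact Subtype.ext (cc2_inj hB hB' h hκ c0 (congrArg Subtype.val hxy))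
    · intro y
      obtain ⟨g, hg⟩ := cc2_surj h hκ c0 (y : RA Λ')
      refine ⟨⟨g, ?_⟩, Subtype.ext hg⟩
      rw [mem_stb]
      apply F.injective
      rw [cc2_F h hκ, hg, mem_stb.1 y.2]
  exact ⟨(MulEquiv.ofBijective f hb).trans e2⟩

end RaagGP
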