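import Pool.Agent.Lib.MP_32d917_al_gp.C05

/-!
# C06: certificates for `pos` (60 min)

`full_all`: `{g ∈ PB {v} | ∃ U ∈ L, ∀ d, (rm ρ d g : ℕ) = runN c.1 d U}` contains `1` and is closed under right multiplication by letters over `v` (third condition of `FullL`, `run_eq2`), so it contains all products of letters; for inverses of letters: `ρ` has finite image: `(gen a)⁻¹` acts as a positive power `gen a ^ n` (`n = (cM c.1)! - 1` or the order of
`ρ (gen a)`; `pow_card_eq_one`), so prove: for every `g ∈ PB {v}` there is a list of letters over `v` (positive word) with the same action as `g`, and by induction on this list (from the right end) the claim.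
`full_exists`: the set of the permutations `ρ g`, `g ∈ PB {v}`, is finite; choose a word with letters over `v` for each of them (`wv_gg`), and `[]` for the identity; `L` = list of these words (`Set.Finite.toFinset.toList`, `Finset.univ.toList.filter`, ...).
`pos_iff`: from left to right: if there are no `g`, `g'` for `(i, a)`, then `z = ((i, a), (L, L'))` with lists from `full_exists` is a certificate (`U ∈ L` gives `g = wv c.1 U`, `gg_wv`, `run_eq2`, `ps_iff`). From right to left: a certificate `z` and `g`, `g'` for the point and the letter of `z`: `full_all` gives `U`, `U'` with the same actions.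
-/

set_option autoImplicit false

namespace RaagGP

open LatIso RaagIso
open AdmIso (Wd mvs fM cmW)

variable {c c' : Cd2} {ρ : RA (gr c.1) →* Equiv.Perm (Fin (cM c.1))}
  {ρ' : RA (gr c'.1) →* Equiv.Perm (Fin (cM c'.1))}

/-- `L` is closed under `g` -/
def c06_Q (c : Cd2) (ρ : RA (gr c.1) →* Equiv.Perm (Fin (cM c.1))) (L : List Wd)
    (g : RA (gr c.1)) : Prop :=
  ∀ U ∈ L, ∃ U' ∈ L, ∀ d : Fin (cM c.1), rm ρ d (wv c.1 U * g) = rm ρ d (wv c.1 U')

theorem c06_mul {L : List Wd} {g g' : RA (gr c.1)} (h : c06_Q c ρ L g) (h' : c06_Q c ρ L g') :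
    c06_Q c ρ L (g * g') := by
  intro U hU
  obtain ⟨U1, hU1, h1⟩ := h U hU
  obtain ⟨U2, hU2, h2⟩ := h' U1 hU1
  refine ⟨U2, hU2, fun d => ?_⟩
  rw [← h2 d, ← mul_assoc, rm_mul, h1, ← rm_mul]

theorem c06_one {L : List Wd} : c06_Q c ρ L 1 :=
  fun U hU => ⟨U, hU, fun d => by rw [mul_one]⟩

theorem c06_pow {L : List Wd} {g : RA (gr c.1)} (h : c06_Q c ρ L g) (n : ℕ) :
    c06_Q c ρ L (g ^ n) := by
  induction n with
  | zero =>
    rw [pow_zero]
    exact c06_one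
  | succ n ih =>
    rw [pow_succ]
    exact c06_mul ih h

theorem c06_inv {L : List Wd} {g : RA (gr c.1)} (h : c06_Q c ρ L g) : c06_Q c ρ L g⁻¹ := by
  intro U hU
  obtain ⟨n, hn⟩ := Nat.exists_eq_succ_of_ne_zero (RaagIso.c07_MM_pos c.1).ne'
  obtain ⟨U', hU', h1⟩ := c06_pow h n U hU
  refine ⟨U', hU', fun d => ?_⟩
  rw [← h1 d, rm_mul, rm_mul]
  have h2 : ρ (g ^ n * g) = 1 := by
    rw [← pow_succ, map_pow, ← Nat.succ_eq_add_one, ← hn]
    exact RaagIso.rho_pow ρ g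
  have h3 : ∀ e : Fin (cM c.1), rm ρ e (g ^ n) = rm ρ e g⁻¹ := by
    intro e
    have h4 : rm ρ e (g ^ n * g) = e := by
      unfold rm
      rw [map_inv, h2, inv_one, Equiv.Perm.one_apply]
    calc rm ρ e (g ^ n) = rm ρ (rm ρ e (g ^ n * g)) g⁻¹ := by
          rw [← rm_mul, mul_inv_cancel_right]
      _ = rm ρ e g⁻¹ := by rw [h4]
  rw [h3]

theorem c06_letters (h : ValN2 c) (hρ : IsRho c.1 ρ) {v : ℕ} {L : List Wd}
    (hL : FullL c v L) {a : Fin (cK c.1)} (ha : piN c a = v) : c06_Q c ρ L (gen a) := by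
  intro U hU
  obtain ⟨U', hU', h1⟩ := hL.2.2 U hU a a.2 ha
  refine ⟨U', hU', fun d => ?_⟩
  apply Fin.ext
  rw [rm_mul, hρ, run_eq2 h.2.1 hρ, run_eq2 h.2.1 hρ]
  exact h1 d d.2

theorem full_all (h : ValN2 c) (hρ : IsRho c.1 ρ) {v : Fin (kG c)} {L : List Wd}
    (hL : FullL c v L) {g : RA (gr c.1)} (hg : g ∈ PB (gr c.1) (piF c) {v}) :
    ∃ U ∈ L, ∀ d : Fin (cM c.1), ((rm ρ d g : Fin (cM c.1)) : ℕ) = runN c.1 d U := by
  have hQ : c06_Q c ρ L g := by
    unfold PB PP at hg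
    induction hg using Subgroup.closure_induction with
    | mem y hy =>
      obtain ⟨a, ha, rfl⟩ := hy
      exact c06_letters h hρ hL (congrArg Fin.val ha)
    | one => exact c06_one
    | mul y z _ _ hy hz => exact c06_mul hy hz
    | inv y _ hy => exact c06_inv hy
  obtain ⟨U, hU, h1⟩ := hQ [] hL.1
  refine ⟨U, hU, fun d => ?_⟩
  rw [← run_eq2 h.2.1 hρ, ← h1 d, wv_nil, one_mul]

theorem full_exists (h : ValN2 c) (hρ : IsRho c.1 ρ) (v : Fin (kG c)) : ∃ L, FullL c v L := by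
  classical
  have hex : ∀ σ : Equiv.Perm (Fin (cM c.1)), ∃ w : Wd,
      (∀ l ∈ w, l.1 < cK c.1 ∧ piN c l.1 = v) ∧
      ((∃ w' : Wd, (∀ l ∈ w', l.1 < cK c.1 ∧ piN c l.1 = v) ∧ ρ (wv c.1 w') = σ) →
        ρ (wv c.1 w) = σ) := by
    intro σ
    by_cases h1 : ∃ w' : Wd, (∀ l ∈ w', l.1 < cK c.1 ∧ piN c l.1 = v) ∧ ρ (wv c.1 w') = σ
    · obtain ⟨w, hw, hσ⟩ := h1
      exact ⟨w, hw, fun _ => hσ⟩
    · exact ⟨[], fun l hl => absurd hl List.not_mem_nil, fun h2 => absurd h2 h1⟩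
  choose f hf1 hf2 using hex
  refine ⟨[] :: (Finset.univ : Finset (Equiv.Perm (Fin (cM c.1)))).toList.map f, ?_, ?_, ?_⟩
  · exact List.mem_cons_self
  · intro U hU
    rw [List.mem_cons, List.mem_map] at hU
    rcases hU with rfl | ⟨σ, _, rfl⟩
    · exact fun l hl => absurd hl List.not_mem_nil
    · exact hf1 σ
  · intro U hU a ha hav
    have hUl : ∀ l ∈ U, l.1 < cK c.1 ∧ piN c l.1 = v := by
      rw [List.mem_cons, List.mem_map] at hU
      rcases hU with rfl | ⟨σ, _, rfl⟩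
      · exact fun l hl => absurd hl List.not_mem_nil
      · exact hf1 σ
    refine ⟨f (ρ (wv c.1 (U ++ [(a, true)]))), ?_, ?_⟩
    · exact List.mem_cons_of_mem _ (List.mem_map.2 ⟨_, Finset.mem_toList.2 (Finset.mem_univ _), rfl⟩)
    · intro d hd
      have h1 := hf2 (ρ (wv c.1 (U ++ [(a, true)]))) ⟨U ++ [(a, true)], by
        intro l hl
        rw [List.mem_append, List.mem_singleton] at hl
        rcases hl with hl | rfl
        · exact hUl l hl
        · exact ⟨ha, hav⟩, rfl⟩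
      obtain ⟨w', hw'⟩ : ∃ w', w' = f (ρ (wv c.1 (U ++ [(a, true)]))) := ⟨_, rfl⟩
      rw [← hw'] at h1 ⊢
      have h2 : rm ρ ⟨d, hd⟩ (wv c.1 w') = rm ρ ⟨d, hd⟩ (wv c.1 (U ++ [(a, true)])) := by
        unfold rm
        rw [map_inv, map_inv, h1]
      have h3 := run_eq2 h.2.1 hρ ⟨d, hd⟩ w'
      rw [h2, wv_append, rm_mul] at h3
      have h4 : wv c.1 [(a, true)] = gen (⟨a, ha⟩ : Fin (cK c.1)) := by
        rw [c01_cons, wv_nil, mul_one]
        unfold lt
        rw [dif_pos ha]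
        rfl
      rw [h4, hρ, run_eq2 h.2.1 hρ] at h3
      exact h3

theorem pos_iff (h : ValN2 c) (h' : ValN2 c') (hρ : IsRho c.1 ρ) (hρ' : IsRho c'.1 ρ')
    {t : Mt2} {F : Fin (cM c.1) ≃ Fin (cM c'.1)} {τ : Fin (cM c.1) → Fin (kG c) ≃ Fin (kG c')}
    (ht : Rt2 c c' t F τ) : (¬ ∃ z, PosC c c' t z) ↔
      ∀ i a, ∃ g ∈ PB (gr c.1) (piF c) {piF c a}, ∃ g' ∈ PB (gr c'.1) (piF c') {τ i (piF c a)},
        Ps (grG c) (piF c) ρ (piF c a) (rm ρ i (gen a)) (rm ρ i g) ∧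
          ∀ d, Ps (grG c) (piF c) ρ (piF c a) i d → F (rm ρ d g) = rm ρ' (F d) g' := by
  obtain ⟨hF, hτ⟩ := ht
  constructor
  · intro hz i a
    by_contra hcon
    apply hz
    obtain ⟨L, hL⟩ := full_exists h hρ (piF c a)
    obtain ⟨L', hL'⟩ := full_exists h' hρ' (τ i (piF c a))
    have e1 : tN2 c t i (piN c a) = (τ i (piF c a) : ℕ) := hτ i (piF c a)
    refine ⟨((i, a), (L, L')), i.2, a.2, hL, ?_, ?_⟩
    · show FullL c' (tN2 c t i (piN c a)) L'
      rw [e1]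
      exact hL'
    · rintro U hU U' hU' ⟨h1, h2⟩
      apply hcon
      refine ⟨wv c.1 U, gg_wv (hL.2.1 U hU), wv c'.1 U', gg_wv (hL'.2.1 U' hU'), ?_, ?_⟩
      · rw [← ps_iff h.2.1 hρ, hρ, run_eq2 h.2.1 hρ]
        exact h1
      · intro d hd
        apply Fin.ext
        rw [← hF, run_eq2 h.2.1 hρ, run_eq2 h'.2.1 hρ', ← hF]
        exact h2 d d.2 ((ps_iff h.2.1 hρ _ _ _).2 hd)
  · rintro hall ⟨⟨⟨i, a⟩, L, L'⟩, hi, ha, hL, hL', hno⟩
    simp only at hi ha hL hL' hno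
    obtain ⟨g, hg, g', hg', h1, h2⟩ := hall ⟨i, hi⟩ ⟨a, ha⟩
    obtain ⟨U, hU, hU1⟩ := full_all h hρ (v := piF c ⟨a, ha⟩) hL hg
    have e1 : tN2 c t i (piN c a) = (τ ⟨i, hi⟩ (piF c ⟨a, ha⟩) : ℕ) := hτ ⟨i, hi⟩ (piF c ⟨a, ha⟩)
    rw [e1] at hL'
    obtain ⟨U', hU', hU1'⟩ := full_all h' hρ' hL' hg'
    apply hno U hU U' hU'
    refine ⟨?_, ?_⟩
    · have h3 := (ps_iff h.2.1 hρ _ _ _).2 h1
      rw [hρ, hU1] at h3
      exact h3
    · intro d hd hps
      have h3 := h2 ⟨d, hd⟩ ((ps_iff h.2.1 hρ _ _ _).1 hps)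
      have h4 := congrArg Fin.val h3
      rw [← hF, hU1, hU1', ← hF] at h4
      exact h4

end RaagGP
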