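import Pool.Agent.Lib.MP_32d917_al_raag.C05
import Pool.Agent.Lib.MP_32d917_al_gp.CDefs

/-!
# C07: the presentation `KP b r` (40 min); compare `rp_iso` in `C02` (`MP_32d917_al_raag/C02.lean`)

Forward: `PresentedGroup.toGroup` with generator `i ↦ gen i` for `i < r` and `1` otherwise; relators `cmW i j` (`c02_cm`), `i, j < r`, only for `b = true`: `gen i` and `gen j` commute (`i = j` or adjacent). Backward: `ra_lift` with `k ↦ PresentedGroup.of k`: adjacent only if `b = true`, and then the relator `cmW v w` is in the list.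
-/

set_option autoImplicit false

namespace RaagGP

open LatIso RaagIso
open AdmIso (Wd mvs fM cmW)

/-- images of the generators -/
def c07_im (b : Bool) (r : ℕ) (i : ℕ) : RA (KG b r) := if h : i < r then gen ⟨i, h⟩ else 1

theorem c07_mem (b : Bool) (r : ℕ) (w : Wd) :
    w ∈ (KP b r).2 ↔ b = true ∧ ∃ i < r, ∃ j < r, w = cmW i j := by
  unfold KP
  cases b
  · simp
  · simp only [if_true, List.mem_flatMap, List.mem_map, List.mem_range, true_and]
    constructor
    · rintro ⟨i, hi, j, hj, h⟩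
      exact ⟨i, hi, j, hj, h.symm⟩
    · rintro ⟨i, hi, j, hj, h⟩
      exact ⟨i, hi, j, hj, h.symm⟩

theorem c07_comm (r : ℕ) (i j : Fin r) : (gen i : RA (KG true r)) * gen j = gen j * gen i := by
  by_cases h : i = j
  · rw [h]
  · apply gen_comm
    show (KG true r).Adj i j
    unfold KG
    simpa using h

theorem c07_rel (b : Bool) (r : ℕ) (x : FreeGroup ℕ) (hx : x ∈ (KP b r).rels) :
    FreeGroup.lift (c07_im b r) x = 1 := by
  rcases hx with ⟨w, hw, rfl⟩ | ⟨i, hi, rfl⟩
  · obtain ⟨hb, i, hi, j, hj, rfl⟩ := (c07_mem b r w).1 hw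
    subst hb
    rw [c02_cm, FreeGroup.lift_apply_of, FreeGroup.lift_apply_of]
    unfold c07_im
    rw [dif_pos hi, dif_pos hj, c07_comm]
    group
  · rw [FreeGroup.lift_apply_of]
    unfold c07_im
    have hi' : ¬ i < r := not_lt.2 hi
    rw [dif_neg hi']

theorem c07_im_fin (b : Bool) (r : ℕ) (k : Fin r) : c07_im b r (k : ℕ) = gen k := by
  unfold c07_im
  rw [dif_pos k.2]

theorem kp_iso (b : Bool) (r : ℕ) : ∃ e : (KP b r).Grp ≃* RA (KG b r),
    ∀ k : Fin r, e (PresentedGroup.of (k : ℕ)) = gen k := by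
  obtain ⟨G, hG⟩ := ra_lift (Γ := KG b r)
    (fun v : Fin r => (PresentedGroup.of (v : ℕ) : (KP b r).Grp)) (by
    intro v w h
    have hb : b = true := by
      cases b
      · exact absurd h (by unfold KG; simp)
      · rfl
    have h1 : (PresentedGroup.mk (KP b r).rels (FreeGroup.mk (cmW v w)) : (KP b r).Grp) = 1 :=
      PresentedGroup.one_of_mem (Or.inl ⟨_, (c07_mem b r _).2 ⟨hb, v, v.2, w, w.2, rfl⟩, rfl⟩)
    rw [c02_cm, mul_inv_eq_one, mul_inv_eq_iff_eq_mul] at h1
    exact h1)
  let F : (KP b r).Grp →* RA (KG b r) := PresentedGroup.toGroup (c07_rel b r)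
  have hF : ∀ i : ℕ, F (PresentedGroup.of i) = c07_im b r i := fun i => PresentedGroup.toGroup.of _
  have e1 : G.comp F = MonoidHom.id _ := by
    apply PresentedGroup.ext
    intro i
    rw [MonoidHom.comp_apply, hF, MonoidHom.id_apply]
    by_cases hi : i < r
    · have h1 := c07_im_fin b r ⟨i, hi⟩
      simp only at h1
      rw [h1, hG]
    · have h2 : (PresentedGroup.of i : (KP b r).Grp) = 1 := pres2_one_of_ge i (not_lt.1 hi)
      rw [h2]
      unfold c07_im
      rw [dif_neg hi, map_one]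
  have e2 : F.comp G = MonoidHom.id _ := by
    apply ra_ext
    intro v
    rw [MonoidHom.comp_apply, hG, hF, c07_im_fin, MonoidHom.id_apply]
  refine ⟨MonoidHom.toMulEquiv F G e1 e2, fun k => ?_⟩
  rw [← c07_im_fin]
  exact hF k

end RaagGP
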