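import Pool.Agent.Lib.MP_32d917_al_gp.C04
import Pool.Agent.Lib.MP_32d917_al_gp.C07

/-!
# C08: certificates of bases are sound (60 min); compare `cert_sound` in `C05` (`MP_32d917_al_raag/C05.lean`)

Let `K = KP (decide (TyN c v)) b.length`, `mw = c05_mw K`. By the second condition there is `B : K.Grp →* RA (gr c.1)` with `B (mw l) = wv c.1 (sbw b l)` (as `W` in `cert_sound`: `rp_iso`, `pres2_lift`; the generators `≥ b.length` are mapped to `1`). `B (of k) = wv c.1 (b.getD k [])` is in `P = Pst _ _ ρ v i` for `k < b.length` (`inp_iff`), so `B y ∈ P` for all `y`.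
By the third condition `x` is a cocycle: `κ` from `exists_cc` (`κ j (gen a) = mw (xg c.1 x j a)`). By the fourth condition `κ j (gen a) = 1` for letters `a` not over `v`, so `κ j y = 1` for `y ∈ PB (lk v)` (closure induction, all `j`), and `κ (rm ρ j y) g = κ j g` for `g ∈ PB {v}`, `y ∈ PB (lk v)`: `κ j (y * g) = κ j (g * y)` (`gg_lk_comm`).
So for `p ∈ P`: `rm ρ i p` has the position of `i` (`mem_pst`) and `κ i (p * g) = κ i p * κ i g` for `g ∈ PB {v}`.
Fifth condition: `κ i (B (of k)) = of k` for `k < b.length` (`lift_eq2`), so `κ i (B y) = y` for all `y` (closure of the generators `of k`, all `k`; `of k = 1` for `k ≥ b.length`, `κ i 1 = 1`): `B` is injective.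
Let `q j = wv c.1 (g.getD j [])`. For `j` in the orbit of `i` under `PB {v}` (`ClN c v i j`, `cl_iff`) and `y ∈ PB {v}`: `B (κ j y) = q j * y * (q (rm ρ j y))⁻¹`: closure induction on `y` (for all `j` in the orbit; generators: seventh condition). For `p ∈ P`, `j = i`: `q i = 1` and `q (rm ρ i p) = 1` (sixth condition), so `B (κ i p) = p`.
So `B` is an isomorphism from `K.Grp` onto `P`; compose with `kp_iso`.
-/

set_option autoImplicit false

namespace RaagGP

open LatIso RaagIso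
open AdmIso (Wd mvs fM cmW)

variable {c : Cd2} {ρ : RA (gr c.1) →* Equiv.Perm (Fin (cM c.1))}

theorem bas_sound (h : ValN2 c) (hρ : IsRho c.1 ρ) (v : Fin (kG c)) (i : Fin (cM c.1))
    {b x g : List Wd} (hb : BasN c v i b x g) :
    IsBas (decide (TyN c v)) b.length (fun k : Fin b.length => wv c.1 (b.getD k []))
      (Pst (grG c) (piF c) ρ v i) := by
  have hA : ActV c.1 := h.2.1
  have hB := bu_code h
  obtain ⟨z1, z2, z3, z4, z5, z6, z7, z8⟩ := hb
  obtain ⟨ty, hty⟩ : ∃ ty : Bool, ty = decide (TyN c v) := ⟨_, rfl⟩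
  rw [← hty] at z2 z3 z5 ⊢
  obtain ⟨K, hK⟩ : ∃ K : Pres, K = KP ty b.length := ⟨_, rfl⟩
  have hK1 : K.1 = b.length := by rw [hK]; rfl
  rw [← hK] at z2 z3 z5
  obtain ⟨P, hP⟩ : ∃ P : Subgroup (RA (gr c.1)), P = Pst (grG c) (piF c) ρ v i := ⟨_, rfl⟩
  have hmP : ∀ y, y ∈ P ↔ y ∈ PB (gr c.1) (piF c) {v} ∧ Ps (grG c) (piF c) ρ v i (rm ρ i y) := by
    intro y
    rw [hP]
    exact mem_pst hB
  -- the homomorphism
  obtain ⟨e, he⟩ := rp_iso c.1
  have hrel : ∀ r ∈ K.rels, FreeGroup.lift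
      (fun k => (PresentedGroup.mk (RP c.1).rels (FreeGroup.mk (b.getD k [])) : (RP c.1).Grp)) r = 1 := by
    intro r hr
    rcases hr with ⟨w', hw', rfl⟩ | ⟨k, hk, rfl⟩
    · rw [pres2_lift]
      exact z2 w' hw'
    · rw [FreeGroup.lift_apply_of]
      rw [List.getD_eq_default _ _ (by rw [← hK1]; exact hk)]
      exact map_one _
  obtain ⟨B, hBm⟩ : ∃ B : K.Grp →* RA (gr c.1), ∀ l, B (c05_mw K l) = wv c.1 (sbw b l) := by
    refine ⟨e.toMonoidHom.comp (PresentedGroup.toGroup hrel), fun l => ?_⟩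
    rw [← he, ← pres2_lift]
    rfl
  have hBof : ∀ k : ℕ, B (PresentedGroup.of k) = wv c.1 (b.getD k []) := by
    intro k
    rw [← c05_of, hBm, c05_sb1]
  have hof1 : ∀ k : ℕ, ¬ k < b.length → (PresentedGroup.of k : K.Grp) = 1 := by
    intro k hk
    exact pres2_one_of_ge k (by rw [hK1]; exact not_lt.1 hk)
  have hBP : ∀ y : K.Grp, B y ∈ P := by
    intro y
    have hy : y ∈ Subgroup.closure (Set.range (PresentedGroup.of : ℕ → K.Grp)) := by
      rw [PresentedGroup.closure_range_of]; trivial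
    induction hy using Subgroup.closure_induction with
    | mem y hy =>
      obtain ⟨k, rfl⟩ := hy
      by_cases hk : k < b.length
      · rw [hBof, hP]
        refine ((inp_iff h hρ v i _).1 (z1 _ ?_)).2
        rw [List.getD_eq_getElem _ _ hk]
        exact List.getElem_mem hk
      · rw [hof1 k hk, map_one]
        exact one_mem _
    | one => rw [map_one]; exact one_mem _
    | mul a b _ _ ha hb => rw [map_mul]; exact mul_mem ha hb
    | inv a _ ha => rw [map_inv]; exact inv_mem ha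
  -- the cocycle
  have hcoc : Coc ρ (fun (j : Fin (cM c.1)) (a : Fin (cK c.1)) => c05_mw K (xg c.1 x j a)) := by
    intro j u w huw
    have h1 := z3 j j.2 u u.2 w w.2 ((gr_adj c.1 u w).1 huw)
    have h2 : c05_mw K (xg c.1 x j u ++ xg c.1 x (rmN c.1 j u) w ++
      FreeGroup.invRev (xg c.1 x j w ++ xg c.1 x (rmN c.1 j w) u)) = 1 := h1
    rw [c05_append, c05_append, c05_inv, c05_append, mul_inv_eq_one] at h2
    show c05_mw K (xg c.1 x j u) * c05_mw K (xg c.1 x (rm ρ j (gen u) : Fin (cM c.1)) w) =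
      c05_mw K (xg c.1 x j w) * c05_mw K (xg c.1 x (rm ρ j (gen w) : Fin (cM c.1)) u)
    rw [hρ j u, hρ j w]
    exact h2
  obtain ⟨κ, hκ1, hκ2⟩ := exists_cc hcoc
  have hlift : ∀ j l, κ j (wv c.1 l) = c05_mw K (liftN c.1 x j l) :=
    fun j l => lift_eq2 hA hρ x (fun j v => hκ1 j v) hκ2 j l
  have hκlk : ∀ y ∈ PB (gr c.1) (piF c) (lk (grG c) v), ∀ j, κ j y = 1 := by
    intro y hy
    induction hy using Subgroup.closure_induction with
    | mem y hy =>
      obtain ⟨a, ha, rfl⟩ := hy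
      intro j
      have h1 : (grG c).Adj v (piF c a) := ha
      have h2 : ¬ piN c a = v := by
        intro h3
        have h4 : piF c a = v := Fin.ext h3
        rw [h4] at h1
        exact (grG c).loopless.irrefl v h1
      show κ j (gen a) = 1
      rw [hκ1]
      show c05_mw K (xg c.1 x j a) = 1
      rw [z4 j j.2 a a.2 h2]
      exact c05_nil K
    | one => intro j; exact cc_one hκ2 j
    | mul a b _ _ ha hb => intro j; rw [hκ2, ha, hb, mul_one]
    | inv a _ ha => intro j; rw [c05_cc_inv hκ2, ha, inv_one]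
  have hκgy : ∀ g ∈ PB (gr c.1) (piF c) {v}, ∀ y ∈ PB (gr c.1) (piF c) (lk (grG c) v), ∀ j,
      κ (rm ρ j y) g = κ j g := by
    intro g hg y hy j
    have h1 := hκ2 j y g
    have h2 := hκ2 j g y
    rw [hκlk y hy, one_mul] at h1
    rw [hκlk y hy, mul_one] at h2
    rw [← h1, ← h2, gg_lk_comm hB hg hy]
  have hκmul : ∀ p ∈ P, ∀ g ∈ PB (gr c.1) (piF c) {v}, κ i (p * g) = κ i p * κ i g := by
    intro p hp g hg
    obtain ⟨y, hy, hy'⟩ := ((hmP p).1 hp).2
    rw [hκ2, ← hy', hκgy g hg y hy]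
  have hκB : ∀ y : K.Grp, κ i (B y) = y := by
    intro y
    have hy : y ∈ Subgroup.closure (Set.range (PresentedGroup.of : ℕ → K.Grp)) := by
      rw [PresentedGroup.closure_range_of]; trivial
    induction hy using Subgroup.closure_induction with
    | mem y hy =>
      obtain ⟨k, rfl⟩ := hy
      by_cases hk : k < b.length
      · have h2 : c05_mw K (liftN c.1 x i (b.getD k []) ++ [(k, false)]) = 1 := z5 k hk
        rw [c05_append, c05_of', mul_inv_eq_one] at h2
        rw [hBof, hlift]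
        exact h2
      · rw [hof1 k hk, map_one]
        exact cc_one hκ2 i
    | one => rw [map_one]; exact cc_one hκ2 i
    | mul a b _ _ ha hb =>
      rw [map_mul, hκmul _ (hBP a) _ ((hmP _).1 (hBP b)).1, ha, hb]
    | inv a _ ha =>
      have h1 := hκmul _ (hBP a⁻¹) _ ((hmP _).1 (hBP a)).1
      rw [← map_mul, inv_mul_cancel, map_one, cc_one hκ2, ha] at h1
      exact eq_inv_of_mul_eq_one_left h1.symm
  -- the paths
  obtain ⟨q, hq⟩ : ∃ q : Fin (cM c.1) → RA (gr c.1), q = fun j : Fin (cM c.1) =>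
    wv c.1 (g.getD (j : ℕ) []) := ⟨_, rfl⟩
  have hBκ : ∀ y ∈ PB (gr c.1) (piF c) {v}, ∀ j : Fin (cM c.1),
      (∃ h ∈ PB (gr c.1) (piF c) {v}, rm ρ i h = j) → B (κ j y) = q j * y * (q (rm ρ j y))⁻¹ := by
    intro y hy
    have hstep : ∀ (y : RA (gr c.1)), y ∈ PB (gr c.1) (piF c) {v} → ∀ j : Fin (cM c.1),
        (∃ h ∈ PB (gr c.1) (piF c) {v}, rm ρ i h = j) →
        ∃ h ∈ PB (gr c.1) (piF c) {v}, rm ρ i h = rm ρ j y := by
      rintro y hy j ⟨h, hh, rfl⟩
      exact ⟨h * y, mul_mem hh hy, rm_mul _ _ _ _⟩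
    induction hy using Subgroup.closure_induction with
    | mem y hy =>
      obtain ⟨a, ha, rfl⟩ := hy
      intro j hj
      have ha1 : piF c a = v := ha
      have ha2 : piN c a = v := congrArg Fin.val ha1
      have h1 := (triv_rp c.1 _).1 (z7 j j.2 ((cl_iff hA hρ v i j).2 hj) a a.2 ha2)
      rw [wv_append, wv_inv, mul_inv_eq_one, wv_append, wv_append, wv_inv] at h1
      show B (κ j (gen a)) = q j * gen a * (q (rm ρ j (gen a)))⁻¹
      rw [hκ1]
      show B (c05_mw K (xg c.1 x j a)) = _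
      rw [hBm, h1, hq]
      show wv c.1 (g.getD j []) * wv c.1 [((a : ℕ), true)] * (wv c.1 (g.getD (rmN c.1 j a) []))⁻¹ =
        wv c.1 (g.getD j []) * gen a * (wv c.1 (g.getD (rm ρ j (gen a) : Fin (cM c.1)) []))⁻¹
      rw [hρ j a, c05_wv_cons, wv_nil, mul_one, c02_gen]
    | one =>
      intro j hj
      rw [cc_one hκ2, map_one, rm_one]
      group
    | mul y1 y2 hy1 hy2 ih1 ih2 =>
      intro j hj
      rw [hκ2, map_mul, ih1 j hj, ih2 _ (hstep y1 hy1 j hj), rm_mul]
      group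
    | inv y hy ih =>
      intro j hj
      have h1 := ih _ (hstep y⁻¹ (inv_mem hy) j hj)
      rw [c05_rm_inv] at h1
      rw [c05_cc_inv hκ2, map_inv, h1]
      group
  have hq1 : ∀ j : Fin (cM c.1), Ps (grG c) (piF c) ρ v i j → q j = 1 := by
    intro j hj
    rw [hq]
    show wv c.1 (g.getD (j : ℕ) []) = 1
    rw [z6 j j.2 ((ps_iff hA hρ v i j).2 hj), wv_nil]
  have hBp : ∀ p ∈ P, B (κ i p) = p := by
    intro p hp
    obtain ⟨hp1, hp2⟩ := (hmP p).1 hp
    rw [hBκ p hp1 i ⟨1, one_mem _, rm_one _ _⟩, hq1 i (ps_refl v i), hq1 _ hp2]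
    group
  have hk0 := kp_iso ty b.length
  rw [← hK] at hk0
  obtain ⟨e0, he0⟩ := hk0
  let e1 : K.Grp ≃* P := {
    toFun := fun y => ⟨B y, hBP y⟩
    invFun := fun p => κ i p.1
    left_inv := fun y => hκB y
    right_inv := fun p => Subtype.ext (hBp p.1 p.2)
    map_mul' := fun a b => Subtype.ext (map_mul B a b) }
  rw [← hP]
  refine ⟨e0.symm.trans e1, fun k => ?_⟩
  have h1 : e0.symm (gen k) = PresentedGroup.of (k : ℕ) := by
    rw [← he0, MulEquiv.symm_apply_apply]
  show ((e1 (e0.symm (gen k)) : P) : RA (gr c.1)) = wv c.1 (b.getD k [])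
  rw [h1]
  exact hBof k

end RaagGP
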