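import Pool.Agent.Lib.MP_32d917_al_gp.H05

/-!
# H09: the actions of the position stabilisers on the points of a position (45 min)

`S = {d : C // Ps Γ π ρ v c d}`. `A p : Equiv.Perm S` is `d ↦ rm ρ d p⁻¹`, with inverse `d ↦ rm ρ d p`: for `p ∈ Pst v c` the definition of `Pst` says `Ps c d ↔ Ps c (rm ρ d p)`. It is a homomorphism: `rm ρ d (p * q)⁻¹ = rm ρ (rm ρ d q⁻¹) p⁻¹`.
`A' p'`: `d ↦ F.symm (rm ρ' (F d) p'⁻¹)`, inverse `d ↦ F.symm (rm ρ' (F d) p')`: `Ps c d ↔ Ps' (τ c v) (F c) (F d)` by `ps_map` and `ps_back`, and the definition of `Pst'`.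
Last statement: `A' (Ψ p) = A p` iff `F (rm ρ d p⁻¹) = rm ρ' (F d) (Ψ p)⁻¹` for all `d`; replace `p` by `p⁻¹`.
-/

set_option autoImplicit false

namespace RaagGP

open RaagIso

variable {V W V' W' C C' : Type} {Γ : SimpleGraph V} {Λ : SimpleGraph W} {π : W → V}
  {Γ' : SimpleGraph V'} {Λ' : SimpleGraph W'} {π' : W' → V'} {ρ : RA Λ →* Equiv.Perm C}
  {ρ' : RA Λ' →* Equiv.Perm C'}

theorem act_exists {F : C ≃ C'} {τ : C → V ≃ V'}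
    (ha : ∀ c v w, Γ.Adj v w ↔ Γ'.Adj (τ c v) (τ c w))
    (ht : ∀ c a w, w ∈ st Γ (π a) → τ (rm ρ c (gen a)) w = τ c w)
    (ho : ∀ c d v, (∃ g ∈ PB Λ π {v}, rm ρ c g = d) ↔
      ∃ g' ∈ PB Λ' π' {τ c v}, rm ρ' (F c) g' = F d) (c : C) (v : V) :
    ∃ (A : Pst Γ π ρ v c →* Equiv.Perm {d : C // Ps Γ π ρ v c d})
      (A' : Pst Γ' π' ρ' (τ c v) (F c) →* Equiv.Perm {d : C // Ps Γ π ρ v c d}),
      (∀ p d, ((A p d : {d : C // Ps Γ π ρ v c d}) : C) = rm ρ d (p : RA Λ)⁻¹) ∧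
      (∀ p' d, F (A' p' d : {d : C // Ps Γ π ρ v c d}) = rm ρ' (F d) (p' : RA Λ')⁻¹) ∧
      ∀ Ψ : Pst Γ π ρ v c ≃* Pst Γ' π' ρ' (τ c v) (F c),
        (∀ p, A' (Ψ p) = A p) ↔
          ∀ (p : Pst Γ π ρ v c) (d : C), Ps Γ π ρ v c d → F (rm ρ d p) = rm ρ' (F d) (Ψ p) := by
  have hmap : ∀ d, Ps Γ π ρ v c d ↔ Ps Γ' π' ρ' (τ c v) (F c) (F d) := fun d =>
    ⟨fun hd => (ps_map ha ht ho hd).1, fun hd => ps_back ha ht ho hd⟩
  have h2 : ∀ (p : Pst Γ π ρ v c) (d : C), Ps Γ π ρ v c d → Ps Γ π ρ v c (rm ρ d p) :=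
    fun p d hd => (p.2.2 d).1 hd
  have h3 : ∀ (p' : Pst Γ' π' ρ' (τ c v) (F c)) (d : C), Ps Γ π ρ v c d →
      Ps Γ π ρ v c (F.symm (rm ρ' (F d) p')) := by
    intro p' d hd
    rw [hmap, F.apply_symm_apply]
    exact (p'.2.2 _).1 ((hmap d).1 hd)
  let A0 : Pst Γ π ρ v c → Equiv.Perm {d : C // Ps Γ π ρ v c d} := fun p =>
    { toFun := fun d => ⟨rm ρ d (p : RA Λ)⁻¹, h2 p⁻¹ d d.2⟩
      invFun := fun d => ⟨rm ρ d (p : RA Λ), h2 p d d.2⟩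
      left_inv := fun d => Subtype.ext (rm_inv_l _ _)
      right_inv := fun d => Subtype.ext (rm_inv_r _ _) }
  let B0 : Pst Γ' π' ρ' (τ c v) (F c) → Equiv.Perm {d : C // Ps Γ π ρ v c d} := fun p' =>
    { toFun := fun d => ⟨F.symm (rm ρ' (F d) (p' : RA Λ')⁻¹), h3 p'⁻¹ d d.2⟩
      invFun := fun d => ⟨F.symm (rm ρ' (F d) (p' : RA Λ')), h3 p' d d.2⟩
      left_inv := fun d => Subtype.ext (by
        show F.symm (rm ρ' (F (F.symm (rm ρ' (F d) (p' : RA Λ')⁻¹))) (p' : RA Λ')) = d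
        rw [F.apply_symm_apply, rm_inv_l, F.symm_apply_apply])
      right_inv := fun d => Subtype.ext (by
        show F.symm (rm ρ' (F (F.symm (rm ρ' (F d) (p' : RA Λ')))) (p' : RA Λ')⁻¹) = d
        rw [F.apply_symm_apply, rm_inv_r, F.symm_apply_apply]) }
  have hA0 : ∀ p d, ((A0 p d : {d : C // Ps Γ π ρ v c d}) : C) = rm ρ d (p : RA Λ)⁻¹ :=
    fun p d => rfl
  have hB0 : ∀ p' d, ((B0 p' d : {d : C // Ps Γ π ρ v c d}) : C) =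
      F.symm (rm ρ' (F d) (p' : RA Λ')⁻¹) := fun p' d => rfl
  let A : Pst Γ π ρ v c →* Equiv.Perm {d : C // Ps Γ π ρ v c d} :=
    MonoidHom.mk' A0 (by
      intro p q
      refine Equiv.ext (fun d => Subtype.ext ?_)
      rw [Equiv.Perm.mul_apply, hA0, hA0, hA0, Subgroup.coe_mul, mul_inv_rev, rm_mul])
  let A' : Pst Γ' π' ρ' (τ c v) (F c) →* Equiv.Perm {d : C // Ps Γ π ρ v c d} :=
    MonoidHom.mk' B0 (by
      intro p q
      refine Equiv.ext (fun d => Subtype.ext ?_)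
      rw [Equiv.Perm.mul_apply, hB0, hB0, hB0, Subgroup.coe_mul, mul_inv_rev, rm_mul,
        F.apply_symm_apply])
  have hA : ∀ p d, ((A p d : {d : C // Ps Γ π ρ v c d}) : C) = rm ρ d (p : RA Λ)⁻¹ :=
    fun p d => rfl
  have hA' : ∀ p' d, F (A' p' d : {d : C // Ps Γ π ρ v c d}) = rm ρ' (F d) (p' : RA Λ')⁻¹ := by
    intro p' d
    show F (F.symm (rm ρ' (F d) (p' : RA Λ')⁻¹)) = _
    rw [F.apply_symm_apply]
  refine ⟨A, A', hA, hA', fun Ψ => ⟨fun hΨ p d hd => ?_, fun hΨ p => ?_⟩⟩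
  · have h4 := hA' (Ψ p⁻¹) ⟨d, hd⟩
    rw [hΨ, hA, map_inv, Subgroup.coe_inv, Subgroup.coe_inv, inv_inv, inv_inv] at h4
    exact h4
  · refine Equiv.ext (fun d => Subtype.ext (F.injective ?_))
    have h4 := hΨ p⁻¹ d d.2
    rw [map_inv, Subgroup.coe_inv, Subgroup.coe_inv] at h4
    rw [hA', hA, h4]

end RaagGP
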