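import Mathlib

/-!
# N02: generation of the general linear group over the integers (75 min)

Statement: a property of square matrices over `ℤ` which holds for `1`, for the transvections `Matrix.transvection i j c` (`i ≠ j`), for the sign changes `Matrix.diagonal (Function.update 1 i (-1))`, and for products, holds for all matrices `M` with `IsUnit M.det`.

Proof. Let `Q' M` mean: `M = A * B` with ... simply: call `M` reachable if `Q M`. It is enough to show: for every `M` with unit determinant there is `N` with `Q N`, `IsUnit N.det` such that `M * N` is better, and `Q` holds for the inverses of the elementary matrices (the inverse of `transvection i j c` is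
`transvection i j (-c)`, the sign change is its own inverse), so `Q (M * N)` implies `Q M` for elementary `N`. Let (R i) be: the rows `j < i` of `M` are the rows of the unit matrix. By downward induction on `i` (from `i = r`, where `M = 1`): all `M` with (R i) and unit determinant satisfy `Q`.
Step: let `M` satisfy (R i), `i < r`. Inner induction on `n = ∑ k ≥ i, |M i k|` (natural number). For `k, l ≥ i`, `k ≠ l`, multiplication on the right by `transvection k l c` adds `c` times column `k` to column `l`; it preserves (R i), since the columns `≥ i` vanish in the rows `< i`.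
If two entries `M i k`, `M i l` with `k, l ≥ i` are not `0` and `|M i k| ≤ |M i l|`, then with `c = ∓ 1` the sum `n` becomes smaller. Otherwise exactly one entry `d = M i k`, `k ≥ i`, is not `0` (not none): with `M' = M⁻¹` (`Matrix.nonsing_inv_mul`, `Matrix.mul_nonsing_inv`) the rows `j < i` of `M * M' = 1` give `M' j i = 0` for `j < i`, so
`1 = (M * M') i i = ∑ k ≥ i, M i k * M' k i = d * M' k i`, so `d = 1` or `d = -1`. If `k ≠ i`, add column `k` to column `i` and then subtract a suitable multiple (`± 1`) of column `i` from column `k`: now only `M i i = ± 1` is not `0` among the columns `≥ i`; by the sign change at `i` (it preserves (R i)) `M i i = 1`. Then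
subtract `M i l` times column `i` from the columns `l < i` (this preserves (R i), as column `i` vanishes in the rows `< i`): (R (i + 1)).
(The determinant of `M * N` is a unit: `Matrix.det_mul`, `Matrix.det_transvection_of_ne`.) It may be more convenient to work with a measure on pairs or with the statement for `Fin r` and `i : ℕ`, `i ≤ r`.
-/

set_option autoImplicit false

namespace RaagGP

/-- the rows `a < i` are the rows of the unit matrix -/
def n02_R {r : ℕ} (i : ℕ) (M : Matrix (Fin r) (Fin r) ℤ) : Prop :=
  ∀ a b : Fin r, a.val < i → M a b = if a = b then 1 else 0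

theorem n02_trans {r : ℕ} (M : Matrix (Fin r) (Fin r) ℤ) (k l : Fin r) (c : ℤ) (a b : Fin r) :
    (M * Matrix.transvection k l c) a b = if b = l then M a l + c * M a k else M a b := by
  split_ifs with h
  · subst h
    exact Matrix.mul_transvection_apply_same k b a c M
  · exact Matrix.mul_transvection_apply_of_ne k l a b h c M

theorem n02_det {r : ℕ} {M : Matrix (Fin r) (Fin r) ℤ} (hM : IsUnit M.det) {k l : Fin r}
    (hkl : k ≠ l) (c : ℤ) : IsUnit (M * Matrix.transvection k l c).det := by
  rw [Matrix.det_mul, Matrix.det_transvection_of_ne _ _ hkl, mul_one]
  exact hM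

theorem n02_keep {r : ℕ} {M : Matrix (Fin r) (Fin r) ℤ} {i : ℕ} (h : n02_R i M) {k l : Fin r}
    (hk : i ≤ k.val) (c : ℤ) : n02_R i (M * Matrix.transvection k l c) := by
  intro a b ha
  rw [n02_trans]
  have h1 : M a k = 0 := by
    rw [h a k ha, if_neg]
    rintro rfl
    omega
  split_ifs with h2 h3 h3
  · rw [h1, mul_zero, add_zero, h a l ha, if_pos (h3.trans h2)]
  · rw [h1, mul_zero, add_zero, h a l ha, if_neg (fun h4 => h3 (h4.trans h2.symm))]
  · rw [h a b ha, if_pos h3]
  · rw [h a b ha, if_neg h3]

theorem gl_ind {r : ℕ} (Q : Matrix (Fin r) (Fin r) ℤ → Prop) (h1 : Q 1)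
    (hm : ∀ M N, Q M → Q N → Q (M * N))
    (ht : ∀ i j : Fin r, i ≠ j → ∀ c : ℤ, Q (Matrix.transvection i j c))
    (hd : ∀ i : Fin r, Q (Matrix.diagonal (Function.update (fun _ => (1 : ℤ)) i (-1))))
    (M : Matrix (Fin r) (Fin r) ℤ) (hM : IsUnit M.det) : Q M := by
  -- going back along elementary matrices
  have back : ∀ (M : Matrix (Fin r) (Fin r) ℤ) (k l : Fin r) (c : ℤ), k ≠ l →
      Q (M * Matrix.transvection k l c) → Q M := by
    intro M k l c hkl h
    have h2 := hm _ _ h (ht k l hkl (-c))
    rwa [mul_assoc, Matrix.transvection_mul_transvection_same _ _ hkl, add_neg_cancel,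
      Matrix.transvection_zero, mul_one] at h2
  have hdd : ∀ i : Fin r, Matrix.diagonal (Function.update (fun _ => (1 : ℤ)) i (-1)) *
      Matrix.diagonal (Function.update (fun _ => (1 : ℤ)) i (-1)) = 1 := by
    intro i
    rw [Matrix.diagonal_mul_diagonal, ← Matrix.diagonal_one]
    congr 1
    funext j
    by_cases hj : j = i
    · subst hj
      simp
    · simp [Function.update_of_ne hj]
  -- clearing the row
  have clear : ∀ i : Fin r, (∀ M, n02_R (i.val + 1) M → IsUnit M.det → Q M) →
      ∀ n : ℕ, ∀ M, n02_R i.val M → IsUnit M.det → M i i = 1 →
      (Finset.univ.filter (fun l => l ≠ i ∧ M i l ≠ 0)).card = n → Q M := by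
    intro i ih n
    induction n with
    | zero =>
      intro M hR hu hii hn
      apply ih M _ hu
      intro a b ha
      rcases Nat.lt_or_ge a.val i.val with h | h
      · exact hR a b h
      · have hai : a = i := Fin.ext (by omega)
        subst hai
        by_cases hab : a = b
        · subst hab
          rw [hii, if_pos rfl]
        · rw [if_neg hab]
          by_contra h0
          have : b ∈ (Finset.univ.filter (fun l => l ≠ a ∧ M a l ≠ 0)) := by
            rw [Finset.mem_filter]
            exact ⟨Finset.mem_univ _, fun h => hab h.symm, h0⟩
          rw [Finset.card_eq_zero] at hn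
          rw [hn] at this
          exact absurd this (Finset.notMem_empty _)
    | succ n ihn =>
      intro M hR hu hii hn
      have hne : (Finset.univ.filter (fun l => l ≠ i ∧ M i l ≠ 0)).Nonempty := by
        rw [← Finset.card_pos]
        omega
      obtain ⟨l, hl⟩ := hne
      rw [Finset.mem_filter] at hl
      obtain ⟨-, hli, hl0⟩ := hl
      apply back M i l (- M i l) (fun h => hli h.symm)
      apply ihn
      · exact n02_keep hR le_rfl _
      · exact n02_det hu (fun h => hli h.symm) _
      · rw [n02_trans, if_neg (fun h => hli h.symm), hii]
      · have h2 : (Finset.univ.filter (fun l' => l' ≠ i ∧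
            (M * Matrix.transvection i l (- M i l)) i l' ≠ 0)) =
            (Finset.univ.filter (fun l => l ≠ i ∧ M i l ≠ 0)).erase l := by
          ext b
          rw [Finset.mem_filter, Finset.mem_erase, Finset.mem_filter, n02_trans]
          by_cases hbl : b = l
          · subst hbl
            rw [if_pos rfl, hii]
            simp
          · rw [if_neg hbl]
            tauto
        rw [h2, Finset.card_erase_of_mem, hn]
        · rfl
        · rw [Finset.mem_filter]
          exact ⟨Finset.mem_univ _, hli, hl0⟩
  -- one step of the outer induction
  have step : ∀ i : Fin r, (∀ M, n02_R (i.val + 1) M → IsUnit M.det → Q M) →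
      ∀ n : ℕ, ∀ M, n02_R i.val M → IsUnit M.det →
      ∑ k ∈ Finset.univ.filter (fun k : Fin r => i.val ≤ k.val), (M i k).natAbs = n → Q M := by
    intro i ih n
    induction n using Nat.strong_induction_on with
    | _ n ihn =>
      intro M hR hu hn
      by_cases hA : ∃ k l : Fin r, i.val ≤ k.val ∧ i.val ≤ l.val ∧ k ≠ l ∧ M i k ≠ 0 ∧
          M i l ≠ 0 ∧ (M i k).natAbs ≤ (M i l).natAbs
      · obtain ⟨k, l, hk, hl, hkl, hk0, hl0, hle⟩ := hA
        obtain ⟨c, hc⟩ : ∃ c : ℤ, (M i l + c * M i k).natAbs < (M i l).natAbs := by
          rcases lt_or_gt_of_ne hk0 with h2 | h2 <;> rcases lt_or_gt_of_ne hl0 with h3 | h3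
          · exact ⟨-1, by omega⟩
          · exact ⟨1, by omega⟩
          · exact ⟨1, by omega⟩
          · exact ⟨-1, by omega⟩
        apply back M k l c hkl
        refine ihn _ ?_ _ (n02_keep hR hk c) (n02_det hu hkl c) rfl
        rw [← hn]
        apply Finset.sum_lt_sum
        · intro b _
          rw [n02_trans]
          split_ifs with h
          · subst h
            exact hc.le
          · exact le_rfl
        · refine ⟨l, ?_, ?_⟩
          · rw [Finset.mem_filter]
            exact ⟨Finset.mem_univ _, hl⟩
          · rw [n02_trans, if_pos rfl]
            exact hc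
      · push Not at hA
        have hone : ∀ k l : Fin r, i.val ≤ k.val → i.val ≤ l.val → M i k ≠ 0 → M i l ≠ 0 →
            k = l := by
          intro k l hk hl hk0 hl0
          by_contra hkl
          have h2 := hA k l hk hl hkl hk0 hl0
          have h3 := hA l k hl hk (fun h => hkl h.symm) hl0 hk0
          omega
        -- the inverse
        obtain ⟨M', hM'⟩ : ∃ M' : Matrix (Fin r) (Fin r) ℤ, M * M' = 1 :=
          ⟨M⁻¹, Matrix.mul_nonsing_inv M hu⟩
        have hzero : ∀ b : Fin r, b.val < i.val → M' b i = 0 := by
          intro b hb
          have h2 := congrFun (congrFun hM' b) i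
          rw [Matrix.mul_apply] at h2
          have h3 : ∑ j, M b j * M' j i = M' b i := by
            rw [Finset.sum_eq_single b]
            · rw [hR b b hb, if_pos rfl, one_mul]
            · intro j _ hj
              rw [hR b j hb, if_neg (fun h => hj h.symm), zero_mul]
            · intro h
              exact absurd (Finset.mem_univ _) h
          rw [h3] at h2
          rw [h2, Matrix.one_apply_ne]
          rintro rfl
          omega
        have hsum : ∑ j, M i j * M' j i = 1 := by
          have h2 := congrFun (congrFun hM' i) i
          rw [Matrix.mul_apply] at h2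
          rw [h2, Matrix.one_apply_eq]
        obtain ⟨k, hk, hk0⟩ : ∃ k : Fin r, i.val ≤ k.val ∧ M i k ≠ 0 := by
          by_contra hcon
          push Not at hcon
          have h2 : ∑ j, M i j * M' j i = 0 := by
            apply Finset.sum_eq_zero
            intro j _
            rcases Nat.lt_or_ge j.val i.val with h | h
            · rw [hzero j h, mul_zero]
            · rw [hcon j h, zero_mul]
          rw [h2] at hsum
          exact zero_ne_one hsum
        have hk1 : M i k * M' k i = 1 := by
          rw [← hsum, Finset.sum_eq_single k]
          · intro j _ hj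
            rcases Nat.lt_or_ge j.val i.val with h | h
            · rw [hzero j h, mul_zero]
            · have : M i j = 0 := by
                by_contra h0
                exact hj (hone j k h hk h0 hk0)
              rw [this, zero_mul]
          · intro h
            exact absurd (Finset.mem_univ _) h
        have hk2 : M i k = 1 ∨ M i k = -1 := Int.isUnit_iff.mp (IsUnit.of_mul_eq_one _ hk1)
        by_cases hki : k = i
        · subst hki
          rcases hk2 with h2 | h2
          · exact clear k ih _ M hR hu h2 rfl
          · have h3 : Q (M * Matrix.diagonal (Function.update (fun _ => (1 : ℤ)) k (-1))) := by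
              refine clear k ih _ _ ?_ ?_ ?_ rfl
              · intro a b ha
                rw [Matrix.mul_diagonal, hR a b ha]
                by_cases hbk : b = k
                · subst hbk
                  rw [if_neg, zero_mul]
                  rintro rfl
                  omega
                · rw [Function.update_of_ne hbk, mul_one]
              · rw [Matrix.det_mul]
                refine hu.mul ?_
                exact Matrix.isUnit_det_of_right_inverse (hdd k)
              · rw [Matrix.mul_diagonal, Function.update_self, h2]
                norm_num
            have h4 := hm _ _ h3 (hd k)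
            rwa [mul_assoc, hdd, mul_one] at h4
        · have hi0 : M i i = 0 := by
            by_contra h0
            exact hki (hone k i hk le_rfl hk0 h0)
          apply back M k i (M i k) hki
          refine clear i ih _ _ (n02_keep hR hk _) (n02_det hu hki _) ?_ rfl
          rw [n02_trans, if_pos rfl, hi0, zero_add]
          rcases hk2 with h2 | h2 <;> rw [h2] <;> norm_num
  -- the outer induction
  have main : ∀ d : ℕ, ∀ i : ℕ, i + d = r → ∀ M, n02_R i M → IsUnit M.det → Q M := by
    intro d
    induction d with
    | zero =>
      intro i hi M hR _
      have : M = 1 := by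
        ext a b
        rw [hR a b (by omega), Matrix.one_apply]
      rw [this]
      exact h1
    | succ d ihd =>
      intro i hi M hR hu
      exact step ⟨i, by omega⟩ (ihd (i + 1) (by omega)) _ M hR hu rfl
  exact main r 0 (zero_add r) M (fun a b ha => absurd ha (Nat.not_lt_zero _)) hM

end RaagGP
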