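import Pool.Agent.Lib.MP_32d917_al_gp.Defs
import Pool.Agent.Lib.MP_32d917_al_adm.WC03
import Pool.Agent.Lib.MP_32d917_al_gp.N02

/-!
# N03: the moves generate the automorphisms of a free abelian group (75 min)

`T = KG true r` is the complete graph on `Fin r`, so `RA T` is commutative (`kg_comm`: `pp_comm` or `ra_ind` twice). For a matrix `M` let `E M : RA T →* RA T` be the homomorphism with `gen k ↦ ∏ j, gen j ^ M j k` (`ra_lift`; use a `List`/`Finset.noncommProd` or give `RA T` a local `CommGroup` structure:
`letI : CommGroup (RA T) := { (inferInstance : Group (RA T)) with mul_comm := kg_comm }`). `E (M * N) = (E M).comp (E N)` (`ra_ext`), `E 1 = id`. For an automorphism `θ` let `Mt j k = toAdd (ab T j (θ (gen k)))`; every element is `x = ∏ j, gen j ^ toAdd (ab T j x)` (`ra_ind`, `ab_gen`), so `E Mt = θ`, and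
`Mt * Mt' = 1` for the matrix `Mt'` of `θ.symm`, so `IsUnit Mt.det`.

`n03_clo`: apply `gl_ind` with `Q M`: for all `A : RA T →* X` with `(fun k => A (gen k)) ∈ S`: `(fun k => A (E M (gen k))) ∈ S`. Products: `A.comp (E M)`. Sign change at `i`: the move `(2, [], (0, true), (i, 0))`. Transvection `i j 1`: `gen j ↦ gen j * gen i = gen i * gen j`, the other generators are fixed:
move `(0, P, (i, true), (0, 0))` with `P ∈ psubs r` a list with exactly the element `(j, true)` (`WC.psubs_all` in `WC03`), see `fW`; `transvection i j (-1)`: the same with `(i, false)`. General `c`: induction (`Matrix.transvection_mul_transvection_same`).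
-/

set_option autoImplicit false

namespace RaagGP

open RaagIso

theorem kg_comm {r : ℕ} (x y : RA (KG true r)) : x * y = y * x := by
  have hg : ∀ v w : Fin r, (gen v : RA (KG true r)) * gen w = gen w * gen v := by
    intro v w
    by_cases h : v = w
    · rw [h]
    · exact gen_comm (by simpa [KG] using h)
  have h1 : ∀ (v : Fin r) (z : RA (KG true r)), (gen v : RA (KG true r)) * z = z * gen v := by
    intro v z
    refine ra_ind (C := fun z => (gen v : RA (KG true r)) * z = z * gen v) ?_ ?_ ?_ ?_ z
    · rw [mul_one, one_mul]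
    · exact fun w => hg v w
    · intro a b ha hb
      rw [← mul_assoc, ha, mul_assoc, hb, mul_assoc]
    · intro a ha
      rw [eq_inv_mul_iff_mul_eq, ← mul_assoc, ← ha, mul_assoc, mul_inv_cancel, mul_one]
  refine ra_ind (C := fun x => x * y = y * x) ?_ ?_ ?_ ?_ x
  · rw [mul_one, one_mul]
  · exact fun w => h1 w y
  · intro a b ha hb
    rw [mul_assoc, hb, ← mul_assoc, ha, mul_assoc]
  · intro a ha
    rw [inv_mul_eq_iff_eq_mul, ← mul_assoc, ha, mul_assoc, mul_inv_cancel, mul_one]

/-- the coordinates of a free abelian group -/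
theorem kg_iso (r : ℕ) : ∃ e : RA (KG true r) ≃* Multiplicative (Fin r → ℤ),
    ∀ k, e (gen k) = Multiplicative.ofAdd (Pi.single k 1) := by
  classical
  obtain ⟨F, hF⟩ := ra_lift (Γ := KG true r) (K := Multiplicative (Fin r → ℤ))
    (fun k => Multiplicative.ofAdd (Pi.single k 1)) (fun v w _ => mul_comm _ _)
  let _ : CommGroup (RA (KG true r)) :=
    { (inferInstance : Group (RA (KG true r))) with mul_comm := kg_comm }
  let G : Multiplicative (Fin r → ℤ) →* RA (KG true r) :=
    { toFun := fun v => ∏ j, (gen j : RA (KG true r)) ^ (Multiplicative.toAdd v j)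
      map_one' := by
        simp
      map_mul' := by
        intro v w
        rw [← Finset.prod_mul_distrib]
        refine Finset.prod_congr rfl fun j _ => ?_
        rw [toAdd_mul, Pi.add_apply, zpow_add] }
  have hG : ∀ k, G (Multiplicative.ofAdd (Pi.single k 1)) = gen k := by
    intro k
    change (∏ j, (gen j : RA (KG true r)) ^ ((Pi.single k (1 : ℤ) : Fin r → ℤ) j)) = gen k
    rw [Finset.prod_eq_single k]
    · rw [Pi.single_eq_same, zpow_one]
    · intro j _ hj
      rw [Pi.single_eq_of_ne hj, zpow_zero]
    · intro h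
      exact absurd (Finset.mem_univ k) h
  have h1 : G.comp F = MonoidHom.id _ := by
    apply ra_ext
    intro v
    rw [MonoidHom.comp_apply, hF, hG]
    rfl
  have h2 : ∀ v, F (G v) = v := by
    intro v
    change F (∏ j, (gen j : RA (KG true r)) ^ (Multiplicative.toAdd v j)) = v
    have h3 : (∏ j, (gen j : RA (KG true r)) ^ (Multiplicative.toAdd v j)) =
        (∏ j, (gen j : RA (KG true r)) ^ (Multiplicative.toAdd v j)) := rfl
    rw [map_prod]
    simp only [map_zpow, hF]
    apply Multiplicative.toAdd.injective
    rw [toAdd_prod]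
    simp only [toAdd_zpow, toAdd_ofAdd]
    funext i
    rw [Finset.sum_apply, Finset.sum_eq_single i]
    · simp
    · intro j _ hj
      simp [Pi.single_eq_of_ne (Ne.symm hj)]
    · intro h
      exact absurd (Finset.mem_univ i) h
  refine ⟨MonoidHom.toMulEquiv F G h1 (MonoidHom.ext h2), hF⟩

theorem n03_clo (r : ℕ) {X : Type} [Group X] {S : Set (Fin r → X)} (hS : Clo r S)
    (A : RA (KG true r) →* X) (hA : (fun k => A (gen k)) ∈ S)
    (θ : RA (KG true r) ≃* RA (KG true r)) : (fun k => A (θ (gen k))) ∈ S := by
  classical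
  obtain ⟨e, he⟩ := kg_iso r
  -- the endomorphism of a matrix
  let E : Matrix (Fin r) (Fin r) ℤ → (RA (KG true r) →* RA (KG true r)) := fun M =>
    (e.symm.toMonoidHom.comp (AddMonoidHom.toMultiplicative (Matrix.mulVecLin M).toAddMonoidHom)).comp
      e.toMonoidHom
  have hE : ∀ M x, E M x = e.symm (Multiplicative.ofAdd (M.mulVec (Multiplicative.toAdd (e x)))) :=
    fun M x => rfl
  have hE1 : ∀ x, E 1 x = x := by
    intro x
    rw [hE, Matrix.one_mulVec, ofAdd_toAdd, MulEquiv.symm_apply_apply]
  have hEm : ∀ M N x, E (M * N) x = E M (E N x) := by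
    intro M N x
    rw [hE, hE, hE, MulEquiv.apply_symm_apply, toAdd_ofAdd, Matrix.mulVec_mulVec]
  have hEe : ∀ M (k : Fin r) (y : RA (KG true r)), (∀ i, Multiplicative.toAdd (e y) i = M i k) →
      E M (gen k) = y := by
    intro M k y hy
    rw [hE, he, toAdd_ofAdd, Matrix.mulVec_single_one, MulEquiv.symm_apply_eq]
    apply Multiplicative.toAdd.injective
    rw [toAdd_ofAdd]
    funext i
    rw [hy]
    rfl
  -- the matrix of `θ`
  let L : (RA (KG true r) ≃* RA (KG true r)) → Matrix (Fin r) (Fin r) ℤ :=
    fun θ => Matrix.of fun i k => Multiplicative.toAdd (e (θ (gen k))) i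
  have hL : ∀ θ, (E (L θ)) = θ.toMonoidHom := by
    intro θ
    apply ra_ext
    intro k
    exact hEe _ _ _ fun i => rfl
  have hdet : IsUnit (L θ).det := by
    have h1 : L θ * L θ.symm = 1 := by
      ext i k
      have h2 : E (L θ * L θ.symm) (gen k) = gen k := by
        rw [hEm, hL, hL]
        exact θ.apply_symm_apply _
      rw [hE, he, toAdd_ofAdd, Matrix.mulVec_single_one, MulEquiv.symm_apply_eq, he] at h2
      have h3 := congrArg (fun z : Multiplicative (Fin r → ℤ) => (Multiplicative.toAdd z : Fin r → ℤ) i) h2
      simp only [toAdd_ofAdd, Matrix.col_apply] at h3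
      rw [h3, Matrix.one_apply]
      by_cases h : i = k
      · rw [h, if_pos rfl, Pi.single_eq_same]
      · rw [if_neg h, Pi.single_eq_of_ne h]
    have h2 := congrArg Matrix.det h1
    rw [Matrix.det_mul, Matrix.det_one] at h2
    exact IsUnit.of_mul_eq_one _ h2
  -- the property
  let Q : Matrix (Fin r) (Fin r) ℤ → Prop := fun M =>
    ∀ A : RA (KG true r) →* X, (fun k => A (gen k)) ∈ S → (fun k => A (E M (gen k))) ∈ S
  have hQ1 : Q 1 := by
    intro A hA
    simp only [hE1]
    exact hA
  have hQm : ∀ M N, Q M → Q N → Q (M * N) := by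
    intro M N hM hN A hA
    have h1 := hN (A.comp (E M)) (hM A hA)
    simp only [MonoidHom.comp_apply] at h1
    simp only [hEm]
    exact h1
  -- transvections with coefficient `± 1`
  have hQt1 : ∀ (i j : Fin r), i ≠ j → ∀ b : Bool,
      Q (Matrix.transvection i j (if b then 1 else -1)) := by
    intro i j hij b A hA
    obtain ⟨P, hP, hP'⟩ := AdmIso.WC.psubs_all r {((j : ℕ), true)}
    have hm : ((0, P, ((i : ℕ), b), (0, 0)) : AdmIso.Mv) ∈ AdmIso.mvs r := by
      rw [AdmIso.WC.mem_mvs]
      exact Or.inl ⟨P, hP, _, (AdmIso.WC.mem_lets r _).2 i.2, rfl⟩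
    have h1 := hS _ hA _ hm
    convert h1 using 1
    funext k
    have h2 : E (Matrix.transvection i j (if b then 1 else -1)) (gen k) =
        (if k = j then (if b then gen i else (gen i)⁻¹) else 1) * gen k := by
      apply hEe
      intro l
      rw [Matrix.transvection, Matrix.add_apply, map_mul, toAdd_mul, Pi.add_apply, he,
        toAdd_ofAdd, add_comm]
      congr 1
      · rw [Matrix.one_apply, Pi.single_apply]
      · by_cases hk : k = j
        · subst hk
          rw [if_pos rfl]
          by_cases hl : l = i
          · subst hl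
            cases b
            · simp [he]
            · simp [he]
          · rw [Matrix.single_apply_of_ne _ _ _ _ _ (fun h => hl h.1.symm)]
            cases b
            · simp [he, hl]
            · simp [he, hl]
        · rw [if_neg hk, Matrix.single_apply_of_ne _ _ _ _ _ (fun h => hk h.2.symm)]
          simp
    rw [h2]
    have h3 : AdmIso.fM (0, P, ((i : ℕ), b), (0, 0)) ((k : ℕ), true) =
        (if k = j then [((i : ℕ), b)] else []) ++ [((k : ℕ), true)] := by
      unfold AdmIso.fM AdmIso.fW AdmIso.li
      have e1 : ((((k : ℕ), true) : ℕ × Bool) ∈ P) ↔ k = j := by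
        rw [hP']
        simp [k.2, Fin.ext_iff]
      have e2 : ¬ ((((k : ℕ), !true) : ℕ × Bool) ∈ P) := by
        rw [hP']
        simp
      by_cases hk : k = i
      · subst hk
        have : ¬ k = j := hij
        cases b <;> simp [this]
      · have hk' : ¬ ((k : ℕ) = (i : ℕ)) := fun h => hk (Fin.ext h)
        simp only [if_true, Prod.mk.injEq, hk', false_and, or_self, if_false, e1, e2, List.append_nil]
    rw [h3]
    by_cases hk : k = j
    · rw [if_pos hk, if_pos hk]
      cases b
      · simp [wev]
      · simp [wev]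
    · rw [if_neg hk, if_neg hk]
      simp [wev]
  have hQt : ∀ i j : Fin r, i ≠ j → ∀ c : ℤ, Q (Matrix.transvection i j c) := by
    intro i j hij c
    induction c using Int.induction_on with
    | zero => rw [Matrix.transvection_zero]; exact hQ1
    | succ n ih =>
      rw [← Matrix.transvection_mul_transvection_same _ _ hij]
      exact hQm _ _ ih (by simpa using hQt1 i j hij true)
    | pred n ih =>
      rw [sub_eq_add_neg, ← Matrix.transvection_mul_transvection_same _ _ hij]
      exact hQm _ _ ih (by simpa using hQt1 i j hij false)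
  have hQd : ∀ i : Fin r, Q (Matrix.diagonal (Function.update (fun _ => (1 : ℤ)) i (-1))) := by
    intro i A hA
    have hm : ((2, [], (0, true), ((i : ℕ), 0)) : AdmIso.Mv) ∈ AdmIso.mvs r := by
      rw [AdmIso.WC.mem_mvs]
      exact Or.inr (Or.inr ⟨i, i.2, rfl⟩)
    have h1 := hS _ hA _ hm
    convert h1 using 1
    funext k
    have h2 : E (Matrix.diagonal (Function.update (fun _ => (1 : ℤ)) i (-1))) (gen k) =
        (if k = i then (gen k)⁻¹ else gen k) := by
      apply hEe
      intro l
      by_cases hk : k = i
      · subst hk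
        rw [if_pos rfl, map_inv, toAdd_inv, Pi.neg_apply, he, toAdd_ofAdd]
        by_cases hl : l = k
        · subst hl
          simp
        · rw [Matrix.diagonal_apply_ne _ hl]
          simp [hl]
      · rw [if_neg hk, he, toAdd_ofAdd]
        by_cases hl : l = k
        · subst hl
          rw [Matrix.diagonal_apply_eq, Function.update_of_ne hk]
          simp
        · rw [Matrix.diagonal_apply_ne _ hl]
          simp [hl]
    rw [h2]
    by_cases hk : k = i
    · subst hk
      simp [wev, AdmIso.fM, AdmIso.fI, AdmIso.li]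
    · have hk' : ¬ ((k : ℕ) = (i : ℕ)) := fun h => hk (Fin.ext h)
      simp [wev, AdmIso.fM, AdmIso.fI, hk, hk']
  have h := gl_ind Q hQ1 hQm hQt hQd (L θ) hdet A hA
  rw [hL] at h
  exact h

end RaagGP
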