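import Pool.Agent.Lib.MP_32d917_al_gp.N01
import Pool.Agent.Lib.MP_32d917_al_gp.N03

/-!
# N04: bases and isomorphisms (50 min)

`kg_free`: `RA (KG false r) ≃* FreeGroup (Fin r)` with `gen k ↦ of k` (`ra_lift` without condition, `FreeGroup.lift`).
`gen_clo`: case `ty = false`: transport by `kg_free` and `n01_clo` (`B = A ∘ e.symm`, `θ' = e.symm.trans (θ.trans e)`); case `true`: `n03_clo`.
`bas_move`: let `q : FreeGroup (Fin r) →* RA (KG ty r)`, `of k ↦ gen k`. `ρ` = automorphism of the move (`WC.mv_ex`), `q (ρ (of k)) = wev gen (fM m (k, true))` (`wev_dl`). By `ra_lift` there are `F1`, `F2 : RA (KG ty r) →* RA (KG ty r)` with `gen k ↦ q (ρ (of k))` and `gen k ↦ q (ρ.symm (of k))` (the commutation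
condition: no edges for `ty = false`, `kg_comm` for `ty = true`); `F1 (q x) = q (ρ x)`, `F2 (q x) = q (ρ.symm x)`, so `F1`, `F2` are inverse to each other (`ra_ext`). The new basis is `e` composed with this automorphism (`wev` commutes with homomorphisms: `wev_map`).
`psi_sound`: `θ = e.trans (Ψ.trans e'.symm)` and `gen_clo` for `A'.comp e'`. `psi_complete`: `Ψ = e.symm.trans eU`.
-/

set_option autoImplicit false

namespace RaagGP

open RaagIso

theorem kg_free (r : ℕ) : ∃ e : RA (KG false r) ≃* FreeGroup (Fin r),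
    ∀ k, e (gen k) = FreeGroup.of k := by
  obtain ⟨F1, hF1⟩ := ra_lift (Γ := KG false r) (fun k => (FreeGroup.of k : FreeGroup (Fin r)))
    (fun v w h => by simp [KG] at h)
  let F2 : FreeGroup (Fin r) →* RA (KG false r) := FreeGroup.lift fun k => gen k
  have h21 : F2.comp F1 = MonoidHom.id _ := by
    apply ra_ext
    intro v
    simp [F2, hF1]
  have h12 : F1.comp F2 = MonoidHom.id _ := by
    apply FreeGroup.ext_hom
    intro v
    simp [F2, hF1]
  exact ⟨MonoidHom.toMulEquiv F1 F2 h21 h12, fun k => hF1 k⟩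

theorem gen_clo (ty : Bool) (r : ℕ) {X : Type} [Group X] {S : Set (Fin r → X)} (hS : Clo r S)
    (A : RA (KG ty r) →* X) (hA : (fun k => A (gen k)) ∈ S)
    (θ : RA (KG ty r) ≃* RA (KG ty r)) : (fun k => A (θ (gen k))) ∈ S := by
  cases ty
  · obtain ⟨e, he⟩ := kg_free r
    have hes : ∀ k, e.symm (FreeGroup.of k) = gen k := fun k => by
      rw [← he k, MulEquiv.symm_apply_apply]
    have h1 := n01_clo r hS (A.comp e.symm.toMonoidHom) (by
      have : (fun k => (A.comp e.symm.toMonoidHom) (FreeGroup.of k)) = fun k => A (gen k) := by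
        funext k
        show A (e.symm (FreeGroup.of k)) = A (gen k)
        rw [hes]
      rw [this]
      exact hA) ((e.symm.trans θ).trans e)
    have h2 : (fun k => (A.comp e.symm.toMonoidHom) (((e.symm.trans θ).trans e)
        (FreeGroup.of k))) = fun k => A (θ (gen k)) := by
      funext k
      show A (e.symm (e (θ (e.symm (FreeGroup.of k))))) = A (θ (gen k))
      rw [hes, MulEquiv.symm_apply_apply]
    rw [h2] at h1
    exact h1
  · exact n03_clo r hS A hA θ

theorem wev_map {X Y : Type} [Group X] [Group Y] {r : ℕ} (t : Fin r → X) (f : X →* Y)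
    (l : List (ℕ × Bool)) : f (wev t l) = wev (fun k => f (t k)) l := by
  unfold wev
  rw [map_list_prod, List.map_map]
  congr 1
  apply List.map_congr_left
  rintro ⟨a, b⟩ _
  simp only [Function.comp_apply]
  by_cases h : a < r
  · cases b <;> simp [h]
  · simp [h]

variable {G G' : Type} [Group G] [Group G'] {ty : Bool} {r : ℕ} {β : Fin r → G} {P : Subgroup G}
  {β' : Fin r → G'} {P' : Subgroup G'}

theorem bas_mem (h : IsBas ty r β P) (k : Fin r) : β k ∈ P := by
  obtain ⟨e, he⟩ := h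
  rw [← he k]
  exact (e (gen k)).2

theorem n04_comm (F : Fin r → RA (KG ty r)) :
    ∀ v w, (KG ty r).Adj v w → F v * F w = F w * F v := by
  intro v w h
  cases ty
  · simp [KG] at h
  · exact kg_comm _ _

theorem bas_move (h : IsBas ty r β P) {m : AdmIso.Mv} (hm : m ∈ AdmIso.mvs r) :
    IsBas ty r (fun k : Fin r => wev β (AdmIso.fM m ((k : ℕ), true))) P := by
  obtain ⟨e, he⟩ := h
  obtain ⟨ρ, hρ⟩ := AdmIso.WC.mv_ex r m hm
  let q : FreeGroup (Fin r) →* RA (KG ty r) := FreeGroup.lift fun k => gen k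
  have hq : ∀ k, q (FreeGroup.of k) = gen k := fun k => by simp [q]
  obtain ⟨F1, hF1⟩ := ra_lift (Γ := KG ty r) (fun k => q (ρ (FreeGroup.of k)))
    (n04_comm fun k => q (ρ (FreeGroup.of k)))
  obtain ⟨F2, hF2⟩ := ra_lift (Γ := KG ty r) (fun k => q (ρ.symm (FreeGroup.of k)))
    (n04_comm fun k => q (ρ.symm (FreeGroup.of k)))
  have h1 : ∀ x, F1 (q x) = q (ρ x) := by
    have : F1.comp q = q.comp ρ.toMonoidHom := by
      apply FreeGroup.ext_hom
      intro k
      show F1 (q (FreeGroup.of k)) = q (ρ (FreeGroup.of k))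
      rw [hq, hF1]
    exact fun x => DFunLike.congr_fun this x
  have h2 : ∀ x, F2 (q x) = q (ρ.symm x) := by
    have : F2.comp q = q.comp ρ.symm.toMonoidHom := by
      apply FreeGroup.ext_hom
      intro k
      show F2 (q (FreeGroup.of k)) = q (ρ.symm (FreeGroup.of k))
      rw [hq, hF2]
    exact fun x => DFunLike.congr_fun this x
  have h21 : F2.comp F1 = MonoidHom.id _ := by
    apply ra_ext
    intro k
    rw [MonoidHom.comp_apply, hF1, h2, MulEquiv.symm_apply_apply, hq]
    rfl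
  have h12 : F1.comp F2 = MonoidHom.id _ := by
    apply ra_ext
    intro k
    rw [MonoidHom.comp_apply, hF2, h1, MulEquiv.apply_symm_apply, hq]
    rfl
  refine ⟨(MonoidHom.toMulEquiv F1 F2 h21 h12).trans e, fun k => ?_⟩
  show ((e (F1 (gen k)) : P) : G) = _
  have h3 : ρ (FreeGroup.of k) = AdmIso.dl r (AdmIso.fM m ((k : ℕ), true)) := by
    have h4 := hρ [((k : ℕ), true)]
    have h5 : AdmIso.dl r [((k : ℕ), true)] = FreeGroup.of k := AdmIso.WC.dl_lt r (k, true)
    rw [h5] at h4
    rw [← h4]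
    unfold AdmIso.actw
    rw [List.flatMap_singleton]
  rw [hF1, h3, wev_dl]
  have h6 : (fun k => q (FreeGroup.of k)) = fun k => gen k := funext hq
  rw [h6]
  have h7 := wev_map (fun k => (gen k : RA (KG ty r))) (P.subtype.comp e.toMonoidHom)
    (AdmIso.fM m ((k : ℕ), true))
  have h8 : (fun k => (P.subtype.comp e.toMonoidHom) (gen k)) = β := by
    funext k
    exact he k
  rw [h8] at h7
  exact h7

theorem psi_sound (h : IsBas ty r β P) (h' : IsBas ty r β' P') {X : Type} [Group X] (A : P →* X)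
    (A' : P' →* X) {S : Set (Fin r → X)} (hS : Clo r S)
    (h0 : (fun k => A' ⟨β' k, bas_mem h' k⟩) ∈ S) (Ψ : P ≃* P') (hΨ : ∀ p, A' (Ψ p) = A p) :
    (fun k => A ⟨β k, bas_mem h k⟩) ∈ S := by
  obtain ⟨e, he⟩ := id h
  obtain ⟨e', he'⟩ := id h'
  have e1 : ∀ k, e (gen k) = ⟨β k, bas_mem h k⟩ := fun k => Subtype.ext (he k)
  have e2 : ∀ k, e' (gen k) = ⟨β' k, bas_mem h' k⟩ := fun k => Subtype.ext (he' k)
  have h1 := gen_clo ty r hS (A'.comp e'.toMonoidHom) (by
    have : (fun k => (A'.comp e'.toMonoidHom) (gen k)) = fun k => A' ⟨β' k, bas_mem h' k⟩ := by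
      funext k
      show A' (e' (gen k)) = _
      rw [e2]
    rw [this]
    exact h0) ((e.trans Ψ).trans e'.symm)
  have h2 : (fun k => (A'.comp e'.toMonoidHom) (((e.trans Ψ).trans e'.symm) (gen k))) =
      fun k => A ⟨β k, bas_mem h k⟩ := by
    funext k
    show A' (e' (e'.symm (Ψ (e (gen k))))) = _
    rw [MulEquiv.apply_symm_apply, hΨ, e1]
  rw [h2] at h1
  exact h1

theorem psi_complete (h : IsBas ty r β P) (h' : IsBas ty r β' P') {X : Type} [Group X]
    (A : P →* X) (A' : P' →* X)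
    (h0 : ∀ k, A' ⟨β' k, bas_mem h' k⟩ = A ⟨β k, bas_mem h k⟩) :
    ∃ Ψ : P ≃* P', ∀ p, A' (Ψ p) = A p := by
  obtain ⟨e, he⟩ := id h
  obtain ⟨e', he'⟩ := id h'
  have e1 : ∀ k, e (gen k) = ⟨β k, bas_mem h k⟩ := fun k => Subtype.ext (he k)
  have e2 : ∀ k, e' (gen k) = ⟨β' k, bas_mem h' k⟩ := fun k => Subtype.ext (he' k)
  have h1 : A'.comp e'.toMonoidHom = A.comp e.toMonoidHom := by
    apply ra_ext
    intro k
    show A' (e' (gen k)) = A (e (gen k))
    rw [e1, e2, h0]
  refine ⟨e.symm.trans e', fun p => ?_⟩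
  have h2 := DFunLike.congr_fun h1 (e.symm p)
  have h3 : A' (e' (e.symm p)) = A (e (e.symm p)) := h2
  rw [MulEquiv.apply_symm_apply] at h3
  exact h3

end RaagGP
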