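import Pool.Agent.Lib.MP_32d917_al_gp.Defs

/-!
# N05: rank and type are invariants (40 min)

`r = r'`: the homomorphisms `RA Γ →* Multiplicative (ZMod 2)` correspond to the functions `Fin r → Multiplicative (ZMod 2)` (`ra_lift`, `ra_ext`; the target is commutative), so `2 ^ r = 2 ^ r'` (`Nat.card`, `Nat.card_fun`, `Nat.pow_right_injective`).
Type: `RA (KG true r)` is commutative (`ra_ind` twice, or `pp_comm`), and in `RA (KG false r)`, `2 ≤ r`, the generators `gen 0` and `gen 1` do not commute: map to a group where two elements do not commute, e.g. `ra_lift` to `Equiv.Perm (Fin 3)` with `gen 0 ↦ swap 0 1`, the others `↦ swap 1 2` (no condition, there are no edges; `decide`).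
-/

set_option autoImplicit false

namespace RaagGP

open RaagIso

theorem n05_card {V : Type} (Γ : SimpleGraph V) :
    Nat.card (RA Γ →* Multiplicative (ZMod 2)) = Nat.card (V → Multiplicative (ZMod 2)) := by
  refine Nat.card_congr (Equiv.ofBijective (fun F v => F (gen v)) ⟨?_, ?_⟩)
  · intro F F' h
    exact ra_ext (fun v => congrFun h v)
  · intro f
    obtain ⟨F, hF⟩ := ra_lift (Γ := Γ) f (fun v w _ => mul_comm _ _)
    exact ⟨F, funext hF⟩

theorem n05_cardr {r : ℕ} (Γ : SimpleGraph (Fin r)) :
    Nat.card (RA Γ →* Multiplicative (ZMod 2)) = 2 ^ r := by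
  rw [n05_card, Nat.card_fun]
  have h : Nat.card (Multiplicative (ZMod 2)) = 2 := by
    rw [Nat.card_congr (Multiplicative.toAdd : Multiplicative (ZMod 2) ≃ ZMod 2), Nat.card_zmod]
  rw [h, Nat.card_eq_fintype_card, Fintype.card_fin]

theorem kg_rank {ty ty' : Bool} {r r' : ℕ} (e : RA (KG ty r) ≃* RA (KG ty' r')) : r = r' := by
  have h : Nat.card (RA (KG ty r) →* Multiplicative (ZMod 2)) =
      Nat.card (RA (KG ty' r') →* Multiplicative (ZMod 2)) := by
    refine Nat.card_congr ⟨fun F => F.comp e.symm.toMonoidHom, fun F => F.comp e.toMonoidHom, ?_, ?_⟩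
    · intro F
      ext x
      simp
    · intro F
      ext x
      simp
  rw [n05_cardr, n05_cardr] at h
  exact Nat.pow_right_injective le_rfl h

theorem n05_comm {r : ℕ} (x y : RA (KG true r)) : x * y = y * x := by
  have hg : ∀ i j : Fin r, (gen i : RA (KG true r)) * gen j = gen j * gen i := by
    intro i j
    by_cases hij : i = j
    · rw [hij]
    · exact gen_comm (by simpa [KG] using hij)
  have h1 : ∀ i : Fin r, ∀ y : RA (KG true r), Commute (gen i) y := by
    intro i y
    refine ra_ind (C := fun y => Commute (gen i) y) (Commute.one_right _) (fun v => hg i v)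
      (fun x y hx hy => hx.mul_right hy) (fun x hx => hx.inv_right) y
  have h2 : Commute x y := by
    refine ra_ind (C := fun x => Commute x y) (Commute.one_left _) (fun v => h1 v y)
      (fun x y hx hy => hx.mul_left hy) (fun x hx => hx.inv_left) x
  exact h2

theorem n05_ncomm {r : ℕ} (hr : 2 ≤ r) : ∃ x y : RA (KG false r), x * y ≠ y * x := by
  obtain ⟨F, hF⟩ := ra_lift (Γ := KG false r)
    (fun i => if (i : ℕ) = 0 then (Equiv.swap 0 1 : Equiv.Perm (Fin 3)) else Equiv.swap 1 2)
    (fun v w h => by simp [KG] at h)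
  refine ⟨gen ⟨0, by omega⟩, gen ⟨1, by omega⟩, fun h => ?_⟩
  have h2 := congrArg F h
  rw [map_mul, map_mul, hF, hF] at h2
  simp only [if_true, one_ne_zero, if_false] at h2
  revert h2
  decide

theorem kg_type {ty ty' : Bool} {r : ℕ} (hr : 2 ≤ r) (e : RA (KG ty r) ≃* RA (KG ty' r)) :
    ty = ty' := by
  have key : ∀ e : RA (KG true r) ≃* RA (KG false r), False := by
    intro e
    obtain ⟨x, y, hxy⟩ := n05_ncomm hr
    apply hxy
    have := n05_comm (e.symm x) (e.symm y)
    have h2 := congrArg e this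
    simpa using h2
  rcases ty with _ | _ <;> rcases ty' with _ | _
  · rfl
  · exact (key e.symm).elim
  · exact (key e).elim
  · rfl

theorem bas_inv {G G' : Type} [Group G] [Group G'] {ty ty' : Bool} {r r' : ℕ} {β : Fin r → G}
    {P : Subgroup G} {β' : Fin r' → G'} {P' : Subgroup G'} (h : IsBas ty r β P)
    (h' : IsBas ty' r' β' P') (Ψ : P ≃* P') : r = r' ∧ (2 ≤ r → ty = ty') := by
  obtain ⟨e, -⟩ := h
  obtain ⟨e', -⟩ := h'
  have f : RA (KG ty r) ≃* RA (KG ty' r') := (e.trans Ψ).trans e'.symm
  have hr : r = r' := kg_rank f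
  subst hr
  exact ⟨rfl, fun h2 => kg_type h2 f⟩

end RaagGP
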