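import Pool.Agent.Lib.MP_32d917_al_gp.C05
import Pool.Agent.Lib.MP_32d917_al_gp.C08
import Pool.Agent.Lib.MP_32d917_al_gp.H09
import Pool.Agent.Lib.MP_32d917_al_gp.N04
import Pool.Agent.Lib.MP_32d917_al_gp.N05

/-!
# C10: certificates for the failure of `blk` are sound (60 min)

Let `z` be the certificate, `i`, `v` its point and vertex, `b`, `b'` the two bases: `bas_sound` for both (`IsBas ty r (wv (b k)) P`, `IsBas ty' r' (wv (b' k)) P'`, `P' = Pst' (τ i v) (F i)`: use `ht` to rewrite `tN2 c t i v = τ i v`, `FN2 c t i = F i`). Suppose that `Ψ : P ≃* P'` has the property of `blk`.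
First case `r ≠ r'`, second case (`2 ≤ r`, different types; `decide` of non equivalent propositions are different): contradiction by `bas_inv`.
Third case: `ty = ty'`, `r = r'` (generalise the lengths or transport: `IsBas ty r (fun k : Fin r => wv (b'.getD k [])) P'`). `A`, `A'` from `act_exists` with `∀ p, A' (Ψ p) = A p`; `X = Equiv.Perm {d // Ps _ _ ρ v i d}`.
`S = {s : Fin r → X | ∃ U ∈ L, ∀ (k : Fin r) (hk : wv c'.1 (U.getD k []) ∈ P'), s k = A' ⟨_, hk⟩}` (all components are in `P'` by the second condition of `OrbC`, `inp_iff`). `Clo r S`: for `s` given by `U ∈ L` and `m ∈ mvs r` take `U'` of the third condition: `wev s (fM m (k, true)) = A' ⟨wv c'.1 (sbw U (fM m (k, true))), _⟩` (`wev_map` and: `wv c'.1 (sbw U l) =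
wev (fun k => wv c'.1 (U.getD k [])) l` for words `l` with letters `< r`; the letters of `fM m (k, true)` are `< r`: `WC.mem_mvs`, `WC.psubs_lt`, `fW`, `fS`, `fI`), and `A'` of this element and of `wv c'.1 (U'.getD k [])` agree: two elements `p1`, `p2` of `P'` with `rm ρ' (F d) p1 = rm ρ' (F d) p2` for all `d` of the position have `A' p1 = A' p2` (then also the inverses agree:
`A' p⁻¹ = (A' p)⁻¹` and `F (A' p⁻¹ d) = rm ρ' (F d) p`). `b' ∈ L` gives `h0` of `psi_sound`, so `A` of the basis `b` is in `S`: some `U ∈ L` acts as `b`: contradiction to the fourth condition.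
-/

set_option autoImplicit false

namespace RaagGP

open LatIso RaagIso
open AdmIso (Wd mvs fM cmW)

section

variable {V W V' W' C C' : Type} {Γ : SimpleGraph V} {Λ : SimpleGraph W} {π : W → V}
  {Γ' : SimpleGraph V'} {Λ' : SimpleGraph W'} {π' : W' → V'} {ρ : RA Λ →* Equiv.Perm C}
  {ρ' : RA Λ' →* Equiv.Perm C'} {F : C ≃ C'} {v : V} {v' : V'} {i : C} {i' : C'}
  {A : Pst Γ π ρ v i →* Equiv.Perm {d : C // Ps Γ π ρ v i d}}
  {A' : Pst Γ' π' ρ' v' i' →* Equiv.Perm {d : C // Ps Γ π ρ v i d}}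

theorem c10_aa (hA : ∀ p d, ((A p d : {d : C // Ps Γ π ρ v i d}) : C) = rm ρ d (p : RA Λ)⁻¹)
    (hA' : ∀ p' d, F (A' p' d : {d : C // Ps Γ π ρ v i d}) = rm ρ' (F d) (p' : RA Λ')⁻¹)
    (p : Pst Γ π ρ v i) (p' : Pst Γ' π' ρ' v' i') :
    A p = A' p' ↔ ∀ d, Ps Γ π ρ v i d → F (rm ρ d p) = rm ρ' (F d) p' := by
  have h1 : A p = A' p' ↔ A p⁻¹ = A' p'⁻¹ := by rw [map_inv, map_inv, inv_inj]
  rw [h1]
  have h2 : ∀ d : {d : C // Ps Γ π ρ v i d}, ((A p⁻¹ d : {d : C // Ps Γ π ρ v i d}) : C) =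
      rm ρ d (p : RA Λ) := by
    intro d
    rw [hA, Subgroup.coe_inv, inv_inv]
  have h3 : ∀ d : {d : C // Ps Γ π ρ v i d}, F (A' p'⁻¹ d : {d : C // Ps Γ π ρ v i d}) =
      rm ρ' (F d) (p' : RA Λ') := by
    intro d
    rw [hA', Subgroup.coe_inv, inv_inv]
  constructor
  · intro h d hd
    rw [← h2 ⟨d, hd⟩, ← h3 ⟨d, hd⟩, h]
  · intro h
    apply Equiv.ext
    rintro ⟨d, hd⟩
    apply Subtype.ext
    apply F.injective
    rw [h2, h3]
    exact h d hd

theorem c10_aa' (hA' : ∀ p' d, F (A' p' d : {d : C // Ps Γ π ρ v i d}) = rm ρ' (F d) (p' : RA Λ')⁻¹)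
    (p1 p2 : Pst Γ' π' ρ' v' i') :
    A' p1 = A' p2 ↔ ∀ d, Ps Γ π ρ v i d → rm ρ' (F d) p1 = rm ρ' (F d) p2 := by
  have h1 : A' p1 = A' p2 ↔ A' p1⁻¹ = A' p2⁻¹ := by rw [map_inv, map_inv, inv_inj]
  rw [h1]
  have h3 : ∀ (p' : Pst Γ' π' ρ' v' i') (d : {d : C // Ps Γ π ρ v i d}),
      F (A' p'⁻¹ d : {d : C // Ps Γ π ρ v i d}) = rm ρ' (F d) (p' : RA Λ') := by
    intro p' d
    rw [hA', Subgroup.coe_inv, inv_inv]
  constructor
  · intro h d hd
    rw [← h3 p1 ⟨d, hd⟩, ← h3 p2 ⟨d, hd⟩, h]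
  · intro h
    apply Equiv.ext
    rintro ⟨d, hd⟩
    apply Subtype.ext
    apply F.injective
    rw [h3, h3]
    exact h d hd

end

theorem c10_cast {G : Type} [Group G] {ty ty' : Bool} {r r' : ℕ} (f : ℕ → G) {P : Subgroup G}
    (h : IsBas ty' r' (fun k : Fin r' => f k) P) (hty : ty' = ty) (hr : r' = r) :
    IsBas ty r (fun k : Fin r => f k) P := by
  subst hty hr
  exact h

/-- letters of the moves -/
theorem c10_let {r : ℕ} {m : AdmIso.Mv} (hm : m ∈ mvs r) {k : ℕ} (hk : k < r) :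
    ∀ a ∈ fM m (k, true), a.1 < r := by
  rw [AdmIso.WC.mem_mvs] at hm
  rcases hm with ⟨P, hP, a, ha, rfl⟩ | ⟨i, hi, j, hj, rfl⟩ | ⟨i, hi, rfl⟩
  · have ha1 : a.1 < r := by
      unfold AdmIso.lets at ha
      rw [List.mem_flatMap] at ha
      obtain ⟨i, hi, hia⟩ := ha
      have hi' := List.mem_range.1 hi
      simp only [List.mem_cons, List.not_mem_nil, or_false] at hia
      rcases hia with rfl | rfl
      · exact hi'
      · exact hi'
    intro x hx
    have hx1 : x ∈ AdmIso.fW P a (k, true) := hx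
    unfold AdmIso.fW at hx1
    split_ifs at hx1 <;>
      simp only [List.mem_cons, List.mem_append, List.not_mem_nil, or_false,
        List.nil_append, List.append_nil] at hx1
    · rw [hx1]; exact hk
    · rcases hx1 with (h | h) | h
      · rw [h]; exact ha1
      · rw [h]; exact hk
      · rw [h]; exact ha1
    · rcases hx1 with h | h
      · rw [h]; exact ha1
      · rw [h]; exact hk
    · rcases hx1 with h | h
      · rw [h]; exact hk
      · rw [h]; exact ha1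
    · rw [hx1]; exact hk
  · intro x hx
    have hx1 : x ∈ AdmIso.fS i j (k, true) := hx
    unfold AdmIso.fS at hx1
    split_ifs at hx1 <;> rw [List.mem_singleton] at hx1 <;> rw [hx1]
    · exact hj
    · exact hi
    · exact hk
  · intro x hx
    have hx1 : x ∈ AdmIso.fI i (k, true) := hx
    unfold AdmIso.fI at hx1
    split_ifs at hx1 <;> rw [List.mem_singleton] at hx1 <;> rw [hx1]
    · exact hk
    · exact hk

/-- substitution and evaluation -/
theorem c10_wev (c : Cd) (U : List Wd) {r : ℕ} {l : Wd} (hl : ∀ a ∈ l, a.1 < r) :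
    wv c (sbw U l) = wev (fun k : Fin r => wv c (U.getD k [])) l := by
  induction l with
  | nil => rfl
  | cons a l ih =>
    have h1 : sbw U (a :: l) = sbl U a ++ sbw U l := by
      unfold sbw
      rw [List.flatMap_cons]
    have ha : a.1 < r := hl a List.mem_cons_self
    have h2 : wev (fun k : Fin r => wv c (U.getD k [])) (a :: l) =
        (if a.2 then wv c (U.getD a.1 []) else (wv c (U.getD a.1 []))⁻¹) *
          wev (fun k : Fin r => wv c (U.getD k [])) l := by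
      unfold wev
      rw [List.map_cons, List.prod_cons, dif_pos ha]
    rw [h1, wv_append, h2, ih (fun b hb => hl b (List.mem_cons_of_mem _ hb))]
    congr 1
    unfold sbl
    by_cases h3 : a.2 = true
    · rw [if_pos h3, if_pos h3]
    · rw [if_neg h3, if_neg h3, wv_inv]

variable {c c' : Cd2} {ρ : RA (gr c.1) →* Equiv.Perm (Fin (cM c.1))}
  {ρ' : RA (gr c'.1) →* Equiv.Perm (Fin (cM c'.1))}

theorem blk_sound (h : ValN2 c) (h' : ValN2 c') (hρ : IsRho c.1 ρ) (hρ' : IsRho c'.1 ρ')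
    {t : Mt2} {F : Fin (cM c.1) ≃ Fin (cM c'.1)} {τ : Fin (cM c.1) → Fin (kG c) ≃ Fin (kG c')}
    (ht : Rt2 c c' t F τ) (hM : Mc (grG c) (grG c') (piF c) (piF c') ρ ρ' F τ)
    (hz : ∃ z, BlkC c c' t z) :
    ¬ ∀ i v, ∃ Ψ : Pst (grG c) (piF c) ρ v i ≃* Pst (grG c') (piF c') ρ' (τ i v) (F i),
      ∀ (p : Pst (grG c) (piF c) ρ v i) (d : Fin (cM c.1)), Ps (grG c) (piF c) ρ v i d →
        F (rm ρ d p) = rm ρ' (F d) (Ψ p) := by
  intro hall
  obtain ⟨⟨⟨i0, v0⟩, ⟨b, x, g⟩, ⟨b', x', g'⟩, L⟩, hi, hv, hb, hb', hcase⟩ := hz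
  simp only at hi hv hb hb' hcase
  obtain ⟨i, hi0⟩ : ∃ i : Fin (cM c.1), i0 = i := ⟨⟨i0, hi⟩, rfl⟩
  obtain ⟨v, hv0⟩ : ∃ v : Fin (kG c), v0 = v := ⟨⟨v0, hv⟩, rfl⟩
  subst hi0 hv0
  have hA : ActV c.1 := h.2.1
  have hA' : ActV c'.1 := h'.2.1
  rw [ht.1, ht.2] at hb'
  rw [ht.2] at hcase
  obtain ⟨Ψ, hΨ⟩ := hall i v
  have hbas := bas_sound h hρ v i hb
  have hbas' := bas_sound h' hρ' (τ i v) (F i) hb'
  obtain ⟨hr, hty⟩ := bas_inv hbas hbas' Ψ
  rcases hcase with h1 | ⟨h1, h2⟩ | ⟨h1, h2, h3⟩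
  · exact h1 hr
  · exact h1 (decide_eq_decide.1 (hty h2))
  · have hbas2 : IsBas (decide (TyN c v)) b.length
        (fun k : Fin b.length => wv c'.1 (b'.getD k []))
        (Pst (grG c') (piF c') ρ' (τ i v) (F i)) :=
      c10_cast (fun k => wv c'.1 (b'.getD k [])) hbas' (decide_eq_decide.2 h1).symm hr.symm
    obtain ⟨o1, o2, o3, o4⟩ := h3
    obtain ⟨A, A', a1, a2, a3⟩ := act_exists hM.1 hM.2.1 hM.2.2 i v
    have hmem : ∀ U ∈ L, ∀ k : Fin b.length, wv c'.1 (U.getD k []) ∈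
        Pst (grG c') (piF c') ρ' (τ i v) (F i) := by
      intro U hU k
      have e1 := o2 U hU k k.2
      rw [ht.1, ht.2] at e1
      exact ((inp_iff h' hρ' (τ i v) (F i) _).1 e1).2
    obtain ⟨S, hS⟩ : ∃ S : Set (Fin b.length → Equiv.Perm {d // Ps (grG c) (piF c) ρ v i d}),
        ∀ s, s ∈ S ↔ ∃ U ∈ L, ∀ (k : Fin b.length) (hk : wv c'.1 (U.getD k []) ∈
          Pst (grG c') (piF c') ρ' (τ i v) (F i)), s k = A' ⟨_, hk⟩ :=
      ⟨{s | ∃ U ∈ L, ∀ (k : Fin b.length) (hk : wv c'.1 (U.getD k []) ∈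
          Pst (grG c') (piF c') ρ' (τ i v) (F i)), s k = A' ⟨_, hk⟩}, fun s => Iff.rfl⟩
    have hclo : Clo b.length S := by
      intro s hs m hm
      obtain ⟨U, hU, hsU⟩ := (hS s).1 hs
      obtain ⟨U', hU', hUU⟩ := o3 U hU m hm
      refine (hS _).2 ⟨U', hU', fun k hk => ?_⟩
      have e1 : s = fun k : Fin b.length => A' ⟨wv c'.1 (U.getD k []), hmem U hU k⟩ := by
        funext k
        exact hsU k (hmem U hU k)
      have e2 : ((wev (fun k : Fin b.length => (⟨wv c'.1 (U.getD k []), hmem U hU k⟩ :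
          Pst (grG c') (piF c') ρ' (τ i v) (F i))) (fM m ((k : ℕ), true)) :
          Pst (grG c') (piF c') ρ' (τ i v) (F i)) : RA (gr c'.1)) =
          wv c'.1 (sbw U (fM m ((k : ℕ), true))) := by
        rw [c10_wev c'.1 U (c10_let hm k.2)]
        exact wev_map _ (Pst (grG c') (piF c') ρ' (τ i v) (F i)).subtype _
      rw [e1]
      show wev (fun k : Fin b.length => A' ⟨wv c'.1 (U.getD k []), hmem U hU k⟩) (fM m ((k : ℕ), true)) = _
      rw [← wev_map (fun k : Fin b.length => (⟨wv c'.1 (U.getD k []), hmem U hU k⟩ :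
          Pst (grG c') (piF c') ρ' (τ i v) (F i))) A']
      rw [c10_aa' a2]
      intro d hd
      rw [e2]
      apply Fin.ext
      rw [run_eq2 hA' hρ', run_eq2 hA' hρ']
      have e3 := hUU k k.2 d d.2 ((ps_iff hA hρ v i d).2 hd)
      rw [ht.1] at e3
      exact e3
    have h0 : (fun k : Fin b.length => A' ⟨wv c'.1 (b'.getD k []), bas_mem hbas2 k⟩) ∈ S :=
      (hS _).2 ⟨b', o1, fun k hk => rfl⟩
    have e4 := psi_sound hbas hbas2 A A' hclo h0 Ψ ((a3 Ψ).2 hΨ)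
    obtain ⟨U, hU, e5⟩ := (hS _).1 e4
    obtain ⟨k, hk, d, hd, hps, hne⟩ := o4 U hU
    apply hne
    have e6 := (c10_aa a1 a2 _ _).1 (e5 ⟨k, hk⟩ (hmem U hU ⟨k, hk⟩)) ⟨d, hd⟩
      ((ps_iff hA hρ v i ⟨d, hd⟩).1 hps)
    have e7 := congrArg Fin.val e6
    rw [run_eq2 hA' hρ'] at e7
    have e8 := run_eq2 hA hρ ⟨d, hd⟩ (b.getD k [])
    have e9 := ht.1 (rm ρ ⟨d, hd⟩ (wv c.1 (b.getD k [])))
    rw [e8] at e9
    have e10 := ht.1 ⟨d, hd⟩
    simp only at e9 e10 e7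
    rw [e10, e9]
    exact e7

end RaagGP
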