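import Pool.Agent.Lib.MP_32d917_al_gp.Defs

/-!
# N06: the vertex groups are free or free abelian (45 min)

`pb_kg`: the fibre of `v` is finite and nonempty: let `a : Fin n ≃ {x // π x = v}`. If `Tyc Λ π v` (two letters over `v` are adjacent) then by `BU.uni` all pairs of different letters over `v` are adjacent, so `Λ.Adj (a i) (a j) ↔ (KG true n).Adj i j`, and `2 ≤ n`. Otherwise no two letters over `v` are adjacent: `KG false n`.
`F1 : RA (KG ty n) →* RA Λ`, `gen i ↦ gen (a i)` (`ra_lift`), `F2 : RA Λ →* RA (KG ty n)`, `gen x ↦ gen (a.symm x)` if `π x = v`, otherwise `1` (`ra_lift`: for adjacent `x`, `y` over `v` the images are adjacent generators; if one of them is not over `v` its image is `1`). `F2 (F1 x) = x` (`ra_ext`), `F1 (F2 x) = x` for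
`x ∈ PB Λ π {v}` (closure induction), `F1 x ∈ PB Λ π {v}` (`ra_ind`).
-/

set_option autoImplicit false

namespace RaagGP

open RaagIso

variable {V W : Type} {Γ : SimpleGraph V} {Λ : SimpleGraph W} {π : W → V}

theorem n06_iso {v : V} {G : Type} {K : SimpleGraph G} (a : G ≃ {x // π x = v})
    (ha : ∀ i j, K.Adj i j ↔ Λ.Adj (a i) (a j)) : Nonempty (RA K ≃* PB Λ π {v}) := by
  classical
  obtain ⟨F1, hF1⟩ := ra_lift (Γ := K) (fun i => (gen (a i : W) : RA Λ))
    (fun i j h => gen_comm ((ha i j).1 h))
  obtain ⟨F2, hF2⟩ := ra_lift (Γ := Λ)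
    (fun x => if h : π x = v then (gen (a.symm ⟨x, h⟩) : RA K) else 1) (by
      intro x y hxy
      by_cases hx : π x = v
      · by_cases hy : π y = v
        · simp only [hx, hy, dif_pos]
          apply gen_comm
          rw [ha]
          simpa using hxy
        · simp [hx, hy]
      · simp [hx])
  have h21 : ∀ x, F2 (F1 x) = x := by
    intro x
    have : F2.comp F1 = MonoidHom.id (RA K) := by
      apply ra_ext
      intro i
      rw [MonoidHom.comp_apply, hF1, hF2, dif_pos (a i).2]
      simp
    exact DFunLike.congr_fun this x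
  have h12 : ∀ x ∈ PB Λ π {v}, F1 (F2 x) = x := by
    intro x hx
    have hx' : x ∈ Subgroup.closure ((fun v => (gen v : RA Λ)) '' (π ⁻¹' {v})) := hx
    induction hx' using Subgroup.closure_induction with
    | mem y hy =>
      obtain ⟨w, hw, rfl⟩ := hy
      have hw' : π w = v := hw
      show F1 (F2 (gen w)) = gen w
      rw [hF2, dif_pos hw', hF1]
      simp
    | one => simp
    | mul y z hy hz h1 h2 =>
      rw [map_mul, map_mul, h1 hy, h2 hz]
    | inv y hy h1 => rw [map_inv, map_inv, h1 hy]
  have hmem : ∀ x, F1 x ∈ PB Λ π {v} := by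
    intro x
    refine ra_ind (C := fun x => F1 x ∈ PB Λ π {v}) ?_ ?_ ?_ ?_ x
    · rw [map_one]; exact one_mem _
    · intro i
      rw [hF1]
      exact gen_mem (a i).2
    · intro x y hx hy
      rw [map_mul]
      exact mul_mem hx hy
    · intro x hx
      rw [map_inv]
      exact inv_mem hx
  exact ⟨{ toFun := fun x => ⟨F1 x, hmem x⟩
           invFun := fun p => F2 p
           left_inv := fun x => h21 x
           right_inv := fun p => Subtype.ext (h12 p p.2)
           map_mul' := fun x y => Subtype.ext (map_mul F1 x y) }⟩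

theorem pb_kg [Finite W] (hB : BU Γ Λ π) (v : V) (ty : Bool) (hty : ty = true ↔ Tyc Λ π v) :
    ∃ n, 1 ≤ n ∧ (ty = true → 2 ≤ n) ∧ Nonempty (RA (KG ty n) ≃* PB Λ π {v}) := by
  haveI : Finite {x // π x = v} := inferInstance
  obtain ⟨n, ⟨a⟩⟩ := Finite.exists_equiv_fin {x // π x = v}
  obtain ⟨x0, hx0⟩ := hB.surj v
  have hn1 : 1 ≤ n := by
    have := (a ⟨x0, hx0⟩).pos
    omega
  refine ⟨n, hn1, ?_, ?_⟩
  · intro h
    obtain ⟨x, y, hx, hy, hxy⟩ := hty.1 h
    have hne : a ⟨x, hx⟩ ≠ a ⟨y, hy⟩ := by
      intro h1
      have := congrArg Subtype.val (a.injective h1)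
      exact hxy.ne this
    by_contra hlt
    have h1 : n = 1 := by omega
    subst h1
    exact hne (Subsingleton.elim _ _)
  · apply n06_iso a.symm
    intro i j
    rcases ty with _ | _
    · have hno : ¬ Tyc Λ π v := fun h => by simpa using hty.2 h
      constructor
      · intro h
        simp [KG] at h
      · intro h
        exact (hno ⟨_, _, (a.symm i).2, (a.symm j).2, h⟩).elim
    · obtain ⟨x, y, hx, hy, hxy⟩ := hty.1 rfl
      have huni : ∀ p q, π p = v → π q = v → p ≠ q → Λ.Adj p q := by
        rcases hB.uni v with h | h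
        · exact h
        · exact (h x y hx hy hxy).elim
      constructor
      · intro h
        have hij : i ≠ j := by simpa [KG] using h
        apply huni _ _ (a.symm i).2 (a.symm j).2
        intro h1
        exact hij (a.symm.injective (Subtype.ext h1))
      · intro h
        have hij : i ≠ j := by
          rintro rfl
          exact h.ne rfl
        simpa [KG] using hij

end RaagGP
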