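import Pool.Agent.Lib.MP_32d917_al_gp.Defs
import Pool.Agent.Lib.MP_32d917_al_gp.N03

/-!
# N07: subgroups of finite index of free and free abelian groups (75 min)

`kg_sub_false`: `RA (KG false n) ≃* FreeGroup (Fin n)` (`ra_lift`, `FreeGroup.lift`), so `Q` is isomorphic to a subgroup of finite index of a free group; it is free (`subgroupIsFreeOfIsFree`, Nielsen-Schreier), `Q ≃* FreeGroup ι` (`IsFreeGroup.toFreeGroup`), and finitely generated (`Subgroup.fg_of_index_ne_zero`), so `ι` is finite:
the abelianisation of `FreeGroup ι` maps onto the free `ℤ`-module `ι →₀ ℤ` (or `ZMod 2`-vector space `ι →₀ ZMod 2`), which is finitely generated, hence `ι` is finite (`Module.Finite.finite_basis`; or: a finite generating set has finite total support). `Fin r ≃ ι`.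
`kg_sub_true`: `RA (KG true n) ≃* Multiplicative (Fin n → ℤ)` (`ra_lift` with `Pi.single`, and `∏ gen i ^ x i` in the other direction; commutativity by `ra_ind`). `Q` corresponds to a subgroup of `Fin n → ℤ`, it is a free `ℤ`-module with a basis indexed by `Fin r` (`Submodule.nonempty_basis_of_pid` or `Submodule.basisOfPid`), and
`RA (KG true r) ≃* Multiplicative (Fin r → ℤ)`. `2 ≤ r` if `2 ≤ n`: otherwise `Q` is cyclic (`r ≤ 1`), `gen 0 ^ k, gen 1 ^ k ∈ Q` for some `k > 0` (finite index: `Subgroup.exists_pow_mem_of_index_ne_zero`), both are powers of the generator `q`: `gen 0 ^ k = q ^ i`, `gen 1 ^ k = q ^ j`, so `gen 0 ^ (k * j) = gen 1 ^ (k * i)`;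
`ab` at `0` gives `k * j = 0`, so `j = 0` and `gen 1 ^ k = 1`, contradiction (`gen_zpow_inj`).
-/

set_option autoImplicit false

namespace RaagGP

open RaagIso

/-- a finitely generated free group has finite rank -/
theorem n07_fin (ι : Type) (h : Group.FG (FreeGroup ι)) : Finite ι := by
  classical
  obtain ⟨S, hS⟩ := Group.fg_def.1 h
  let φ : (ι → Multiplicative (ZMod 2)) → (S → Multiplicative (ZMod 2)) :=
    fun f s => FreeGroup.lift f s
  have hφ : Function.Injective φ := by
    intro f g hfg
    have h1 : FreeGroup.lift f = FreeGroup.lift g := by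
      apply MonoidHom.eq_of_eqOn_dense hS
      intro s hs
      exact congrFun hfg ⟨s, hs⟩
    funext i
    have h2 := DFunLike.congr_fun h1 (FreeGroup.of i)
    simpa using h2
  have : Finite (Multiplicative (ZMod 2)) := inferInstanceAs (Finite (ZMod 2))
  have : Finite (ι → Multiplicative (ZMod 2)) := Finite.of_injective φ hφ
  refine Finite.of_injective (fun i : ι => (Pi.mulSingle i (Multiplicative.ofAdd (1 : ZMod 2)) :
    ι → Multiplicative (ZMod 2))) ?_
  intro i j hij
  by_contra hne
  have h1 := congrFun hij i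
  simp only [Pi.mulSingle_eq_same, Pi.mulSingle_eq_of_ne hne] at h1
  exact absurd h1 (by decide)

theorem n07_kg_free (n : ℕ) : Nonempty (RA (KG false n) ≃* FreeGroup (Fin n)) := by
  obtain ⟨F, hF⟩ := ra_lift (Γ := KG false n) (K := FreeGroup (Fin n)) FreeGroup.of
    (fun v w h => by simp [KG] at h)
  refine ⟨MonoidHom.toMulEquiv F (FreeGroup.lift gen) ?_ ?_⟩
  · apply ra_ext
    intro v
    rw [MonoidHom.comp_apply, hF, FreeGroup.lift_apply_of]
    rfl
  · apply FreeGroup.ext_hom
    intro v
    rw [MonoidHom.comp_apply, FreeGroup.lift_apply_of, hF]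
    rfl

theorem kg_sub_false (n : ℕ) (Q : Subgroup (RA (KG false n))) (hQ : Q.FiniteIndex) :
    ∃ r, Nonempty (RA (KG false r) ≃* Q) := by
  obtain ⟨e⟩ := n07_kg_free n
  have h1 : IsFreeGroup (RA (KG false n)) := IsFreeGroup.ofMulEquiv e.symm
  have h2 : IsFreeGroup Q := subgroupIsFreeOfIsFree Q
  have h3 : Group.FG (RA (KG false n)) := by
    exact Group.fg_of_surjective (f := e.symm.toMonoidHom) e.symm.surjective
  have h4 : Group.FG Q := Subgroup.fg_of_index_ne_zero Q
  have h5 : Group.FG (FreeGroup (IsFreeGroup.Generators Q)) :=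
    Group.fg_of_surjective (f := (IsFreeGroup.toFreeGroup Q).toMonoidHom)
      (IsFreeGroup.toFreeGroup Q).surjective
  have h6 := n07_fin _ h5
  obtain ⟨r, ⟨f⟩⟩ := Finite.exists_equiv_fin (IsFreeGroup.Generators Q)
  obtain ⟨e'⟩ := n07_kg_free r
  exact ⟨r, ⟨(e'.trans (FreeGroup.freeGroupCongr f.symm)).trans (IsFreeGroup.toFreeGroup Q).symm⟩⟩

theorem kg_sub_true (n : ℕ) (hn : 2 ≤ n) (Q : Subgroup (RA (KG true n))) (hQ : Q.FiniteIndex) :
    ∃ r, 2 ≤ r ∧ Nonempty (RA (KG true r) ≃* Q) := by
  classical
  obtain ⟨e, he⟩ := kg_iso n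
  let N : Submodule ℤ (Fin n → ℤ) :=
    AddSubgroup.toIntSubmodule (Subgroup.toAddSubgroup' (Q.map e.toMonoidHom))
  have hN : ∀ v : Fin n → ℤ, v ∈ N ↔ e.symm (Multiplicative.ofAdd v) ∈ Q := by
    intro v
    change Multiplicative.ofAdd v ∈ Q.map e.toMonoidHom ↔ _
    rw [Subgroup.mem_map]
    constructor
    · rintro ⟨x, hx, h⟩
      have h' : e x = Multiplicative.ofAdd v := h
      rw [← h', MulEquiv.symm_apply_apply]
      exact hx
    · intro h
      exact ⟨_, h, e.apply_symm_apply _⟩
  obtain ⟨r, ⟨b⟩⟩ := Submodule.nonempty_basis_of_pid (Pi.basisFun ℤ (Fin n)) N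
  obtain ⟨e', he'⟩ := kg_iso r
  refine ⟨r, ?_, ?_⟩
  · -- the rank
    have hk : 0 < Q.index := Nat.pos_of_ne_zero hQ.index_ne_zero
    have hpow : ∀ v : Fin n → ℤ, (Q.index : ℤ) • v ∈ N := by
      intro v
      rw [hN, ofAdd_zsmul, map_zpow, zpow_natCast]
      let _ : CommGroup (RA (KG true n)) :=
        { (inferInstance : Group (RA (KG true n))) with mul_comm := kg_comm }
      exact Subgroup.pow_index_mem Q _
    have hfin : Module.Finite ℤ N := Module.Finite.of_basis b
    let φ : (Fin n → ℤ) →ₗ[ℤ] N :=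
      LinearMap.codRestrict N ((Q.index : ℤ) • LinearMap.id) hpow
    have hφ : Function.Injective φ := by
      intro x y hxy
      have h1 : (Q.index : ℤ) • x = (Q.index : ℤ) • y := congrArg Subtype.val hxy
      exact smul_right_injective _ (by exact_mod_cast hk.ne') h1
    have h1 := LinearMap.finrank_le_finrank_of_injective hφ
    rw [Module.finrank_fin_fun, Module.finrank_eq_card_basis b, Fintype.card_fin] at h1
    omega
  · let g : (Fin r → ℤ) →+ (Fin n → ℤ) :=
      (N.subtype.comp b.equivFun.symm.toLinearMap).toAddMonoidHom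
    have hg : ∀ v, g v = (b.equivFun.symm v : N) := fun v => rfl
    let f : RA (KG true r) →* RA (KG true n) :=
      (e.symm.toMonoidHom.comp (AddMonoidHom.toMultiplicative g)).comp e'.toMonoidHom
    have hf : ∀ x, f x = e.symm (Multiplicative.ofAdd (g (Multiplicative.toAdd (e' x)))) :=
      fun x => rfl
    have hinj : Function.Injective f := by
      intro x y hxy
      rw [hf, hf] at hxy
      have h1 := Multiplicative.ofAdd.injective (e.symm.injective hxy)
      rw [hg, hg] at h1
      have h2 := b.equivFun.symm.injective (Subtype.ext h1)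
      exact e'.injective (Multiplicative.toAdd.injective h2)
    have hrange : f.range = Q := by
      ext y
      rw [MonoidHom.mem_range]
      constructor
      · rintro ⟨x, rfl⟩
        rw [hf, ← hN, hg]
        exact (b.equivFun.symm _).2
      · intro hy
        have h1 : (Multiplicative.toAdd (e y) : Fin n → ℤ) ∈ N := by
          rw [hN, ofAdd_toAdd, MulEquiv.symm_apply_apply]
          exact hy
        refine ⟨e'.symm (Multiplicative.ofAdd (b.equivFun ⟨_, h1⟩)), ?_⟩
        rw [hf, MulEquiv.apply_symm_apply, toAdd_ofAdd, hg, LinearEquiv.symm_apply_apply,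
          ofAdd_toAdd, MulEquiv.symm_apply_apply]
    exact ⟨(MonoidHom.ofInjective hinj).trans (MulEquiv.subgroupCongr hrange)⟩

end RaagGP
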