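import Pool.Agent.Lib.MP_32d917_al_gp.H05
import Pool.Agent.Lib.MP_32d917_al_gp.N06
import Pool.Agent.Lib.MP_32d917_al_gp.N07

/-!
# N08: existence of bases of the position stabilisers (30 min)

`Pst v c` contains `PB {v} ⊓ ρ.ker` (if `ρ g = 1` then `rm ρ d g = d`), so it has finite index in `PB {v}` (`C` is finite, `Subgroup.finiteIndex_ker`). Let `e : RA (KG ty n) ≃* PB {v}` (`pb_kg`) and `Q = ` the inverse image of `Pst v c` (as a subgroup of `PB {v}`: `Subgroup.subgroupOf`) under `e`: finite index (`Subgroup.index_comap`, or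
`Subgroup.FiniteIndex` of a comap). By `kg_sub_false`, `kg_sub_true` (`2 ≤ n` if `ty = true`): `RA (KG ty r) ≃* Q ≃* Pst v c`; `β k` = image of `gen k`.
-/

set_option autoImplicit false

namespace RaagGP

open RaagIso

variable {V W C : Type} {Γ : SimpleGraph V} {Λ : SimpleGraph W} {π : W → V}

theorem n08_fi [Finite C] (ρ : RA Λ →* Equiv.Perm C) (v : V) (c : C) :
    ((Pst Γ π ρ v c).subgroupOf (PB Λ π {v})).FiniteIndex := by
  have : Finite (Equiv.Perm C) := inferInstance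
  have h1 : (ρ.ker).FiniteIndex := inferInstance
  have h2 : (ρ.ker.subgroupOf (PB Λ π {v})).FiniteIndex := inferInstance
  refine Subgroup.finiteIndex_of_le (H := ρ.ker.subgroupOf (PB Λ π {v})) ?_
  intro g hg
  have hg1 : ρ (g : RA Λ) = 1 := hg
  refine ⟨g.2, fun d => ?_⟩
  have : rm ρ d (g : RA Λ) = d := by
    unfold rm
    rw [map_inv, hg1, inv_one]
    rfl
  show Ps Γ π ρ v c d ↔ Ps Γ π ρ v c (rm ρ d (g : RA Λ))
  rw [this]

theorem exists_bas [Finite W] [Finite C] (hB : BU Γ Λ π) (ρ : RA Λ →* Equiv.Perm C) (v : V)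
    (c : C) (ty : Bool) (hty : ty = true ↔ Tyc Λ π v) :
    ∃ (r : ℕ) (β : Fin r → RA Λ), IsBas ty r β (Pst Γ π ρ v c) ∧ (ty = true → 2 ≤ r) := by
  obtain ⟨n, hn1, hn2, ⟨e⟩⟩ := pb_kg hB v ty hty
  have hle : Pst Γ π ρ v c ≤ PB Λ π {v} := fun g hg => hg.1
  have hfi := n08_fi (Γ := Γ) (π := π) ρ v c
  set R := (Pst Γ π ρ v c).subgroupOf (PB Λ π {v}) with hR
  have hQ : (R.comap e.toMonoidHom).FiniteIndex := by
    refine ⟨?_⟩
    rw [Subgroup.index_comap_of_surjective R (f := e.toMonoidHom) e.surjective]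
    exact hfi.index_ne_zero
  have e1 : (R.comap e.toMonoidHom) ≃* R :=
    { toFun := fun x => ⟨e x, x.2⟩
      invFun := fun y => ⟨e.symm y, by
        show e (e.symm y) ∈ R
        rw [MulEquiv.apply_symm_apply]
        exact y.2⟩
      left_inv := fun x => Subtype.ext (e.symm_apply_apply _)
      right_inv := fun x => Subtype.ext (e.apply_symm_apply _)
      map_mul' := fun x y => Subtype.ext (map_mul e _ _) }
  have e2 : R ≃* Pst Γ π ρ v c := Subgroup.subgroupOfEquivOfLe hle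
  obtain ⟨r, hr, ⟨f⟩⟩ : ∃ r, (ty = true → 2 ≤ r) ∧
      Nonempty (RA (KG ty r) ≃* (R.comap e.toMonoidHom)) := by
    cases ty
    · obtain ⟨r, hr⟩ := kg_sub_false n _ hQ
      exact ⟨r, fun h => by simp at h, hr⟩
    · obtain ⟨r, hr, hf⟩ := kg_sub_true n (hn2 rfl) _ hQ
      exact ⟨r, fun _ => hr, hf⟩
  exact ⟨r, fun k => (((f.trans e1).trans e2) (gen k) : Pst Γ π ρ v c),
    ⟨(f.trans e1).trans e2, fun k => rfl⟩, hr⟩

end RaagGP
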