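import Pool.Agent.Lib.MP_32d917_al_gp.C04
import Pool.Agent.Lib.MP_32d917_al_gp.C07
import Pool.Agent.Lib.MP_32d917_al_gp.N08

/-!
# C09: certificates of bases exist (75 min); compare `cert_complete` in `C05` (`MP_32d917_al_raag/C05.lean`)

Let `P = Pst _ _ ρ v i`, `β`, `r` from `exists_bas` (`ty = decide (TyN c v)`, `ty_iff`), `K = KP ty r`, and `E : K.Grp ≃* P` with `E (of k) = β k` (`kp_iso`). Words `b k` with `InP c v i (b k)`, `wv c.1 (b k) = β k` (`inp_word`), `b = List.ofFn`, length `r`.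
Paths: `Bk j`: there is `y ∈ PB (st v)` with `rm ρ i y = j` (the block of `i`). For `j` with `Bk j` there is `h ∈ PB {v}` such that `rm ρ i h` has the position of `j` (`ps_st`); choose `q j ∈ PB {v}` depending only on the position of `j` (choose a representative of every position, `Quotient.out`, compare `choice` in `H06`), with `q j = 1` if `j` has the position of `i`,
and `q j = 1` for `j` outside of the block. Words `g j` for `q j` (`wv_gg`), `g j = []` if `q j = 1`.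
Cocycle: `X j a = E.symm (q j * gen a * (q (rm ρ j (gen a)))⁻¹)` if `a` is over `v` and `Bk j` (the element is in `P`: `mem_pst`, `ps_gg`), and `X j a = 1` otherwise. Words `x j a` (`pres2_word`), `[]` for `a` not over `v`; lists as in `cert_complete`.
(1) clear. (2) `B = P.subtype ∘ E` satisfies `B (mw l) = wv c.1 (sbw b l)` (see `hsb` in `cert_complete`), and the relators are trivial in `K.Grp`. (3) `X` is a cocycle: `u`, `w` adjacent. Both over `v`: for `Bk j` both products are `E.symm (q j * (gen u * gen w) * (q ...)⁻¹)`; otherwise `1`. None over `v`: `1`. `u` over `v` and `w` over `w0`, adjacent to `v` (`BU.adj`):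
the equation is `X j u = X (rm ρ j (gen w)) u`: `rm ρ j (gen w)` has the position of `j`, and `rm ρ (rm ρ j (gen w)) (gen u) = rm ρ (rm ρ j (gen u)) (gen w)` that of `rm ρ j (gen u)`, `q` depends only on the position. (4), (6) by the choice, (8) `exists_bas`.
(7) `B (X j a) = q j * gen a * (q (rm ρ j (gen a)))⁻¹`. (5) let `κ` be the cocycle of `X` (`exists_cc`); for `Bk j` and `y ∈ PB {v}`: `κ j y = E.symm (q j * y * (q (rm ρ j y))⁻¹)` (closure induction); for `y = β k`, `j = i`: `q i = 1`, `rm ρ i (β k)` has the position of `i`, so `κ i (β k) = E.symm (β k) = of k`; and `lift_eq2`.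
-/

set_option autoImplicit false

namespace RaagGP

open LatIso RaagIso
open AdmIso (Wd mvs fM cmW)

section

variable {V W C : Type} {Γ : SimpleGraph V} {Λ : SimpleGraph W} {π : W → V}

/-- induction on the elements of a vertex group -/
theorem c09_ind {v : V} {p : RA Λ → Prop} (h1 : p 1) (hg : ∀ a, π a = v → p (gen a))
    (hm : ∀ x y, x ∈ PB Λ π {v} → y ∈ PB Λ π {v} → p x → p y → p (x * y))
    (hi : ∀ x, x ∈ PB Λ π {v} → p x → p x⁻¹) {x : RA Λ} (hx : x ∈ PB Λ π {v}) : p x := by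
  unfold PB PP at hx hm hi
  induction hx using Subgroup.closure_induction with
  | mem y hy => obtain ⟨a, ha, rfl⟩ := hy; exact hg a ha
  | one => exact h1
  | mul y z hy hz h2 h3 => exact hm y z hy hz h2 h3
  | inv y hy h2 => exact hi y hy h2

/-- the block of `i` -/
def c09B (Γ : SimpleGraph V) (π : W → V) (ρ : RA Λ →* Equiv.Perm C) (v : V) (i j : C) : Prop :=
  ∃ h ∈ PB Λ π {v}, Ps Γ π ρ v (rm ρ i h) j

theorem c09_B_mul (hB : BU Γ Λ π) {ρ : RA Λ →* Equiv.Perm C} {v : V} {i j : C} {g : RA Λ}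
    (hg : g ∈ PB Λ π {v}) : c09B Γ π ρ v i (rm ρ j g) ↔ c09B Γ π ρ v i j := by
  have key : ∀ (j : C) (g : RA Λ), g ∈ PB Λ π {v} → c09B Γ π ρ v i j →
      c09B Γ π ρ v i (rm ρ j g) := by
    rintro j g hg ⟨h, hh, hp⟩
    refine ⟨h * g, mul_mem hh hg, ?_⟩
    rw [rm_mul]
    exact ps_gg hB hg hp
  refine ⟨fun h => ?_, key j g hg⟩
  have h2 := key _ _ (inv_mem hg) h
  rwa [rm_inv_r] at h2

theorem c09_B_ps {ρ : RA Λ →* Equiv.Perm C} {v : V} {i j k : C} (h : Ps Γ π ρ v j k) :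
    c09B Γ π ρ v i j ↔ c09B Γ π ρ v i k := by
  constructor
  · rintro ⟨h, hh, hp⟩
    exact ⟨h, hh, ps_trans hp (by assumption)⟩
  · rintro ⟨h, hh, hp⟩
    exact ⟨h, hh, ps_trans hp (ps_symm (by assumption))⟩

/-- paths to the positions -/
theorem c09_path (ρ : RA Λ →* Equiv.Perm C) (v : V) (i : C) : ∃ q : C → RA Λ,
    (∀ j, q j ∈ PB Λ π {v}) ∧ (∀ j k, Ps Γ π ρ v j k → q j = q k) ∧
    (∀ j, Ps Γ π ρ v i j → q j = 1) ∧
    ∀ j, c09B Γ π ρ v i j → Ps Γ π ρ v (rm ρ i (q j)) j := by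
  classical
  let s : Setoid C := ⟨Ps Γ π ρ v, ⟨ps_refl v, ps_symm, ps_trans⟩⟩
  let r : C → C := fun j => (Quotient.mk s j).out
  have hr : ∀ j, Ps Γ π ρ v j (r j) := fun j =>
    ps_symm (Quotient.exact (Quotient.out_eq (Quotient.mk s j)))
  have hr2 : ∀ j k, Ps Γ π ρ v j k → r j = r k := by
    intro j k h
    have : Quotient.mk s j = Quotient.mk s k := Quotient.sound h
    show (Quotient.mk s j).out = (Quotient.mk s k).out
    rw [this]
  have hQ : ∀ j, ∃ g ∈ PB Λ π {v}, (Ps Γ π ρ v i j → g = 1) ∧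
      (c09B Γ π ρ v i j → Ps Γ π ρ v (rm ρ i g) j) := by
    intro j
    by_cases h1 : Ps Γ π ρ v i j
    · refine ⟨1, one_mem _, fun _ => rfl, fun _ => ?_⟩
      rwa [rm_one]
    · by_cases h2 : c09B Γ π ρ v i j
      · obtain ⟨g, hg, hp⟩ := h2
        exact ⟨g, hg, fun h => absurd h h1, fun _ => hp⟩
      · exact ⟨1, one_mem _, fun _ => rfl, fun h => absurd h h2⟩
  choose Q hQ1 hQ2 hQ3 using hQ
  refine ⟨fun j => Q (r j), fun j => hQ1 _, ?_, ?_, ?_⟩
  · intro j k h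
    show Q (r j) = Q (r k)
    rw [hr2 j k h]
  · intro j h
    exact hQ2 _ (ps_trans h (hr j))
  · intro j h
    exact ps_trans (hQ3 _ ((c09_B_ps (hr j)).1 h)) (ps_symm (hr j))

end

variable {c : Cd2} {ρ : RA (gr c.1) →* Equiv.Perm (Fin (cM c.1))}

/-- tables of words -/
theorem c09_tab (c : Cd) (xf : Fin (cM c) → Fin (cK c) → Wd) :
    ∃ x : List Wd, ∀ (i : Fin (cM c)) (v : Fin (cK c)), xg c x i v = xf i v := by
  refine ⟨(List.range (cM c * cK c)).map fun n => if h : n / cK c < cM c ∧ n % cK c < cK c then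
    xf ⟨n / cK c, h.1⟩ ⟨n % cK c, h.2⟩ else [], fun i v => ?_⟩
  unfold xg
  have hK : 0 < cK c := Nat.succ_pos _
  have h1 : (i : ℕ) * cK c + v < cM c * cK c := by
    have h2 : (i : ℕ) + 1 ≤ cM c := i.2
    calc (i : ℕ) * cK c + v < (i : ℕ) * cK c + cK c := by have := v.2; omega
      _ = ((i : ℕ) + 1) * cK c := by ring
      _ ≤ cM c * cK c := Nat.mul_le_mul_right _ h2
  have h2 : ((i : ℕ) * cK c + v) / cK c = i := by
    rw [mul_comm, Nat.mul_add_div hK, Nat.div_eq_of_lt v.2, add_zero]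
  have h3 : ((i : ℕ) * cK c + v) % cK c = v := by
    rw [mul_comm, Nat.mul_add_mod, Nat.mod_eq_of_lt v.2]
  rw [List.getD_eq_getElem _ _ (by simpa using h1)]
  simp only [List.getElem_map, List.getElem_range]
  rw [dif_pos ⟨by rw [h2]; exact i.2, by rw [h3]; exact v.2⟩]
  congr 1
  · exact Fin.ext h2
  · exact Fin.ext h3

theorem c09_list {n : ℕ} (f : Fin n → Wd) :
    ∃ p : List Wd, p.length = n ∧ ∀ i : Fin n, p.getD i [] = f i := by
  refine ⟨List.ofFn f, by simp, fun i => ?_⟩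
  rw [List.getD_eq_getElem _ _ (by simp)]
  simp

theorem bas_complete (h : ValN2 c) (hρ : IsRho c.1 ρ) (v : Fin (kG c)) (i : Fin (cM c.1)) :
    ∃ b x g : List Wd, BasN c v i b x g := by
  classical
  have hB := bu_code h
  have hA := h.2.1
  obtain ⟨P, hP⟩ : ∃ P : Subgroup (RA (gr c.1)), P = Pst (grG c) (piF c) ρ v i := ⟨_, rfl⟩
  have hex := exists_bas hB ρ v i (decide (TyN c v))
    (by rw [decide_eq_true_iff]; exact ty_iff v)
  rw [← hP] at hex
  obtain ⟨r, β, ⟨e, he⟩, hr⟩ := hex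
  have hβ : ∀ k, β k ∈ Pst (grG c) (piF c) ρ v i := fun k => by
    rw [← he k, ← hP]
    exact (e (gen k)).2
  choose bf hbf1 hbf2 using fun k => inp_word h hρ v i (hβ k)
  obtain ⟨b, hbl, hb⟩ := c09_list bf
  subst hbl
  obtain ⟨K, hK⟩ : ∃ K : Pres, K = KP (decide (TyN c v)) b.length := ⟨_, rfl⟩
  have hkp' := kp_iso (decide (TyN c v)) b.length
  rw [← hK] at hkp'
  obtain ⟨kp, hkp⟩ := hkp'
  let E : K.Grp ≃* P := kp.trans e
  have hE : ∀ k : Fin b.length, (E (PresentedGroup.of (k : ℕ)) : RA (gr c.1)) = β k := by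
    intro k
    show (e (kp (PresentedGroup.of (k : ℕ))) : RA (gr c.1)) = β k
    rw [hkp, he]
  obtain ⟨q, hq1, hq2, hq3, hq4⟩ := c09_path (Γ := grG c) (π := piF c) ρ v i
  have hBi : c09B (grG c) (piF c) ρ v i i := ⟨1, one_mem _, by rw [rm_one]; exact ps_refl _ _⟩
  have hmem : ∀ (j : Fin (cM c.1)) (y : RA (gr c.1)), y ∈ PB (gr c.1) (piF c) {v} →
      c09B (grG c) (piF c) ρ v i j → q j * y * (q (rm ρ j y))⁻¹ ∈ P := by
    intro j y hy hj
    rw [hP, mem_pst hB]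
    refine ⟨mul_mem (mul_mem (hq1 j) hy) (inv_mem (hq1 _)), ?_⟩
    have h1 := hq4 j hj
    have h2 := ps_gg hB hy h1
    have h3 := hq4 (rm ρ j y) ((c09_B_mul hB hy).2 hj)
    have h4 := ps_gg hB (inv_mem (hq1 (rm ρ j y))) (ps_trans h3 (ps_symm h2))
    rw [rm_inv_r, ← rm_mul, ← rm_mul, ← mul_assoc] at h4
    exact h4
  obtain ⟨T, hT1, hT0⟩ : ∃ T : Fin (cM c.1) → RA (gr c.1) → K.Grp,
      (∀ j y, y ∈ PB (gr c.1) (piF c) {v} → c09B (grG c) (piF c) ρ v i j →
        (E (T j y) : RA (gr c.1)) = q j * y * (q (rm ρ j y))⁻¹) ∧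
      (∀ j y, ¬ c09B (grG c) (piF c) ρ v i j → T j y = 1) := by
    refine ⟨fun j y => if hh : y ∈ PB (gr c.1) (piF c) {v} ∧ c09B (grG c) (piF c) ρ v i j then
      E.symm ⟨_, hmem j y hh.1 hh.2⟩ else 1, ?_, ?_⟩
    · intro j y hy hj
      show ((E (if hh : y ∈ PB (gr c.1) (piF c) {v} ∧ c09B (grG c) (piF c) ρ v i j then
        E.symm ⟨_, hmem j y hh.1 hh.2⟩ else 1) : P) : RA (gr c.1)) = _
      rw [dif_pos ⟨hy, hj⟩, E.apply_symm_apply]
    · intro j y hj
      exact dif_neg (fun hh => hj hh.2)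
  have hEi : ∀ {a b : K.Grp}, (E a : RA (gr c.1)) = E b → a = b := fun hab =>
    E.injective (Subtype.ext hab)
  have hTm : ∀ j y z, y ∈ PB (gr c.1) (piF c) {v} → z ∈ PB (gr c.1) (piF c) {v} →
      T j (y * z) = T j y * T (rm ρ j y) z := by
    intro j y z hy hz
    by_cases hj : c09B (grG c) (piF c) ρ v i j
    · apply hEi
      rw [map_mul, Subgroup.coe_mul, hT1 j _ (mul_mem hy hz) hj, hT1 j y hy hj,
        hT1 _ z hz ((c09_B_mul hB hy).2 hj), rm_mul]
      group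
    · rw [hT0 j _ hj, hT0 j _ hj, hT0 _ _ (fun h1 => hj ((c09_B_mul hB hy).1 h1)), mul_one]
  have hTp : ∀ j k y, y ∈ PB (gr c.1) (piF c) {v} → Ps (grG c) (piF c) ρ v j k →
      T j y = T k y := by
    intro j k y hy hjk
    by_cases hj : c09B (grG c) (piF c) ρ v i j
    · apply hEi
      rw [hT1 j y hy hj, hT1 k y hy ((c09_B_ps hjk).1 hj), hq2 j k hjk,
        hq2 _ _ (ps_gg hB hy hjk)]
    · rw [hT0 j _ hj, hT0 k _ (fun h1 => hj ((c09_B_ps hjk).2 h1))]
  have hT1' : ∀ j, T j 1 = 1 := by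
    intro j
    have h1 := hTm j 1 1 (one_mem _) (one_mem _)
    rw [mul_one, rm_one] at h1
    exact left_eq_mul.1 h1
  -- the cocycle
  obtain ⟨X, hX1, hX0⟩ : ∃ X : Fin (cM c.1) → Fin (cK c.1) → K.Grp,
      (∀ j a, piF c a = v → X j a = T j (gen a)) ∧ (∀ j a, ¬ piF c a = v → X j a = 1) := by
    refine ⟨fun j a => if piF c a = v then T j (gen a) else 1, ?_, ?_⟩
    · intro j a ha
      exact if_pos ha
    · intro j a ha
      exact if_neg ha
  have hgm : ∀ a, piF c a = v → (gen a : RA (gr c.1)) ∈ PB (gr c.1) (piF c) {v} := fun a ha =>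
    gen_mem ha
  have hcr : ∀ (j : Fin (cM c.1)) (u w : Fin (cK c.1)), (gr c.1).Adj u w → piF c u = v →
      ¬ piF c w = v → X (rm ρ j (gen w)) u = X j u := by
    intro j u w huw hu hw
    rw [hX1 _ u hu, hX1 _ u hu]
    apply hTp _ _ _ (hgm u hu)
    apply ps_symm
    refine ⟨gen w, gen_mem ?_, rfl⟩
    show piF c w ∈ lk (grG c) v
    have h1 := (hB.adj u w (by rw [hu]; exact fun e => hw e.symm)).1 huw
    rw [hu] at h1
    exact h1
  have hcoc : Coc ρ X := by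
    intro j u w huw
    show X j u * X (rm ρ j (gen u)) w = X j w * X (rm ρ j (gen w)) u
    by_cases hu : piF c u = v
    · by_cases hw : piF c w = v
      · rw [hX1 _ u hu, hX1 _ w hw, hX1 _ w hw, hX1 _ u hu, ← hTm j _ _ (hgm u hu) (hgm w hw),
          ← hTm j _ _ (hgm w hw) (hgm u hu), gen_comm huw]
      · rw [hX0 _ w hw, hX0 _ w hw, mul_one, one_mul]
        exact (hcr j u w huw hu hw).symm
    · by_cases hw : piF c w = v
      · rw [hX0 _ u hu, hX0 _ u hu, mul_one, one_mul]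
        exact hcr j w u huw.symm hw hu
      · rw [hX0 _ u hu, hX0 _ u hu, hX0 _ w hw, hX0 _ w hw]
  obtain ⟨κ, hκ1, hκ2⟩ := exists_cc hcoc
  have hκT : ∀ y, y ∈ PB (gr c.1) (piF c) {v} → ∀ j, κ j y = T j y := by
    intro y hy
    refine c09_ind (p := fun y => ∀ j, κ j y = T j y) ?_ ?_ ?_ ?_ hy
    · intro j
      rw [cc_one hκ2, hT1']
    · intro a ha j
      rw [hκ1, hX1 j a ha]
    · intro y z hy hz h1 h2 j
      rw [hκ2, hTm j y z hy hz, h1, h2]
    · intro y hy h1 j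
      have h2 := hTm (rm ρ j y⁻¹) y y⁻¹ hy (inv_mem hy)
      rw [mul_inv_cancel, hT1', c05_rm_inv] at h2
      rw [c05_cc_inv hκ2, h1]
      exact (eq_inv_of_mul_eq_one_right h2.symm).symm
  -- words
  have hxw : ∀ (j : Fin (cM c.1)) (a : Fin (cK c.1)), ∃ l : Wd, c05_mw K l = X j a ∧
      (¬ piF c a = v → l = []) := by
    intro j a
    by_cases ha : piF c a = v
    · obtain ⟨l, hl⟩ := pres2_word (X j a)
      exact ⟨l, hl, fun h => absurd ha h⟩
    · exact ⟨[], by rw [c05_nil, hX0 j a ha], fun _ => rfl⟩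
  choose xf hxf1 hxf2 using hxw
  obtain ⟨x, hx⟩ := c09_tab c.1 xf
  have hgw : ∀ j : Fin (cM c.1), ∃ l : Wd, wv c.1 l = q j ∧
      (Ps (grG c) (piF c) ρ v i j → l = []) := by
    intro j
    by_cases hj : Ps (grG c) (piF c) ρ v i j
    · exact ⟨[], by rw [wv_nil, hq3 j hj], fun _ => rfl⟩
    · obtain ⟨l, -, hl⟩ := wv_gg (hq1 j)
      exact ⟨l, hl, fun h => absurd h hj⟩
  choose gf hgf1 hgf2 using hgw
  obtain ⟨g, -, hg⟩ := c09_list gf
  have hxm : ∀ (j : Fin (cM c.1)) (a : Fin (cK c.1)), c05_mw K (xg c.1 x j a) = X j a := by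
    intro j a
    rw [hx, hxf1]
  -- the words `b` and the isomorphism `E`
  obtain ⟨e0, he0⟩ := rp_iso c.1
  have hbv : ∀ k : Fin b.length, wv c.1 (b.getD k []) = β k := fun k => by rw [hb, hbf2]
  have hsb : ∀ l : Wd, wv c.1 (sbw b l) = (E (c05_mw K l) : RA (gr c.1)) := by
    intro l
    have h1 := pres2_eval (P := K) (Q := RP c.1)
      ((e0.symm.toMonoidHom.comp P.subtype).comp E.toMonoidHom) (F := b) (by
        intro k
        apply e0.injective
        rw [he0]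
        show wv c.1 (b.getD k []) = e0 (e0.symm (E (PresentedGroup.of k) : RA (gr c.1)))
        rw [e0.apply_symm_apply]
        by_cases hk : k < b.length
        · exact (hbv ⟨k, hk⟩).trans (hE ⟨k, hk⟩).symm
        · rw [List.getD_eq_default _ _ (not_lt.1 hk), wv_nil,
            pres2_one_of_ge (P := K) k (by rw [hK]; exact not_lt.1 hk), map_one]
          rfl) l
    have h2 := congrArg e0 h1
    rw [he0] at h2
    rw [h2]
    exact e0.apply_symm_apply _
  refine ⟨b, x, g, ?_⟩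
  unfold BasN
  rw [← hK]
  refine ⟨?_, ?_, ?_, ?_, ?_, ?_, ?_, ?_⟩
  · intro w hw
    obtain ⟨k, hk, rfl⟩ := List.mem_iff_getElem.1 hw
    have h1 := hbf1 ⟨k, hk⟩
    rw [← hb] at h1
    rwa [List.getD_eq_getElem _ _ hk] at h1
  · intro rl hrl
    rw [triv_rp, hsb]
    have h1 : c05_mw K rl = 1 := PresentedGroup.one_of_mem (Or.inl ⟨rl, hrl, rfl⟩)
    rw [h1, map_one]
    rfl
  · intro j hj u hu w hw huw
    show c05_mw K _ = 1
    rw [c05_append, c05_append, c05_inv, c05_append, mul_inv_eq_one]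
    have h1 := hxm ⟨j, hj⟩ ⟨u, hu⟩
    have h2 := hxm ⟨j, hj⟩ ⟨w, hw⟩
    have h3 := hxm (rm ρ ⟨j, hj⟩ (gen ⟨u, hu⟩)) ⟨w, hw⟩
    have h4 := hxm (rm ρ ⟨j, hj⟩ (gen ⟨w, hw⟩)) ⟨u, hu⟩
    rw [hρ] at h3 h4
    simp only at h1 h2 h3 h4
    rw [h1, h2, h3, h4]
    exact hcoc ⟨j, hj⟩ ⟨u, hu⟩ ⟨w, hw⟩ huw
  · intro j hj a ha hav
    have h1 := hx ⟨j, hj⟩ ⟨a, ha⟩
    simp only at h1
    rw [h1]
    exact hxf2 _ _ (fun e => hav (congrArg Fin.val e))
  · intro k hk
    show c05_mw K _ = 1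
    rw [c05_append, c05_of', mul_inv_eq_one]
    have h1 := lift_eq2 hA hρ x (fun j a => (hκ1 j a).trans (hxm j a).symm) hκ2 i (b.getD k [])
    have h2 : c05_mw K (liftN c.1 x i (b.getD k [])) = κ i (wv c.1 (b.getD k [])) := h1.symm
    rw [h2]
    have h3 : wv c.1 (b.getD k []) = β ⟨k, hk⟩ := hbv ⟨k, hk⟩
    have h4 := (mem_pst hB).1 (hβ ⟨k, hk⟩)
    rw [h3, hκT _ h4.1]
    apply hEi
    have h5 : (E (PresentedGroup.of k) : RA (gr c.1)) = β ⟨k, hk⟩ := hE ⟨k, hk⟩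
    rw [hT1 i _ h4.1 hBi, hq3 i (ps_refl _ _), hq3 _ h4.2, h5]
    group
  · intro j hj hp
    have h1 := hg ⟨j, hj⟩
    simp only at h1
    rw [h1]
    exact hgf2 _ ((ps_iff hA hρ v i ⟨j, hj⟩).1 hp)
  · intro j hj hcl a ha hav
    rw [triv_rp]
    have hav' : piF c ⟨a, ha⟩ = v := Fin.ext hav
    have hBj : c09B (grG c) (piF c) ρ v i ⟨j, hj⟩ := by
      obtain ⟨y, hy, hyj⟩ := (cl_iff hA hρ v i ⟨j, hj⟩).1 hcl
      exact ⟨y, hy, by rw [hyj]; exact ps_refl _ _⟩
    rw [wv_append, wv_inv, mul_inv_eq_one, wv_append, wv_append, wv_inv, hsb]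
    have h1 := hxm ⟨j, hj⟩ ⟨a, ha⟩
    have h2 := hg ⟨j, hj⟩
    have h3 := hg (rm ρ ⟨j, hj⟩ (gen ⟨a, ha⟩))
    rw [hρ] at h3
    simp only at h1 h2 h3
    rw [h1, h2, h3, hgf1, hgf1, hX1 _ _ hav', hT1 _ _ (hgm _ hav') hBj, c05_wv_cons, wv_nil,
      mul_one]
    have h4 := c02_gen c.1 ⟨a, ha⟩
    simp only at h4
    rw [h4]
  · intro ht
    exact hr (decide_eq_true ht)

end RaagGP
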