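import Pool.Agent.Lib.MP_32d917_al_gp.C05
import Pool.Agent.Lib.MP_32d917_al_gp.C08
import Pool.Agent.Lib.MP_32d917_al_gp.C09
import Pool.Agent.Lib.MP_32d917_al_gp.C10
import Pool.Agent.Lib.MP_32d917_al_gp.H09
import Pool.Agent.Lib.MP_32d917_al_gp.N04

/-!
# C11: certificates for the failure of `blk` exist (60 min)

Suppose that there is no certificate; let `i`, `v` be given. `bas_complete` for `(v, i)` and for `(τ i v, F i)` (rewrite with `ht`): bases `b`, `b'` with lengths `r`, `r'` and types. As the first two cases of `BlkC` do not occur: `r = r'`, and (`2 ≤ r` → the types agree); if the types do not agree, one of them holds and then `2 ≤ r` by the last condition of `BasN`; so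
the types agree. `A`, `A'` from `act_exists`, `P'` as in `C10`. If there is a basis `U` (`IsBas ty r U P'`) with `A' (U k) = A (b k)` for all `k`, then `psi_complete` and `act_exists` give `Ψ`. Otherwise we construct `L`: the set of the tuples `fun k => A' (U k)`, `U` a basis of `P'` (type `ty`, rank `r`), is a subset of the finite type `Fin r → X`; for each element choose one basis `U` with
words `u k`, `InP c' (τ i v) (F i) (u k)` (`inp_word`), for the tuple of `b'` take the words of `b'`. `L` is the list of these lists of words (length `r`). First and second condition of `OrbC`: clear. Third: `U ∈ L`, `m ∈ mvs r`: by `bas_move` the tuple `wev U (fM m (k, true))` is a basis, so its `A'`-tuple is that of some `U' ∈ L`; `A' p1 = A' p2` implies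
`rm ρ' (F d) p1 = rm ρ' (F d) p2` for all `d` of the position (apply `A' p⁻¹ = (A' p)⁻¹`); words: `wv c'.1 (sbw U l) = wev ... l` as in `C10`. Fourth: if `U ∈ L` acts as `b` for all `k`, `d`, then `A' (U k) = A (b k)`: excluded. So `z = ((i, v), (b, x, g), (b', x', g'), L)` is a certificate, contradiction.
-/

set_option autoImplicit false

namespace RaagGP

open LatIso RaagIso
open AdmIso (Wd mvs fM cmW)

variable {c c' : Cd2} {ρ : RA (gr c.1) →* Equiv.Perm (Fin (cM c.1))}
  {ρ' : RA (gr c'.1) →* Equiv.Perm (Fin (cM c'.1))}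

theorem c11_list {r : ℕ} (f : Fin r → Wd) (k : Fin r) : (List.ofFn f).getD k [] = f k := by
  rw [List.getD_eq_getElem _ _ (by rw [List.length_ofFn]; exact k.2)]
  simp

theorem blk_complete (h : ValN2 c) (h' : ValN2 c') (hρ : IsRho c.1 ρ) (hρ' : IsRho c'.1 ρ')
    {t : Mt2} {F : Fin (cM c.1) ≃ Fin (cM c'.1)} {τ : Fin (cM c.1) → Fin (kG c) ≃ Fin (kG c')}
    (ht : Rt2 c c' t F τ) (hM : Mc (grG c) (grG c') (piF c) (piF c') ρ ρ' F τ)
    (hz : ¬ ∃ z, BlkC c c' t z) :
    ∀ i v, ∃ Ψ : Pst (grG c) (piF c) ρ v i ≃* Pst (grG c') (piF c') ρ' (τ i v) (F i),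
      ∀ (p : Pst (grG c) (piF c) ρ v i) (d : Fin (cM c.1)), Ps (grG c) (piF c) ρ v i d →
        F (rm ρ d p) = rm ρ' (F d) (Ψ p) := by
  classical
  intro i v
  have hA : ActV c.1 := h.2.1
  have hA' : ActV c'.1 := h'.2.1
  obtain ⟨b, x, g, hb⟩ := bas_complete h hρ v i
  obtain ⟨b', x', g', hb'⟩ := bas_complete h' hρ' (τ i v) (F i)
  have hbas := bas_sound h hρ v i hb
  have hbas' := bas_sound h' hρ' (τ i v) (F i) hb'
  have hno : ∀ L : List (List Wd), ¬ (¬ b.length = b'.length ∨
      (¬ (TyN c v ↔ TyN c' (τ i v)) ∧ 2 ≤ b.length) ∨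
      ((TyN c v ↔ TyN c' (τ i v)) ∧ b.length = b'.length ∧ OrbC c c' t i v b b' L)) := by
    intro L hL
    apply hz
    refine ⟨(((i : ℕ), (v : ℕ)), (b, x, g), (b', x', g'), L), i.2, v.2, hb, ?_, ?_⟩
    · show BasN c' (tN2 c t i v) (FN2 c t i) b' x' g'
      rw [ht.1, ht.2]
      exact hb'
    · show ¬ b.length = b'.length ∨
        (¬ (TyN c v ↔ TyN c' (tN2 c t i v)) ∧ 2 ≤ b.length) ∨
        ((TyN c v ↔ TyN c' (tN2 c t i v)) ∧ b.length = b'.length ∧ OrbC c c' t i v b b' L)
      rw [ht.2]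
      exact hL
  have hlen : b.length = b'.length := by
    by_contra hne
    exact hno [] (Or.inl hne)
  have hty : TyN c v ↔ TyN c' (τ i v) := by
    by_contra hne
    have h2 : 2 ≤ b.length := by
      by_cases h3 : TyN c v
      · exact hb.2.2.2.2.2.2.2 h3
      · by_cases h4 : TyN c' (τ i v)
        · rw [hlen]
          exact hb'.2.2.2.2.2.2.2 h4
        · exact absurd (iff_of_false h3 h4) hne
    exact hno [] (Or.inr (Or.inl ⟨hne, h2⟩))
  have hbas2 : IsBas (decide (TyN c v)) b.length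
      (fun k : Fin b.length => wv c'.1 (b'.getD k []))
      (Pst (grG c') (piF c') ρ' (τ i v) (F i)) :=
    c10_cast (fun k => wv c'.1 (b'.getD k [])) hbas' (decide_eq_decide.2 hty).symm hlen.symm
  obtain ⟨A, A', a1, a2, a3⟩ := act_exists hM.1 hM.2.1 hM.2.2 i v
  by_cases hex : ∃ (U : Fin b.length → RA (gr c'.1))
      (hU : IsBas (decide (TyN c v)) b.length U (Pst (grG c') (piF c') ρ' (τ i v) (F i))),
      ∀ k, A' ⟨U k, bas_mem hU k⟩ = A ⟨wv c.1 (b.getD k []), bas_mem hbas k⟩
  · obtain ⟨U, hU, hk⟩ := hex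
    obtain ⟨Ψ, hΨ⟩ := psi_complete hbas hU A A' hk
    exact ⟨Ψ, (a3 Ψ).1 hΨ⟩
  · exfalso
    obtain ⟨T, hT⟩ : ∃ T : Set (Fin b.length → Equiv.Perm {d // Ps (grG c) (piF c) ρ v i d}),
        ∀ s, s ∈ T ↔ ∃ (U : Fin b.length → RA (gr c'.1))
          (hU : IsBas (decide (TyN c v)) b.length U (Pst (grG c') (piF c') ρ' (τ i v) (F i))),
          ∀ k, A' ⟨U k, bas_mem hU k⟩ = s k :=
      ⟨{s | ∃ (U : Fin b.length → RA (gr c'.1))
          (hU : IsBas (decide (TyN c v)) b.length U (Pst (grG c') (piF c') ρ' (τ i v) (F i))),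
          ∀ k, A' ⟨U k, bas_mem hU k⟩ = s k}, fun s => Iff.rfl⟩
    obtain ⟨Q, hQ⟩ : ∃ Q : List Wd → Prop, ∀ U, Q U ↔
        IsBas (decide (TyN c v)) b.length (fun k : Fin b.length => wv c'.1 (U.getD k []))
          (Pst (grG c') (piF c') ρ' (τ i v) (F i)) ∧
        ∀ k < b.length, InP c' (τ i v) (F i) (U.getD k []) := ⟨_, fun U => Iff.rfl⟩
    have hw : ∀ s, ∃ U, Q U ∧ (s ∈ T → ∀ (k : Fin b.length) (hk : wv c'.1 (U.getD k []) ∈
        Pst (grG c') (piF c') ρ' (τ i v) (F i)), A' ⟨_, hk⟩ = s k) := by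
      intro s
      by_cases hs : s ∈ T
      · obtain ⟨U, hU, hUs⟩ := (hT s).1 hs
        have h1 : ∀ k : Fin b.length, ∃ w, InP c' (τ i v) (F i) w ∧ wv c'.1 w = U k :=
          fun k => inp_word h' hρ' (τ i v) (F i) (bas_mem hU k)
        choose f hf1 hf2 using h1
        have h2 : (fun k : Fin b.length => wv c'.1 ((List.ofFn f).getD k [])) = U := by
          funext k
          rw [c11_list, hf2]
        refine ⟨List.ofFn f, (hQ _).2 ⟨?_, ?_⟩, fun _ k hk => ?_⟩
        · rw [h2]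
          exact hU
        · intro k hk
          have h3 := c11_list f ⟨k, hk⟩
          simp only at h3
          rw [h3]
          exact hf1 _
        · rw [← hUs k]
          congr 1
          apply Subtype.ext
          show wv c'.1 ((List.ofFn f).getD k []) = U k
          rw [c11_list, hf2]
      · refine ⟨b', (hQ _).2 ⟨hbas2, fun k hk => ?_⟩, fun h0 => absurd h0 hs⟩
        apply hb'.1
        rw [List.getD_eq_getElem _ _ (by rw [← hlen]; exact hk)]
        exact List.getElem_mem _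
    choose w hw1 hw2 using hw
    have hbQ : Q b' := by
      refine (hQ _).2 ⟨hbas2, fun k hk => ?_⟩
      apply hb'.1
      rw [List.getD_eq_getElem _ _ (by rw [← hlen]; exact hk)]
      exact List.getElem_mem _
    have hTf : T.Finite := Set.toFinite T
    obtain ⟨L, hL⟩ : ∃ L : List (List Wd), L = b' :: (hTf.toFinset.toList.map w) := ⟨_, rfl⟩
    have hL1 : ∀ U ∈ L, Q U := by
      intro U hU
      rw [hL] at hU
      rcases List.mem_cons.1 hU with h1 | h1
      · rw [h1]
        exact hbQ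
      · obtain ⟨s, -, rfl⟩ := List.mem_map.1 h1
        exact hw1 s
    have hL2 : ∀ s ∈ T, ∃ U ∈ L, ∀ (k : Fin b.length) (hk : wv c'.1 (U.getD k []) ∈
        Pst (grG c') (piF c') ρ' (τ i v) (F i)), A' ⟨_, hk⟩ = s k := by
      intro s hs
      refine ⟨w s, ?_, hw2 s hs⟩
      rw [hL]
      refine List.mem_cons_of_mem _ (List.mem_map.2 ⟨s, ?_, rfl⟩)
      rw [Finset.mem_toList, Set.Finite.mem_toFinset]
      exact hs
    have hmem : ∀ U ∈ L, ∀ k : Fin b.length, wv c'.1 (U.getD k []) ∈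
        Pst (grG c') (piF c') ρ' (τ i v) (F i) := by
      intro U hU k
      exact bas_mem ((hQ U).1 (hL1 U hU)).1 k
    apply hno L
    refine Or.inr (Or.inr ⟨hty, hlen, ?_, ?_, ?_, ?_⟩)
    · rw [hL]
      exact List.mem_cons_self
    · intro U hU k hk
      rw [ht.1, ht.2]
      exact ((hQ U).1 (hL1 U hU)).2 k hk
    · intro U hU m hm
      have h1 := bas_move ((hQ U).1 (hL1 U hU)).1 hm
      have h2 : (fun k : Fin b.length => wev (fun k : Fin b.length => wv c'.1 (U.getD k []))
          (fM m ((k : ℕ), true))) = fun k : Fin b.length => wv c'.1 (sbw U (fM m ((k : ℕ), true))) := by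
        funext k
        rw [c10_wev c'.1 U (c10_let hm k.2)]
      rw [h2] at h1
      obtain ⟨U', hU', h3⟩ := hL2 (fun k : Fin b.length =>
        A' ⟨wv c'.1 (sbw U (fM m ((k : ℕ), true))), bas_mem h1 k⟩) ((hT _).2 ⟨_, h1, fun k => rfl⟩)
      refine ⟨U', hU', fun k hk d hd hps => ?_⟩
      have h4 := h3 ⟨k, hk⟩ (hmem U' hU' ⟨k, hk⟩)
      have h5 := (c10_aa' a2 _ _).1 h4 ⟨d, hd⟩ ((ps_iff hA hρ v i ⟨d, hd⟩).1 hps)
      have h6 := congrArg Fin.val h5
      rw [run_eq2 hA' hρ', run_eq2 hA' hρ'] at h6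
      have h7 := ht.1 ⟨d, hd⟩
      simp only at h7 h6
      rw [h7]
      exact h6.symm
    · intro U hU
      by_contra hall
      apply hex
      refine ⟨_, ((hQ U).1 (hL1 U hU)).1, fun k => ?_⟩
      symm
      rw [c10_aa a1 a2]
      intro d hd
      apply Fin.ext
      show ((F (rm ρ d (wv c.1 (b.getD k []))) : Fin (cM c'.1)) : ℕ) =
        ((rm ρ' (F d) (wv c'.1 (U.getD k [])) : Fin (cM c'.1)) : ℕ)
      rw [run_eq2 hA' hρ', ← ht.1, ← ht.1, run_eq2 hA hρ]
      by_contra hne
      exact hall ⟨k, k.2, d, d.2, (ps_iff hA hρ v i d).2 hd, hne⟩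

end RaagGP
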