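import Pool.Agent.Lib.MP_32d917_al_gp.C13

/-!
# C14: recursive enumerability (60 min)

Compare `C04` (`MP_32d917_al_raag/C04.lean`): `re_and`, `re_or`, `re_of_prim`, `re_forall_lt`, `re_forall_mem`, `re_exists`, `re_comp`, `pres2_triv_comp`, `c04_app`, `c04_one`, `c04_imp`, `cert_re`.
`basN_re`: the eight conditions of `BasN`. `blkC_re`: `basN_re` twice and `pp_OrbC`. `badM_re`: `re_or`, `re_exists`. `codeFor2_re`: `valN2_p`, `cert_re` (for `c.1`). `noMat_re`: two nested `re_forall_lt` (bounds of `InB2`), see `noGood_re` in `C08` (`MP_32d917_al_raag/C08.lean`).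
-/

set_option autoImplicit false
set_option synthInstance.maxSize 2000

namespace RaagGP

open LatIso RaagIso
open AdmIso (Wd mvs fM cmW)

variable {β : Type} [Primcodable β]

section

variable {c : β → Cd2} {v i : β → ℕ} {b x g : β → List Wd}

/-- the presentation used in `BasN` -/
theorem c14_KP (hc : Primrec c) (hv : Primrec v) (hb : Primrec b) :
    Primrec fun y => KP (decide (TyN (c y) (v y))) (b y).length :=
  p_KP (p_ty hc hv) (Primrec.list_length.comp hb)

theorem c14_1 (hc : Primrec c) (hv : Primrec v) (hi : Primrec i) (hb : Primrec b) :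
    REPred fun y => ∀ w ∈ b y, InP (c y) (v y) (i y) w := by
  refine re_of_prim (CB.pp_all_mem (p := fun y w => InP (c y) (v y) (i y) w) hb ?_)
  exact pp_InP (β := β × Wd) (c := fun z => c z.1) (v := fun z => v z.1) (i := fun z => i z.1)
    (w := fun z => z.2) (hc.comp Primrec.fst) (hv.comp Primrec.fst) (hi.comp Primrec.fst)
    Primrec.snd

theorem c14_4 (hc : Primrec c) (hv : Primrec v) (hx : Primrec x) :
    REPred fun y => ∀ j < cM (c y).1, ∀ a < cK (c y).1, ¬ piN (c y) a = v y →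
      xg (c y).1 (x y) j a = [] := by
  refine re_of_prim (CB.pp_all (p := fun y j => ∀ a < cK (c y).1, ¬ piN (c y) a = v y →
      xg (c y).1 (x y) j a = []) (p_cM (CB.p_fst hc)) ?_)
  refine CB.pp_all (p := fun (z : β × ℕ) a => ¬ piN (c z.1) a = v z.1 →
      xg (c z.1).1 (x z.1) z.2 a = []) (p_cK (CB.p_fst (hc.comp Primrec.fst))) ?_
  have e1 : Primrec fun z : (β × ℕ) × ℕ => z.1.1 := Primrec.fst.comp Primrec.fst
  exact CB.pp_imp (CB.pp_not (CB.pp_eq (p_piN (c := fun z : (β × ℕ) × ℕ => c z.1.1)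
    (hc.comp e1) Primrec.snd) (hv.comp e1)))
    (CB.pp_eq (p_xg (f := fun z : (β × ℕ) × ℕ => (c z.1.1).1) (CB.p_fst (hc.comp e1))
      (hx.comp e1) (Primrec.snd.comp Primrec.fst) Primrec.snd) (Primrec.const []))

theorem c14_5 (hc : Primrec c) (hv : Primrec v) (hi : Primrec i) (hb : Primrec b)
    (hx : Primrec x) :
    REPred fun y => ∀ k < (b y).length, TrivW (KP (decide (TyN (c y) (v y))) (b y).length)
      (liftN (c y).1 (x y) (i y) ((b y).getD k []) ++ [(k, false)]) := by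
  refine re_forall_lt (p := fun y k => TrivW (KP (decide (TyN (c y) (v y))) (b y).length)
      (liftN (c y).1 (x y) (i y) ((b y).getD k []) ++ [(k, false)]))
      (Primrec.list_length.comp hb) ?_
  have e1 : Primrec fun z : β × ℕ => z.1 := Primrec.fst
  refine pres2_triv_comp (γ := β × ℕ) (P := fun z => KP (decide (TyN (c z.1) (v z.1)))
    (b z.1).length) (w := fun z => liftN (c z.1).1 (x z.1) (i z.1) ((b z.1).getD z.2 []) ++
      [(z.2, false)]) ((c14_KP hc hv hb).comp e1) ?_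
  exact c04_app (p_liftN (f := fun z : β × ℕ => (c z.1).1) (CB.p_fst (hc.comp e1)) (hx.comp e1)
    (hi.comp e1) (pres2_getD_p (hb.comp e1) Primrec.snd)) (c04_one false Primrec.snd)

theorem c14_6 (hc : Primrec c) (hv : Primrec v) (hi : Primrec i) (hg : Primrec g) :
    REPred fun y => ∀ j < cM (c y).1, PsN (c y) (v y) (i y) j → (g y).getD j [] = [] := by
  refine re_of_prim (CB.pp_all (p := fun y j => PsN (c y) (v y) (i y) j →
    (g y).getD j [] = []) (p_cM (CB.p_fst hc)) ?_)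
  have e1 : Primrec fun z : β × ℕ => z.1 := Primrec.fst
  exact CB.pp_imp (pp_PsN (c := fun z : β × ℕ => c z.1) (hc.comp e1) (hv.comp e1) (hi.comp e1)
    Primrec.snd) (CB.pp_eq (pres2_getD_p (hg.comp e1) Primrec.snd) (Primrec.const []))

theorem c14_7 (hc : Primrec c) (hv : Primrec v) (hi : Primrec i) (hb : Primrec b)
    (hx : Primrec x) (hg : Primrec g) :
    REPred fun y => ∀ j < cM (c y).1, ClN (c y) (v y) (i y) j → ∀ a < cK (c y).1,
      piN (c y) a = v y → TrivW (RP (c y).1)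
      (sbw (b y) (xg (c y).1 (x y) j a) ++ FreeGroup.invRev ((g y).getD j [] ++ [(a, true)] ++
        FreeGroup.invRev ((g y).getD (rmN (c y).1 j a) []))) := by
  refine re_forall_lt (p := fun y j => ClN (c y) (v y) (i y) j → ∀ a < cK (c y).1,
      piN (c y) a = v y → TrivW (RP (c y).1)
      (sbw (b y) (xg (c y).1 (x y) j a) ++ FreeGroup.invRev ((g y).getD j [] ++ [(a, true)] ++
        FreeGroup.invRev ((g y).getD (rmN (c y).1 j a) [])))) (p_cM (CB.p_fst hc)) ?_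
  have e0 : Primrec fun z : β × ℕ => z.1 := Primrec.fst
  refine c04_imp (pp_ClN (c := fun z : β × ℕ => c z.1) (hc.comp e0) (hv.comp e0) (hi.comp e0)
    Primrec.snd) ?_
  refine re_forall_lt (p := fun (z : β × ℕ) a => piN (c z.1) a = v z.1 → TrivW (RP (c z.1).1)
      (sbw (b z.1) (xg (c z.1).1 (x z.1) z.2 a) ++ FreeGroup.invRev ((g z.1).getD z.2 [] ++
        [(a, true)] ++ FreeGroup.invRev ((g z.1).getD (rmN (c z.1).1 z.2 a) []))))
      (p_cK (CB.p_fst (hc.comp e0))) ?_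
  have e1 : Primrec fun z : (β × ℕ) × ℕ => z.1.1 := Primrec.fst.comp Primrec.fst
  refine c04_imp (CB.pp_eq (p_piN (c := fun z : (β × ℕ) × ℕ => c z.1.1)
    (hc.comp e1) Primrec.snd) (hv.comp e1)) ?_
  exact c04_6a (β := (β × ℕ) × ℕ) (f := fun z => (c z.1.1).1) (p := fun z => b z.1.1)
    (q := fun z => x z.1.1) (r := fun z => g z.1.1) (i := fun z => z.1.2) (v := fun z => z.2)
    (CB.p_fst (hc.comp e1)) (hb.comp e1) (hx.comp e1) (hg.comp e1)
    (Primrec.snd.comp Primrec.fst) Primrec.snd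

end

theorem basN_re {c : β → Cd2} {v i : β → ℕ} {b x g : β → List Wd} (hc : Primrec c)
    (hv : Primrec v) (hi : Primrec i) (hb : Primrec b) (hx : Primrec x) (hg : Primrec g) :
    REPred fun y => BasN (c y) (v y) (i y) (b y) (x y) (g y) := by
  unfold BasN
  refine re_and (c14_1 hc hv hi hb) (re_and (c04_1 (CB.p_fst hc) (c14_KP hc hv hb) hb)
    (re_and (c04_2 (CB.p_fst hc) (c14_KP hc hv hb) hx) (re_and (c14_4 hc hv hx)
      (re_and (c14_5 hc hv hi hb hx) (re_and (c14_6 hc hv hi hg)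
        (re_and (c14_7 hc hv hi hb hx hg) (re_of_prim ?_)))))))
  exact CB.pp_imp (pp_TyN hc hv) (CB.pp_le (Primrec.const 2) (Primrec.list_length.comp hb))

/-- certificates for `blk` -/
theorem c14_blkC {c c' : β → Cd2} {t : β → Mt2}
    {z : β → (ℕ × ℕ) × (List Wd × List Wd × List Wd) × (List Wd × List Wd × List Wd) ×
      List (List Wd)} (hc : Primrec c) (hc' : Primrec c') (ht : Primrec t) (hz : Primrec z) :
    REPred fun y => BlkC (c y) (c' y) (t y) (z y) := by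
  unfold BlkC
  have h1 : Primrec fun y => (z y).1.1 := CB.p_fst (CB.p_fst hz)
  have h2 : Primrec fun y => (z y).1.2 := CB.p_snd (CB.p_fst hz)
  have h3 : Primrec fun y => (z y).2.1 := CB.p_fst (CB.p_snd hz)
  have h4 : Primrec fun y => (z y).2.2.1 := CB.p_fst (CB.p_snd (CB.p_snd hz))
  have h5 : Primrec fun y => (z y).2.2.2 := CB.p_snd (CB.p_snd (CB.p_snd hz))
  have k1 : Primrec fun y => (z y).2.1.1 := CB.p_fst h3
  have k4 : Primrec fun y => (z y).2.2.1.1 := CB.p_fst h4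
  have ht' : Primrec fun y => tN2 (c y) (t y) (z y).1.1 (z y).1.2 := p_tN2 hc ht h1 h2
  have hF : Primrec fun y => FN2 (c y) (t y) (z y).1.1 := p_FN2 hc ht h1
  have l1 : Primrec fun y => (z y).2.1.1.length := Primrec.list_length.comp k1
  have l2 : Primrec fun y => (z y).2.2.1.1.length := Primrec.list_length.comp k4
  have hI : PrimrecPred fun y => (TyN (c y) (z y).1.2 ↔
      TyN (c' y) (tN2 (c y) (t y) (z y).1.1 (z y).1.2)) :=
    CB.pp_iff (pp_TyN hc h2) (pp_TyN hc' ht')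
  refine re_and (re_of_prim (CB.pp_lt h1 (p_cM (CB.p_fst hc))))
    (re_and (re_of_prim (CB.pp_lt h2 (p_kG hc)))
    (re_and (basN_re hc h2 h1 k1 (CB.p_fst (CB.p_snd h3)) (CB.p_snd (CB.p_snd h3)))
    (re_and (basN_re hc' ht' hF k4 (CB.p_fst (CB.p_snd h4)) (CB.p_snd (CB.p_snd h4)))
      (re_of_prim ?_))))
  exact CB.pp_or (CB.pp_not (CB.pp_eq l1 l2))
    (CB.pp_or (CB.pp_and (CB.pp_not hI) (CB.pp_le (Primrec.const 2) l1))
      (CB.pp_and hI (CB.pp_and (CB.pp_eq l1 l2) (pp_OrbC hc hc' ht h1 h2 k1 k4 h5))))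

theorem badM_re : REPred fun y : (Cd2 × Cd2) × Mt2 => BadM y.1.1 y.1.2 y.2 := by
  unfold BadM
  refine re_or (re_of_prim (CB.pp_not matN2_p)) (re_or ?_ ?_)
  · exact re_exists (p := fun (y : (Cd2 × Cd2) × Mt2) z => PosC y.1.1 y.1.2 y.2 z)
      (re_of_prim posC_p)
  · exact re_exists (p := fun (y : (Cd2 × Cd2) × Mt2) z => BlkC y.1.1 y.1.2 y.2 z)
      (c14_blkC (CB.p_fst (CB.p_fst (CB.p_fst CB.p_id))) (CB.p_snd (CB.p_fst (CB.p_fst CB.p_id)))
        (CB.p_snd (CB.p_fst CB.p_id)) (CB.p_snd CB.p_id))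

theorem noMat_re : REPred fun y : Cd2 × Cd2 => ∀ t, InB2 y.1 t → BadM y.1 y.2 t := by
  have hf : Primrec fun x : ((Cd2 × Cd2) × ℕ) × ℕ =>
      ((x.1.1, (x.1.2, x.2)) : (Cd2 × Cd2) × Mt2) :=
    CB.p_pair (CB.p_fst (CB.p_fst CB.p_id)) (CB.p_pair (CB.p_snd (CB.p_fst CB.p_id))
      (CB.p_snd CB.p_id))
  have h0 := re_comp badM_re hf.to_comp
  have hc : Primrec fun x : (Cd2 × Cd2) × ℕ => x.1.1 := CB.p_fst (CB.p_fst CB.p_id)
  have h1 := re_forall_lt (p := fun (x : (Cd2 × Cd2) × ℕ) (b : ℕ) =>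
      BadM x.1.1 x.1.2 (x.2, b)) (f := fun x => kG x.1.1 ^ (cM x.1.1.1 * kG x.1.1))
    (CB.p_pow (p_kG hc) (CB.p_mul (p_cM (CB.p_fst hc)) (p_kG hc))) h0
  have h2 := re_forall_lt (p := fun (x : Cd2 × Cd2) (a : ℕ) =>
      ∀ b < kG x.1 ^ (cM x.1.1 * kG x.1), BadM x.1 x.2 (a, b))
    (f := fun x => cM x.1.1 ^ cM x.1.1)
    (CB.p_pow (p_cM (CB.p_fst (CB.p_fst CB.p_id))) (p_cM (CB.p_fst (CB.p_fst CB.p_id)))) h1
  refine h2.of_eq ?_
  intro x
  constructor
  · rintro h ⟨a, b⟩ ⟨k1, k2⟩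
    exact h a k1 b k2
  · intro h a k1 b k2
    exact h (a, b) ⟨k1, k2⟩

theorem codeFor2_re : REPred fun y : Pres × Cd2 => CodeFor2 y.1 y.2 := by
  refine re_and (re_of_prim (valN2_p.comp Primrec.snd)) ?_
  refine re_exists (p := fun (x : Pres × Cd2) (z : List Wd × List Wd × List Wd) =>
    Cert x.2.1 x.1 z) ?_
  exact re_comp cert_re
    (f := fun y : (Pres × Cd2) × (List Wd × List Wd × List Wd) => ((y.1.2.1, y.1.1), y.2))
    (CB.p_pair (CB.p_pair (CB.p_fst (CB.p_snd (CB.p_fst CB.p_id)))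
      (CB.p_fst (CB.p_fst CB.p_id))) (CB.p_snd CB.p_id)).to_comp

end RaagGP
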