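import Pool.Agent.Lib.MP_32d917_al_gp.G11
import Pool.Agent.Lib.MP_32d917_al_raag.B03

/-!
# H01: finite data of an isomorphism (50 min); compare `B03` (`MP_32d917_al_raag/B03.lean`)

`dt2_of_gi`: for `c : C` choose `X c` with `rm ρ c0 (X c) = c`. `F c = rm ρ' c0' (f (X c))`, `τ' c = τ (X c)` as in `dt_of_gi` (`b03_wd`, `b03_stb` are available: they are for the graph `Λ`), and
`la c v g = (f (X c))⁻¹ * f (X c * g)` (it does not depend on `v`). Well defined: `(f (h * x))⁻¹ * f (h * x * g) = (f x)⁻¹ * f (x * g)` for `h ∈ stb ρ c0`, so `la (rm ρ c0 x) v g = (f x)⁻¹ * f (x * g)` for all `x`.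
`adj`, `tau`, `mem`, `lam` from `GI2` (for `lam`: `la (rm ρ (rm ρ c0 x) y) v g = (f (x * y))⁻¹ * f (x * y * g)`); `mul`: `(f x)⁻¹ * f (x * (g * h)) = (f x)⁻¹ * f (x * g) * ((f (x * g))⁻¹ * f (x * g * h))`;
`act`: `F (rm ρ c0 (x * g)) = rm ρ' c0' (f (x * g)) = rm ρ' (rm ρ' c0' (f x)) ((f x)⁻¹ * f (x * g))`; `surj` from `hs`; `inj`: `f` is injective.
`dt2_of_iso`: from `rigid2` and `dt2_of_gi`, with `stb_fin`.
-/

set_option autoImplicit false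

namespace RaagGP

open RaagIso

variable {V W V' W' C C' : Type} {Γ : SimpleGraph V} {Λ : SimpleGraph W} {π : W → V}
  {Γ' : SimpleGraph V'} {Λ' : SimpleGraph W'} {π' : W' → V'}

theorem dt2_of_gi {ρ : RA Λ →* Equiv.Perm C} {ρ' : RA Λ' →* Equiv.Perm C'} (hρ : Trn ρ)
    (hρ' : Trn ρ') {c0 : C} {c0' : C'} (φ : stb ρ c0 ≃* stb ρ' c0') (f : RA Λ ≃ RA Λ')
    (τ : RA Λ → V ≃ V') (hG : GI2 Γ Γ' π π' f τ)
    (hs : ∀ x v g', g' ∈ PB Λ' π' {τ x v} → ∃ g ∈ PB Λ π {v}, f (x * g) = f x * g')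
    (he : ∀ (h : stb ρ c0) (x : RA Λ), f (h * x) = φ h * f x ∧ τ (h * x) = τ x) :
    ∃ (F : C ≃ C') (τ' : C → V ≃ V') (la : C → V → RA Λ → RA Λ'),
      Dt2 Γ Γ' π π' ρ ρ' F τ' la := by
  choose X hX using hρ c0
  have hF : ∀ x, rm ρ' c0' (f (X (rm ρ c0 x))) = rm ρ' c0' (f x) := by
    intro x
    obtain ⟨k, hk⟩ := b03_wd (hX (rm ρ c0 x)).symm
    rw [hk, (he k x).1, b03_stb]
  have hT : ∀ x, τ (X (rm ρ c0 x)) = τ x := by
    intro x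
    obtain ⟨k, hk⟩ := b03_wd (hX (rm ρ c0 x)).symm
    rw [hk, (he k x).2]
  have hL : ∀ x g, (f (X (rm ρ c0 x)))⁻¹ * f (X (rm ρ c0 x) * g) = (f x)⁻¹ * f (x * g) := by
    intro x g
    obtain ⟨k, hk⟩ := b03_wd (hX (rm ρ c0 x)).symm
    rw [hk, mul_assoc (k : RA Λ) x g, (he k x).1, (he k (x * g)).1]
    group
  have hinj : Function.Injective (fun c => rm ρ' c0' (f (X c))) := by
    intro c d hcd
    obtain ⟨k', hk'⟩ := b03_wd hcd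
    obtain ⟨k, rfl⟩ := φ.surjective k'
    rw [← (he k _).1] at hk'
    have h1 := f.injective hk'
    rw [← hX c, ← hX d, h1, b03_stb]
  have hsur : Function.Surjective (fun c => rm ρ' c0' (f (X c))) := by
    intro c'
    obtain ⟨y, hy⟩ := hρ' c0' c'
    refine ⟨rm ρ c0 (f.symm y), ?_⟩
    show rm ρ' c0' (f (X (rm ρ c0 (f.symm y)))) = c'
    rw [hF, f.apply_symm_apply, hy]
  have hgen : ∀ (x : RA Λ) (y : RA Λ), rm ρ (rm ρ c0 x) y = rm ρ c0 (x * y) :=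
    fun x y => (rm_mul _ _ _ _).symm
  refine ⟨Equiv.ofBijective _ ⟨hinj, hsur⟩, fun c => τ (X c),
    fun c _ g => (f (X c))⁻¹ * f (X c * g), ?_⟩
  constructor
  · intro c v w
    exact hG.adj (X c) v w
  · intro c v w g hg hw
    obtain ⟨x, rfl⟩ := hρ c0 c
    show τ (X (rm ρ (rm ρ c0 x) g)) w = τ (X (rm ρ c0 x)) w
    rw [hgen, hT, hT]
    exact hG.tau x v w g hg hw
  · intro c v g hg
    exact hG.mem (X c) v g hg
  · intro c v g h _ _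
    obtain ⟨x, rfl⟩ := hρ c0 c
    show (f (X (rm ρ c0 x)))⁻¹ * f (X (rm ρ c0 x) * (g * h)) =
      (f (X (rm ρ c0 x)))⁻¹ * f (X (rm ρ c0 x) * g) *
        ((f (X (rm ρ (rm ρ c0 x) g)))⁻¹ * f (X (rm ρ (rm ρ c0 x) g) * h))
    rw [hgen, hL, hL, hL, ← mul_assoc x g h]
    group
  · intro c v g y hg hy
    obtain ⟨x, rfl⟩ := hρ c0 c
    show (f (X (rm ρ (rm ρ c0 x) y)))⁻¹ * f (X (rm ρ (rm ρ c0 x) y) * g) =
      (f (X (rm ρ c0 x)))⁻¹ * f (X (rm ρ c0 x) * g)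
    rw [hgen, hL, hL]
    exact hG.lam x v g y hg hy
  · intro c v g hg
    obtain ⟨x, rfl⟩ := hρ c0 c
    show rm ρ' c0' (f (X (rm ρ (rm ρ c0 x) g))) =
      rm ρ' (rm ρ' c0' (f (X (rm ρ c0 x)))) ((f (X (rm ρ c0 x)))⁻¹ * f (X (rm ρ c0 x) * g))
    rw [hgen, hF, hF, hL, ← rm_mul, mul_inv_cancel_left]
  · intro c v g' hg'
    obtain ⟨g, hg, h⟩ := hs (X c) v g' hg'
    exact ⟨g, hg, by rw [h, inv_mul_cancel_left]⟩
  · intro c v g h _ _ hgh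
    exact mul_left_cancel (f.injective (mul_left_cancel hgh))

theorem dt2_of_iso [Finite V] [Finite V'] [Finite C] [Finite C'] (hB : BU Γ Λ π) (hN : NoDom Γ)
    (hS : NoSep Γ) (h2 : ∃ a b : V, a ≠ b) (hB' : BU Γ' Λ' π') (hN' : NoDom Γ') (hS' : NoSep Γ')
    (h2' : ∃ a b : V', a ≠ b) {ρ : RA Λ →* Equiv.Perm C} {ρ' : RA Λ' →* Equiv.Perm C'}
    (hρ : Trn ρ) (hρ' : Trn ρ') {c0 : C} {c0' : C'} (φ : stb ρ c0 ≃* stb ρ' c0') :
    ∃ (F : C ≃ C') (τ : C → V ≃ V') (la : C → V → RA Λ → RA Λ'),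
      Dt2 Γ Γ' π π' ρ ρ' F τ la := by
  obtain ⟨f, τ, hG, hs, he⟩ := rigid2 hB hN hS h2 hB' hN' hS' h2' (stb ρ c0) (stb ρ' c0')
    (stb_fin ρ c0) (stb_fin ρ' c0') φ
  exact dt2_of_gi hρ hρ' φ f τ hG hs he

end RaagGP
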