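import Pool.Agent.Lib.MP_32d917_al_gp.H06

/-!
# H07: the second form of the data gives the first form (75 min)

`la_exists`: for fixed `v`. `b`, `g c`, `g' c` from `choice`; `Ψ` for the base point `b c`: choose for every point `e` an isomorphism `Ψ e : Pst v e ≃* Pst' (τ e v) (F e)` with the property in `Nm2.blk`. For `x ∈ PB {v}`:
`u = g c * x * (g (rm ρ c x))⁻¹ ∈ Pst v (b c)` (`mem_pst`): with `cx = rm ρ c x`, `b cx = b c` (`gg_st`): `rm ρ (b c) (g c)` has the position of `c`, so `rm ρ (b c) (g c * x)` has the position of `cx` (`ps_gg`), hence that of `rm ρ (b c) (g cx)`; apply `(g cx)⁻¹` (`ps_gg`).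
`la c x = (g' c)⁻¹ * Ψ (b c) ⟨u, _⟩ * g' cx`. For `x ∉ PB {v}` put `la c x = 1` (so use a function on all of `RA Λ` with `dite`).
(1) `la c x ∈ PB' {τ c v}`: `g' c`, `g' cx`, `Ψ u` are in `PB' {τ (b c) v}`; `τ (b c) v = τ c v`: `c = rm ρ (rm ρ (b c) (g c)) y`, `y ∈ PB (lk v)`: `tau_lk`, `tau_gg`.
(2) `la c (x * y) = la c x * la (rm ρ c x) y`: `b` is the same, `Ψ` is a homomorphism: `g c * (x * y) * (g cxy)⁻¹ = (g c * x * (g cx)⁻¹) * (g cx * y * (g cxy)⁻¹)`.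
(3) `la (rm ρ c y) x = la c x` for `y ∈ PB (lk v)`: `b (rm ρ c y) = b c` (`lk_st`), `rm ρ c y` has the position of `c`, and `rm ρ (rm ρ c y) x` that of `rm ρ c x` (`ps_gg`).
(4) `F (rm ρ c x) = rm ρ' (F c) (la c x)`: `d = rm ρ c (g c)⁻¹` has the position of `b c`. `F c = F (rm ρ d (g c)) = rm ρ' (F d) (g' c)`. `rm ρ' (F d) (Ψ u) = F (rm ρ d u)` (`blk`), `rm ρ d u` has the position of `b c` (as `u ∈ Pst`), so `rm ρ' (F (rm ρ d u)) (g' cx) = F (rm ρ (rm ρ d u) (g cx)) = F (rm ρ c x)`.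
(5) surjective onto `PB' {τ c v}`: first (5a) for `x' ∈ PB' {τ c v}` with `rm ρ' (F c) x' = F c`: `u' = g' c * x' * (g' c)⁻¹` fixes `F d`, `d = rm ρ c (g c)⁻¹` (see (4)), and `Ps v (b c) d`, so `F d` has the position of `F (b c)` with respect to `τ (b c) v` (`ps_map`), so `u' ∈ Pst' (τ (b c) v) (F (b c))`
(`mem_pst`, `pst_ps` for `Λ'`). Let `u = (Ψ (b c)).symm u'`, `x = (g c)⁻¹ * u * g c ∈ PB {v}`; `rm ρ c x` has the position of `c` (`ps_gg`: `rm c (g c)⁻¹ ~ b c`, `rm (b c) u ~ b c`, `rm (b c) (g c) ~ c`), so `g (rm ρ c x) = g c` and `la c x = x'`.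
For general `g1' ∈ PB' {τ c v}`: by `Nm2.orb` there is `x1 ∈ PB {v}` with `F (rm ρ c x1) = rm ρ' (F c) g1'`. Then `x' = g1' * (la c x1)⁻¹` fixes `F c` (by (4)); `x'= la c x2` by (5a), `rm ρ c x2 = c` by (4), and `la c (x2 * x1) = x' * la c x1 = g1'` by (2).
(6) injective on `PB {v}`: `la c x = la c y` gives `rm ρ c x = rm ρ c y` by (4), so the elements `u` are equal.

`dt2_of_nm2`: choose `la` for all `v`; `adj`, and `tau` by `tau_gg`.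
-/

set_option autoImplicit false

namespace RaagGP

open RaagIso

variable {V W V' W' C C' : Type} {Γ : SimpleGraph V} {Λ : SimpleGraph W} {π : W → V}
  {Γ' : SimpleGraph V'} {Λ' : SimpleGraph W'} {π' : W' → V'} {ρ : RA Λ →* Equiv.Perm C}
  {ρ' : RA Λ' →* Equiv.Perm C'} {F : C ≃ C'} {τ : C → V ≃ V'}

theorem h07_psi (h : Nm2 Γ Γ' π π' ρ ρ' F τ) (v : V) :
    ∃ ψ : C → RA Λ → RA Λ',
      (∀ e z, z ∈ Pst Γ π ρ v e → ψ e z ∈ Pst Γ' π' ρ' (τ e v) (F e)) ∧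
      (∀ e z w, z ∈ Pst Γ π ρ v e → w ∈ Pst Γ π ρ v e → ψ e (z * w) = ψ e z * ψ e w) ∧
      (∀ e z d, z ∈ Pst Γ π ρ v e → Ps Γ π ρ v e d → F (rm ρ d z) = rm ρ' (F d) (ψ e z)) ∧
      (∀ e z', z' ∈ Pst Γ' π' ρ' (τ e v) (F e) → ∃ z ∈ Pst Γ π ρ v e, ψ e z = z') ∧
      ∀ e z w, z ∈ Pst Γ π ρ v e → w ∈ Pst Γ π ρ v e → ψ e z = ψ e w → z = w := by
  classical
  choose Ψ hΨ using fun e => h.blk e v
  set ψ : C → RA Λ → RA Λ' := fun e z =>
    if hz : z ∈ Pst Γ π ρ v e then ((Ψ e ⟨z, hz⟩ : Pst Γ' π' ρ' (τ e v) (F e)) : RA Λ') else 1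
    with hψ
  have hval : ∀ e z (hz : z ∈ Pst Γ π ρ v e),
      ψ e z = ((Ψ e ⟨z, hz⟩ : Pst Γ' π' ρ' (τ e v) (F e)) : RA Λ') := by
    intro e z hz
    simp only [hψ, dif_pos hz]
  refine ⟨ψ, ?_, ?_, ?_, ?_, ?_⟩
  · intro e z hz
    rw [hval e z hz]
    exact (Ψ e ⟨z, hz⟩).2
  · intro e z w hz hw
    rw [hval e z hz, hval e w hw, hval e _ (mul_mem hz hw)]
    rw [← Subgroup.coe_mul, ← map_mul]
    rfl
  · intro e z d hz hd
    rw [hval e z hz]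
    exact hΨ e ⟨z, hz⟩ d hd
  · intro e z' hz'
    refine ⟨((Ψ e).symm ⟨z', hz'⟩ : Pst Γ π ρ v e), ((Ψ e).symm ⟨z', hz'⟩).2, ?_⟩
    rw [hval e _ ((Ψ e).symm ⟨z', hz'⟩).2]
    have : (⟨((Ψ e).symm ⟨z', hz'⟩ : Pst Γ π ρ v e), ((Ψ e).symm ⟨z', hz'⟩).2⟩ :
        Pst Γ π ρ v e) = (Ψ e).symm ⟨z', hz'⟩ := rfl
    rw [this, MulEquiv.apply_symm_apply]
  · intro e z w hz hw heq
    rw [hval e z hz, hval e w hw] at heq
    have := (Ψ e).injective (Subtype.ext heq)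
    exact congrArg Subtype.val this

theorem la_exists (hB : BU Γ Λ π) (hB' : BU Γ' Λ' π') (h : Nm2 Γ Γ' π π' ρ ρ' F τ) (v : V) :
    ∃ la : C → RA Λ → RA Λ',
      (∀ c g, g ∈ PB Λ π {v} → la c g ∈ PB Λ' π' {τ c v}) ∧
      (∀ c g k, g ∈ PB Λ π {v} → k ∈ PB Λ π {v} → la c (g * k) = la c g * la (rm ρ c g) k) ∧
      (∀ c g y, g ∈ PB Λ π {v} → y ∈ PB Λ π (lk Γ v) → la (rm ρ c y) g = la c g) ∧
      (∀ c g, g ∈ PB Λ π {v} → F (rm ρ c g) = rm ρ' (F c) (la c g)) ∧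
      (∀ c g', g' ∈ PB Λ' π' {τ c v} → ∃ g ∈ PB Λ π {v}, la c g = g') ∧
      ∀ c g k, g ∈ PB Λ π {v} → k ∈ PB Λ π {v} → la c g = la c k → g = k := by
  obtain ⟨b, g, g', hb, hgc, hE⟩ := choice hB h v
  obtain ⟨ψ, ψmem, ψmul, ψact, ψsurj, ψinj⟩ := h07_psi h v
  have hbg : ∀ c x, x ∈ PB Λ π {v} → b (rm ρ c x) = b c := fun c x hx => hb c x (gg_st v hx)
  have hg : ∀ c, g c ∈ PB Λ π {v} := fun c => (hE c).1.1
  have hp : ∀ c, Ps Γ π ρ v (rm ρ (b c) (g c)) c := fun c => (hE c).2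
  have hτ : ∀ c, τ (b c) v = τ c v := by
    intro c
    obtain ⟨y, hy, hyc⟩ := hp c
    have h1 := tau_lk h.tau hy (rm ρ (b c) (g c))
    rw [hyc, tau_gg h.tau (Or.inl rfl) (hg c)] at h1
    exact h1.symm
  have hg' : ∀ c, g' c ∈ PB Λ' π' {τ c v} := by
    intro c
    rw [← hτ c]
    exact (hE c).1.2.1
  have hτg : ∀ c x, x ∈ PB Λ π {v} → τ (rm ρ c x) v = τ c v := fun c x hx =>
    tau_gg h.tau (Or.inl rfl) hx c
  -- the base point moved by `(g c)⁻¹`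
  have hd : ∀ c, Ps Γ π ρ v (b c) (rm ρ c (g c)⁻¹) := by
    intro c
    have h1 := ps_gg hB (inv_mem (hg c)) (hp c)
    rwa [rm_inv_r] at h1
  obtain ⟨u, hu⟩ : ∃ u : C → RA Λ → RA Λ, ∀ c x, u c x = g c * x * (g (rm ρ c x))⁻¹ :=
    ⟨_, fun _ _ => rfl⟩
  have humem : ∀ c x, x ∈ PB Λ π {v} → u c x ∈ Pst Γ π ρ v (b c) := by
    intro c x hx
    rw [mem_pst hB, hu]
    refine ⟨mul_mem (mul_mem (hg c) hx) (inv_mem (hg _)), ?_⟩
    have h1 := ps_gg hB hx (hp c)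
    have h2 := hp (rm ρ c x)
    rw [hbg c x hx] at h2
    have h3 := ps_gg hB (inv_mem (hg (rm ρ c x))) (ps_trans h2 (ps_symm h1))
    rw [rm_inv_r] at h3
    rw [rm_mul, rm_mul]
    exact h3
  obtain ⟨la, hla⟩ : ∃ la : C → RA Λ → RA Λ', ∀ c x, la c x =
      (g' c)⁻¹ * ψ (b c) (u c x) * g' (rm ρ c x) := ⟨_, fun _ _ => rfl⟩
  have P1 : ∀ c x, x ∈ PB Λ π {v} → la c x ∈ PB Λ' π' {τ c v} := by
    intro c x hx
    rw [hla]
    refine mul_mem (mul_mem (inv_mem (hg' c)) ?_) ?_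
    · have h1 := (ψmem (b c) _ (humem c x hx)).1
      rwa [hτ c] at h1
    · have h1 := hg' (rm ρ c x)
      rwa [hτg c x hx] at h1
  have P2 : ∀ c x y, x ∈ PB Λ π {v} → y ∈ PB Λ π {v} →
      la c (x * y) = la c x * la (rm ρ c x) y := by
    intro c x y hx hy
    have h1 : u c (x * y) = u c x * u (rm ρ c x) y := by
      rw [hu, hu, hu, rm_mul]
      group
    have h2 := humem (rm ρ c x) y hy
    rw [hbg c x hx] at h2
    rw [hla, hla, hla, h1, ψmul (b c) _ _ (humem c x hx) h2, hbg c x hx, rm_mul]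
    group
  have P3 : ∀ c x y, x ∈ PB Λ π {v} → y ∈ PB Λ π (lk Γ v) → la (rm ρ c y) x = la c x := by
    intro c x y hx hy
    have h1 : Ps Γ π ρ v c (rm ρ c y) := ⟨y, hy, rfl⟩
    have h2 := hgc _ _ h1
    have h3 := hgc _ _ (ps_gg hB hx h1)
    have h4 : b (rm ρ c y) = b c := hb c y (lk_st v hy)
    rw [hla, hla, hu, hu, h4, ← h2.1, ← h2.2, ← h3.1, ← h3.2]
  have Fc : ∀ c, F c = rm ρ' (F (rm ρ c (g c)⁻¹)) (g' c) := by
    intro c
    have h1 := (hE c).1.2.2 _ (hd c)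
    rwa [rm_inv_l] at h1
  have P4 : ∀ c x, x ∈ PB Λ π {v} → F (rm ρ c x) = rm ρ' (F c) (la c x) := by
    intro c x hx
    have hm := humem c x hx
    have h1 : rm ρ' (F c) (la c x) =
        rm ρ' (rm ρ' (F (rm ρ c (g c)⁻¹)) (ψ (b c) (u c x))) (g' (rm ρ c x)) := by
      rw [hla]
      conv_lhs => rw [Fc c]
      rw [← rm_mul, ← rm_mul]
      congr 1
      group
    rw [h1, ← ψact (b c) _ _ hm (hd c)]
    have h2 : Ps Γ π ρ v (b c) (rm ρ (rm ρ c (g c)⁻¹) (u c x)) := (hm.2 _).1 (hd c)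
    have h3 := (hE (rm ρ c x)).1.2.2
    rw [hbg c x hx] at h3
    rw [← h3 _ h2, hu, ← rm_mul, ← rm_mul]
    congr 2
    group
  have P5a : ∀ c x', x' ∈ PB Λ' π' {τ c v} → rm ρ' (F c) x' = F c →
      ∃ x ∈ PB Λ π {v}, la c x = x' := by
    intro c x' hx' hfix
    have hu' : g' c * x' * (g' c)⁻¹ ∈ PB Λ' π' {τ (b c) v} := by
      rw [hτ c]
      exact mul_mem (mul_mem (hg' c) hx') (inv_mem (hg' c))
    have h1 : rm ρ' (F (rm ρ c (g c)⁻¹)) (g' c * x' * (g' c)⁻¹) = F (rm ρ c (g c)⁻¹) := by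
      rw [rm_mul, rm_mul, ← Fc c, hfix]
      conv_lhs => rw [Fc c]
      rw [rm_inv_r]
    have h2 := (ps_map h.adj h.tau h.orb (hd c)).1
    have h3 : g' c * x' * (g' c)⁻¹ ∈ Pst Γ' π' ρ' (τ (b c) v) (F (b c)) := by
      rw [mem_pst hB']
      refine ⟨hu', ?_⟩
      have h4 := ps_gg hB' hu' h2
      rw [h1] at h4
      exact ps_trans h2 (ps_symm h4)
    obtain ⟨z, hz, hzu⟩ := ψsurj (b c) _ h3
    have hx : (g c)⁻¹ * z * g c ∈ PB Λ π {v} :=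
      mul_mem (mul_mem (inv_mem (hg c)) hz.1) (hg c)
    refine ⟨(g c)⁻¹ * z * g c, hx, ?_⟩
    have h5 : Ps Γ π ρ v c (rm ρ c ((g c)⁻¹ * z * g c)) := by
      have h6 : Ps Γ π ρ v (b c) (rm ρ (rm ρ c (g c)⁻¹) z) := (hz.2 _).1 (hd c)
      have h7 := ps_gg hB (hg c) h6
      rw [rm_mul, rm_mul]
      exact ps_trans (ps_symm (hp c)) h7
    have h6 := hgc _ _ h5
    have h7 : u c ((g c)⁻¹ * z * g c) = z := by
      rw [hu, ← h6.1]
      group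
    rw [hla, h7, hzu, ← h6.2]
    group
  refine ⟨la, P1, P2, P3, P4, ?_, ?_⟩
  · intro c x' hx'
    obtain ⟨x1, hx1, hx1'⟩ := (h.orb c (F.symm (rm ρ' (F c) x')) v).2
      ⟨x', hx', (F.apply_symm_apply _).symm⟩
    have h1 : F (rm ρ c x1) = rm ρ' (F c) x' := by rw [hx1', F.apply_symm_apply]
    have h2 : rm ρ' (F c) (x' * (la c x1)⁻¹) = F c := by
      rw [rm_mul, ← h1, P4 c x1 hx1, rm_inv_r]
    obtain ⟨x2, hx2, hx2'⟩ := P5a c (x' * (la c x1)⁻¹) (mul_mem hx' (inv_mem (P1 c x1 hx1))) h2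
    have h3 : rm ρ c x2 = c := by
      apply F.injective
      rw [P4 c x2 hx2, hx2', h2]
    refine ⟨x2 * x1, mul_mem hx2 hx1, ?_⟩
    rw [P2 c x2 x1 hx2 hx1, h3, hx2']
    group
  · intro c x y hx hy hxy
    have h1 : rm ρ c x = rm ρ c y := by
      apply F.injective
      rw [P4 c x hx, P4 c y hy, hxy]
    rw [hla, hla, h1] at hxy
    have h2 : ψ (b c) (u c x) = ψ (b c) (u c y) := mul_left_cancel (mul_right_cancel hxy)
    have h3 := ψinj (b c) _ _ (humem c x hx) (humem c y hy) h2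
    rw [hu, hu, h1] at h3
    exact mul_left_cancel (mul_right_cancel h3)

theorem dt2_of_nm2 (hB : BU Γ Λ π) (hB' : BU Γ' Λ' π') (h : Nm2 Γ Γ' π π' ρ ρ' F τ) :
    ∃ la : C → V → RA Λ → RA Λ', Dt2 Γ Γ' π π' ρ ρ' F τ la := by
  choose la h1 h2 h3 h4 h5 h6 using fun v => la_exists hB hB' h v
  exact ⟨fun c v => la v c,
    { adj := h.adj
      tau := fun c v w g hg hw => tau_gg h.tau hw hg c
      mem := fun c v g hg => h1 v c g hg
      mul := fun c v g k hg hk => h2 v c g k hg hk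
      lam := fun c v g y hg hy => h3 v c g y hg hy
      act := fun c v g hg => h4 v c g hg
      surj := fun c v g' hg' => h5 v c g' hg'
      inj := fun c v g k hg hk hgk => h6 v c g k hg hk hgk }⟩

end RaagGP
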