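import Pool.Agent.Lib.MP_32d917_al_raag.C10
import Pool.Agent.Lib.MP_32d917_al_gp.C02
import Pool.Agent.Lib.MP_32d917_al_gp.C03
import Pool.Agent.Lib.MP_32d917_al_gp.C06
import Pool.Agent.Lib.MP_32d917_al_gp.C10
import Pool.Agent.Lib.MP_32d917_al_gp.C11
import Pool.Agent.Lib.MP_32d917_al_gp.C14
import Pool.Agent.Lib.MP_32d917_al_gp.H01
import Pool.Agent.Lib.MP_32d917_al_gp.H04
import Pool.Agent.Lib.MP_32d917_al_gp.H07
import Pool.Agent.Lib.MP_32d917_al_gp.H08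

/-!
# C15: the isomorphism problem for subgroups of finite index of graph products: assembly
-/

set_option autoImplicit false
set_option synthInstance.maxSize 2000

namespace RaagGP

open LatIso RaagIso
open AdmIso (Wd mvs fM cmW)

/-- the class of groups -/
def IsCls2 (G : Type) [Group G] : Prop :=
  ∃ (V W : Type) (_ : Finite V) (_ : Finite W) (Γ : SimpleGraph V) (Λ : SimpleGraph W)
    (π : W → V) (H : Subgroup (RA Λ)), (∃ a b : V, a ≠ b) ∧ BU Γ Λ π ∧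
    ((MulAut.conj : RA Γ →* MulAut (RA Γ)).range).FiniteIndex ∧ H.FiniteIndex ∧
      Nonempty (G ≃* H)

/-- certificates of non-isomorphism -/
def NoCert2 (P Q : Pres) : Prop :=
  ∃ z : Cd2 × Cd2, CodeFor2 P z.1 ∧ CodeFor2 Q z.2 ∧ ∀ t, InB2 z.1 t → BadM z.1 z.2 t

theorem noCert2_re : REPred fun x : Pres × Pres => NoCert2 x.1 x.2 := by
  have h1 := re_comp codeFor2_re (f := fun x : (Pres × Pres) × (Cd2 × Cd2) => (x.1.1, x.2.1))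
    (Primrec.pair (Primrec.fst.comp Primrec.fst) (Primrec.fst.comp Primrec.snd)).to_comp
  have h2 := re_comp codeFor2_re (f := fun x : (Pres × Pres) × (Cd2 × Cd2) => (x.1.2, x.2.2))
    (Primrec.pair (Primrec.snd.comp Primrec.fst) (Primrec.snd.comp Primrec.snd)).to_comp
  have h3 := re_comp noMat_re (f := fun x : (Pres × Pres) × (Cd2 × Cd2) => x.2)
    Primrec.snd.to_comp
  exact re_exists (p := fun (x : Pres × Pres) (z : Cd2 × Cd2) =>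
    CodeFor2 x.1 z.1 ∧ CodeFor2 x.2 z.2 ∧ ∀ t, InB2 z.1 t → BadM z.1 z.2 t)
    (re_and h1 (re_and h2 h3))

variable {c c' : Cd2} {ρ : RA (gr c.1) →* Equiv.Perm (Fin (cM c.1))}
  {ρ' : RA (gr c'.1) →* Equiv.Perm (Fin (cM c'.1))}

theorem good_of_nm2 (h : ValN2 c) (h' : ValN2 c') (hρ : IsRho c.1 ρ) (hρ' : IsRho c'.1 ρ')
    {F : Fin (cM c.1) ≃ Fin (cM c'.1)} {τ : Fin (cM c.1) → Fin (kG c) ≃ Fin (kG c')}
    (hN : Nm2 (grG c) (grG c') (piF c) (piF c') ρ ρ' F τ) : ∃ t, InB2 c t ∧ ¬ BadM c c' t := by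
  obtain ⟨t, h1, h2, h3⟩ := mat_of h h' hρ hρ' ⟨hN.adj, hN.tau, hN.orb⟩
  refine ⟨t, h1, ?_⟩
  rintro (h4 | h4 | h4)
  · exact h4 h2
  · exact (pos_iff h h' hρ hρ' h3).2 hN.pos h4
  · exact blk_sound h h' hρ hρ' h3 ⟨hN.adj, hN.tau, hN.orb⟩ h4 hN.blk

theorem nm2_of_good (h : ValN2 c) (h' : ValN2 c') (hρ : IsRho c.1 ρ) (hρ' : IsRho c'.1 ρ')
    {t : Mt2} (ht : ¬ BadM c c' t) :
    ∃ (F : Fin (cM c.1) ≃ Fin (cM c'.1)) (τ : Fin (cM c.1) → Fin (kG c) ≃ Fin (kG c')),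
      Nm2 (grG c) (grG c') (piF c) (piF c') ρ ρ' F τ := by
  unfold BadM at ht
  push Not at ht
  obtain ⟨h1, h2, h3⟩ := ht
  obtain ⟨F, τ, h4, h5⟩ := mat_to h h' hρ hρ' h1
  exact ⟨F, τ, h5.1, h5.2.1, h5.2.2, (pos_iff h h' hρ hρ' h4).1 (fun ⟨z, hz⟩ => h2 z hz),
    blk_complete h h' hρ hρ' h4 h5 (fun ⟨z, hz⟩ => h3 z hz)⟩

theorem noCert2_sound (P Q : Pres) (h : NoCert2 P Q) : ¬ Nonempty (P.Grp ≃* Q.Grp) := by
  rintro ⟨e⟩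
  obtain ⟨⟨c, c'⟩, ⟨hv, z, hz⟩, ⟨hv', z', hz'⟩, hno⟩ := h
  simp only at hv z hz hv' z' hz' hno
  obtain ⟨ρ, hρ⟩ := rho_exists2 c.1 hv.2.1
  obtain ⟨ρ', hρ'⟩ := rho_exists2 c'.1 hv'.2.1
  obtain ⟨ht, ⟨i⟩⟩ := cert_sound2 hv.2.1 hρ hz
  obtain ⟨ht', ⟨i'⟩⟩ := cert_sound2 hv'.2.1 hρ' hz'
  obtain ⟨F, τ, la, hD⟩ := dt2_of_iso (bu_code hv) (nodom2 hv) (nosep2 hv) (two2 hv)
    (bu_code hv') (nodom2 hv') (nosep2 hv') (two2 hv') ht ht' (i.symm.trans (e.trans i'))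
  obtain ⟨t, ht, hg⟩ := good_of_nm2 hv hv' hρ hρ' (nm2_of_dt2 (bu_code hv) (bu_code hv') hD)
  exact hg (hno t ht)

theorem cls2_code (P : Pres) (h : IsCls2 P.Grp) : ∃ c, CodeFor2 P c := by
  obtain ⟨V, W, _, _, Γ, Λ, π, H, h2, hB, ho, hH, ⟨e⟩⟩ := h
  obtain ⟨c, hv, ρ, hρ, ht, ⟨i⟩⟩ := code_exists2 hB (noDom_of_out ho) (noSep_of_out ho) h2 H hH
  obtain ⟨z, hz⟩ := cert_complete2 hv.2.1 hρ ht (e.trans i)
  exact ⟨c, hv, z, hz⟩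

theorem noCert2_complete (P Q : Pres) (hP : IsCls2 P.Grp) (hQ : IsCls2 Q.Grp)
    (h : ¬ Nonempty (P.Grp ≃* Q.Grp)) : NoCert2 P Q := by
  obtain ⟨c, hv, z, hz⟩ := cls2_code P hP
  obtain ⟨c', hv', z', hz'⟩ := cls2_code Q hQ
  refine ⟨(c, c'), ⟨hv, z, hz⟩, ⟨hv', z', hz'⟩, ?_⟩
  intro t _
  by_contra hg
  apply h
  obtain ⟨ρ, hρ⟩ := rho_exists2 c.1 hv.2.1
  obtain ⟨ρ', hρ'⟩ := rho_exists2 c'.1 hv'.2.1
  obtain ⟨ht, ⟨i⟩⟩ := cert_sound2 hv.2.1 hρ hz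
  obtain ⟨ht', ⟨i'⟩⟩ := cert_sound2 hv'.2.1 hρ' hz'
  obtain ⟨F, τ, hN⟩ := nm2_of_good hv hv' hρ hρ' hg
  obtain ⟨la, hD⟩ := dt2_of_nm2 (bu_code hv) (bu_code hv') hN
  obtain ⟨j⟩ := iso_of_dt2 (bu_code hv) (bu_code hv') hD ht' 0 0
  exact ⟨i.trans (j.trans i'.symm)⟩

/-- The isomorphism problem is solvable for the class `IsCls2`. -/
theorem final2 : ∃ f : Pres × Pres →. Bool, Partrec f ∧ ∀ P Q : Pres,
    IsCls2 P.Grp → IsCls2 Q.Grp → ∃ b ∈ f (P, Q), (b = true ↔ Nonempty (P.Grp ≃* Q.Grp)) := by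
  obtain ⟨f, hf, h1, h2, h3⟩ := par_search iso_re noCert2_re
  refine ⟨f, hf, fun P Q hP hQ => ?_⟩
  have g2 : true ∈ f (P, Q) → Nonempty (P.Grp ≃* Q.Grp) := fun h => h2 (P, Q) h
  have g3 : false ∈ f (P, Q) → NoCert2 P Q := fun h => h3 (P, Q) h
  have hd : (f (P, Q)).Dom := by
    apply h1
    by_cases h : Nonempty (P.Grp ≃* Q.Grp)
    · exact Or.inl h
    · exact Or.inr (noCert2_complete P Q hP hQ h)
  refine ⟨(f (P, Q)).get hd, Part.get_mem hd, ?_⟩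
  have hm := Part.get_mem hd
  rcases hb : (f (P, Q)).get hd with _ | _
  · rw [hb] at hm
    have h4 := noCert2_sound P Q (g3 hm)
    exact ⟨fun h => by simp at h, fun h => absurd h h4⟩
  · rw [hb] at hm
    exact ⟨fun _ => g2 hm, fun _ => rfl⟩

end RaagGP
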