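import Pool.Agent.Lib.MP_32d917_al_gp.G10
import Pool.Agent.Lib.MP_32d917_al_gp.G07

/-!
# G11: the rigidity theorem (60 min)

Compare `R04`, `R05` (`MP_32d917_al_raag`).

`panels2`. `adj`: `w ∈ st Γ v ↔ Cme (x, v) (x, w) ↔ Cme (f x, τ x v) (f x, τ x w) ↔ τ x w ∈ st Γ' (τ x v)` (`cme_self`, `Emp2.comm`, `cme_ee` with `h`), and `τ x` is injective.
For `g ∈ PB {v}` and `w ∈ st Γ v`: `Ee (x * g, w) (x, w)` (`ee_right`, `g ∈ PB (st w)` as `v ∈ st Γ w`). So `Ee (f (x * g), τ (x * g) w) (f x, τ x w)`: `tau`, and `d = (f x)⁻¹ * f (x * g) ∈ PB (st (τ x w))` for all `w ∈ st Γ v`. Let `s ∈ sup d`, `z = π' s`, `v' = τ x v`, `z ≠ v'`: by `NoDom v' z`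
there is `u'` adjacent to `v'` with `u' ∉ st Γ' z`; `u' = τ x w`, `w` adjacent to `v`; so `z ∈ st Γ' u'`: contradiction. So `mem` (`mem_pp`).
`lam`: first for `y ∈ PB {w}`, `w` adjacent to `v`. Let `A = (f x)⁻¹ * f (x * g)`, `B = (f (x * g))⁻¹ * f (x * g * y)`, `B2 = (f x)⁻¹ * f (x * y)`, `A2 = (f (x * y))⁻¹ * f (x * y * g)`. `A, A2 ∈ PB {τ x v}`, `B, B2 ∈ PB {τ x w}` (`mem`, `tau`). `x * g * y = x * y * g` (`gg_comm`),
so `A * B = B2 * A2 = A2 * B2` (`gg_comm` in `Λ'`), so `A2⁻¹ * A = B2 * B⁻¹` is in both subgroups, `= 1` (`gg_inter`; `τ x v ≠ τ x w`). General `y ∈ PB (lk v)`: induction over the closure (`Subgroup.closure_induction`, statement for all `x`): letters of `y` are over vertices adjacent to `v`; for inverses replace `x` by `x * y⁻¹`.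

`rigid2`: from `emap2`, `chamber2`, `panels2`. Equivariance: `Ee (Φ (h * x, v)) (φ h * (Φ (x, v)).1, (Φ (x, v)).2)`, which is equivalent to `(φ h * f x, τ x v)` (`ee_mul`), so `Ee (f (h * x), τ (h * x) v) (φ h * f x, τ x v)` for all `v`: `τ (h * x) = τ x`, and `(f (h * x))⁻¹ * (φ h * f x)` is in all
`PB (st v')` (`τ x` is surjective), so it is `1` (`center2`).

`surj`: for `g' ∈ PB {τ x v}` there is `g ∈ PB {v}` with `f (x * g) = f x * g'`. Apply `panels2` to the inverse maps: `f.symm`, `τ' y = (τ (f.symm y)).symm`, `Ψ`: `Ee (Ψ (y, v')) (f.symm y, τ' y v')` follows from `left`/`ee'`. `mem` for the inverse: `(f.symm (f x))⁻¹ * f.symm (f x * g') ∈ PB {v}`.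
-/

set_option autoImplicit false

namespace RaagGP

open RaagIso

variable {V W V' W' : Type} {Γ : SimpleGraph V} {Λ : SimpleGraph W} {π : W → V}
  {Γ' : SimpleGraph V'} {Λ' : SimpleGraph W'} {π' : W' → V'}

theorem g11_st_symm {G : SimpleGraph V} {v w : V} (h : w ∈ st G v) : v ∈ st G w := by
  rcases h with h | h
  · exact Or.inl h.symm
  · exact Or.inr h.symm

theorem panels2 (hB : BU Γ Λ π) (hB' : BU Γ' Λ' π') (hN' : NoDom Γ')
    {Φ : RA Λ × V → RA Λ' × V'} {Ψ : RA Λ' × V' → RA Λ × V} (h : Emp2 Γ Γ' π π' Φ Ψ)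
    (f : RA Λ ≃ RA Λ') (τ : RA Λ → V ≃ V') (hf : ∀ x v, Ee Γ' π' (Φ (x, v)) (f x, τ x v)) :
    GI2 Γ Γ' π π' f τ := by
  have adj1 : ∀ x v w, w ∈ st Γ v ↔ τ x w ∈ st Γ' (τ x v) := by
    intro x v w
    rw [← cme_self (Λ := Λ) (π := π) x v w, ← cme_self (Λ := Λ') (π := π') (f x) (τ x v) (τ x w),
      h.comm (x, v) (x, w)]
    constructor
    · intro h1
      exact cme_ee h1 (hf x v) (hf x w)
    · intro h1
      exact cme_ee h1 (ee_symm (hf x v)) (ee_symm (hf x w))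
  have adj : ∀ x v w, Γ.Adj v w ↔ Γ'.Adj (τ x v) (τ x w) := by
    intro x v w
    constructor
    · intro hv
      rcases (adj1 x v w).1 (Or.inr hv) with h1 | h1
      · have := (τ x).injective h1
        subst this
        exact absurd hv Γ.irrefl
      · exact h1
    · intro hv
      rcases (adj1 x v w).2 (Or.inr hv) with h1 | h1
      · subst h1
        exact absurd hv Γ'.irrefl
      · exact h1
  have key : ∀ x v g, g ∈ PB Λ π {v} → ∀ w, w ∈ st Γ v → τ x w = τ (x * g) w ∧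
      (f x)⁻¹ * f (x * g) ∈ PB Λ' π' (st Γ' (τ x w)) := by
    intro x v g hg w hw
    have h0 : g ∈ PB Λ π (st Γ w) :=
      pb_mono (Set.singleton_subset_iff.2 (g11_st_symm hw)) hg
    have h1 := h.ee _ _ (ee_right (Γ := Γ) x w h0)
    have h2 : Ee Γ' π' (f x, τ x w) (f (x * g), τ (x * g) w) :=
      ee_trans (ee_symm (hf x w)) (ee_trans (ee_symm h1) (hf (x * g) w))
    exact h2
  have mem : ∀ x v g, g ∈ PB Λ π {v} → (f x)⁻¹ * f (x * g) ∈ PB Λ' π' {τ x v} := by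
    intro x v g hg
    unfold PB
    rw [mem_pp]
    intro s hs
    by_contra hsv
    have hne : τ x v ≠ π' s := fun e => hsv e.symm
    obtain ⟨u, hu1, hu2⟩ := hN' (τ x v) (π' s) hne
    obtain ⟨w, rfl⟩ : ∃ w, τ x w = u := ⟨(τ x).symm u, (τ x).apply_symm_apply u⟩
    have hvw : Γ.Adj v w := (adj x v w).2 hu1
    have h1 := (key x v g hg w (Or.inr hvw)).2
    unfold PB at h1
    rw [mem_pp] at h1
    rcases h1 hs with h2 | h2
    · exact hu2 (Or.inl h2.symm)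
    · exact hu2 (Or.inr h2.symm)
  have tau : ∀ x v w g, g ∈ PB Λ π {v} → w ∈ st Γ v → τ (x * g) w = τ x w :=
    fun x v w g hg hw => (key x v g hg w hw).1.symm
  have lam1 : ∀ x v g w y, g ∈ PB Λ π {v} → Γ.Adj v w → y ∈ PB Λ π {w} →
      (f (x * y))⁻¹ * f (x * y * g) = (f x)⁻¹ * f (x * g) := by
    intro x v g w y hg hvw hy
    have hA := mem x v g hg
    have hB1 := mem (x * g) w y hy
    rw [tau x v w g hg (Or.inr hvw)] at hB1
    have hB2 := mem x w y hy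
    have hA2 := mem (x * y) v g hg
    rw [tau x w v y hy (Or.inr hvw.symm)] at hA2
    have hc : x * g * y = x * y * g := by
      rw [mul_assoc, gg_comm hB hvw hg hy, ← mul_assoc]
    have hcomm := gg_comm hB' ((adj x v w).1 hvw) hA2 hB2
    obtain ⟨A, hAd⟩ : ∃ A, A = (f x)⁻¹ * f (x * g) := ⟨_, rfl⟩
    obtain ⟨B, hBd⟩ : ∃ B, B = (f (x * g))⁻¹ * f (x * g * y) := ⟨_, rfl⟩
    obtain ⟨B2, hB2d⟩ : ∃ B2, B2 = (f x)⁻¹ * f (x * y) := ⟨_, rfl⟩
    obtain ⟨A2, hA2d⟩ : ∃ A2, A2 = (f (x * y))⁻¹ * f (x * y * g) := ⟨_, rfl⟩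
    rw [← hAd] at hA
    rw [← hBd] at hB1
    rw [← hB2d] at hB2
    rw [← hA2d] at hA2
    rw [← hA2d, ← hB2d] at hcomm
    rw [← hAd, ← hA2d]
    have e1 : A * B = B2 * A2 := by
      rw [hAd, hBd, hB2d, hA2d, hc]
      group
    rw [← hcomm] at e1
    have e2 : A2⁻¹ * A = B2 * B⁻¹ := by
      rw [inv_mul_eq_iff_eq_mul, ← mul_assoc, ← e1, mul_inv_cancel_right]
    have hne : τ x v ∉ ({τ x w} : Set V') := by
      intro e
      have h3 := (τ x).injective (Set.mem_singleton_iff.1 e)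
      subst h3
      exact Γ.irrefl hvw
    have e3 : A2⁻¹ * A = 1 := by
      refine gg_inter (mul_mem (inv_mem hA2) hA) hne ?_
      rw [e2]
      exact mul_mem hB2 (inv_mem hB1)
    exact inv_mul_eq_one.1 e3
  refine ⟨adj, mem, tau, ?_⟩
  intro x v g y hg hy
  have hind : ∀ y ∈ PB Λ π (lk Γ v), ∀ x, (f (x * y))⁻¹ * f (x * y * g) = (f x)⁻¹ * f (x * g) := by
    intro y hy
    unfold PB PP at hy
    refine Subgroup.closure_induction (p := fun y _ => ∀ x, (f (x * y))⁻¹ * f (x * y * g)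
      = (f x)⁻¹ * f (x * g)) ?_ ?_ ?_ ?_ hy
    · rintro _ ⟨a, ha, rfl⟩ x
      exact lam1 x v g (π a) (gen a) hg ha (pb_gen (Set.mem_singleton _))
    · intro x
      rw [mul_one]
    · intro a b _ _ ha hb x
      rw [← mul_assoc, hb (x * a), ha x]
    · intro a _ ha x
      have h1 := ha (x * a⁻¹)
      rw [inv_mul_cancel_right] at h1
      exact h1.symm
  exact hind y hy x

theorem rigid2 [Finite V] [Finite V'] (hB : BU Γ Λ π) (hN : NoDom Γ) (hS : NoSep Γ)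
    (h2 : ∃ a b : V, a ≠ b) (hB' : BU Γ' Λ' π') (hN' : NoDom Γ') (hS' : NoSep Γ')
    (h2' : ∃ a b : V', a ≠ b) (H : Subgroup (RA Λ)) (H' : Subgroup (RA Λ'))
    (hH : H.FiniteIndex) (hH' : H'.FiniteIndex) (φ : H ≃* H') :
    ∃ (f : RA Λ ≃ RA Λ') (τ : RA Λ → V ≃ V'), GI2 Γ Γ' π π' f τ ∧
      (∀ x v g', g' ∈ PB Λ' π' {τ x v} → ∃ g ∈ PB Λ π {v}, f (x * g) = f x * g') ∧
      ∀ (h : H) (x : RA Λ), f (h * x) = φ h * f x ∧ τ (h * x) = τ x := by
  obtain ⟨Φ, Ψ, hE, hφ⟩ := emap2 hB hN hB' hN' H H' hH hH' φ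
  obtain ⟨f, τ, hf⟩ := chamber2 hB hN hS h2 hB' hN' hS' h2' hE
  refine ⟨f, τ, panels2 hB hB' hN' hE f τ hf, ?_, ?_⟩
  · intro x v g' hg'
    have hf' : ∀ y v', Ee Γ π (Ψ (y, v')) (f.symm y, (τ (f.symm y)).symm v') := by
      intro y v'
      have h1 := hE.ee' _ _ (hf (f.symm y) ((τ (f.symm y)).symm v'))
      rw [Equiv.apply_symm_apply, Equiv.apply_symm_apply] at h1
      exact ee_trans (ee_symm h1) (hE.left _)
    have hG := panels2 hB' hB hN (g10_symm hE) f.symm (fun y => (τ (f.symm y)).symm) hf'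
    have h3 := hG.mem (f x) (τ x v) g' hg'
    simp only [Equiv.symm_apply_apply] at h3
    refine ⟨_, h3, ?_⟩
    rw [mul_inv_cancel_left, Equiv.apply_symm_apply]
  · intro h x
    have h1 : ∀ v, Ee Γ' π' (f (h * x), τ (h * x) v) (φ h * f x, τ x v) := by
      intro v
      have h4 := (ee_mul (Γ := Γ') (π := π') (φ h : RA Λ')).2 (hf x v)
      exact ee_trans (ee_symm (hf (h * x) v)) (ee_trans (hφ h (x, v)) h4)
    refine ⟨?_, Equiv.ext fun v => (h1 v).1⟩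
    have h5 : (f (h * x))⁻¹ * (φ h * f x) = 1 := by
      refine center2 (π := π') hN' h2' fun v' => ?_
      have h6 := (h1 ((τ (h * x)).symm v')).2
      simp only [Equiv.apply_symm_apply] at h6
      exact h6
    exact inv_mul_eq_one.1 h5

end RaagGP
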