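import Pool.Agent.Lib.MP_32d917_al_gp.CDefs
import Pool.Agent.Lib.MP_32d917_al_raag.C04
import Pool.Agent.Lib.MP_32d917_al_adm.C10

/-!
# C12: primitive recursiveness of the conditions on codes (60 min)

Compare `C03`, `C08` (`MP_32d917_al_raag`): closure lemmas `CB.p_...`, `CB.pp_...` and the tactic of `valN_p`, `matN_p`. First: `AdG`, `StG`, `piN`, `TyN`, `FN2`, `tN2`, `KP` (`p_RP` is similar; the Bool `decide (TyN c v)` is primitive recursive by the definition of `PrimrecPred`), `ActV`, `PsN`, `ClN` (unfold `OrD`, with the concrete predicates; the implications are `CB.pp_imp`).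
`runN`: `p_runN`; `sbw`: `pres2_sbw_p`; `fM`, `mvs`: see `MP_32d917_al_adm/WC07.lean`, `WC08.lean` (look for the lemmas on `fM` and `mvs`; import the file which contains them).
-/

set_option autoImplicit false
set_option synthInstance.maxSize 2000

namespace RaagGP

open LatIso RaagIso
open AdmIso (Wd mvs fM cmW)

variable {β : Type} [Primcodable β] {c c' : β → Cd2} {t : β → Mt2} {v i j k : β → ℕ}
  {w b x g : β → List Wd}

theorem p_kG (hc : Primrec c) : Primrec fun y => kG (c y) :=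
  CB.p_add (CB.p_fst (CB.p_snd hc)) (Primrec.const 1)

theorem p_piN (hc : Primrec c) (hi : Primrec i) : Primrec fun y => piN (c y) (i y) := by
  unfold piN
  exact CB.p_dg (CB.p_fst (CB.p_snd hc)) (CB.p_snd (CB.p_snd (CB.p_snd hc))) hi

theorem pp_AdG (hc : Primrec c) (hi : Primrec i) (hj : Primrec j) :
    PrimrecPred fun y => AdG (c y) (i y) (j y) := by
  unfold AdG
  refine CB.pp_and (CB.pp_not (CB.pp_eq hi hj)) (CB.pp_or ?_ ?_)
  · exact CB.pp_eq (CB.p_dg (Primrec.const 1) (CB.p_fst (CB.p_snd (CB.p_snd hc)))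
      (CB.p_add (CB.p_mul hi (p_kG hc)) hj)) (Primrec.const 1)
  · exact CB.pp_eq (CB.p_dg (Primrec.const 1) (CB.p_fst (CB.p_snd (CB.p_snd hc)))
      (CB.p_add (CB.p_mul hj (p_kG hc)) hi)) (Primrec.const 1)

theorem pp_StG (hc : Primrec c) (hi : Primrec i) (hj : Primrec j) :
    PrimrecPred fun y => StG (c y) (i y) (j y) := by
  unfold StG
  exact CB.pp_or (CB.pp_eq hj hi) (pp_AdG hc hi hj)

theorem c12_TyN : PrimrecPred fun y : Cd2 × ℕ => TyN y.1 y.2 := by
  unfold TyN
  refine CB.pp_ex (p_cK (CB.p_fst (CB.p_fst CB.p_id))) ?_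
  refine CB.pp_ex (p_cK (CB.p_fst (CB.p_fst (CB.p_fst CB.p_id)))) ?_
  have e1 : Primrec fun y : ((Cd2 × ℕ) × ℕ) × ℕ => y.1.1.1 :=
    CB.p_fst (CB.p_fst (CB.p_fst CB.p_id))
  have e2 : Primrec fun y : ((Cd2 × ℕ) × ℕ) × ℕ => y.1.1.2 :=
    CB.p_snd (CB.p_fst (CB.p_fst CB.p_id))
  have e3 : Primrec fun y : ((Cd2 × ℕ) × ℕ) × ℕ => y.1.2 := CB.p_snd (CB.p_fst CB.p_id)
  have e4 : Primrec fun y : ((Cd2 × ℕ) × ℕ) × ℕ => y.2 := CB.p_snd CB.p_id
  exact CB.pp_and (CB.pp_eq (p_piN e1 e3) e2) (CB.pp_and (CB.pp_eq (p_piN e1 e4) e2)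
    (pp_AdN (CB.p_fst e1) e3 e4))

theorem pp_TyN (hc : Primrec c) (hv : Primrec v) : PrimrecPred fun y => TyN (c y) (v y) :=
  c12_TyN.comp (CB.p_pair hc hv)

theorem p_ty (hc : Primrec c) (hv : Primrec v) :
    Primrec fun y => decide (TyN (c y) (v y)) :=
  (pp_TyN hc hv).decide

theorem c12_OrD {D : β → ℕ → Prop} {d : β → Cd} (hd : Primrec d)
    (hD : PrimrecPred fun y : β × ℕ => D y.1 y.2)
    (hi : Primrec i) (hj : Primrec j) : PrimrecPred fun y => OrD (d y) (D y) (i y) (j y) := by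
  unfold OrD
  refine CB.pp_all (CB.p_pow (Primrec.const 2) (p_cM hd)) ?_
  have a1 : Primrec fun y : β × ℕ => y.1 := Primrec.fst
  have a2 : Primrec fun y : β × ℕ => y.2 := Primrec.snd
  refine CB.pp_imp (CB.pp_eq (CB.p_dg (Primrec.const 1) a2 (hi.comp a1)) (Primrec.const 1)) ?_
  refine CB.pp_imp ?_
    (CB.pp_eq (CB.p_dg (Primrec.const 1) a2 (hj.comp a1)) (Primrec.const 1))
  refine CB.pp_all (p_cM (hd.comp a1)) ?_
  have b1 : Primrec fun y : (β × ℕ) × ℕ => y.1.1 := CB.p_fst (CB.p_fst CB.p_id)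
  refine CB.pp_all (p_cK (hd.comp b1)) ?_
  have c1 : Primrec fun y : ((β × ℕ) × ℕ) × ℕ => y.1.1.1 := CB.p_fst (CB.p_fst (CB.p_fst CB.p_id))
  have c2 : Primrec fun y : ((β × ℕ) × ℕ) × ℕ => y.1.1.2 := CB.p_snd (CB.p_fst (CB.p_fst CB.p_id))
  have c3 : Primrec fun y : ((β × ℕ) × ℕ) × ℕ => y.1.2 := CB.p_snd (CB.p_fst CB.p_id)
  have c4 : Primrec fun y : ((β × ℕ) × ℕ) × ℕ => y.2 := CB.p_snd CB.p_id
  refine CB.pp_imp (hD.comp (CB.p_pair c1 c4)) ?_
  refine CB.pp_imp (CB.pp_eq (CB.p_dg (Primrec.const 1) c2 c3) (Primrec.const 1)) ?_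
  exact CB.pp_eq (CB.p_dg (Primrec.const 1) c2 (p_rmN (hd.comp c1) c3 c4)) (Primrec.const 1)

theorem pp_PsN (hc : Primrec c) (hv : Primrec v) (hi : Primrec i) (hj : Primrec j) :
    PrimrecPred fun y => PsN (c y) (v y) (i y) (j y) := by
  unfold PsN
  refine c12_OrD (D := fun y a => AdG (c y) (v y) (piN (c y) a)) (CB.p_fst hc) ?_ hi hj
  exact pp_AdG (hc.comp Primrec.fst) (hv.comp Primrec.fst)
    (p_piN (hc.comp Primrec.fst) Primrec.snd)

theorem pp_ClN (hc : Primrec c) (hv : Primrec v) (hi : Primrec i) (hj : Primrec j) :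
    PrimrecPred fun y => ClN (c y) (v y) (i y) (j y) := by
  unfold ClN
  refine c12_OrD (D := fun y a => piN (c y) a = v y) (CB.p_fst hc) ?_ hi hj
  exact CB.pp_eq (p_piN (hc.comp Primrec.fst) Primrec.snd) (hv.comp Primrec.fst)

theorem p_FN2 (hc : Primrec c) (ht : Primrec t) (hi : Primrec i) :
    Primrec fun y => FN2 (c y) (t y) (i y) := by
  unfold FN2
  exact CB.p_dg (CB.p_snd (CB.p_fst (CB.p_fst hc))) (CB.p_fst ht) hi

theorem p_tN2 (hc : Primrec c) (ht : Primrec t) (hi : Primrec i) (hv : Primrec v) :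
    Primrec fun y => tN2 (c y) (t y) (i y) (v y) := by
  unfold tN2
  exact CB.p_dg (CB.p_fst (CB.p_snd hc)) (CB.p_snd ht) (CB.p_add (CB.p_mul hi (p_kG hc)) hv)

theorem p_KP {q : β → Bool} (hq : Primrec q) (hk : Primrec k) :
    Primrec fun y => KP (q y) (k y) := by
  unfold KP
  refine CB.p_pair hk (Primrec.ite (CB.pp_eq hq (Primrec.const true)) ?_ (Primrec.const []))
  refine Primrec.list_flatMap (f := fun y => List.range (k y)) (Primrec.list_range.comp hk) ?_
  show Primrec fun y : β × ℕ => (List.range (k y.1)).map fun w => cmW y.2 w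
  refine Primrec.list_map (f := fun y : β × ℕ => List.range (k y.1))
    (Primrec.list_range.comp (hk.comp Primrec.fst)) ?_
  exact c03_cmW (β := (β × ℕ) × ℕ) (g := fun y => y.1.2) (h := fun y => y.2)
    (Primrec.snd.comp Primrec.fst) Primrec.snd

theorem valN2_p : PrimrecPred ValN2 := by
  unfold ValN2 ActV
  (repeat' (with_reducible first | assumption | exact CB.p_id | exact Primrec.const _ | exact CB.pp_const _ | apply p_piN | apply p_kG | apply pp_AdG | apply pp_StG | apply pp_ClN | apply p_FN2 | apply p_tN2 | apply p_rmN | apply p_riN | apply pp_AdN | apply pp_StN | apply p_cK | apply p_cM | apply CB.p_dg | apply CB.p_fst | apply CB.p_snd | apply CB.p_pair | apply CB.p_add | apply CB.p_sub | apply CB.p_mul | apply CB.p_mod | apply CB.p_pow | apply CB.pp_all | apply CB.pp_ex | apply CB.pp_and | apply CB.pp_or | apply CB.pp_not | apply CB.pp_iff | apply CB.pp_imp | apply CB.pp_eq | apply CB.pp_le))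

theorem matN2_p : PrimrecPred fun y : (Cd2 × Cd2) × Mt2 => MatN2 y.1.1 y.1.2 y.2 := by
  unfold MatN2
  (repeat' (with_reducible first | assumption | exact CB.p_id | exact Primrec.const _ | exact CB.pp_const _ | apply p_piN | apply p_kG | apply pp_AdG | apply pp_StG | apply pp_ClN | apply p_FN2 | apply p_tN2 | apply p_rmN | apply p_riN | apply pp_AdN | apply pp_StN | apply p_cK | apply p_cM | apply CB.p_dg | apply CB.p_fst | apply CB.p_snd | apply CB.p_pair | apply CB.p_add | apply CB.p_sub | apply CB.p_mul | apply CB.p_mod | apply CB.p_pow | apply CB.pp_all | apply CB.pp_ex | apply CB.pp_and | apply CB.pp_or | apply CB.pp_not | apply CB.pp_iff | apply CB.pp_imp | apply CB.pp_eq))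

end RaagGP
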