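import Pool.Agent.Lib.MP_32d917_al_gp.H05

/-!
# H06: transport between the positions of a block (50 min)

`Eb F τ v c g g'`: `g ∈ PB {v}`, `g' ∈ PB' {τ c v}`, and `F (rm ρ d g) = rm ρ' (F d) g'` for all `d` with the position of `c`.

`chain`: for all `c` and `h ∈ PB {v}` there are `g`, `g'` with `Eb c g g'` and `Ps v (rm ρ c h) (rm ρ c g)`. Closure induction on `h` (for all `c`), letters `a` over `v`.
Generator: `Nm2.pos`. `h = 1`: `g = 1`, `g' = 1`. `h = h1 * h2`: `(g1, g1')` for `c`, `h1`; `c1 = rm ρ c g1` has the position of `rm ρ c h1`; `(g2, g2')` for `c1`, `h2`; take `g1 * g2`, `g1' * g2'`: `τ c1 v = τ c v` (`tau_gg`); `Ps (rm (rm c h1) h2) (rm c1 h2)` (`ps_gg`) and `Ps (rm c1 h2) (rm c1 g2)`;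
for `d` with the position of `c`: `rm d g1` has the position of `c1` (`ps_gg`), so `F (rm (rm d g1) g2) = rm ρ' (F (rm d g1)) g2' = rm ρ' (rm ρ' (F d) g1') g2'`.
`h = h1⁻¹`: let `c1 = rm ρ c h1⁻¹`, `c = rm ρ c1 h1`; `(g1, g1')` for `c1`, `h1`: `c2 = rm ρ c1 g1` has the position of `c`. Take `g1⁻¹`, `g1'⁻¹`: `rm ρ c g1⁻¹` has the position of `rm ρ c2 g1⁻¹ = c1`; for `d` with the position of `c`, hence of `c2`: `e = rm ρ d g1⁻¹` has the position of `c1`,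
`F d = F (rm ρ e g1) = rm ρ' (F e) g1'`, so `F e = rm ρ' (F d) g1'⁻¹`; `τ c1 v = τ c v` by `tau_gg`.

`choice`: two equivalence relations on `C`: `Ps v`, and `Bk v c d`: there is `x ∈ PB (st v)` with `rm ρ c x = d`. Let `b0 c` be a representative of the class of `c` for `Bk` (`Quotient.out`, so `Bk c d` implies `b0 c = b0 d`), and `r c` a representative for `Ps`. For every `c`: `Bk (b0 c) c`, `rm ρ (b0 c) x = c`, `x ∈ PB (st v)`;
by `ps_st` there is `h ∈ PB {v}` with `Ps (rm ρ (b0 c) h) c`, and by `chain` (at the point `b0 c`) `G c`, `G' c` with `Eb (b0 c) (G c) (G' c)` and `Ps (rm ρ (b0 c) (G c)) c`. Put `g c = G (r c)`, `g' c = G' (r c)`, `b c = b0 c`; `b0 (r c) = b0 c` because `Ps` implies `Bk` (`lk_st`).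
-/

set_option autoImplicit false

namespace RaagGP

open RaagIso

variable {V W V' W' C C' : Type} {Γ : SimpleGraph V} {Λ : SimpleGraph W} {π : W → V}
  {Γ' : SimpleGraph V'} {Λ' : SimpleGraph W'} {π' : W' → V'} {ρ : RA Λ →* Equiv.Perm C}
  {ρ' : RA Λ' →* Equiv.Perm C'} {F : C ≃ C'} {τ : C → V ≃ V'}

/-- the element `g` acts on the points with the position of `c` as `g'` -/
def Eb (Γ : SimpleGraph V) (π : W → V) (π' : W' → V') (ρ : RA Λ →* Equiv.Perm C)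
    (ρ' : RA Λ' →* Equiv.Perm C') (F : C ≃ C') (τ : C → V ≃ V') (v : V) (c : C) (g : RA Λ)
    (g' : RA Λ') : Prop :=
  g ∈ PB Λ π {v} ∧ g' ∈ PB Λ' π' {τ c v} ∧
    ∀ d, Ps Γ π ρ v c d → F (rm ρ d g) = rm ρ' (F d) g'

theorem chain (hB : BU Γ Λ π) (h : Nm2 Γ Γ' π π' ρ ρ' F τ) {v : V} {x : RA Λ}
    (hx : x ∈ PB Λ π {v}) (c : C) : ∃ g g', Eb Γ π π' ρ ρ' F τ v c g g' ∧
      Ps Γ π ρ v (rm ρ c x) (rm ρ c g) := by
  refine h05_ind (P := fun x => ∀ c, ∃ g g', Eb Γ π π' ρ ρ' F τ v c g g' ∧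
      Ps Γ π ρ v (rm ρ c x) (rm ρ c g)) ?_ ?_ ?_ ?_ hx c
  · intro a ha c
    rw [Set.mem_singleton_iff] at ha
    subst ha
    obtain ⟨g, hg, g', hg', h1, h2⟩ := h.pos c a
    exact ⟨g, g', ⟨hg, hg', h2⟩, h1⟩
  · intro c
    refine ⟨1, 1, ⟨one_mem _, one_mem _, fun d _ => ?_⟩, ps_refl _ _⟩
    rw [rm_one, rm_one]
  · intro x y _ hyv hx hy c
    obtain ⟨g1, g1', ⟨hg1, hg1', he1⟩, hp1⟩ := hx c
    obtain ⟨g2, g2', ⟨hg2, hg2', he2⟩, hp2⟩ := hy (rm ρ c g1)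
    rw [tau_gg h.tau (Or.inl rfl) hg1 c] at hg2'
    refine ⟨g1 * g2, g1' * g2', ⟨mul_mem hg1 hg2, mul_mem hg1' hg2', fun d hd => ?_⟩, ?_⟩
    · rw [rm_mul, rm_mul, he2 _ (ps_gg hB hg1 hd), he1 d hd]
    · rw [rm_mul, rm_mul]
      exact ps_trans (ps_gg hB hyv hp1) hp2
  · intro x hxv hx c
    obtain ⟨g1, g1', ⟨hg1, hg1', he1⟩, hp1⟩ := hx (rm ρ c x⁻¹)
    rw [tau_gg h.tau (Or.inl rfl) (inv_mem hxv) c] at hg1'
    rw [rm_inv_l] at hp1
    -- `hp1 : Ps c (rm (rm c x⁻¹) g1)`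
    have h2 : ∀ d, Ps Γ π ρ v c d → Ps Γ π ρ v (rm ρ c x⁻¹) (rm ρ d g1⁻¹) := by
      intro d hd
      have h3 := ps_gg hB (inv_mem hg1) (ps_trans (ps_symm hp1) hd)
      rwa [rm_inv_r] at h3
    refine ⟨g1⁻¹, g1'⁻¹, ⟨inv_mem hg1, inv_mem hg1', fun d hd => ?_⟩, h2 c (ps_refl _ _)⟩
    have h3 := he1 _ (h2 d hd)
    rw [rm_inv_l] at h3
    rw [h3, rm_inv_r]

/-- the points of a block -/
def h06_bk (Γ : SimpleGraph V) (π : W → V) (ρ : RA Λ →* Equiv.Perm C) (v : V) : Setoid C where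
  r c d := ∃ x ∈ PB Λ π (st Γ v), rm ρ c x = d
  iseqv := by
    refine ⟨fun c => ⟨1, one_mem _, rm_one ρ c⟩, ?_, ?_⟩
    · rintro c _ ⟨x, hx, rfl⟩
      exact ⟨x⁻¹, inv_mem hx, rm_inv_r c x⟩
    · rintro c _ _ ⟨x, hx, rfl⟩ ⟨y, hy, rfl⟩
      exact ⟨x * y, mul_mem hx hy, rm_mul ρ c x y⟩

/-- the points of a position -/
def h06_ps (Γ : SimpleGraph V) (π : W → V) (ρ : RA Λ →* Equiv.Perm C) (v : V) : Setoid C where
  r c d := Ps Γ π ρ v c d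
  iseqv := ⟨fun c => ps_refl v c, fun h => ps_symm h, fun h h' => ps_trans h h'⟩

theorem choice (hB : BU Γ Λ π) (h : Nm2 Γ Γ' π π' ρ ρ' F τ) (v : V) :
    ∃ (b : C → C) (g : C → RA Λ) (g' : C → RA Λ'),
      (∀ c x, x ∈ PB Λ π (st Γ v) → b (rm ρ c x) = b c) ∧
      (∀ c d, Ps Γ π ρ v c d → g c = g d ∧ g' c = g' d) ∧
      ∀ c, Eb Γ π π' ρ ρ' F τ v (b c) (g c) (g' c) ∧ Ps Γ π ρ v (rm ρ (b c) (g c)) c := by
  set b0 : C → C := fun c => Quotient.out (Quotient.mk (h06_bk Γ π ρ v) c) with hb0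
  set r : C → C := fun c => Quotient.out (Quotient.mk (h06_ps Γ π ρ v) c) with hr
  have hb1 : ∀ c, ∃ x ∈ PB Λ π (st Γ v), rm ρ (b0 c) x = c := fun c =>
    Quotient.mk_out (s := h06_bk Γ π ρ v) c
  have hb2 : ∀ c x, x ∈ PB Λ π (st Γ v) → b0 (rm ρ c x) = b0 c := by
    intro c x hx
    have : (Quotient.mk (h06_bk Γ π ρ v) c) = Quotient.mk (h06_bk Γ π ρ v) (rm ρ c x) :=
      Quotient.sound ⟨x, hx, rfl⟩
    simp only [hb0, this]
  have hr1 : ∀ c, Ps Γ π ρ v (r c) c := fun c => Quotient.mk_out (s := h06_ps Γ π ρ v) c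
  have hr2 : ∀ c d, Ps Γ π ρ v c d → r c = r d := by
    intro c d hcd
    have : (Quotient.mk (h06_ps Γ π ρ v) c) = Quotient.mk (h06_ps Γ π ρ v) d :=
      Quotient.sound hcd
    simp only [hr, this]
  have key : ∀ c, ∃ g g', Eb Γ π π' ρ ρ' F τ v (b0 c) g g' ∧
      Ps Γ π ρ v (rm ρ (b0 c) g) c := by
    intro c
    obtain ⟨x, hx, hxc⟩ := hb1 c
    obtain ⟨k, hk, hk'⟩ := ps_st (C := C) (ρ := ρ) hB hx
    obtain ⟨g, g', he, hp⟩ := chain hB h hk (b0 c)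
    refine ⟨g, g', he, ps_trans (ps_symm hp) ?_⟩
    have := hk' (b0 c)
    rwa [hxc] at this
  choose G G' hG using key
  refine ⟨b0, fun c => G (r c), fun c => G' (r c), hb2, fun c d hcd => ?_, fun c => ?_⟩
  · simp only [hr2 c d hcd, and_self]
  · have h1 : b0 (r c) = b0 c := by
      obtain ⟨y, hy, hyc⟩ := hr1 c
      have := hb2 (r c) y (lk_st v hy)
      rw [hyc] at this
      exact this.symm
    have h2 := hG (r c)
    rw [h1] at h2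
    exact ⟨h2.1, ps_trans h2.2 (hr1 c)⟩

end RaagGP
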