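import Pool.Agent.Lib.MP_32d917_al_gp.C12
import Pool.Agent.Lib.MP_32d917_al_adm.WC08

/-!
# C13: primitive recursiveness of the certificates (60 min)

`FullL`, `PosC`, `InP`, `OrbC` are combinations of bounded quantifiers (`CB.pp_all`, `CB.pp_ex`, `CB.pp_all_mem`, `CB.pp_ex_mem`) over primitive recursive equations: `p_runN`, `p_rmN`, `pres2_getD_p`, `pres2_sbw_p`, list length `Primrec.list_length`. `mvs` and `fM` are primitive recursive: see `MP_32d917_al_adm/WC07.lean`, `WC08.lean` for the lemmas.
-/

set_option autoImplicit false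
set_option synthInstance.maxSize 2000

namespace RaagGP

open LatIso RaagIso
open AdmIso (Wd mvs fM cmW)

variable {β : Type} [Primcodable β] {c c' : β → Cd2} {t : β → Mt2} {v i j k : β → ℕ}
  {b b' : β → List Wd}

theorem c13_len {γ : Type} [Primcodable γ] {f : β → List γ} (hf : Primrec f) :
    Primrec fun y => (f y).length := Primrec.list_length.comp hf

theorem c13_mvs {f : β → ℕ} (hf : Primrec f) : Primrec fun y => mvs (f y) :=
  AdmIso.WC.mvs_p.comp hf

theorem c13_fM {m : β → AdmIso.Mv} {x : β → ℕ × Bool} (hm : Primrec m)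
    (hx : Primrec x) : Primrec fun y => fM (m y) (x y) := AdmIso.WC.WC07_fM hm hx

theorem c13_sbw {F : β → List Wd} {w : β → Wd} (hF : Primrec F) (hw : Primrec w) :
    Primrec fun y => sbw (F y) (w y) := pres2_sbw_p hF hw

theorem c13_getD {F : β → List Wd} {m : β → ℕ} (hF : Primrec F) (hm : Primrec m) :
    Primrec fun y => (F y).getD (m y) [] := pres2_getD_p hF hm

theorem c13_FullL : PrimrecPred fun y : (Cd2 × ℕ) × List Wd => FullL y.1.1 y.1.2 y.2 := by
  unfold FullL
  (repeat' (with_reducible first | assumption | exact CB.p_id | exact Primrec.const _ | exact CB.pp_const _ | apply c13_sbw | apply c13_fM | apply c13_mvs | apply c13_len | apply c13_getD | apply p_piN | apply p_kG | apply pp_AdG | apply pp_StG | apply pp_PsN | apply pp_ClN | apply p_FN2 | apply p_tN2 | apply p_runN | apply p_rmN | apply p_riN | apply pp_AdN | apply pp_StN | apply p_cK | apply p_cM | apply CB.p_dg | apply CB.p_fst | apply CB.p_snd | apply CB.p_pair | apply CB.p_add | apply CB.pp_all_mem | apply CB.pp_ex_mem | apply CB.pp_mem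 | apply CB.pp_all | apply CB.pp_ex | apply CB.pp_and | apply CB.pp_or | apply CB.pp_not | apply CB.pp_iff | apply CB.pp_imp | apply CB.pp_eq | apply CB.pp_lt))

theorem c13_InP : PrimrecPred fun y : ((Cd2 × ℕ) × ℕ) × Wd => InP y.1.1.1 y.1.1.2 y.1.2 y.2 := by
  unfold InP
  (repeat' (with_reducible first | assumption | exact CB.p_id | exact Primrec.const _ | exact CB.pp_const _ | apply c13_sbw | apply c13_fM | apply c13_mvs | apply c13_len | apply c13_getD | apply p_piN | apply p_kG | apply pp_AdG | apply pp_StG | apply pp_PsN | apply pp_ClN | apply p_FN2 | apply p_tN2 | apply p_runN | apply p_rmN | apply p_riN | apply pp_AdN | apply pp_StN | apply p_cK | apply p_cM | apply CB.p_dg | apply CB.p_fst | apply CB.p_snd | apply CB.p_pair | apply CB.p_add | apply CB.pp_all_mem | apply CB.pp_ex_mem | apply CB.pp_mem | apply CB.pp_all | apply CB.pp_ex | apply CB.pp_and | apply CB.pp_or | apply CB.pp_not | apply CB.pp_iff | apply CB.pp_imp | apply CB.pp_eq | apply CB.pp_lt))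

theorem pp_FullL {L : β → List Wd} (hc : Primrec c) (hv : Primrec v) (hL : Primrec L) :
    PrimrecPred fun y => FullL (c y) (v y) (L y) :=
  c13_FullL.comp (CB.p_pair (CB.p_pair hc hv) hL)

theorem pp_InP {w : β → Wd} (hc : Primrec c) (hv : Primrec v) (hi : Primrec i)
    (hw : Primrec w) : PrimrecPred fun y => InP (c y) (v y) (i y) (w y) :=
  c13_InP.comp (CB.p_pair (CB.p_pair (CB.p_pair hc hv) hi) hw)

theorem posC_p : PrimrecPred
    fun y : ((Cd2 × Cd2) × Mt2) × ((ℕ × ℕ) × (List Wd × List Wd)) =>
      PosC y.1.1.1 y.1.1.2 y.1.2 y.2 := by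
  unfold PosC
  (repeat' (with_reducible first | assumption | exact CB.p_id | exact Primrec.const _ | exact CB.pp_const _ | apply pp_FullL | apply pp_InP | apply c13_sbw | apply c13_fM | apply c13_mvs | apply c13_len | apply c13_getD | apply p_piN | apply p_kG | apply pp_AdG | apply pp_StG | apply pp_PsN | apply pp_ClN | apply p_FN2 | apply p_tN2 | apply p_runN | apply p_rmN | apply p_riN | apply pp_AdN | apply pp_StN | apply p_cK | apply p_cM | apply CB.p_dg | apply CB.p_fst | apply CB.p_snd | apply CB.p_pair | apply CB.p_add | apply CB.pp_all_mem | apply CB.pp_ex_mem | apply CB.pp_mem | apply CB.pp_all | apply CB.pp_ex | apply CB.pp_and | apply CB.pp_or | apply CB.pp_not | apply CB.pp_iff | apply CB.pp_imp | apply CB.pp_eq | apply CB.pp_lt))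

theorem c13_OrbC : PrimrecPred
    fun y : ((Cd2 × Cd2) × Mt2) × ((ℕ × ℕ) × (List Wd × List Wd)) × List (List Wd) =>
      OrbC y.1.1.1 y.1.1.2 y.1.2 y.2.1.1.1 y.2.1.1.2 y.2.1.2.1 y.2.1.2.2 y.2.2 := by
  unfold OrbC
  (repeat' (with_reducible first | assumption | exact CB.p_id | exact Primrec.const _ | exact CB.pp_const _ | apply pp_FullL | apply pp_InP | apply c13_sbw | apply c13_fM | apply c13_mvs | apply c13_len | apply c13_getD | apply p_piN | apply p_kG | apply pp_AdG | apply pp_StG | apply pp_PsN | apply pp_ClN | apply p_FN2 | apply p_tN2 | apply p_runN | apply p_rmN | apply p_riN | apply pp_AdN | apply pp_StN | apply p_cK | apply p_cM | apply CB.p_dg | apply CB.p_fst | apply CB.p_snd | apply CB.p_pair | apply CB.p_add | apply CB.pp_all_mem | apply CB.pp_ex_mem | apply CB.pp_mem | apply CB.pp_all | apply CB.pp_ex | apply CB.pp_and | apply CB.pp_or | apply CB.pp_not | apply CB.pp_iff | apply CB.pp_imp | apply CB.pp_eq | apply CB.pp_lt))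

theorem pp_OrbC {L : β → List (List Wd)} (hc : Primrec c) (hc' : Primrec c') (ht : Primrec t)
    (hi : Primrec i) (hv : Primrec v) (hb : Primrec b) (hb' : Primrec b') (hL : Primrec L) :
    PrimrecPred fun y => OrbC (c y) (c' y) (t y) (i y) (v y) (b y) (b' y) (L y) :=
  c13_OrbC.comp (CB.p_pair (CB.p_pair (CB.p_pair hc hc') ht)
    (CB.p_pair (CB.p_pair (CB.p_pair hi hv) (CB.p_pair hb hb')) hL))

end RaagGP
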