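import Pool.Agent.Lib.MP_32d917_al_gp.Defs

/-!
# G01: basic facts on the standard subgroups of a blow-up (40 min)

Everything follows from `W01`-`W03` (`MP_32d917_al_raag`): `PB Λ π D = PP Λ (π ⁻¹' D)`, so `gen_mem`, `pp_mono`, `pp_inf`, `mem_pp`, `pp_comm`, `ret`, ... apply.

`adj_lift`, `adj_pi`: `BU.adj` (`Γ.Adj` is irreflexive). `lk_sub`: a neighbour `b` of `a` in `Λ` has `π b = π a` or `Γ.Adj (π a) (π b)`.
`gg_lk_comm`: `pp_comm` twice: letters over `v` and letters over neighbours of `v` are adjacent in `Λ` (`BU.adj`).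
`st_dec2`: `p ∈ PB (st v)`: `Subgroup.closure_induction`: letters over `st Γ v` are in `PB {v}` or in `PB (lk Γ v)`; the two subgroups commute, so products and inverses of elements `g * l` have this form.
`gg_inter`: `pp_inf` and `mem_pp`: the support is empty (`sup_eq_empty`).
`st_uniq`: `g * l = g' * l'` gives `g'⁻¹ * g = l' * l⁻¹ ∈ PB {v} ⊓ PB (lk v)`, trivial since `v ∉ lk Γ v`.
`st_conj_gg`: `p = g0 * l0`, so `p * g * p⁻¹ = g0 * g * g0⁻¹`. `st_conj_lk`: in the same way `l0 * l * l0⁻¹`.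
`gg_st`, `lk_st`: `pp_mono`. `gg_mem_st`: if `g ∈ PB {v}`, `g ≠ 1`, and `g ∈ PB D` then `v ∈ D` (`mem_pp`, the support of `g` is not empty).
`gen_ne`: `gen a ≠ 1` and more generally `gen a ^ n ≠ 1` (`e01_ne_one` in `E01`).
`ee_refl`, `ee_symm`, `ee_trans`, `ee_cme`, `cme_symm`, `cme_ee` (`Cme` respects `Ee` on both sides) : multiply elements of the subgroups, subst the equality of the second components
(`rcases p, q` first). `ee_mul`, `cme_mul`: left translation (`(g * x)⁻¹ * (g * y) = x⁻¹ * y`).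
`ee_right`: `(x * p, v)` and `(x, v)` are equivalent for `p ∈ PB (st v)`.
-/

set_option autoImplicit false

namespace RaagGP

open RaagIso

variable {V W : Type} {Γ : SimpleGraph V} {Λ : SimpleGraph W} {π : W → V}

theorem adj_lift (hB : BU Γ Λ π) {a b : W} (h : Γ.Adj (π a) (π b)) : Λ.Adj a b :=
  (hB.adj a b (Γ.ne_of_adj h)).2 h

theorem adj_pi (hB : BU Γ Λ π) {a b : W} (h : Λ.Adj a b) : π a = π b ∨ Γ.Adj (π a) (π b) := by
  by_cases h1 : π a = π b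
  · exact Or.inl h1
  · exact Or.inr ((hB.adj a b h1).1 h)

theorem lk_sub (hB : BU Γ Λ π) (a : W) : lk Λ a ⊆ π ⁻¹' (st Γ (π a)) := by
  intro b hb
  rcases adj_pi hB hb with h | h
  · exact Or.inl h.symm
  · exact Or.inr h

theorem sub_lk (hB : BU Γ Λ π) (a : W) : π ⁻¹' (lk Γ (π a)) ⊆ lk Λ a := by
  intro b hb
  exact adj_lift hB hb

theorem st_sub (hB : BU Γ Λ π) (a : W) : st Λ a ⊆ π ⁻¹' (st Γ (π a)) := by
  intro b hb
  rcases hb with h | h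
  · exact Or.inl (by rw [h])
  · exact lk_sub hB a h

theorem pb_mono {D E : Set V} (h : D ⊆ E) : PB Λ π D ≤ PB Λ π E :=
  pp_mono (Set.preimage_mono h)

theorem pb_gen {a : W} {D : Set V} (h : π a ∈ D) : (gen a : RA Λ) ∈ PB Λ π D :=
  gen_mem h

theorem gg_st (v : V) : PB Λ π {v} ≤ PB Λ π (st Γ v) :=
  pb_mono (by rintro w rfl; exact Or.inl rfl)

theorem lk_st (v : V) : PB Λ π (lk Γ v) ≤ PB Λ π (st Γ v) :=
  pb_mono (fun _ hw => Or.inr hw)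

theorem g01_comm {D E : Set V} (hDE : ∀ a b, π a ∈ D → π b ∈ E → Λ.Adj a b) {g h : RA Λ}
    (hg : g ∈ PB Λ π D) (hh : h ∈ PB Λ π E) : g * h = h * g := by
  refine pp_comm (fun b hb => ?_) hh
  refine (pp_comm (fun a ha => ?_) hg).symm
  exact (gen_comm (hDE a b ha hb)).symm

/-- elements of the vertex groups of adjacent vertices commute -/
theorem gg_comm (hB : BU Γ Λ π) {v w : V} (hvw : Γ.Adj v w) {g h : RA Λ} (hg : g ∈ PB Λ π {v})
    (hh : h ∈ PB Λ π {w}) : g * h = h * g := by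
  refine g01_comm (fun a b ha hb => adj_lift hB ?_) hg hh
  have ha' : π a = v := ha
  have hb' : π b = w := hb
  rw [ha', hb']
  exact hvw

theorem gg_lk_comm (hB : BU Γ Λ π) {v : V} {g l : RA Λ} (hg : g ∈ PB Λ π {v})
    (hl : l ∈ PB Λ π (lk Γ v)) : g * l = l * g := by
  refine g01_comm (fun a b ha hb => adj_lift hB ?_) hg hl
  have ha' : π a = v := ha
  rw [ha']
  exact hb

theorem gg_ne {v : V} {D : Set V} {g : RA Λ} (hg : g ∈ PB Λ π {v}) (h1 : g ≠ 1)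
    (hD : g ∈ PB Λ π D) : v ∈ D := by
  have h2 : (sup g).Nonempty := by
    rw [Set.nonempty_iff_ne_empty]
    intro h
    exact h1 (sup_eq_empty h)
  obtain ⟨s, hs⟩ := h2
  have h3 : π s = v := (mem_pp.1 hg) hs
  have h4 : π s ∈ D := (mem_pp.1 hD) hs
  rwa [h3] at h4

theorem gg_inter {v : V} {D : Set V} {g : RA Λ} (hg : g ∈ PB Λ π {v}) (hv : v ∉ D)
    (hD : g ∈ PB Λ π D) : g = 1 := by
  by_contra h
  exact hv (gg_ne hg h hD)

/-- decomposition of the elements of the star subgroup -/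
theorem st_dec2 (hB : BU Γ Λ π) {v : V} {p : RA Λ} (hp : p ∈ PB Λ π (st Γ v)) :
    ∃ g ∈ PB Λ π {v}, ∃ l ∈ PB Λ π (lk Γ v), p = g * l := by
  unfold PB PP at hp
  induction hp using Subgroup.closure_induction with
  | mem y hy =>
    obtain ⟨w, hw, rfl⟩ := hy
    rcases hw with hw | hw
    · exact ⟨gen w, pb_gen hw, 1, one_mem _, by simp⟩
    · exact ⟨1, one_mem _, gen w, pb_gen hw, by simp⟩
  | one => exact ⟨1, one_mem _, 1, one_mem _, by simp⟩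
  | mul y z _ _ hy hz =>
    obtain ⟨g, hg, l, hl, rfl⟩ := hy
    obtain ⟨g', hg', l', hl', rfl⟩ := hz
    refine ⟨g * g', mul_mem hg hg', l * l', mul_mem hl hl', ?_⟩
    have h1 := gg_lk_comm hB hg' hl
    calc g * l * (g' * l') = g * (l * g') * l' := by group
      _ = g * (g' * l) * l' := by rw [h1]
      _ = g * g' * (l * l') := by group
  | inv y _ hy =>
    obtain ⟨g, hg, l, hl, rfl⟩ := hy
    refine ⟨g⁻¹, inv_mem hg, l⁻¹, inv_mem hl, ?_⟩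
    rw [mul_inv_rev]
    exact (gg_lk_comm hB (inv_mem hg) (inv_mem hl)).symm

theorem g01_lk (v : V) : v ∉ lk Γ v := fun h => Γ.loopless.irrefl v h

theorem st_uniq {v : V} {g g' l l' : RA Λ} (hg : g ∈ PB Λ π {v})
    (hg' : g' ∈ PB Λ π {v}) (hl : l ∈ PB Λ π (lk Γ v)) (hl' : l' ∈ PB Λ π (lk Γ v))
    (h : g * l = g' * l') : g = g' ∧ l = l' := by
  have h1 : g'⁻¹ * g = l' * l⁻¹ := by
    rw [inv_mul_eq_iff_eq_mul, ← mul_assoc, ← h, mul_inv_cancel_right]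
  have h2 : g'⁻¹ * g ∈ PB Λ π {v} := mul_mem (inv_mem hg') hg
  have h3 : g'⁻¹ * g = 1 := by
    refine gg_inter h2 (g01_lk (Γ := Γ) v) ?_
    rw [h1]
    exact mul_mem hl' (inv_mem hl)
  have h4 : g = g' := (inv_mul_eq_one.1 h3).symm
  refine ⟨h4, ?_⟩
  rw [h4] at h
  exact mul_left_cancel h

theorem st_conj_gg (hB : BU Γ Λ π) {v : V} {p g : RA Λ} (hp : p ∈ PB Λ π (st Γ v))
    (hg : g ∈ PB Λ π {v}) : p * g * p⁻¹ ∈ PB Λ π {v} := by
  obtain ⟨g0, hg0, l0, hl0, rfl⟩ := st_dec2 hB hp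
  have h1 := gg_lk_comm hB hg hl0
  have h2 : g0 * l0 * g * (g0 * l0)⁻¹ = g0 * g * g0⁻¹ := by
    calc g0 * l0 * g * (g0 * l0)⁻¹ = g0 * (l0 * g) * l0⁻¹ * g0⁻¹ := by group
      _ = g0 * (g * l0) * l0⁻¹ * g0⁻¹ := by rw [h1]
      _ = g0 * g * g0⁻¹ := by group
  rw [h2]
  exact mul_mem (mul_mem hg0 hg) (inv_mem hg0)

theorem st_conj_lk (hB : BU Γ Λ π) {v : V} {p l : RA Λ} (hp : p ∈ PB Λ π (st Γ v))
    (hl : l ∈ PB Λ π (lk Γ v)) : p * l * p⁻¹ ∈ PB Λ π (lk Γ v) := by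
  obtain ⟨g0, hg0, l0, hl0, rfl⟩ := st_dec2 hB hp
  have h3 : l0 * l * l0⁻¹ ∈ PB Λ π (lk Γ v) := mul_mem (mul_mem hl0 hl) (inv_mem hl0)
  have h1 := gg_lk_comm hB hg0 h3
  have h2 : g0 * l0 * l * (g0 * l0)⁻¹ = l0 * l * l0⁻¹ := by
    calc g0 * l0 * l * (g0 * l0)⁻¹ = g0 * (l0 * l * l0⁻¹) * g0⁻¹ := by group
      _ = l0 * l * l0⁻¹ := by rw [h1, mul_inv_cancel_right]
  rw [h2]
  exact h3

theorem gen_pow_ne (a : W) {n : ℕ} (hn : n ≠ 0) : (gen a : RA Λ) ^ n ≠ 1 := by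
  intro h
  have h1 : (gen a : RA Λ) ^ (n : ℤ) = gen a ^ (0 : ℤ) := by rw [zpow_zero, zpow_natCast, h]
  have h2 := gen_zpow_inj h1
  exact hn (by exact_mod_cast h2)

theorem ee_refl (p : RA Λ × V) : Ee Γ π p p :=
  ⟨rfl, by rw [inv_mul_cancel]; exact one_mem _⟩

theorem ee_symm {p q : RA Λ × V} (h : Ee Γ π p q) : Ee Γ π q p := by
  obtain ⟨h1, h2⟩ := h
  refine ⟨h1.symm, ?_⟩
  rw [← h1]
  have h3 := inv_mem h2
  rwa [mul_inv_rev, inv_inv] at h3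

theorem ee_trans {p q r : RA Λ × V} (h : Ee Γ π p q) (h' : Ee Γ π q r) : Ee Γ π p r := by
  obtain ⟨h1, h2⟩ := h
  obtain ⟨h3, h4⟩ := h'
  refine ⟨h1.trans h3, ?_⟩
  rw [← h1] at h4
  have h5 := mul_mem h2 h4
  have h6 : p.1⁻¹ * q.1 * (q.1⁻¹ * r.1) = p.1⁻¹ * r.1 := by group
  rwa [h6] at h5

theorem cme_of_ee {p q : RA Λ × V} (h : Ee Γ π p q) : Cme Γ π p q :=
  ⟨Or.inl h.1, q.1, h.2, by rw [inv_mul_cancel]; exact one_mem _⟩

theorem cme_symm {p q : RA Λ × V} (h : Cme Γ π p q) : Cme Γ π q p := by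
  obtain ⟨h1, x, hx, hx'⟩ := h
  exact ⟨h1.imp Eq.symm (fun h => h.symm), x, hx', hx⟩

theorem g01_move {v : V} {x y z : RA Λ} (h : x⁻¹ * y ∈ PB Λ π (st Γ v))
    (h' : x⁻¹ * z ∈ PB Λ π (st Γ v)) : y⁻¹ * z ∈ PB Λ π (st Γ v) := by
  have h5 := mul_mem (inv_mem h) h'
  have h6 : (x⁻¹ * y)⁻¹ * (x⁻¹ * z) = y⁻¹ * z := by group
  rwa [h6] at h5

theorem cme_ee {p q p' q' : RA Λ × V} (h : Cme Γ π p q) (hp : Ee Γ π p p') (hq : Ee Γ π q q') :
    Cme Γ π p' q' := by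
  obtain ⟨h1, x, hx, hx'⟩ := h
  obtain ⟨hp1, hp2⟩ := hp
  obtain ⟨hq1, hq2⟩ := hq
  refine ⟨by rw [← hp1, ← hq1]; exact h1, x, ?_, ?_⟩
  · rw [← hp1]
    exact g01_move hp2 hx
  · rw [← hq1]
    exact g01_move hq2 hx'

theorem ee_mul (g : RA Λ) {p q : RA Λ × V} :
    Ee Γ π (g * p.1, p.2) (g * q.1, q.2) ↔ Ee Γ π p q := by
  unfold Ee
  have h6 : (g * p.1)⁻¹ * (g * q.1) = p.1⁻¹ * q.1 := by group
  show (p.2 = q.2 ∧ (g * p.1)⁻¹ * (g * q.1) ∈ PB Λ π (st Γ p.2)) ↔ _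
  rw [h6]

theorem cme_mul (g : RA Λ) {p q : RA Λ × V} :
    Cme Γ π (g * p.1, p.2) (g * q.1, q.2) ↔ Cme Γ π p q := by
  unfold Cme
  have h6 : ∀ y x : RA Λ, (g * y)⁻¹ * x = y⁻¹ * (g⁻¹ * x) := fun y x => by group
  show ((p.2 = q.2 ∨ Γ.Adj p.2 q.2) ∧ ∃ x, (g * p.1)⁻¹ * x ∈ PB Λ π (st Γ p.2) ∧
    (g * q.1)⁻¹ * x ∈ PB Λ π (st Γ q.2)) ↔ _
  refine and_congr_right fun _ => ?_
  constructor
  · rintro ⟨x, h1, h2⟩
    rw [h6] at h1 h2
    exact ⟨g⁻¹ * x, h1, h2⟩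
  · rintro ⟨x, h1, h2⟩
    refine ⟨g * x, ?_, ?_⟩
    · rw [h6, inv_mul_cancel_left]; exact h1
    · rw [h6, inv_mul_cancel_left]; exact h2

theorem ee_right (x : RA Λ) (v : V) {p : RA Λ} (hp : p ∈ PB Λ π (st Γ v)) :
    Ee Γ π (x * p, v) (x, v) := by
  refine ⟨rfl, ?_⟩
  show (x * p)⁻¹ * x ∈ PB Λ π (st Γ v)
  have h6 : (x * p)⁻¹ * x = p⁻¹ := by group
  rw [h6]
  exact inv_mem hp

/-- at the same point: equal or adjacent -/
theorem cme_self (x : RA Λ) (v w : V) : Cme Γ π (x, v) (x, w) ↔ w ∈ st Γ v := by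
  constructor
  · rintro ⟨h, _⟩
    rcases h with h | h
    · exact Or.inl h.symm
    · exact Or.inr h
  · intro h
    refine ⟨?_, x, ?_, ?_⟩
    · rcases h with h | h
      · exact Or.inl h.symm
      · exact Or.inr h
    · show x⁻¹ * x ∈ _
      rw [inv_mul_cancel]; exact one_mem _
    · show x⁻¹ * x ∈ _
      rw [inv_mul_cancel]; exact one_mem _

end RaagGP
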