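import Pool.Agent.Lib.MP_32d917_al_gp.G01

/-!
# G02: centralisers (60 min); compare `E01` (`MP_32d917_al_raag/E01.lean`)

`conj_red2` (compare `conj_red`): let `z` have no right letter over `st Γ v` and `g ∈ PB {v}`, `g ≠ 1`. `Rp z g`: a right letter `a` of `z` has `π a.1 ∉ st Γ v`, the left letters of `g` are over `v`
(`lf_sup`, `mem_pp`). `Rp (z * g) z⁻¹`: let `e` be a right letter of `z * g` and `ivl e` a left letter of `z⁻¹`, so `Rt z e` (`lf_inv`), `π e.1 ∉ st Γ v`. By `rt_mul'` `Rt g e` (then `π e.1 = v`,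
contradiction), or `sup g ⊆ lk Λ e.1`: take `s ∈ sup g` (`g ≠ 1`, `sup_eq_empty`), `π s = v`, `Λ.Adj e.1 s`, so `v = π e.1` or adjacent (`adj_pi`), contradiction. The support: `sup_mul` twice, `sup_inv`.

`conj_gg`: `x * g = h * x`, `g ∈ PB {v}`, `h ∈ PB {w}`, `g ≠ 1`: by `gate_r (π ⁻¹' st Γ v) x`: `x = y * p`, `p ∈ PB (st v)`, no right letter of `y` over `st Γ v`. `h = x * g * x⁻¹ = y * g' * y⁻¹`,
`g' = p * g * p⁻¹ ∈ PB {v}` (`st_conj_gg`), `g' ≠ 1`. So `sup h = sup g' ∪ sup y` is contained in `π ⁻¹' {w}` (`mem_pp`): `v = w` (an element of `sup g'`), and a right letter of `y` would be over `v ∈ st Γ v`,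
so `y = 1` (`exists_rt`), `x = p`.

`cen2`: `conj_gg` with `h = g`.

`comm_conj2` (compare `comm_conj`): `g ∈ PB {v}`, `h ∈ PB {w}`, both `≠ 1`, `g` commutes with `z * h * z⁻¹`: by `cen2` `z * h * z⁻¹ ∈ PB (st v)`. `gate_lr (π ⁻¹' st Γ v) (π ⁻¹' st Γ w) z`: `z = p * z0 * q`.
`z0 * h' * z0⁻¹ = p⁻¹ * (z * h * z⁻¹) * p ∈ PB (st v)`, `h' = q * h * q⁻¹ ∈ PB {w}`, `≠ 1`. By `conj_red2` its support is `sup h' ∪ sup z0`, contained in `π ⁻¹' st Γ v`. So `w ∈ st Γ v` and `z0` has no left letter: `z0 = 1` (`exists_lf`).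
-/

set_option autoImplicit false

namespace RaagGP

open RaagIso

variable {V W : Type} {Γ : SimpleGraph V} {Λ : SimpleGraph W} {π : W → V}

theorem conj_red2 (hB : BU Γ Λ π) {v : V} {g z : RA Λ} (hg : g ∈ PB Λ π {v}) (h1 : g ≠ 1)
    (hz : ∀ a, Rt z a → π a.1 ∉ st Γ v) :
    Rp z g ∧ Rp (z * g) z⁻¹ ∧ sup (z * g * z⁻¹) = sup g ∪ sup z := by
  have hs : ∀ s ∈ sup g, π s = v := fun s hs => (mem_pp.1 hg) hs
  have h2 : Rp z g := by
    intro a ha hb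
    have h3 : π (ivl a).1 = v := hs _ (lf_sup hb)
    exact hz a ha (Or.inl h3)
  have h3 : Rp (z * g) z⁻¹ := by
    intro a ha hb
    rw [lf_inv, ivl_ivl] at hb
    rcases rt_mul' h2 ha with h4 | ⟨-, h4⟩
    · exact hz a hb (Or.inl (hs _ (rt_sup h4)))
    · have h5 : (sup g).Nonempty := by
        rw [Set.nonempty_iff_ne_empty]
        intro h
        exact h1 (sup_eq_empty h)
      obtain ⟨s, hs'⟩ := h5
      have h6 : Λ.Adj a.1 s := h4 hs'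
      rcases adj_pi hB h6 with h7 | h7
      · exact hz a hb (Or.inl (h7.trans (hs s hs')))
      · rw [hs s hs'] at h7
        exact hz a hb (Or.inr h7.symm)
  refine ⟨h2, h3, ?_⟩
  rw [sup_mul h3, sup_mul h2, sup_inv]
  ext s
  simp only [Set.mem_union]
  tauto

theorem conj_gg (hB : BU Γ Λ π) {v w : V} {g h x : RA Λ} (hg : g ∈ PB Λ π {v}) (h1 : g ≠ 1)
    (hh : h ∈ PB Λ π {w}) (hx : x * g = h * x) : v = w ∧ x ∈ PB Λ π (st Γ v) := by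
  obtain ⟨p, hp, y, hxy, hy, -⟩ := gate_r (π ⁻¹' st Γ v) x
  have hg' : p * g * p⁻¹ ∈ PB Λ π {v} := st_conj_gg hB hp hg
  have hg1 : p * g * p⁻¹ ≠ 1 := by
    intro h2
    apply h1
    rwa [mul_inv_eq_one, mul_eq_left] at h2
  have h2 : h = y * (p * g * p⁻¹) * y⁻¹ := by
    have h3 : h = x * g * x⁻¹ := by rw [hx, mul_inv_cancel_right]
    rw [h3, hxy]
    group
  obtain ⟨-, -, h3⟩ := conj_red2 hB hg' hg1 (z := y) (fun a ha => hy a ha)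
  rw [← h2] at h3
  have h4 : ∀ s ∈ sup h, π s = w := fun s hs => (mem_pp.1 hh) hs
  have h5 : (sup (p * g * p⁻¹)).Nonempty := by
    rw [Set.nonempty_iff_ne_empty]
    intro h
    exact hg1 (sup_eq_empty h)
  obtain ⟨s, hs⟩ := h5
  have h6 : π s = v := (mem_pp.1 hg') hs
  have h7 : π s = w := h4 s (by rw [h3]; exact Or.inl hs)
  have hvw : v = w := h6.symm.trans h7
  refine ⟨hvw, ?_⟩
  have h8 : y = 1 := by
    by_contra h9
    obtain ⟨a, ha⟩ := exists_rt h9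
    have h10 : π a.1 = w := h4 _ (by rw [h3]; exact Or.inr (rt_sup ha))
    exact hy a ha (Or.inl (h10.trans hvw.symm))
  rw [hxy, h8, one_mul]
  exact hp

theorem cen2 (hB : BU Γ Λ π) {v : V} {g x : RA Λ} (hg : g ∈ PB Λ π {v}) (h1 : g ≠ 1)
    (hx : x * g = g * x) : x ∈ PB Λ π (st Γ v) :=
  (conj_gg hB hg h1 hg hx).2

theorem g02_conj_ne {p g : RA Λ} (h1 : g ≠ 1) : p * g * p⁻¹ ≠ 1 := by
  intro h2
  apply h1
  rwa [mul_inv_eq_one, mul_eq_left] at h2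

theorem comm_conj2 (hB : BU Γ Λ π) {v w : V} {g h z : RA Λ} (hg : g ∈ PB Λ π {v}) (hg1 : g ≠ 1)
    (hh : h ∈ PB Λ π {w}) (hh1 : h ≠ 1) (hc : g * (z * h * z⁻¹) = z * h * z⁻¹ * g) :
    w ∈ st Γ v ∧ ∃ p ∈ PB Λ π (st Γ v), ∃ q ∈ PB Λ π (st Γ w), z = p * q := by
  obtain ⟨p, hp, q, hq, z0, hz, hl, hr⟩ := gate_lr (π ⁻¹' st Γ v) (π ⁻¹' st Γ w) z
  have h1 : z * h * z⁻¹ ∈ PB Λ π (st Γ v) := cen2 hB hg hg1 hc.symm
  have hh' : q * h * q⁻¹ ∈ PB Λ π {w} := st_conj_gg hB hq hh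
  have hh1' : q * h * q⁻¹ ≠ 1 := g02_conj_ne hh1
  have h2 : z0 * (q * h * q⁻¹) * z0⁻¹ ∈ PB Λ π (st Γ v) := by
    have h3 : z0 * (q * h * q⁻¹) * z0⁻¹ = p⁻¹ * (z * h * z⁻¹) * p := by
      rw [hz]
      group
    rw [h3]
    exact mul_mem (mul_mem (inv_mem hp) h1) hp
  obtain ⟨-, -, h3⟩ := conj_red2 hB hh' hh1' (z := z0) (fun a ha => hr a ha)
  have h4 := mem_pp.1 h2
  rw [h3] at h4
  have h5 : (sup (q * h * q⁻¹)).Nonempty := by
    rw [Set.nonempty_iff_ne_empty]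
    intro h
    exact hh1' (sup_eq_empty h)
  obtain ⟨s, hs⟩ := h5
  have h6 : π s = w := (mem_pp.1 hh') hs
  have h7 : π s ∈ st Γ v := h4 (Or.inl hs)
  rw [h6] at h7
  refine ⟨h7, p, hp, q, hq, ?_⟩
  have h8 : z0 = 1 := by
    by_contra h9
    obtain ⟨a, ha⟩ := exists_lf h9
    exact hl a ha (h4 (Or.inr (lf_sup ha)))
  rw [hz, h8, mul_one]

/-- an element determines the vertex subgroup containing it -/
theorem ing_uniq (hB : BU Γ Λ π) {p q : RA Λ × V} {x : RA Λ} (hp : InG π p x) (hq : InG π q x) :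
    Ee Γ π p q := by
  obtain ⟨y, hy, hy1, hx⟩ := hp
  obtain ⟨y', hy', hy1', hx'⟩ := hq
  have h1 : q.1⁻¹ * p.1 * y = y' * (q.1⁻¹ * p.1) := by
    have h2 : p.1 * y * p.1⁻¹ = q.1 * y' * q.1⁻¹ := hx.symm.trans hx'
    calc q.1⁻¹ * p.1 * y = q.1⁻¹ * (p.1 * y * p.1⁻¹) * p.1 := by group
      _ = q.1⁻¹ * (q.1 * y' * q.1⁻¹) * p.1 := by rw [h2]
      _ = y' * (q.1⁻¹ * p.1) := by group
  obtain ⟨h2, h3⟩ := conj_gg hB hy hy1 hy' h1
  refine ⟨h2, ?_⟩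
  have h4 := inv_mem h3
  rwa [mul_inv_rev, inv_inv] at h4

/-- equivalent pairs give the same vertex subgroup -/
theorem ing_ee (hB : BU Γ Λ π) {p q : RA Λ × V} {x : RA Λ} (hp : InG π p x) (h : Ee Γ π p q) :
    InG π q x := by
  obtain ⟨y, hy, hy1, hx⟩ := hp
  obtain ⟨h1, h2⟩ := h
  have h3 := st_conj_gg hB (inv_mem h2) hy
  rw [h1] at h3
  refine ⟨_, h3, g02_conj_ne hy1, ?_⟩
  rw [hx]
  group

/-- commuting elements of vertex subgroups -/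
theorem ing_cme (hB : BU Γ Λ π) {p q : RA Λ × V} {x y : RA Λ} (hp : InG π p x) (hq : InG π q y)
    (hc : x * y = y * x) : Cme Γ π p q := by
  obtain ⟨g, hg, hg1, hx⟩ := hp
  obtain ⟨h, hh, hh1, hy⟩ := hq
  have h1 : g * (p.1⁻¹ * q.1 * h * (p.1⁻¹ * q.1)⁻¹) = p.1⁻¹ * q.1 * h * (p.1⁻¹ * q.1)⁻¹ * g := by
    calc g * (p.1⁻¹ * q.1 * h * (p.1⁻¹ * q.1)⁻¹)
        = p.1⁻¹ * ((p.1 * g * p.1⁻¹) * (q.1 * h * q.1⁻¹)) * p.1 := by group
      _ = p.1⁻¹ * ((q.1 * h * q.1⁻¹) * (p.1 * g * p.1⁻¹)) * p.1 := by rw [← hx, ← hy, hc]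
      _ = _ := by group
  obtain ⟨h2, a, ha, b, hb, h3⟩ := comm_conj2 hB hg hg1 hh hh1 h1
  refine ⟨?_, p.1 * a, ?_, ?_⟩
  · rcases h2 with h2 | h2
    · exact Or.inl h2.symm
    · exact Or.inr h2
  · rw [inv_mul_cancel_left]
    exact ha
  · have h4 : q.1⁻¹ * (p.1 * a) = b⁻¹ := by
      calc q.1⁻¹ * (p.1 * a) = (p.1⁻¹ * q.1)⁻¹ * a := by group
        _ = (a * b)⁻¹ * a := by rw [h3]
        _ = b⁻¹ := by group
    rw [h4]
    exact inv_mem hb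

/-- adjacent vertex subgroups commute -/
theorem cme_ing (hB : BU Γ Λ π) {p q : RA Λ × V} {x y : RA Λ} (hp : InG π p x) (hq : InG π q y)
    (h : Cme Γ π p q) : Ee Γ π p q ∨ x * y = y * x := by
  obtain ⟨h1, w, hw, hw'⟩ := h
  rcases h1 with h1 | h1
  · left
    refine ⟨h1, ?_⟩
    rw [← h1] at hw'
    have h5 := mul_mem hw (inv_mem hw')
    have h6 : p.1⁻¹ * w * (q.1⁻¹ * w)⁻¹ = p.1⁻¹ * q.1 := by group
    rwa [h6] at h5
  · right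
    have e1 : Ee Γ π p (w, p.2) := ⟨rfl, hw⟩
    have e2 : Ee Γ π q (w, q.2) := ⟨rfl, hw'⟩
    obtain ⟨g, hg, -, hx⟩ := ing_ee hB hp e1
    obtain ⟨k, hk, -, hy⟩ := ing_ee hB hq e2
    have h2 := gg_comm hB h1 hg hk
    have hx' : x = w * g * w⁻¹ := hx
    have hy' : y = w * k * w⁻¹ := hy
    rw [hx', hy']
    calc w * g * w⁻¹ * (w * k * w⁻¹) = w * (g * k) * w⁻¹ := by group
      _ = w * (k * g) * w⁻¹ := by rw [h2]
      _ = w * k * w⁻¹ * (w * g * w⁻¹) := by group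

end RaagGP
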