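import Pool.Agent.Lib.MP_32d917_al_gp.G02
import Pool.Agent.Lib.MP_32d917_al_raag.T02

/-!
# G03: commuting elements in the vertex groups (45 min)

`exists_cr_in` : every element of a standard subgroup is conjugate in this subgroup to a cyclically reduced element of it. Copy the proof of `exists_cr` (`MP_32d917_al_raag/E03.lean`, 20 lines) with
`w ∈ PP Λ D` and `y ∈ PP Λ D` in the statement which is minimised (the letters split off from `y` have type in `sup y ⊆ D`).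

`ct`: let `y ∈ PB {v}`, `y ≠ 1`, and let `c`, `d ∈ PB {v}` commute with `y`. If `v` is of the first kind of `BU.uni` then the generators over `v` commute, so `PB {v}` is commutative (`pp_comm` twice).
Otherwise `y = w * y' * w⁻¹` with `w, y' ∈ PB {v}`, `Cr y'`, `y' ≠ 1`; `s ∈ sup y'`, `π s = v`. The elements `w⁻¹ * c * w`, `w⁻¹ * d * w` commute with `y'`, so their commutator is in `PP Λ (lk Λ s)` (`cmr_lk`), and
in `PB {v}`: by `pp_inf` in `PP Λ (lk Λ s ∩ π ⁻¹' {v})`, and this set is empty. So the commutator is trivial (`mem_pp`, `sup_eq_empty`), hence `c * d = d * c`.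

`cmr_lk2`: `y ∈ PB {v}`, `y ≠ 1`, `c`, `d` arbitrary elements of `RA Λ` commuting with `y`. By `cen2` they are in `PB (st v)`, `c = g * l`, `d = g' * l'` (`st_dec2`), `g`, `g'` commute with `y` (because `c` and `l` do:
`gg_lk_comm`), so `g * g' = g' * g` by `ct`; `c * d * c⁻¹ * d⁻¹ = l * l' * l⁻¹ * l'⁻¹` (`gg_lk_comm`).
-/

set_option autoImplicit false

namespace RaagGP

open RaagIso

variable {V W : Type} {Γ : SimpleGraph V} {Λ : SimpleGraph W} {π : W → V}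

theorem exists_cr_in {D : Set W} {x : RA Λ} (hx : x ∈ PP Λ D) :
    ∃ w ∈ PP Λ D, ∃ y ∈ PP Λ D, x = w * y * w⁻¹ ∧ Cr y := by
  classical
  have h : ∃ n, ∃ w ∈ PP Λ D, ∃ y ∈ PP Λ D, x = w * y * w⁻¹ ∧ len y = n :=
    ⟨_, 1, one_mem _, x, hx, by group, rfl⟩
  obtain ⟨w, hwD, y, hyD, hxy, hlen⟩ := Nat.find_spec h
  refine ⟨w, hwD, y, hyD, hxy, ?_⟩
  intro a hra hla
  obtain ⟨y1, hy1, hrp⟩ := lf_dec hla
  have haD : a.1 ∈ D := (mem_pp.1 hyD) (rt_sup hra)
  have hra' := hra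
  rw [hy1] at hra'
  rcases rt_mul' hrp hra' with h1 | ⟨h1, _⟩
  · have h2 := len_rt h1
    have h3 : len y = 1 + len y1 := by
      have h4 := rp_len.1 hrp
      rw [e03_len_gl, ← hy1] at h4
      exact h4
    have h4 : len (y1 * (gl a)⁻¹) < Nat.find h := by
      rw [← hlen]
      omega
    have h5 : y1 * (gl a)⁻¹ = gl a * y * (gl a)⁻¹ := by
      rw [hy1, gl_ivl]
      group
    refine Nat.find_min h h4 ⟨w * (gl a)⁻¹, mul_mem hwD (inv_mem (gl_mem haD)),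
      y1 * (gl a)⁻¹, ?_, ?_, rfl⟩
    · rw [h5]
      exact mul_mem (mul_mem (gl_mem haD) hyD) (inv_mem (gl_mem haD))
    · rw [h5, hxy]
      group
  · rw [rt_gl] at h1
    exact ivl_ne a h1.symm

theorem ct (hB : BU Γ Λ π) {v : V} {y c d : RA Λ} (hy : y ∈ PB Λ π {v}) (h1 : y ≠ 1)
    (hc : c ∈ PB Λ π {v}) (hd : d ∈ PB Λ π {v}) (hcy : c * y = y * c) (hdy : d * y = y * d) :
    c * d = d * c := by
  rcases hB.uni v with hu | hu
  · refine pp_comm (fun b hb => ?_) hd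
    refine (pp_comm (fun a ha => ?_) hc).symm
    by_cases hab : a = b
    · rw [hab]
    · exact (gen_comm (hu a b ha hb hab)).symm
  · obtain ⟨w, hw, y', hy', hyw, hcr⟩ := exists_cr_in hy
    have h2 : y' ≠ 1 := by
      intro h3
      apply h1
      rw [hyw, h3]
      group
    have h3 : (sup y').Nonempty := by
      rw [Set.nonempty_iff_ne_empty]
      intro h
      exact h2 (sup_eq_empty h)
    obtain ⟨s, hs⟩ := h3
    have hsv : π s = v := (mem_pp.1 hy') hs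
    have key : ∀ e : RA Λ, e * y = y * e → y' * (w⁻¹ * e * w) = w⁻¹ * e * w * y' := by
      intro e he
      have h4 : y' = w⁻¹ * y * w := by rw [hyw]; group
      rw [h4]
      calc w⁻¹ * y * w * (w⁻¹ * e * w) = w⁻¹ * (y * e) * w := by group
        _ = w⁻¹ * (e * y) * w := by rw [he]
        _ = w⁻¹ * e * w * (w⁻¹ * y * w) := by group
    have h4 := cmr_lk hcr (key c hcy) (key d hdy) hs
    have hc' : w⁻¹ * c * w ∈ PP Λ (π ⁻¹' {v}) := mul_mem (mul_mem (inv_mem hw) hc) hw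
    have hd' : w⁻¹ * d * w ∈ PP Λ (π ⁻¹' {v}) := mul_mem (mul_mem (inv_mem hw) hd) hw
    have h5 := mul_mem (mul_mem (mul_mem hc' hd') (inv_mem hc')) (inv_mem hd')
    have h6 := mem_pp.1 (pp_inf _ _ h4 h5)
    have h7 : w⁻¹ * c * w * (w⁻¹ * d * w) * (w⁻¹ * c * w)⁻¹ * (w⁻¹ * d * w)⁻¹ = 1 := by
      apply sup_eq_empty
      rw [Set.eq_empty_iff_forall_notMem]
      intro t ht
      obtain ⟨ht1, ht2⟩ := h6 ht
      exact hu s t hsv ht2 ht1
    have h8 : c * d * c⁻¹ * d⁻¹ = 1 := by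
      calc c * d * c⁻¹ * d⁻¹
          = w * (w⁻¹ * c * w * (w⁻¹ * d * w) * (w⁻¹ * c * w)⁻¹ * (w⁻¹ * d * w)⁻¹) * w⁻¹ := by group
        _ = 1 := by rw [h7]; group
    have h9 : c * d = c * d * c⁻¹ * d⁻¹ * (d * c) := by group
    rw [h9, h8, one_mul]

theorem cmr_lk2 (hB : BU Γ Λ π) {v : V} {y c d : RA Λ} (hy : y ∈ PB Λ π {v}) (h1 : y ≠ 1)
    (hcy : c * y = y * c) (hdy : d * y = y * d) : c * d * c⁻¹ * d⁻¹ ∈ PB Λ π (lk Γ v) := by
  obtain ⟨g, hg, l, hl, hcgl⟩ := st_dec2 hB (cen2 hB hy h1 hcy)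
  obtain ⟨g', hg', l', hl', hdgl⟩ := st_dec2 hB (cen2 hB hy h1 hdy)
  have key : ∀ g l : RA Λ, g ∈ PB Λ π {v} → l ∈ PB Λ π (lk Γ v) → g * l * y = y * (g * l) →
      g * y = y * g := by
    intro g l hg hl h
    have h2 := gg_lk_comm hB hy hl
    have h3 : g * y * l = y * g * l := by
      calc g * y * l = g * (y * l) := by group
        _ = g * (l * y) := by rw [h2]
        _ = g * l * y := by group
        _ = y * (g * l) := h
        _ = y * g * l := by group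
    exact mul_right_cancel h3
  have h2 := key g l hg hl (by rw [← hcgl]; exact hcy)
  have h3 := key g' l' hg' hl' (by rw [← hdgl]; exact hdy)
  have h4 := ct hB hy h1 hg hg' h2 h3
  have a1 := gg_lk_comm hB hg' hl
  have a2 := gg_lk_comm hB (inv_mem hg) hl'
  have a3 := gg_lk_comm hB (inv_mem hg') (inv_mem hl)
  have e : c * d * c⁻¹ * d⁻¹ = l * l' * l⁻¹ * l'⁻¹ := by
    rw [hcgl, hdgl]
    calc g * l * (g' * l') * (g * l)⁻¹ * (g' * l')⁻¹
        = g * (l * g') * l' * l⁻¹ * g⁻¹ * l'⁻¹ * g'⁻¹ := by group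
      _ = g * (g' * l) * l' * l⁻¹ * g⁻¹ * l'⁻¹ * g'⁻¹ := by rw [a1]
      _ = g * g' * (l * l' * l⁻¹) * (g⁻¹ * l'⁻¹) * g'⁻¹ := by group
      _ = g * g' * (l * l' * l⁻¹) * (l'⁻¹ * g⁻¹) * g'⁻¹ := by
          rw [gg_lk_comm hB (inv_mem hg) (inv_mem hl')]
      _ = (g * g') * (l * l' * l⁻¹ * l'⁻¹) * (g⁻¹ * g'⁻¹) := by group
      _ = (l * l' * l⁻¹ * l'⁻¹) * (g * g') * (g⁻¹ * g'⁻¹) := by
          rw [gg_lk_comm hB (mul_mem hg hg')
            (mul_mem (mul_mem (mul_mem hl hl') (inv_mem hl)) (inv_mem hl'))]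
      _ = (l * l' * l⁻¹ * l'⁻¹) * (g' * g) * (g⁻¹ * g'⁻¹) := by rw [h4]
      _ = l * l' * l⁻¹ * l'⁻¹ := by group
  rw [e]
  exact mul_mem (mul_mem (mul_mem hl hl') (inv_mem hl)) (inv_mem hl')

end RaagGP
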