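import Pool.Agent.Lib.MP_32d917_al_gp.G01
import Pool.Agent.Lib.MP_32d917_al_raag.B01

/-!
# H02: the cocycle of finite data (50 min); compare `B04` (`MP_32d917_al_raag/B04.lean`)

`dt2_coc`: for adjacent `a`, `b` in `Λ`. If `π a = π b = v`: both products are `la c v (gen a * gen b)` (`Dt2.mul`, `pb_gen`, `gen_comm`). Otherwise `v = π a`, `w = π b` are adjacent (`BU.adj`): `la (rm ρ c (gen a)) w (gen b) = la c w (gen b)` (`Dt2.lam`:
`gen a ∈ PB (lk w)`), and in the same way for `v`; the two elements commute: `gg_comm` in `Λ'` (`Dt2.mem`, `Dt2.adj`).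
`exists_kap2`: `exists_cc`.
`kap2_gg`: `κ c g = la c v g` for `g ∈ PB {v}`: closure induction on `g` (for all `c`), generators are letters over `v`; `la c v 1 = 1` (from `mul`), inverses: `la c v g⁻¹ = (la (rm ρ c g⁻¹) v g)⁻¹` and the same for `κ`.
`cc2_F`: as `cc_F` (`ra_ind`), generators: `Dt2.act`.
`cc2_surj`: as `cc_surj`: a generator `gen b'` and its inverse are in `PB' {π' b'}`, and `π' b' = τ c v` for `v = (τ c).symm (π' b')`; use `Dt2.surj` and `kap2_gg`.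
-/

set_option autoImplicit false

namespace RaagGP

open RaagIso

variable {V W V' W' C C' : Type} {Γ : SimpleGraph V} {Λ : SimpleGraph W} {π : W → V}
  {Γ' : SimpleGraph V'} {Λ' : SimpleGraph W'} {π' : W' → V'} {ρ : RA Λ →* Equiv.Perm C}
  {ρ' : RA Λ' →* Equiv.Perm C'} {F : C ≃ C'} {τ : C → V ≃ V'} {la : C → V → RA Λ → RA Λ'}

theorem dt2_coc (hB : BU Γ Λ π) (hB' : BU Γ' Λ' π') (h : Dt2 Γ Γ' π π' ρ ρ' F τ la) :
    Coc ρ (fun c a => la c (π a) (gen a)) := by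
  intro c a b hab
  show la c (π a) (gen a) * la (rm ρ c (gen a)) (π b) (gen b) =
    la c (π b) (gen b) * la (rm ρ c (gen b)) (π a) (gen a)
  have ha : (gen a : RA Λ) ∈ PB Λ π {π a} := pb_gen rfl
  have hb : (gen b : RA Λ) ∈ PB Λ π {π b} := pb_gen rfl
  rcases adj_pi hB hab with he | he
  · rw [← he] at hb ⊢
    rw [← h.mul c (π a) _ _ ha hb, ← h.mul c (π a) _ _ hb ha, gen_comm hab]
  · have ha' : (gen a : RA Λ) ∈ PB Λ π (lk Γ (π b)) := pb_gen he.symm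
    have hb' : (gen b : RA Λ) ∈ PB Λ π (lk Γ (π a)) := pb_gen he
    rw [h.lam c _ _ _ hb ha', h.lam c _ _ _ ha hb']
    exact gg_comm hB' ((h.adj c _ _).1 he) (h.mem c _ _ ha) (h.mem c _ _ hb)

/-- `κ` is the cocycle of the data -/
def Kap2 (π : W → V) (ρ : RA Λ →* Equiv.Perm C) (la : C → V → RA Λ → RA Λ')
    (κ : C → RA Λ → RA Λ') : Prop :=
  (∀ c a, κ c (gen a) = la c (π a) (gen a)) ∧ ∀ c g h, κ c (g * h) = κ c g * κ (rm ρ c g) h

theorem exists_kap2 (hB : BU Γ Λ π) (hB' : BU Γ' Λ' π') (h : Dt2 Γ Γ' π π' ρ ρ' F τ la) :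
    ∃ κ : C → RA Λ → RA Λ', Kap2 π ρ la κ :=
  exists_cc (dt2_coc hB hB' h)

theorem la_one (h : Dt2 Γ Γ' π π' ρ ρ' F τ la) (c : C) (v : V) : la c v 1 = 1 := by
  have h1 := h.mul c v 1 1 (one_mem _) (one_mem _)
  rw [rm_one, mul_one] at h1
  exact (mul_eq_left.mp h1.symm)

theorem kap2_gg (h : Dt2 Γ Γ' π π' ρ ρ' F τ la) {κ : C → RA Λ → RA Λ'} (hκ : Kap2 π ρ la κ)
    {v : V} {g : RA Λ} (hg : g ∈ PB Λ π {v}) (c : C) : κ c g = la c v g := by
  revert c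
  have hg' : g ∈ Subgroup.closure ((fun a => (gen a : RA Λ)) '' (π ⁻¹' {v})) := hg
  induction hg' using Subgroup.closure_induction with
  | mem x hx =>
    obtain ⟨a, ha, rfl⟩ := hx
    have ha' : π a = v := ha
    intro c
    show κ c (gen a) = la c v (gen a)
    rw [← ha', hκ.1]
  | one =>
    intro c
    rw [cc_one hκ.2, la_one h]
  | mul x y hx hy ihx ihy =>
    intro c
    rw [hκ.2, ihx hx, ihy hy, h.mul c v x y hx hy]
  | inv x hx ih =>
    intro c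
    have h1 := hκ.2 (rm ρ c x⁻¹) x x⁻¹
    have h2 := h.mul (rm ρ c x⁻¹) v x x⁻¹ hx ((PB Λ π {v}).inv_mem hx)
    rw [mul_inv_cancel, cc_one hκ.2, b01_inv_right] at h1
    rw [mul_inv_cancel, la_one h, b01_inv_right, ← ih hx] at h2
    exact mul_left_cancel (h1.symm.trans h2)

theorem cc2_F (h : Dt2 Γ Γ' π π' ρ ρ' F τ la) {κ : C → RA Λ → RA Λ'} (hκ : Kap2 π ρ la κ)
    (c : C) (g : RA Λ) : F (rm ρ c g) = rm ρ' (F c) (κ c g) := by
  revert c
  refine ra_ind (C := fun g => ∀ c, F (rm ρ c g) = rm ρ' (F c) (κ c g)) ?_ ?_ ?_ ?_ g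
  · intro c
    rw [rm_one, cc_one hκ.2, rm_one]
  · intro a c
    rw [h.act c (π a) (gen a) (pb_gen rfl), hκ.1]
  · intro x y hx hy c
    rw [rm_mul, hκ.2, rm_mul, hy, hx]
  · intro x hx c
    have h1 : rm ρ (rm ρ c x⁻¹) x = c := by rw [← rm_mul, inv_mul_cancel, rm_one]
    have h2 : κ (rm ρ c x⁻¹) x * κ c x⁻¹ = 1 := by
      have := hκ.2 (rm ρ c x⁻¹) x x⁻¹
      rw [mul_inv_cancel, cc_one hκ.2, h1] at this
      exact this.symm
    have h3 := hx (rm ρ c x⁻¹)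
    rw [h1] at h3
    rw [h3, ← rm_mul, h2, rm_one]

theorem cc2_surj (h : Dt2 Γ Γ' π π' ρ ρ' F τ la) {κ : C → RA Λ → RA Λ'} (hκ : Kap2 π ρ la κ)
    (c : C) : Function.Surjective (κ c) := by
  have key : ∀ y : RA Λ', (∀ c, ∃ g, κ c g = y) ∧ (∀ c, ∃ g, κ c g = y⁻¹) := by
    intro y
    refine ra_ind (C := fun y => (∀ c, ∃ g, κ c g = y) ∧ (∀ c, ∃ g, κ c g = y⁻¹)) ?_ ?_ ?_ ?_ y
    · exact ⟨fun c => ⟨1, cc_one hκ.2 c⟩, fun c => ⟨1, by rw [inv_one]; exact cc_one hκ.2 c⟩⟩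
    · intro b'
      have hh : ∀ (c : C) (y' : RA Λ'), y' ∈ PB Λ' π' {π' b'} → ∃ g, κ c g = y' := by
        intro c y' hy'
        have hv : τ c ((τ c).symm (π' b')) = π' b' := Equiv.apply_symm_apply _ _
        rw [← hv] at hy'
        obtain ⟨g, hg, hgy⟩ := h.surj c _ y' hy'
        exact ⟨g, by rw [kap2_gg h hκ hg, hgy]⟩
      have hb : (gen b' : RA Λ') ∈ PB Λ' π' {π' b'} := pb_gen rfl
      exact ⟨fun c => hh c _ hb, fun c => hh c _ (inv_mem hb)⟩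
    · intro x y hx hy
      refine ⟨fun c => ?_, fun c => ?_⟩
      · obtain ⟨g1, h1⟩ := hx.1 c
        obtain ⟨g2, h2⟩ := hy.1 (rm ρ c g1)
        exact ⟨g1 * g2, by rw [hκ.2, h1, h2]⟩
      · obtain ⟨g1, h1⟩ := hy.2 c
        obtain ⟨g2, h2⟩ := hx.2 (rm ρ c g1)
        exact ⟨g1 * g2, by rw [hκ.2, h1, h2, mul_inv_rev]⟩
    · intro x hx
      exact ⟨hx.2, by simpa using hx.1⟩
  intro y
  exact (key y).1 c

end RaagGP
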