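import Pool.Agent.Lib.MP_32d917_al_gp.H05

/-!
# H08: the first form of the data gives the second form (60 min)

`adj`, `tau`: clear (`pb_gen`). `orb`: from left to right `g' = la c v g` (`mem`, `act`); from right to left `g' = la c v g` (`surj`) and `F (rm ρ c g) = rm ρ' (F c) g' = F d`.
`pos`: `g = gen a`, `g' = la c (π a) (gen a)`; for `d = rm ρ c y`, `y ∈ PB (lk v)`: `la d v g = la c v g` (`lam`) and `act`.
So `ps_map` and `ps_back` apply (with `ha = adj`, `ht`, `ho` = the statements just proved).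
`blk`: `Ψ p = la c v p`. (a) `la c v p ∈ Pst' (τ c v) (F c)` for `p ∈ Pst v c`: by `mem_pst` (for `Λ'`) it is enough that `Ps' (F c) (rm ρ' (F c) (la c v p)) = Ps' (F c) (F (rm ρ c p))` (`act`): `ps_map` for `Ps v c (rm ρ c p)` (`mem_pst`).
(b) multiplicative on `Pst v c`: `la c v (p * q) = la c v p * la (rm ρ c p) v q` and `rm ρ c p` has the position of `c` (`mem_pst`), so `la (rm ρ c p) v q = la c v q` (`lam`).
(c) injective: `inj`. (d) surjective: `p' ∈ Pst' (τ c v) (F c)`, `p' = la c v g`, `g ∈ PB {v}` (`surj`); `Ps' (F c) (rm ρ' (F c) p')`, that is `Ps' (F c) (F (rm ρ c g))` (`act`), so `Ps v c (rm ρ c g)` by `ps_back`, so `g ∈ Pst v c` (`mem_pst`).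
Use `MulEquiv.ofBijective`. (e) for `Ps v c d`: `F (rm ρ d p) = rm ρ' (F d) (la d v p)` and `la d v p = la c v p` (`lam`).
-/

set_option autoImplicit false

namespace RaagGP

open RaagIso

variable {V W V' W' C C' : Type} {Γ : SimpleGraph V} {Λ : SimpleGraph W} {π : W → V}
  {Γ' : SimpleGraph V'} {Λ' : SimpleGraph W'} {π' : W' → V'} {ρ : RA Λ →* Equiv.Perm C}
  {ρ' : RA Λ' →* Equiv.Perm C'} {F : C ≃ C'} {τ : C → V ≃ V'} {la : C → V → RA Λ → RA Λ'}

theorem nm2_of_dt2 (hB : BU Γ Λ π) (hB' : BU Γ' Λ' π') (h : Dt2 Γ Γ' π π' ρ ρ' F τ la) :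
    Nm2 Γ Γ' π π' ρ ρ' F τ := by
  have hadj := h.adj
  have htau : ∀ c a w, w ∈ st Γ (π a) → τ (rm ρ c (gen a)) w = τ c w := fun c a w hw =>
    h.tau c (π a) w (gen a) (pb_gen (Set.mem_singleton _)) hw
  have horb : ∀ c d v, (∃ g ∈ PB Λ π {v}, rm ρ c g = d) ↔
      ∃ g' ∈ PB Λ' π' {τ c v}, rm ρ' (F c) g' = F d := by
    intro c d v
    constructor
    · rintro ⟨g, hg, rfl⟩
      exact ⟨la c v g, h.mem c v g hg, (h.act c v g hg).symm⟩
    · rintro ⟨g', hg', heq⟩
      obtain ⟨g, hg, hgg⟩ := h.surj c v g' hg'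
      refine ⟨g, hg, F.injective ?_⟩
      rw [h.act c v g hg, hgg, heq]
  have hact : ∀ c v g d, g ∈ PB Λ π {v} → Ps Γ π ρ v c d →
      F (rm ρ d g) = rm ρ' (F d) (la c v g) := by
    rintro c v g _ hg ⟨y, hy, rfl⟩
    rw [h.act _ v g hg, h.lam c v g y hg hy]
  refine ⟨hadj, htau, horb, fun c a => ?_, fun c v => ?_⟩
  · have hga : (gen a : RA Λ) ∈ PB Λ π {π a} := pb_gen (Set.mem_singleton _)
    exact ⟨gen a, hga, la c (π a) (gen a), h.mem _ _ _ hga, ps_refl _ _,
      fun d hd => hact c _ _ d hga hd⟩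
  · have hmem : ∀ p : Pst Γ π ρ v c, la c v p ∈ Pst Γ' π' ρ' (τ c v) (F c) := by
      intro p
      have hp := (mem_pst hB).1 p.2
      rw [mem_pst hB']
      refine ⟨h.mem c v _ hp.1, ?_⟩
      rw [← h.act c v _ hp.1]
      exact (ps_map hadj htau horb hp.2).1
    have hmul : ∀ p q : Pst Γ π ρ v c, la c v ((p * q : Pst Γ π ρ v c) : RA Λ) =
        la c v p * la c v q := by
      intro p q
      have hp := (mem_pst hB).1 p.2
      have hq := (mem_pst hB).1 q.2
      rw [Subgroup.coe_mul, h.mul c v _ _ hp.1 hq.1]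
      obtain ⟨y, hy, hyp⟩ := hp.2
      rw [← hyp, h.lam c v _ y hq.1 hy]
    let φ : Pst Γ π ρ v c →* Pst Γ' π' ρ' (τ c v) (F c) :=
      MonoidHom.mk' (fun p => ⟨la c v p, hmem p⟩) (fun p q => Subtype.ext (hmul p q))
    have hφ : ∀ p, ((φ p : Pst Γ' π' ρ' (τ c v) (F c)) : RA Λ') = la c v p := fun p => rfl
    have hbij : Function.Bijective φ := by
      constructor
      · intro p q hpq
        have h1 := congrArg (Subtype.val) hpq
        rw [hφ, hφ] at h1
        exact Subtype.ext (h.inj c v _ _ ((mem_pst hB).1 p.2).1 ((mem_pst hB).1 q.2).1 h1)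
      · rintro ⟨p', hp'⟩
        have h1 := (mem_pst hB').1 hp'
        obtain ⟨g, hg, hgp⟩ := h.surj c v p' h1.1
        have h2 : Ps Γ π ρ v c (rm ρ c g) := by
          refine ps_back hadj htau horb ?_
          rw [h.act c v g hg, hgp]
          exact h1.2
        exact ⟨⟨g, (mem_pst hB).2 ⟨hg, h2⟩⟩, Subtype.ext hgp⟩
    refine ⟨MulEquiv.ofBijective φ hbij, fun p d hd => ?_⟩
    exact hact c v _ d ((mem_pst hB).1 p.2).1 hd

end RaagGP
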