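import Pool.Agent.Lib.MP_32d917_al_gp.Defs
import Pool.Agent.Lib.MP_32d917_al_adm.WC04
import Pool.Agent.Lib.MP_32d917_al_adm.W14

/-!
# N01: the moves generate the automorphisms of a free group (60 min)

`wev_dl`: `B (dl r l) = wev (fun k => B (of k)) l`: induction on `l` (`AdmIso.dl`, `WC.dl_cons`, `WC.dl_lt`, `WC.dl_ge` in `MP_32d917_al_adm/WC01.lean`).

`n01_clo`: let `Q θ` be the statement: for all `B` with `(fun k => B (of k)) ∈ S`: `(fun k => B (θ (of k))) ∈ S`. If `Q θ` and `Q ρ` then `Q (θ.trans ρ)` (first `ρ`: the homomorphism `B.comp ρ` is admissible, then `θ`). `Q ρ` if `ρ` is the automorphism of a move `m ∈ mvs r`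
(`∀ l, dl r (actw m l) = ρ (dl r l)`, as in `mv_ex`, `mv_wh`): `B (ρ (of k)) = B (dl r (fM m (k, true))) = wev _ (fM m (k, true))`.
By `AdmIso.whitehead` for the empty tuple (`ι = Fin 0`, `M = 0`) `θ` is in `Rch`: induction: `refl` clear; `wh`: `mv_wh`; `perm`: `gp_perm` and induction over `GP`; `inner θ g`: `Q (MulAut.conj g)`: `g` is a product of letters (`FreeGroup` induction, or `dl_surj` and induction on the list), and for a letter `a` the conjugation
`x ↦ lval a * x * (lval a)⁻¹` is the Whitehead automorphism `wh` with `P` = all letters different from `a`, `linv a` (`wh_lval`, used in `WC03`): `lval x ↦ lval a * lval x * (lval a)⁻¹`. (See `WC05.lean`, theorem `sound`, for the same induction.)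
-/

set_option autoImplicit false

namespace RaagGP

open RaagIso

theorem wev_dl {X : Type} [Group X] (r : ℕ) (B : FreeGroup (Fin r) →* X) (l : List (ℕ × Bool)) :
    B (AdmIso.dl r l) = wev (fun k => B (FreeGroup.of k)) l := by
  unfold AdmIso.dl wev
  rw [map_list_prod, List.map_map]
  congr 1
  apply List.map_congr_left
  rintro ⟨a, b⟩ _
  simp only [Function.comp_apply]
  by_cases h : a < r
  · simp only [h, dif_pos]
    cases b
    · have : (FreeGroup.mk [((⟨a, h⟩ : Fin r), false)]) = (FreeGroup.of (⟨a, h⟩ : Fin r))⁻¹ := rfl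
      rw [this, map_inv]
      simp
    · have : (FreeGroup.mk [((⟨a, h⟩ : Fin r), true)]) = (FreeGroup.of (⟨a, h⟩ : Fin r)) := rfl
      rw [this]
      simp
  · simp [h]

section

open Pool.Agent.Lib.MP_f46d86_al AdmIso AdmIso.WC

/-- the closure property of an automorphism -/
def n01Q (r : ℕ) {X : Type} [Group X] (S : Set (Fin r → X))
    (θ : FreeGroup (Fin r) ≃* FreeGroup (Fin r)) : Prop :=
  ∀ B : FreeGroup (Fin r) →* X, (fun k => B (FreeGroup.of k)) ∈ S →
    (fun k => B (θ (FreeGroup.of k))) ∈ S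

theorem n01_refl (r : ℕ) {X : Type} [Group X] (S : Set (Fin r → X)) :
    n01Q r S (MulEquiv.refl _) := fun _ hB => hB

theorem n01_trans (r : ℕ) {X : Type} [Group X] {S : Set (Fin r → X)}
    {θ ρ : FreeGroup (Fin r) ≃* FreeGroup (Fin r)} (h : n01Q r S θ) (h' : n01Q r S ρ) :
    n01Q r S (θ.trans ρ) := by
  intro B hB
  exact h (B.comp ρ.toMonoidHom) (h' B hB)

theorem n01_move (r : ℕ) {X : Type} [Group X] {S : Set (Fin r → X)} (hS : Clo r S) (m : Mv)
    (hm : m ∈ mvs r) (ρ : FreeGroup (Fin r) ≃* FreeGroup (Fin r))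
    (hρ : ∀ l, dl r (actw m l) = ρ (dl r l)) : n01Q r S ρ := by
  intro B hB
  have h1 := hS _ hB m hm
  have h2 : (fun k : Fin r => wev (fun k => B (FreeGroup.of k)) (fM m ((k : ℕ), true))) =
      fun k => B (ρ (FreeGroup.of k)) := by
    funext k
    rw [← wev_dl]
    congr 1
    have h3 := hρ [((k : ℕ), true)]
    have h4 : dl r [((k : ℕ), true)] = FreeGroup.of k := dl_lt r (k, true)
    rw [h4] at h3
    rw [← h3]
    unfold actw
    rw [List.flatMap_singleton]
  rw [h2] at h1
  exact h1

theorem n01_wh (r : ℕ) {X : Type} [Group X] {S : Set (Fin r → X)} (hS : Clo r S)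
    {P : Set (Fin r × Bool)} {a : Fin r × Bool} (ha : a ∉ P) (ha' : linv a ∉ P) :
    n01Q r S (AdmIso.wh ha ha') := by
  obtain ⟨m, hm, hρ⟩ := mv_wh r ha ha'
  exact n01_move r hS m hm _ hρ

theorem n01_conj_lval (r : ℕ) (a : Fin r × Bool) : ∃ (P : Set (Fin r × Bool)) (ha : a ∉ P)
    (ha' : linv a ∉ P), (MulAut.conj (lval a) : FreeGroup (Fin r) ≃* FreeGroup (Fin r)) =
      AdmIso.wh ha ha' := by
  refine ⟨{y | y ≠ a ∧ y ≠ linv a}, fun h => h.1 rfl, fun h => h.2 rfl, ?_⟩
  apply MulEquiv.toMonoidHom_injective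
  apply FreeGroup.ext_hom
  intro x
  show MulAut.conj (lval a) (FreeGroup.of x) = AdmIso.wh _ _ (FreeGroup.of x)
  have h0 : (FreeGroup.of x : FreeGroup (Fin r)) = lval (x, true) := rfl
  rw [h0, wh_lval, MulAut.conj_apply]
  unfold Pool.Agent.Lib.MP_f46d86_al.cE
  by_cases h1 : (x, true) = a
  · subst h1
    rw [if_neg (fun h => h.1 rfl), if_neg (fun h => h.2 rfl)]
    simp
  · by_cases h2 : (x, true) = linv a
    · have h3 : a = linv (x, true) := by rw [h2, linv_linv]
      subst h3
      rw [if_neg (fun h => h.2 (linv_linv _).symm), if_neg (fun h => h.1 rfl), lval_linv]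
      simp
    · rw [if_pos ⟨h1, h2⟩, if_pos]
      refine ⟨fun h => h2 ?_, fun h => h1 ?_⟩
      · rw [← h, linv_linv]
      · have := congrArg linv h
        rwa [linv_linv, linv_linv] at this

theorem n01_conj (r : ℕ) {X : Type} [Group X] {S : Set (Fin r → X)} (hS : Clo r S)
    (g : FreeGroup (Fin r)) :
    n01Q r S (MulAut.conj g : FreeGroup (Fin r) ≃* FreeGroup (Fin r)) := by
  obtain ⟨l, hl, rfl⟩ := AdmIso.WC.dl_surj r g
  clear hl
  induction l with
  | nil =>
    have : (MulAut.conj (dl r []) : FreeGroup (Fin r) ≃* FreeGroup (Fin r)) = MulEquiv.refl _ := by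
      ext x
      simp [AdmIso.WC.dl_nil]
    rw [this]
    exact n01_refl r S
  | cons x l ih =>
    rw [AdmIso.WC.dl_cons, map_mul]
    have hx : n01Q r S (MulAut.conj (dl r [x]) : FreeGroup (Fin r) ≃* FreeGroup (Fin r)) := by
      by_cases h : x.1 < r
      · have e : dl r [x] = lval ((⟨x.1, h⟩ : Fin r), x.2) := dl_lt r (⟨x.1, h⟩, x.2)
        rw [e]
        obtain ⟨P, ha, ha', he⟩ := n01_conj_lval r ((⟨x.1, h⟩ : Fin r), x.2)
        rw [he]
        exact n01_wh r hS ha ha'
      · rw [dl_ge r x (by omega)]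
        have : (MulAut.conj (1 : FreeGroup (Fin r)) : FreeGroup (Fin r) ≃* FreeGroup (Fin r)) =
            MulEquiv.refl _ := by
          ext x
          simp
        rw [this]
        exact n01_refl r S
    exact n01_trans r ih hx

theorem n01_clo (r : ℕ) {X : Type} [Group X] {S : Set (Fin r → X)} (hS : Clo r S)
    (B : FreeGroup (Fin r) →* X) (hB : (fun k => B (FreeGroup.of k)) ∈ S)
    (θ : FreeGroup (Fin r) ≃* FreeGroup (Fin r)) : (fun k => B (θ (FreeGroup.of k))) ∈ S := by
  have hW : AdmIso.Rch (fun _ : Fin 0 => (1 : FreeGroup (Fin r))) 0 θ := by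
    apply AdmIso.whitehead
    · simp [AdmIso.tot]
    · simp [AdmIso.tot]
  have key : n01Q r S θ := by
    clear hB
    induction hW with
    | refl => exact n01_refl r S
    | inner θ g h ih => exact n01_trans r ih (n01_conj r hS g)
    | perm θ π hπ h ih =>
      refine n01_trans r ih ?_
      have hg := gp_perm r π hπ
      clear hπ
      induction hg with
      | refl => exact n01_refl r S
      | step θ' ρ m hm hρ hp _ ih' => exact n01_trans r ih' (n01_move r hS m hm ρ hρ)
    | wh θ P a ha ha' h ht ih => exact n01_trans r ih (n01_wh r hS ha ha')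
  exact key B hB

end

end RaagGP
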